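import Pool.Agent.MP_b2c033_nt.UL.Spec

/-! The root attached to a cusp. -/

namespace Pool.Agent.MP_b2c033_nt.UL

open U

namespace ArAux

theorem split (c N : ℕ) : 0 < N → ∃ u u' r r' : ℕ, N = u * u' * (r * r') ∧
    (u * u').Coprime (r * r') ∧ u.Coprime u' ∧ (∀ p : ℕ, p.Prime → (p ∣ r ↔ p ∣ r')) ∧
    c.gcd (u * u') = u ∧ c.gcd (r * r') = r := by
  induction N using Nat.recOnPosPrimePosCoprime with
  | zero => exact fun h => absurd h (lt_irrefl 0)
  | one => exact fun _ => ⟨1, 1, 1, 1, by simp⟩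
  | prime_pow p e hp he =>
    intro _
    obtain ⟨j, h1, h2⟩ := (Nat.dvd_prime_pow hp).1 (Nat.gcd_dvd_right c (p ^ e))
    rcases Nat.eq_zero_or_pos j with rfl | h3
    · exact ⟨1, p ^ e, 1, 1, by simpa using h2⟩
    rcases h1.eq_or_lt with rfl | h4
    · exact ⟨p ^ j, 1, 1, 1, by simpa using h2⟩
    have e1 : p ^ j * p ^ (e - j) = p ^ e := by rw [← pow_add, Nat.add_sub_cancel' h1]
    refine ⟨1, 1, p ^ j, p ^ (e - j), by simp [e1], by simp, by simp, fun q hq => ?_, by simp,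
      by rw [e1, h2]⟩
    rw [hq.prime.dvd_pow_iff_dvd h3.ne', hq.prime.dvd_pow_iff_dvd (Nat.sub_pos_of_lt h4).ne']
  | coprime a b ha hb hab iha ihb =>
    intro _
    obtain ⟨u, u', r, r', rfl, h2, h3, h4, h5, h6⟩ := iha (by omega)
    obtain ⟨v, v', s, s', rfl, k2, k3, k4, k5, k6⟩ := ihb (by omega)
    have e1 : u * v * (u' * v') = u * u' * (v * v') := by ring
    have e2 : r * s * (r' * s') = r * r' * (s * s') := by ring
    have c1 := hab.coprime_mul_right.coprime_mul_right_right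
    refine ⟨u * v, u' * v', r * s, r' * s', by ring, ?_, ?_, fun p hp => ?_, ?_, ?_⟩
    · rw [e1, e2]
      exact (h2.mul_right hab.coprime_mul_right.coprime_mul_left_right).mul_left
        (hab.coprime_mul_left.coprime_mul_right_right.symm.mul_right k2)
    · exact (h3.mul_right c1.coprime_mul_right.coprime_mul_left_right).mul_left
        (c1.coprime_mul_left.coprime_mul_right_right.symm.mul_right k3)
    · rw [hp.dvd_mul, hp.dvd_mul, h4 p hp, k4 p hp]
    · rw [e1, c1.gcd_mul, h5, k5]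
    · rw [e2, hab.coprime_mul_left.coprime_mul_left_right.gcd_mul, h6, k6]

end ArAux

theorem row_Ar : K_Ar := by
  intro N γ hN
  obtain ⟨u, u', r, r', rfl, h2, h3, h4, h5, h6⟩ := ArAux.split (γ 1 0).natAbs N hN
  have hu : 0 < u := Nat.pos_of_mul_pos_right (Nat.pos_of_mul_pos_right hN)
  have hr := Nat.pos_of_mul_pos_left hN
  have e : ∀ M : ℕ, gN M γ = (γ 1 0).natAbs.gcd M := fun M => rfl
  refine ⟨u * u', r, r', r.lcm r', Nat.lcm_pos (Nat.pos_of_mul_pos_right hr)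
    (Nat.pos_of_mul_pos_left hr), rfl, h2.coprime_dvd_right (Nat.lcm_dvd_mul r r'),
    ⟨⟨Nat.dvd_lcm_left r r', Nat.dvd_lcm_right r r', fun p hp h => ?_, fun p hp h => ?_⟩, rfl⟩,
    ?_, (e _).trans h6⟩
  · exact (hp.dvd_lcm.1 h).elim id (h4 p hp).2
  · exact (hp.dvd_lcm.1 h).elim (h4 p hp).1 id
  · rwa [OkW, Qw, e, h5, Nat.mul_div_cancel_left _ hu]

end Pool.Agent.MP_b2c033_nt.UL
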