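import Pool.Agent.MP_b2c033_nt.UL.Spec
import Pool.Agent.MP_b2c033_nt.U.Ind

/-! Iterated averages at coprime levels. -/

namespace Pool.Agent.MP_b2c033_nt.UL

open U CongruenceSubgroup

theorem row_Av2 : K_Av2 := by
  intro A B H hA hB hAB h1 h2
  have hL : 0 < B * A := by positivity
  have h := AvAux.split B A 1 (fun γ => H γ γ) hB hA one_pos hAB.symm (Nat.coprime_one_right A)
    (fun γ δ hδ => by
      rw [mul_one] at hδ
      exact (h1 (γ * δ) γ δ (AvAux.mono (dvd_mul_left A B) hδ)).trans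
        (h2 γ γ δ (AvAux.mono (dvd_mul_right B A) hδ)))
  rw [Gamma_one_top, mul_one, mul_one, mul_one] at h
  have h3 : Lev A fun γ => Av ⊤ B (H γ) := fun γ δ hδ =>
    congrArg (Av ⊤ B) (funext fun γ' => h1 γ' γ δ hδ)
  rw [mul_comm A B, h, ← AvAux.drop B A _ hB hA hAB.symm h3]
  refine Av_congr _ hL fun γ hγ => ?_
  rw [← AvAux.drop A B (H γ) hA hB hAB (h2 γ), mul_comm A B]
  exact Av_congr _ hL fun γ' hγ' => (h1 (γ * γ') γ γ' hγ').trans ((h2 γ).left γ γ' hγ)

end Pool.Agent.MP_b2c033_nt.UL
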