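import Pool.Agent.MP_b2c033_nt.UL.Spec
import Pool.Agent.MP_b2c033_nt.U.Ind

/-! Averages over the modular group and means over its finite quotients. -/

namespace Pool.Agent.MP_b2c033_nt.UL

open U Finset CongruenceSubgroup
open scoped MatrixGroups Classical

noncomputable section

namespace AvMAux

theorem red_surj (n : ℕ) : Function.Surjective (red n) := fun x => by
  choose z hz using ZMod.intCast_surjective (n := n)
  obtain ⟨γ, h0, h1, h2, h3⟩ := AvAux.lift n (z (x 0 0)) (z (x 0 1)) (z (x 1 0)) (z (x 1 1)) (by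
    rw [← ZMod.intCast_eq_intCast_iff]
    push_cast
    simp only [hz]
    exact det2 x)
  rw [← ZMod.intCast_eq_intCast_iff, hz] at h0 h1 h2 h3
  exact ⟨γ, ext2 h0 h1 h2 h3⟩

theorem mem_iff (n : ℕ) (γ δ : SZ) : γ⁻¹ * δ ∈ Gamma n ↔ red n γ = red n δ := by
  rw [← red_eq_one, map_mul, map_inv, inv_mul_eq_one]

theorem av_mean (n : ℕ) [NeZero n] (f : G n → ℝ) : Av ⊤ n (fun γ => f (red n γ)) = mean f := by
  choose σ hσ using red_surj n
  have h : AvAux.Tv ⊤ (Gamma n) univ σ :=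
    ⟨fun _ _ => trivial, fun γ _ => ⟨red n γ, mem_univ _, (mem_iff _ _ _).2 (hσ _)⟩,
      fun i _ j _ e => by rwa [mem_iff, hσ, hσ] at e⟩
  rw [h.av (NeZero.pos n) _ fun γ δ hδ => by
    simp only [map_mul, red_eq_one.2 hδ, mul_one]]
  simp only [hσ, mean, card_univ, smul_eq_mul]

theorem lev_gN (N : ℕ) : Lev N (gN N) := fun γ δ hδ => by
  obtain ⟨k, hk⟩ := (modEq_mul_Gamma γ δ hδ).2.2.1.symm.dvd
  rw [gN, gN, eq_add_of_sub_eq' hk, Int.gcd_add_mul_left_left]

end AvMAux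

theorem row_AvM : K_AvM :=
  ⟨AvMAux.av_mean, fun _ _ _ hL h => Av_mono ⊤ hL fun γ _ => h γ,
    fun _ c f hL => Av_mul_left ⊤ hL c f, fun _ f h hL => Av_add ⊤ hL f h,
    fun _ c hL => Av_const ⊤ hL c, AvMAux.lev_gN, fun A B γ h => by
      simp only [gN, Int.gcd_eq_natAbs, Int.natAbs_natCast]
      exact h.gcd_mul _⟩

end

end Pool.Agent.MP_b2c033_nt.UL
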