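import Pool.Agent.MP_b2c033_nt.UL.Spec

/-! The components under the translations and the coefficients. -/

namespace Pool.Agent.MP_b2c033_nt.UL

open U Finset CongruenceSubgroup
open scoped MatrixGroups Classical InnerProductSpace Real

namespace BrAux

theorem ee_nat (ν : ℚ) (k : ℕ) : ee (ν * k) = ee ν ^ k := by
  rw [ee, ee, ← Complex.exp_nat_mul]
  push_cast
  ring_nf

theorem ch_val {n : ℕ} [NeZero n] (χ : Ch n) (x : ZMod n) : χ x = χ 1 ^ x.val := by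
  rw [← AddChar.map_nsmul_eq_pow, nsmul_one, ZMod.natCast_zmod_val]

theorem den_dvd {ν : ℚ} {n : ℕ} (h : ee (ν * n) = 1) : ν.den ∣ n := by
  obtain ⟨k, hk⟩ := Complex.exp_eq_one_iff.1 h
  have h1 : ((ν * n : ℚ) : ℂ) = k :=
    mul_left_cancel₀ Complex.two_pi_I_ne_zero (hk.trans (mul_comm _ _))
  have h2 : ν * n = k := by exact_mod_cast h1
  have h3 : ν.num * n = ν.den * k := by
    have : (ν.num : ℚ) * n = ν.den * k := by rw [← h2, ← mul_assoc, Rat.den_mul_eq_num]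
    exact_mod_cast this
  have h4 : ν.den ∣ ν.num.natAbs * n := by
    simpa [Int.natAbs_mul] using Int.natCast_dvd.1 ⟨k, h3⟩
  exact ν.reduced.symm.dvd_of_dvd_mul_left h4

end BrAux

open BrAux

theorem row_Br : R_Br := by
  intro hC V _ _ C _ N₁ n _ W _ _ ρ ι B
  have tr : ∀ (k : ℕ) w ν, C.β ν (ι (ρ.a (Tm (k : ZMod n)) w)) = ee (ν * k) * C.β ν (ι w) := by
    intro k w ν
    have := B.act (Tm (k : ℤ)) (by simp [Gamma0_mem, Tm]) w
    rw [red_Tm, ofZ_Tm, Int.cast_natCast, Int.cast_natCast] at this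
    rw [this, C.β_Tr]
  have den : ∀ w ν, C.β ν (ι w) ≠ 0 → ν.den ∣ n := fun w ν h => by
    have := tr n w ν
    rw [ZMod.natCast_self, Tm_zero, ρ.one] at this
    exact den_dvd (mul_right_cancel₀ h (this.symm.trans (one_mul _).symm))
  refine ⟨B, fun χ w ν => ?_, den, (hC n).1, (hC n).2⟩
  have tr' : ∀ x : ZMod n, C.β ν (ι (ρ.a (Tm x) w)) = ee ν ^ x.val * C.β ν (ι w) := fun x => by
    rw [← ee_nat, ← tr, ZMod.natCast_zmod_val]
  simp only [RA.Pj, map_smul, map_sum, tr', smul_eq_mul, ← mul_assoc, ← sum_mul]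
  by_cases h : C.β ν (ι w) = 0
  · simp [h]
  obtain ⟨ψ, hψ⟩ := (hC n).1 ν (den w ν h)
  have e : ∑ x : ZMod n, χ (-x) * ee ν ^ x.val = ∑ x, (ψ - χ) x :=
    sum_congr rfl fun x _ => by rw [AddChar.sub_apply, ch_val ψ, hψ, mul_comm]
  have hn : (n : ℂ) ≠ 0 := by exact_mod_cast NeZero.ne n
  have q : ψ - χ = 0 ↔ χ 1 = ee ν := by
    rw [sub_eq_zero, ← hψ]
    exact ⟨fun q => by rw [q], fun q => by ext x; rw [ch_val ψ, ch_val χ, q]⟩
  rw [e, AddChar.sum_eq_ite]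
  by_cases k : χ 1 = ee ν
  · rw [if_pos k, if_pos (q.2 k), ZMod.card, inv_mul_cancel₀ hn, one_mul]
  · rw [if_neg k, if_neg (mt q.1 k), mul_zero, zero_mul]

end Pool.Agent.MP_b2c033_nt.UL
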