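import Pool.Agent.MP_b2c033_nt.UL.Spec

/-! The forms fixed by `Γ₀(N₁) ∩ Γ(n)` as an action of `SL(2, ZMod n)`. -/

namespace Pool.Agent.MP_b2c033_nt.UL

open U CongruenceSubgroup
open scoped MatrixGroups InnerProductSpace

noncomputable section

namespace Br0Aux

lemma sur (h : AvFacts) {n : ℕ} [NeZero n] (x : G n) {K : ℕ} (hK : K.Coprime n) :
    ∃ γ ∈ Gamma K, red n γ = x := by
  obtain ⟨γ, h0, h1, h2, h3⟩ := h.lift n (x 0 0).val (x 0 1).val (x 1 0).val (x 1 1).val (by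
    rw [← ZMod.intCast_eq_intCast_iff]
    simpa using det2 x)
  rw [← ZMod.intCast_eq_intCast_iff] at h0 h1 h2 h3
  have e : red n γ = x :=
    ext2 (by simpa using h0) (by simpa using h1) (by simpa using h2) (by simpa using h3)
  obtain ⟨δ, d1, d2⟩ := h.crt K n 1 γ hK
  refine ⟨δ, by simpa using d1, ?_⟩
  have := red_eq_one.2 d2
  rw [map_mul, map_inv, inv_mul_eq_one, e] at this
  exact this.symm

variable {V : Type} [NormedAddCommGroup V] [InnerProductSpace ℂ V] (C : CS V) {N n : ℕ}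
  {γ γ' : SZ} {f : V}

lemma act_mul (γ δ : SZ) (v : V) :
    C.act (ofZ (γ * δ)) v = C.act (ofZ δ) (C.act (ofZ γ) v) := by
  rw [ofZ_mul, C.act_mul _ _ _ (by simp) (by simp)]

/-- the fixed vectors -/
def Wm (N n : ℕ) : Submodule ℂ V where
  carrier := {f | ∀ γ ∈ Gamma0 N, γ ∈ Gamma n → C.act (ofZ γ) f = f}
  add_mem' a b γ h h' := by rw [map_add, a γ h h', b γ h h']
  zero_mem' _ _ _ := map_zero _
  smul_mem' c _ a γ h h' := by rw [map_smul, a γ h h']

variable {C}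

lemma key (hf : f ∈ Wm C N n) (h : γ ∈ Gamma0 N) (h' : γ' ∈ Gamma0 N)
    (e : red n γ = red n γ') : C.act (ofZ γ) f = C.act (ofZ γ') f := by
  rw [← inv_mul_cancel_right γ γ', act_mul, hf _ (mul_mem h (inv_mem h'))
    (red_eq_one.1 (by rw [map_mul, map_inv, e, mul_inv_cancel]))]

lemma stab (h : γ ∈ Gamma0 N) : ∀ f ∈ Wm C N n, C.act (ofZ γ) f ∈ Wm C N n :=
  fun f hf δ d1 d2 => by
    rw [← act_mul]
    exact key hf (mul_mem h d1) h (by rw [map_mul, red_eq_one.2 d2, mul_one])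

end Br0Aux

open Br0Aux in
theorem row_Br0 : K_Br0 := by
  intro V _ _ C hC N n _ hN
  choose s s1 s2 using fun x : G n => sur hC.av x hN
  have s0 : ∀ x, s x ∈ Gamma0 N := fun x => Gamma0_mem.2 (Gamma_mem.1 (s1 x)).2.2.1
  refine ⟨Wm C N n, inferInstance, inferInstance,
    ⟨fun x => (C.act (ofZ (s x))).restrict (stab (s0 x)),
      fun v => Subtype.ext (v.2 _ (s0 1) (red_eq_one.1 (s2 1))),
      fun x y v => Subtype.ext ((key v.2 (s0 _) (mul_mem (s0 x) (s0 y))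
        (by rw [map_mul, s2, s2, s2])).trans (act_mul C _ _ _)), fun x v => ?_⟩,
    (Wm C N n).subtypeₗᵢ, fun γ h w => key w.2 (s0 _) h (s2 _), fun x K hK => sur hC.av x hK,
    fun f hf => ⟨⟨f, hf⟩, rfl⟩⟩
  change ‖C.act (ofZ (s x)) v‖ = ‖(v : V)‖
  rw [@norm_eq_sqrt_re_inner ℂ, C.inner_act _ _ _ (by simp), ← norm_eq_sqrt_re_inner]

end

end Pool.Agent.MP_b2c033_nt.UL
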