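import Pool.Agent.MP_b2c033_nt.UL.Spec

/-! Row CC: change of cusp. -/

namespace Pool.Agent.MP_b2c033_nt.UL

open U

namespace CCAux

theorem norm_ee (x : ℚ) : ‖ee x‖ = 1 := by
  have e : (2 * Real.pi * Complex.I * x : ℂ) = ((2 * Real.pi * x : ℝ) : ℂ) * Complex.I := by
    push_cast
    ring
  rw [ee, e, Complex.norm_exp_ofReal_mul_I]

end CCAux

theorem row_CC : K_CC := by
  intro V _ _ C _ α γ l f ν hD hl ha hc
  have hγ : (γ 0 0 : ℚ) * γ 1 1 - γ 0 1 * γ 1 0 = 1 := by exact_mod_cast detZ γ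
  obtain ⟨D, hD'⟩ : ∃ D, D = α.det := ⟨_, rfl⟩
  rw [← hD'] at hD ⊢
  have hr : 0 < l ^ 2 / D := by positivity
  have hs : 0 < D / l := by positivity
  have hd : D = l * (γ 0 0 * α.d - α.b * γ 1 0) := by
    rw [hD', Mt.det, ha, hc]
    ring
  have hl' := hl.ne'
  have hD0 := hD.ne'
  have e : α = ofZ γ * Tr ((γ 1 1 * α.b - γ 0 1 * α.d) * l / D) * Vd (l ^ 2 / D) *
      ⟨D / l, 0, 0, D / l⟩ := by
    ext <;> simp only [ofZ, Tr, Vd, Mt.mul_a, Mt.mul_b, Mt.mul_c, Mt.mul_d]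
    · rw [ha]
      field_simp
      ring
    · field_simp
      linear_combination (-(α.b * l * D)) * hγ - (γ 0 1 : ℚ) * D * hd
    · rw [hc]
      field_simp
      ring
    · field_simp
      linear_combination (-(α.d * l * D)) * hγ - (γ 1 1 : ℚ) * D * hd
  have h1 : 0 < (⟨D / l, 0, 0, D / l⟩ : Mt).det := by
    simp only [Mt.det, mul_zero, sub_zero]
    positivity
  have key : C.act α f = C.act (Vd (l ^ 2 / D))
      (C.act (Tr ((γ 1 1 * α.b - γ 0 1 * α.d) * l / D)) (C.act (ofZ γ) f)) := by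
    have h2 : 0 < (Vd (l ^ 2 / D)).det := by rwa [det_Vd]
    have h3 : ∀ x, 0 < (ofZ γ * Tr x).det := fun x => by simp [Mt.det_mul]
    have h4 : ∀ x, 0 < (ofZ γ * Tr x * Vd (l ^ 2 / D)).det := fun x => by
      rw [Mt.det_mul]
      exact mul_pos (h3 x) h2
    conv_lhs => rw [e]
    rw [C.act_mul _ _ _ (h4 _) h1, C.act_sc _ _ hs.ne', C.act_mul _ _ _ (h3 _) h2,
      C.act_mul _ _ _ (by simp) (by simp)]
  rw [key, mul_comm ν, C.β_Vd _ _ _ hr, C.β_Tr, norm_mul, norm_mul, CCAux.norm_ee, one_mul,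
    Complex.norm_ratCast, abs_of_pos (by exact_mod_cast hr)]

end Pool.Agent.MP_b2c033_nt.UL
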