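import Pool.Agent.MP_b2c033_nt.UL.Spec
import Pool.Agent.MP_b2c033_nt.UN.Basic

/-! Additive characters of `ZMod n` with a given value at one. -/

namespace Pool.Agent.MP_b2c033_nt.UL

open U Finset CongruenceSubgroup
open scoped MatrixGroups Classical InnerProductSpace

noncomputable section

namespace ChfAux

theorem pow_eq_one_iff (ν : ℚ) (k : ℕ) : ee ν ^ k = 1 ↔ ν.den ∣ k := by
  rw [← UN.ee_mul_nat, UN.ee_eq_one_iff]
  have hd : (ν.den : ℚ) ≠ 0 := by exact_mod_cast ν.den_nz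
  have hν : ν * ν.den = ν.num := Rat.mul_den_eq_num ν
  constructor
  · rintro ⟨m, hm⟩
    have h1 : (ν.num : ℚ) * k = m * ν.den := by rw [← hν, ← hm]; ring
    have h2 : ν.num * (k : ℤ) = m * (ν.den : ℤ) := by exact_mod_cast h1
    have h3 : (ν.den : ℤ) ∣ ν.num * (k : ℤ) := ⟨m, by rw [h2]; ring⟩
    have h4 : ν.den ∣ ν.num.natAbs * k := by
      have := Int.natAbs_dvd_natAbs.mpr h3
      simpa [Int.natAbs_mul] using this
    exact (Nat.Coprime.symm ν.reduced).dvd_of_dvd_mul_left h4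
  · rintro ⟨c, rfl⟩
    refine ⟨ν.num * c, ?_⟩
    push_cast
    rw [← hν]; ring

theorem orderOf_ee (ν : ℚ) : orderOf (ee ν) = ν.den :=
  Nat.dvd_antisymm (orderOf_dvd_of_pow_eq_one ((pow_eq_one_iff ν _).mpr dvd_rfl))
    ((pow_eq_one_iff ν _).mp (pow_orderOf_eq_one _))

end ChfAux

theorem row_Chf : K_Chf := by
  intro n _
  refine ⟨fun ν h => ?_, fun χ ν h => ?_⟩
  · refine ⟨AddChar.zmodChar n ((ChfAux.pow_eq_one_iff ν n).mpr h), ?_⟩
    have := AddChar.zmodChar_apply' ((ChfAux.pow_eq_one_iff ν n).mpr h) 1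
    simpa using this
  · rw [od, h, ChfAux.orderOf_ee]

end

end Pool.Agent.MP_b2c033_nt.UL
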