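import Pool.Agent.MP_b2c033_nt.UL.Spec
import Pool.Agent.MP_b2c033_nt.U.Ind

/-! The proportion of matrices with a divisible lower left entry. -/

namespace Pool.Agent.MP_b2c033_nt.UL

open U Finset CongruenceSubgroup
open scoped MatrixGroups Classical

namespace CntAux

theorem dvd_iff {n d : ℕ} (h : d ∣ n) (c : ℤ) : (d : ZMod n) ∣ (c : ZMod n) ↔ (d : ℤ) ∣ c := by
  refine ⟨fun k => ?_, fun k => by simpa using map_dvd (Int.castRingHom (ZMod n)) k⟩
  have := map_dvd (ZMod.castHom h (ZMod d)) k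
  rw [map_natCast, map_intCast, ZMod.natCast_self, zero_dvd_iff] at this
  exact (ZMod.intCast_zmod_eq_zero_iff_dvd c d).1 this

end CntAux

theorem row_Cnt : R_Cnt := by
  intro hA p k m n _ hp hn h1 h2
  have hd : p ^ m ∣ n := hn ▸ pow_dvd_pow p h2
  rw [← hA.1, ← (avFacts.prob p m hp h1).1, ← avFacts.lev ℝ ⊤ (p ^ m) n _ (NeZero.pos n) hd
    fun γ δ hδ => ?_]
  · refine congrArg _ (funext fun γ => if_congr ?_ rfl rfl)
    rw [red_apply, ← Nat.cast_pow, CntAux.dvd_iff hd, Nat.cast_pow]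
  · have := (modEq_mul_Gamma γ δ hδ).2.2.1.dvd_iff
    rw [Nat.cast_pow] at this
    exact if_congr this rfl rfl

end Pool.Agent.MP_b2c033_nt.UL
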