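import Pool.Agent.MP_b2c033_nt.UL.Spec

/-! The embeddings of the factors of `SL(2, ZMod (n₁ n₂))`. -/

namespace Pool.Agent.MP_b2c033_nt.UL

open U Finset CongruenceSubgroup
open scoped MatrixGroups Classical InnerProductSpace

noncomputable section

namespace CrtAux

variable {R A B : Type} [CommRing R] [CommRing A] [CommRing B]

lemma map_ap (f : R →+* A) (x : SL(2, R)) (i j : Fin 2) :
    Matrix.SpecialLinearGroup.map f x i j = f (x i j) := rfl

lemma map_Tm (f : R →+* A) (x : R) : Matrix.SpecialLinearGroup.map f (Tm x) = Tm (f x) := by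
  apply ext2 <;> simp [map_ap, Tm]

lemma map_Lm (f : R →+* A) (x : R) : Matrix.SpecialLinearGroup.map f (Lm x) = Lm (f x) := by
  apply ext2 <;> simp [map_ap, Lm]

lemma injG (f : R →+* A) (g : R →+* B) (hi : ∀ x y, f x = f y → g x = g y → x = y)
    (x y : SL(2, R))
    (h1 : Matrix.SpecialLinearGroup.map f x = Matrix.SpecialLinearGroup.map f y)
    (h2 : Matrix.SpecialLinearGroup.map g x = Matrix.SpecialLinearGroup.map g y) : x = y := by
  have H : ∀ i j, x i j = y i j := fun i j => hi _ _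
    (by rw [← map_ap f x, ← map_ap f y, h1]) (by rw [← map_ap g x, ← map_ap g y, h2])
  exact ext2 (H _ _) (H _ _) (H _ _) (H _ _)

lemma surG (f : R →+* A) (g : R →+* B) (hi : ∀ x y, f x = f y → g x = g y → x = y)
    (hs : ∀ a b, ∃ x, f x = a ∧ g x = b) (a : SL(2, A)) (b : SL(2, B)) :
    ∃ x : SL(2, R), Matrix.SpecialLinearGroup.map f x = a ∧
      Matrix.SpecialLinearGroup.map g x = b := by
  obtain ⟨p, p1, p2⟩ := hs (a 0 0) (b 0 0)
  obtain ⟨q, q1, q2⟩ := hs (a 0 1) (b 0 1)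
  obtain ⟨r, r1, r2⟩ := hs (a 1 0) (b 1 0)
  obtain ⟨s, s1, s2⟩ := hs (a 1 1) (b 1 1)
  have hd : p * s - q * r = 1 := by
    apply hi
    · rw [map_sub, map_mul, map_mul, map_one, p1, q1, r1, s1, det2]
    · rw [map_sub, map_mul, map_mul, map_one, p2, q2, r2, s2, det2]
  refine ⟨mk p q r s hd, ?_, ?_⟩
  · exact ext2 p1 q1 r1 s1
  · exact ext2 p2 q2 r2 s2

lemma emb (f : R →+* A) (g : R →+* B) (hi : ∀ x y, f x = f y → g x = g y → x = y)
    (hs : ∀ a b, ∃ x, f x = a ∧ g x = b) :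
    ∃ (i : SL(2, A) →* SL(2, R)) (j : A →+ R),
      (∀ x, Matrix.SpecialLinearGroup.map f (i x) = x) ∧
      (∀ x, Matrix.SpecialLinearGroup.map g (i x) = 1) ∧
      (∀ x, f (j x) = x) ∧ (∀ x, g (j x) = 0) ∧
      (∀ x, i (Tm x) = Tm (j x)) ∧ ∀ x, i (Lm x) = Lm (j x) := by
  choose I I1 I2 using fun a => surG f g hi hs a 1
  choose J J1 J2 using fun a => hs a 0
  have hI : ∀ a b, I (a * b) = I a * I b := fun a b => injG f g hi _ _
    (by rw [map_mul, I1, I1, I1]) (by rw [map_mul, I2, I2, I2, mul_one])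
  have hJ : ∀ a b, J (a + b) = J a + J b := fun a b => hi _ _
    (by rw [map_add, J1, J1, J1]) (by rw [map_add, J2, J2, J2, add_zero])
  refine ⟨MonoidHom.mk' I hI, AddMonoidHom.mk' J hJ, I1, I2, J1, J2, fun x => ?_, fun x => ?_⟩
  · show I (Tm x) = Tm (J x)
    exact injG f g hi _ _ (by rw [I1, map_Tm, J1]) (by rw [I2, map_Tm, J2, Tm_zero])
  · show I (Lm x) = Lm (J x)
    exact injG f g hi _ _ (by rw [I1, map_Lm, J1]) (by rw [I2, map_Lm, J2, Lm_zero])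

lemma unit (f : R →+* A) (g : R →+* B) (hi : ∀ x y, f x = f y → g x = g y → x = y)
    (hs : ∀ a b, ∃ x, f x = a ∧ g x = b) (x : R) (h1 : IsUnit (f x)) (h2 : IsUnit (g x)) :
    IsUnit x := by
  obtain ⟨a, ha⟩ := h1.exists_right_inv
  obtain ⟨b, hb⟩ := h2.exists_right_inv
  obtain ⟨y, y1, y2⟩ := hs a b
  refine IsUnit.of_mul_eq_one y (hi _ _ ?_ ?_)
  · rw [map_mul, y1, ha, map_one]
  · rw [map_mul, y2, hb, map_one]

end CrtAux

open CrtAux in
theorem row_Crt : K_Crt := by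
  intro n₁ n₂ n h₁ h₂ hn hc
  subst hn
  let e := ZMod.chineseRemainder hc
  have e1 : ∀ x, ZMod.castHom h₁ (ZMod n₁) x = (e x).1 := fun x =>
    congrArg (fun φ : ZMod (n₁ * n₂) →+* ZMod n₁ => φ x)
      (RingHom.ext_zmod (ZMod.castHom h₁ (ZMod n₁)) ((RingHom.fst _ _).comp e.toRingHom))
  have e2 : ∀ x, ZMod.castHom h₂ (ZMod n₂) x = (e x).2 := fun x =>
    congrArg (fun φ : ZMod (n₁ * n₂) →+* ZMod n₂ => φ x)
      (RingHom.ext_zmod (ZMod.castHom h₂ (ZMod n₂)) ((RingHom.snd _ _).comp e.toRingHom))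
  have hi : ∀ x y, ZMod.castHom h₁ (ZMod n₁) x = ZMod.castHom h₁ (ZMod n₁) y →
      ZMod.castHom h₂ (ZMod n₂) x = ZMod.castHom h₂ (ZMod n₂) y → x = y := by
    intro x y a b
    rw [e1, e1] at a
    rw [e2, e2] at b
    exact e.injective (Prod.ext a b)
  have hs : ∀ a b, ∃ x, ZMod.castHom h₁ (ZMod n₁) x = a ∧ ZMod.castHom h₂ (ZMod n₂) x = b :=
    fun a b => ⟨e.symm (a, b), by rw [e1, e.apply_symm_apply], by rw [e2, e.apply_symm_apply]⟩
  obtain ⟨i₁, j₁, a1, a2, a3, a4, a5, a6⟩ := emb _ _ hi hs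
  obtain ⟨i₂, j₂, b1, b2, b3, b4, b5, b6⟩ := emb (ZMod.castHom h₂ (ZMod n₂))
    (ZMod.castHom h₁ (ZMod n₁)) (fun x y a b => hi x y b a)
    (fun a b => (hs b a).imp fun _ h => h.symm)
  refine ⟨hi, unit _ _ hi hs, i₁, i₂, j₁, j₂, a1, a2, b2, b1, fun x y => ?_, fun x => ?_,
    a3, a4, b4, b3, a5, a6, b5, b6⟩
  · exact injG _ _ hi _ _ (by rw [map_mul, map_mul, a1, b2, mul_one, one_mul])
      (by rw [map_mul, map_mul, a2, b1, mul_one, one_mul])
  · exact injG _ _ hi _ _ (by rw [map_mul, a1, b2, mul_one]; rfl)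
      (by rw [map_mul, a2, b1, one_mul]; rfl)

end

end Pool.Agent.MP_b2c033_nt.UL
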