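import Pool.Agent.MP_b2c033_nt.UL.Spec

/-! Row En: formal properties of the sum over all choices of options. -/

set_option autoImplicit false

namespace Pool.Agent.MP_b2c033_nt.UL

open U

namespace EnAux

theorem scale (T : ℚ → ℝ) (os : List (List (ℚ × ℚ))) (Q : ℚ) :
    ∀ X : ℚ, En (fun Y => T (Q * Y)) os X = En T os (Q * X) := by
  induction os with
  | nil => intro X; rfl
  | cons o os ih =>
    intro X
    simp only [En, ih, mul_assoc]

theorem app (T : ℚ → ℝ) (os os' : List (List (ℚ × ℚ))) :
    ∀ X : ℚ, En T (os ++ os') X = En (En T os') os X := by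
  induction os with
  | nil => intro X; rfl
  | cons o os ih =>
    intro X
    simp only [List.cons_append, En, ih]

theorem swap {α β : Type} (l : List α) (l' : List β) (f : α → β → ℝ) :
    (l.map fun a => (l'.map fun b => f a b).sum).sum =
      (l'.map fun b => (l.map fun a => f a b).sum).sum := by
  induction l with
  | nil => simp
  | cons a l ih => simp only [List.map_cons, List.sum_cons, ih, List.sum_map_add]

theorem perm (T : ℚ → ℝ) {os os' : List (List (ℚ × ℚ))} (h : os.Perm os') :
    ∀ X : ℚ, En T os X = En T os' X := by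
  induction h with
  | nil => intro X; rfl
  | cons o _ ih =>
    intro X
    simp only [En, ih]
  | swap o o' os =>
    intro X
    simp only [En, ← List.sum_map_mul_left]
    rw [swap]
    refine congrArg List.sum (List.map_congr_left fun a _ =>
      congrArg List.sum (List.map_congr_left fun b _ => ?_))
    rw [mul_right_comm X, mul_left_comm]
  | trans _ _ ih ih' =>
    intro X
    rw [ih, ih']

theorem mid (p k : ℕ) (hp : p.Prime) : ∀ y ∈ optMid p k, 0 ≤ y.1 ∧ 0 < y.2 := by
  have h0 : (0 : ℚ) < p := by exact_mod_cast hp.pos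
  intro y hy
  unfold optMid at hy
  split_ifs at hy with h1 h2 h3 h4
  · have h5 : (5 : ℚ) ≤ p := by exact_mod_cast h1
    have h6 : (0 : ℚ) ≤ p - 3 := by linarith
    rw [List.mem_singleton.1 hy]
    exact ⟨by positivity, by positivity⟩
  · rw [List.mem_singleton.1 hy]
    exact ⟨by positivity, by positivity⟩
  · rw [List.mem_singleton.1 hy]
    exact ⟨by positivity, by positivity⟩
  · rw [List.mem_singleton.1 hy]
    exact ⟨by positivity, by positivity⟩
  · exact absurd hy List.not_mem_nil

theorem pos (p e i : ℕ) (hp : p.Prime) : ∀ y ∈ opts p e i, 0 ≤ y.1 ∧ 0 < y.2 := by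
  have h0 : (0 : ℚ) < p := by exact_mod_cast hp.pos
  have h1 : (0 : ℚ) ≤ p - 1 := by
    have : (1 : ℚ) ≤ p := by exact_mod_cast hp.pos
    linarith
  intro y hy
  unfold opts at hy
  split_ifs at hy
  · rcases List.mem_cons.1 hy with rfl | hy
    · exact ⟨by positivity, by positivity⟩
    · rw [List.mem_singleton.1 hy]
      exact ⟨by positivity, by positivity⟩
  · rcases List.mem_cons.1 hy with rfl | hy
    · exact ⟨by positivity, by positivity⟩
    · exact mid p i hp y hy
  · rcases List.mem_cons.1 hy with rfl | hy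
    · exact ⟨by positivity, by positivity⟩
    · rcases List.mem_cons.1 hy with rfl | hy
      · exact ⟨by positivity, by positivity⟩
      · obtain ⟨m, -, rfl⟩ := List.mem_map.1 hy
        exact ⟨by positivity, by positivity⟩

theorem mon (b : ℕ → ℤ) (n₀ : ℕ) (Q : ℚ) (hQ : 0 < Q) : Mon fun Y => TT b n₀ (Q * Y) := by
  refine ⟨fun X => Finset.sum_nonneg fun n _ => by positivity, fun X Y hX hXY => ?_⟩
  refine Finset.sum_le_sum fun n _ => mul_le_mul_of_nonneg_left ?_ (by positivity)
  refine Real.exp_le_exp.2 (neg_le_neg (div_le_div_of_nonneg_left (by positivity) ?_ ?_))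
  · exact_mod_cast mul_pos hQ hX
  · exact_mod_cast mul_le_mul_of_nonneg_left hXY hQ.le

end EnAux

theorem row_En : K_En :=
  ⟨fun T os Q X => EnAux.scale T os Q X, fun T os os' X => EnAux.app T os os' X,
    fun T _ _ X h => EnAux.perm T h X, fun p e i hp => EnAux.pos p e i hp, EnAux.mon⟩

end Pool.Agent.MP_b2c033_nt.UL
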