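import Pool.Agent.MP_b2c033_nt.UL.Spec

/-! Components of large order at prime power level. -/

namespace Pool.Agent.MP_b2c033_nt.UL

open U Finset
open scoped MatrixGroups

namespace ExLocAux

variable {n : ℕ} [NeZero n] {W : Type} [NormedAddCommGroup W] [InnerProductSpace ℂ W]
  {ρ : RA (G n) W} {v : W} {p M : ℕ}

theorem hit (K : Kit ρ) (hp : p.Prime) (hn : n = p ^ M) {x : G n} (h0 : IsUnit (x 0 0))
    (h1 : IsUnit (x 1 0)) {c s : ℕ} (hc : M ≤ c + 1 + s) (h : ρ.AT (p ^ c) (ρ.a x v) ≠ ρ.a x v) :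
    ρ.Hit (fun X => ∃ j, X = p ^ j ∧ 1 ≤ j ∧ j ≤ M ∧ M ≤ j + s) v := by
  obtain ⟨χ, k1, k2⟩ := K.ex _ _ h
  obtain ⟨j, j1, j2⟩ := (Nat.dvd_prime_pow hp).1 (hn ▸ K.od_dvd χ : od χ ∣ p ^ M)
  have : c < j := not_le.1 fun e => k2 (j2 ▸ pow_dvd_pow p e)
  exact ⟨x, χ, h0, h1, ⟨j, j2, by omega, j1, by omega⟩, k1⟩

omit [NeZero n] in
theorem ne0 (hv : v ≠ 0) (x : G n) {w : W} (h : w = 0) : w ≠ ρ.a x v := fun e =>
  hv (norm_eq_zero.1 (by rw [← ρ.nrm x v, ← e, h, norm_zero]))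

end ExLocAux

open ExLocAux in
theorem row_ExLoc : R_ExLoc := by
  intro hK hT hL hM h4 h5 p i i' n _ hp hi hi' hn h2 W _ _ ρ v hv v0
  have K : Kit ρ := hK n W ρ
  have u0 : ∀ y : ZMod n, IsUnit ((Lm y : G n) 0 0) := fun _ => isUnit_one
  have u1 : IsUnit ((Lm 1 : G n) 1 0) := isUnit_one
  have pos : 0 < ‖v‖ ^ 2 := pow_pos (norm_pos_iff.2 v0) 2
  rcases lt_trichotomy i' i with h | rfl | h
  · exact hit K hp hn (u0 1) u1 (c := i - 1) (by omega) (ne0 v0 _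
      (hT p i i' 0 n hp hi hi' hn (by omega) W ρ v _ hv (u0 1) (by simp)).2)
  swap
  · exact hit K hp hn (u0 1) u1 (c := i' - 2 * 0 - 1) (by omega) (ne0 v0 _
      (hL p i i' 0 0 n hp hi hi' hn (by omega) (by omega) W ρ v _ 1 hv isUnit_one
        (by simp [Lm]) (by simp)).2)
  rw [if_pos rfl]
  have hn' : n = p ^ i' := by rwa [max_self] at hn
  by_cases c1 : 5 ≤ p ∨ 2 * i' ≤ 2
  · obtain ⟨-, -, b⟩ := hM p i' n hp hi hn' W ρ v K hv
    obtain ⟨-, -, b1, b2⟩ := b _ rfl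
    by_contra hc
    have e : ∀ u ∈ range p, u ≠ 0 →
        ‖ρ.AT (p ^ (i' - 1)) (ρ.a (Lm (u : ZMod n)) v)‖ ^ 2 = ‖v‖ ^ 2 := fun u hu e => by
      by_contra x
      refine hc (hit K hp hn (u0 u) ?_ (c := i' - 1) (by omega) fun y => x (by rw [y, ρ.nrm]))
      refine (ZMod.isUnit_iff_coprime u n).2 (hn' ▸ Nat.Coprime.pow_right _ ?_)
      exact (Nat.coprime_of_lt_prime e (mem_range.1 hu) hp).symm
    have s := sum_le_sum_of_subset_of_nonneg (f := fun u : ℕ =>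
      ‖ρ.AT (p ^ (i' - 1)) (ρ.a (Lm (u : ZMod n)) v)‖ ^ 2) (erase_subset 0 (range p))
      fun _ _ _ => sq_nonneg _
    rw [sum_congr rfl fun u hu => e u (mem_of_mem_erase hu) (ne_of_mem_erase hu), sum_const,
      card_erase_of_mem (mem_range.2 hp.pos), card_range, nsmul_eq_mul,
      Nat.cast_pred hp.pos] at s
    rcases c1 with c1 | c1
    · have : (5 : ℝ) ≤ p := by exact_mod_cast c1
      nlinarith
    · have h1 : (1 : ℝ) < p := by exact_mod_cast hp.one_lt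
      have h3 : 0 < 1 / ((p : ℝ) - 1) * ‖v‖ ^ 2 := mul_pos (one_div_pos.2 (by linarith)) pos
      linarith [b2 (by omega)]
  rw [sm, if_neg c1]
  by_cases c2 : p = 3
  · rw [if_pos c2]
    have b := h4 p i' n hp hi hn' W ρ v K hv c2 (by omega) (Lm 1) (u0 1) u1
    subst c2
    by_contra hc
    have e : ∀ u ∈ range 3,
        ‖ρ.AT (3 ^ (i' - 2)) (ρ.a (Tm (3 * (u : ZMod n)) * Lm 1) v)‖ ^ 2 = ‖v‖ ^ 2 := fun u _ => by
      by_contra x
      refine hc (hit K hp hn (x := Tm (3 * (u : ZMod n)) * Lm 1) ?_ (by simp [mul2, Tm, Lm])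
        (c := i' - 2) (by omega) fun y => x (by rw [y, ρ.nrm]))
      have : IsUnit ((1 + 3 * u : ℕ) : ZMod n) :=
        (ZMod.isUnit_iff_coprime _ n).2 (hn' ▸ Nat.Coprime.pow_right _ (by simp))
      simpa [mul2, Tm, Lm] using this
    rw [sum_congr rfl e, sum_const, card_range, nsmul_eq_mul] at b
    have := pow_le_pow_left₀ (norm_nonneg _) (K.AT_le (3 ^ (i' - 1)) (ρ.a (Lm 1) v)) 2
    rw [ρ.nrm] at this
    push_cast at b
    linarith
  rw [if_neg c2]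
  obtain rfl : p = 2 := by
    have := hp.two_le
    have : p ≠ 4 := fun e => by rw [e] at hp; norm_num at hp
    omega
  obtain ⟨x, x0, x1, b⟩ := h5 2 i' n hp hi hn' W ρ v K hv rfl (by omega) v0
  exact hit K hp hn x0 x1 (by split_ifs <;> omega) b

end Pool.Agent.MP_b2c033_nt.UL
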