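import Pool.Agent.MP_b2c033_nt.UL.Spec

/-! The substitute at the root `(4, 4)` of the prime `2`. -/

namespace Pool.Agent.MP_b2c033_nt.UL

open U Finset

namespace ExYAux

variable {W : Type} [NormedAddCommGroup W] [InnerProductSpace ℂ W]

theorem neg4 (ρ : RA (G 4) W) {v : W} (h : ρ.Hyp 4 4 v) : ρ.a (Lm 2) v = -v := by
  have h1 := h.nL 2 Nat.prime_two (by norm_num)
  rw [RA.AL, smul_eq_zero, or_iff_right (by norm_num)] at h1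
  have h3 : ρ.a (Lm 0) v + ρ.a (Lm 2) v + ρ.a (Lm 0) v + ρ.a (Lm 2) v = 0 :=
    (Fin.sum_univ_four fun x : ZMod 4 => ρ.a (Lm (((4 / 2 : ℕ) : ZMod 4) * x)) v).symm.trans h1
  rw [Lm_zero, ρ.one] at h3
  have h4 : (2 : ℂ) • (ρ.a (Lm 2) v + v) = 0 := by
    rw [two_smul, ← h3]
    abel
  exact eq_neg_of_add_eq_zero_left ((smul_eq_zero.1 h4).resolve_left two_ne_zero)

theorem two_odd {m : ℕ} (h : Odd m) : ((2 * m : ℕ) : ZMod 4) = 2 := by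
  obtain ⟨k, rfl⟩ := h
  have : (4 : ZMod 4) = 0 := rfl
  push_cast
  linear_combination (k : ZMod 4) * this

end ExYAux

theorem row_ExY : R_ExY := by
  intro hK hS hR hA D n r r' _ R al f1 f2 W _ _ ρ v hv v0
  have d2 : 2 ∣ n := (Nat.dvd_of_factorization_pos (by rw [f1]; exact two_ne_zero)).trans R.dr
  obtain ⟨i, i', m, s, s', -, -, hi, hi', hn, hr, hr', h2, R1, R2, hf⟩ :=
    hR n r r' 2 (NeZero.pos n) R Nat.prime_two d2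
  rw [f1] at hi
  rw [f2] at hi'
  subst hi hi'
  replace hn : n = 4 * m := hn
  replace R1 : Rt 4 4 4 := R1
  have m0 : NeZero m := ⟨fun h => h2 (h ▸ dvd_zero 2)⟩
  have mo : Odd m := Nat.odd_iff.2 (Nat.two_dvd_ne_zero.1 h2)
  have cop : Nat.Coprime 4 m := (Nat.coprime_two_left.2 mo).pow_left 2
  obtain ⟨ρ₁, ρ₂, j, κ, S⟩ := hS 4 m n hn cop W ρ
  obtain ⟨H1, H2⟩ := S.hyp 4 4 s s' v R1 R2.toRt (by rwa [hr, hr'] at hv)
  obtain ⟨y, ψ, y1, y2, ⟨y3, y4, y5⟩, y6⟩ := hA D m s s' R2 (fun p hp hm e => by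
      obtain ⟨-, a, b⟩ := hf p fun q => h2 (q ▸ hm)
      rw [a, b] at e
      rw [a]
      exact al p hp (hn ▸ hm.mul_left 4) e)
    (fun h => h2 ((Nat.dvd_of_factorization_pos (by rw [h.1]; exact two_ne_zero)).trans R2.dr))
    W ρ₂ v H2 v0
  have cm : ∀ x w, ρ₁.a x (ρ₂.Pj ψ w) = ρ₂.Pj ψ (ρ₁.a x w) := fun x w => by
    simp only [RA.Pj, map_smul, map_sum, S.comm]
  have ez : ρ₂.Pj ψ (ρ.a (j (Lm 1) y) v) = ρ₁.a (Lm 1) (ρ₂.Pj ψ (ρ₂.a y v)) := by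
    rw [S.act, cm, S.comm]
  refine ⟨j (Lm 1) y, ρ₂.Pj ψ (ρ.a (j (Lm 1) y) v), m, S.unit _ _ 0 isUnit_one y1,
    S.unit _ _ 1 isUnit_one y2, fun h => y6 ?_, mo, ?_, fun χ => ?_⟩
  · rw [← norm_eq_zero, ← ρ₁.nrm (Lm 1), ← ez, h, norm_zero]
  · have e := S.low (2 * m) (dvd_mul_left m 2)
    rw [ExYAux.two_odd mo, Nat.cast_mul, Nat.cast_ofNat] at e
    rw [← e, S.act, ρ₂.one, ez, ← ρ₁.mul, ← Lm_add, add_comm, Lm_add, ρ₁.mul, cm (Lm 2), S.comm,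
      ExYAux.neg4 ρ₁ H1, map_neg, ← ρ₂.PjL_apply, map_neg, map_neg, ρ₂.PjL_apply]
  · obtain ⟨⟨χ₁, ψ'⟩, rfl⟩ := S.kb.2 χ
    simp only [S.pj, (hK m W ρ₂).Pj_Pj]
    by_cases h : ψ' = ψ
    · subst h
      refine Or.inr ⟨by rw [if_pos rfl], fun p hp hpn p2 => ?_⟩
      have pm : p ∣ m := ((Nat.Prime.dvd_mul hp).1 (hn ▸ hpn)).resolve_left fun q =>
        p2 ((Nat.prime_dvd_prime_iff_eq hp Nat.prime_two).1 (hp.dvd_of_dvd_pow (n := 2) q))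
      have o1 : od χ₁ ≠ 0 := ne_zero_of_dvd_ne_zero (NeZero.ne 4) ((hK 4 W ρ₁).od_dvd χ₁)
      have o2 : od ψ' ≠ 0 := ne_zero_of_dvd_ne_zero m0.ne y4
      rw [S.od, Nat.factorization_mul o1 o2, ← (hf p p2).1]
      exact ⟨(y3 p hp pm).mul_left _, (y5 p hp).trans (Nat.add_le_add_right le_add_self _)⟩
    · exact Or.inl (by rw [if_neg h, ← ρ₁.PjL_apply, map_zero])

end Pool.Agent.MP_b2c033_nt.UL
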