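import Pool.Agent.MP_b2c033_nt.UL.Spec

/-! Row UN-L.GU: the energy in terms of the first coefficients. -/

namespace Pool.Agent.MP_b2c033_nt.UL

open U Finset CongruenceSubgroup
open scoped MatrixGroups Classical InnerProductSpace

noncomputable section

namespace GUAux

lemma ch_ext {n : ℕ} [NeZero n] {χ ψ : Ch n} (h : χ 1 = ψ 1) : χ = ψ := by
  ext x
  have e : x = x.val • (1 : ZMod n) := by simp
  rw [e, AddChar.map_nsmul_eq_pow, AddChar.map_nsmul_eq_pow, h]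

lemma orth {V ι : Type} [NormedAddCommGroup V] [InnerProductSpace ℂ V] [Fintype ι] (f : ι → V)
    (h : ∀ i j, i ≠ j → ⟪f i, f j⟫_ℂ = 0) : ‖∑ i, f i‖ ^ 2 = ∑ i, ‖f i‖ ^ 2 := by
  rw [norm_sq_eq_re_inner (𝕜 := ℂ), sum_inner, map_sum]
  refine sum_congr rfl fun i _ => ?_
  rw [inner_sum, sum_eq_single i (fun j _ hj => h i j hj.symm) (by simp),
    norm_sq_eq_re_inner (𝕜 := ℂ)]

lemma den_eq {m X : ℕ} (hX : X ≠ 0) (h : m.Coprime X) : ((m : ℚ) / X).den = X := by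
  have := Rat.den_div_eq_of_coprime (a := m) (b := X) (by exact_mod_cast Nat.pos_of_ne_zero hX)
    (by simpa using h)
  rw [Int.cast_natCast, Int.cast_natCast] at this
  exact Int.natCast_inj.1 this

lemma ex_num {n : ℕ} {ν : ℚ} (h0 : 0 < ν) (hF : Full n ν.den) :
    ∃ m : ℕ, m.Coprime n ∧ ν = m / ν.den := by
  refine ⟨ν.num.natAbs, ?_, ?_⟩
  · by_contra hc
    obtain ⟨p, hp, h1, h2⟩ := Nat.Prime.not_coprime_iff_dvd.1 hc
    exact hp.one_lt.ne' (Nat.eq_one_of_dvd_coprimes ν.reduced h1 (hF p hp h2))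
  · rw [Nat.cast_natAbs, abs_of_pos (Rat.num_pos.2 h0)]
    exact (Rat.num_div_den ν).symm

variable {V : Type} [NormedAddCommGroup V] [InnerProductSpace ℂ V] {C : CS V} {n : ℕ} [NeZero n]
  {W : Type} [NormedAddCommGroup W] [InnerProductSpace ℂ W] {ρ : RA (G n) W}
  {ι : W →ₗᵢ[ℂ] V} {v : W} {b : ℕ → ℤ} {N₁ : ℕ} {F : ZMod n → V}

lemma key (hB : Br C N₁ ρ ι) (hM : Mult C b ρ ι v)
    (h1 : ∀ u (m : ℕ), C.β m (F u) = if (m : ZMod n) = u then b m else 0)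
    (h2 : ∀ u ν, C.β ν (F u) ≠ 0 → ∃ m : ℕ, ν = m) {X : ℕ} (hX : X ∣ n) (hF : Full n X)
    (x : G n) : ι (∑ χ : Ch n with od χ = X, ρ.Pj χ (ρ.a x v)) =
      ∑ u : (ZMod n)ˣ, (C.β (1 / X) (ι (ρ.a (tw u x) v)) * X) • C.act (Vd (1 / X)) (F u) := by
  have X0 : X ≠ 0 := ne_zero_of_dvd_ne_zero (NeZero.ne n) hX
  have q0 : (X : ℚ) ≠ 0 := by exact_mod_cast X0
  have c0 : (X : ℂ) ≠ 0 := by exact_mod_cast X0
  rw [← sub_eq_zero]
  refine C.β_inj _ fun ν => ?_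
  rw [map_sub, sub_eq_zero, map_sum, map_sum, map_sum]
  have e : ∀ u : (ZMod n)ˣ,
      C.β ν ((C.β (1 / X) (ι (ρ.a (tw u x) v)) * X) • C.act (Vd (1 / X)) (F u)) =
      C.β (1 / X) (ι (ρ.a (tw u x) v)) * C.β (X * ν) (F u) := by
    intro u
    have := C.β_Vd (1 / X) (X * ν) (F u) (by positivity)
    rw [show (1 / X : ℚ) * (X * ν) = ν by field_simp] at this
    rw [map_smul, this, smul_eq_mul]
    push_cast
    field_simp
  simp only [e, hB.pj]
  by_cases hc : ∃ m : ℕ, m.Coprime n ∧ ν = m / X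
  · obtain ⟨m, hm, rfl⟩ := hc
    have hd := den_eq X0 (hm.coprime_dvd_right hX)
    obtain ⟨χ, hχ⟩ := hB.ch ((m : ℚ) / X) (by rwa [hd])
    rw [sum_eq_single χ, if_pos hχ, sum_eq_single (un n m), mul_div_cancel₀ _ q0, h1,
      if_pos (un_coe hm).symm, hM x m X hm hX, mul_comm]
    · intro u _ hu
      rw [mul_div_cancel₀ _ q0, h1, if_neg fun h => hu (Units.ext (by rw [un_coe hm, h]))]
      simp
    · simp
    · intro ψ _ hψ
      exact if_neg fun h => hψ (ch_ext (h.trans hχ.symm))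
    · intro h
      exact (h (mem_filter.2 ⟨mem_univ _, (hB.od χ _ hχ).trans hd⟩)).elim
  · rw [sum_eq_zero, sum_eq_zero]
    · intro u _
      refine mul_eq_zero_of_right _ (by_contra fun h => hc ?_)
      obtain ⟨m, hm⟩ := h2 _ _ h
      refine ⟨m, ?_, by rw [← hm]; field_simp⟩
      rw [hm, h1] at h
      have h3 : (m : ZMod n) = u := by_contra fun q => h (by rw [if_neg q]; simp)
      exact (ZMod.isUnit_iff_coprime m n).1 (h3 ▸ u.isUnit)
    · intro χ hχ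
      split_ifs with h
      · by_contra h3
        have hd : ν.den = X := (hB.od χ ν h).symm.trans (mem_filter.1 hχ).2
        have := ex_num (n := n) (lt_of_not_ge fun q => h3 (C.β_neg ν _ q)) (hd ▸ hF)
        rw [hd] at this
        exact hc this
      · rfl

lemma nrm (hB : Br C N₁ ρ ι) (hK : Kit ρ) (hM : Mult C b ρ ι v)
    (h1 : ∀ u (m : ℕ), C.β m (F u) = if (m : ZMod n) = u then b m else 0)
    (h2 : ∀ u ν, C.β ν (F u) ≠ 0 → ∃ m : ℕ, ν = m) (h3 : ∀ u u', u ≠ u' → ⟪F u, F u'⟫_ℂ = 0)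
    (h4 : ∀ (α : Mt) (v : V), 0 < α.det → ‖C.act α v‖ = ‖v‖)
    {X : ℕ} (hX : X ∣ n) (hF : Full n X) (x : G n) :
    ∑ χ : Ch n with od χ = X, ‖ρ.Pj χ (ρ.a x v)‖ ^ 2 =
      ∑ u : (ZMod n)ˣ, (X : ℝ) ^ 2 * ‖F u‖ ^ 2 * cf C ρ ι v X (tw u x) := by
  have X0 : 0 < X := Nat.pos_of_dvd_of_pos hX (NeZero.pos n)
  have hd : 0 < (Vd (1 / X)).det := by
    rw [det_Vd]
    positivity
  rw [← hK.nrm_sum, ← ι.norm_map, key hB hM h1 h2 hX hF, orth]
  · refine sum_congr rfl fun u _ => ?_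
    rw [norm_smul, h4 _ _ hd, norm_mul, Complex.norm_natCast, cf]
    ring
  · intro u u' hu
    rw [inner_smul_left, inner_smul_right, C.inner_act _ _ _ hd,
      h3 _ _ fun h => hu (Units.ext h), mul_zero, mul_zero]

end GUAux

open GUAux in
theorem row_GU : R_GU := by
  intro hI hA V _ _ C N g b N₁ r r' n _ W _ _ ρ ι v S hM T hT
  obtain ⟨F, h1, h2, h3, h5⟩ := hA V C S.good N g b n S.nf
  have h4 := (hI V C S.good N g b S.nf).2.2.2.2
  have hu : ∑ u : (ZMod n)ˣ, ‖F u‖ ^ 2 ≤ ‖g‖ ^ 2 := by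
    rw [← h5, ← sum_image (f := fun u => ‖F u‖ ^ 2) (s := univ) Units.val_injective.injOn]
    exact sum_le_sum_of_subset_of_nonneg (subset_univ _) fun _ _ _ => by positivity
  have e : ∀ x : G n, ∑ χ : Ch n with Full n (od χ), T (od χ) / od χ * ‖ρ.Pj χ (ρ.a x v)‖ ^ 2 =
      ∑ X ∈ n.divisors with Full n X, ∑ u : (ZMod n)ˣ,
        X * T X * ‖F u‖ ^ 2 * cf C ρ ι v X (tw u x) := by
    intro x
    rw [← sum_fiberwise_of_maps_to (g := od) (t := {X ∈ n.divisors | Full n X})]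
    swap
    · intro χ hχ
      exact mem_filter.2 ⟨Nat.mem_divisors.2 ⟨S.kit.od_dvd χ, NeZero.ne n⟩, (mem_filter.1 hχ).2⟩
    refine sum_congr rfl fun X hX => ?_
    obtain ⟨a1, a2⟩ := mem_filter.1 hX
    have a3 := Nat.dvd_of_mem_divisors a1
    have X0 : (X : ℝ) ≠ 0 := by exact_mod_cast ne_zero_of_dvd_ne_zero (NeZero.ne n) a3
    have e1 : ({χ : Ch n | Full n (od χ)} : Finset (Ch n)).filter (fun χ => od χ = X) =
        ({χ : Ch n | od χ = X} : Finset (Ch n)) := by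
      ext χ
      simp only [mem_filter, mem_univ, true_and]
      exact ⟨fun h => h.2, fun h => ⟨h ▸ a2, h⟩⟩
    rw [e1, sum_congr rfl (g := fun χ => T X / X * ‖ρ.Pj χ (ρ.a x v)‖ ^ 2)
      fun χ hχ => by rw [(mem_filter.1 hχ).2], ← mul_sum,
      nrm S.br S.kit hM h1 h2 h3 h4 a3 a2, mul_sum]
    refine sum_congr rfl fun u _ => ?_
    field_simp
  unfold RA.E
  simp only [e]
  rw [mean_sum, mul_sum]
  refine sum_le_sum fun X _ => ?_
  rw [mean_sum]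
  have e2 : ∀ u : (ZMod n)ˣ, mean (fun x => X * T X * ‖F u‖ ^ 2 * cf C ρ ι v X (tw u x)) =
      ‖F u‖ ^ 2 * (X * T X * mean (cf C ρ ι v X)) := by
    intro u
    rw [mean_mul, mean_bij _ (tw_bij u)]
    ring
  simp only [e2]
  rw [← sum_mul]
  refine mul_le_mul_of_nonneg_right hu (mul_nonneg (mul_nonneg (by positivity) (hT _)) ?_)
  rw [← mean_const (n := n) 0]
  exact mean_mono fun x => sq_nonneg _

end

end Pool.Agent.MP_b2c033_nt.UL
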