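import Pool.Agent.MP_b2c033_nt.UL.Spec
import Pool.Agent.MP_b2c033_nt.UN.Basic

/-! The parts of a newform along the residue classes of the exponents. -/

namespace Pool.Agent.MP_b2c033_nt.UL

open U Finset CongruenceSubgroup
open scoped MatrixGroups Classical InnerProductSpace

noncomputable section

namespace GUaAux

theorem conj_ee (x : ℚ) : starRingEnd ℂ (ee x) = ee (-x) := by
  rw [ee, ee, ← Complex.exp_conj]
  refine congrArg Complex.exp ?_
  simp [Complex.conj_ofReal, map_ofNat]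

theorem int_iff {n : ℕ} [NeZero n] (m : ℕ) (u : ZMod n) :
    (∃ k : ℤ, ((m : ℚ) - u.val) / n = k) ↔ (m : ZMod n) = u := by
  have hn : (n : ℚ) ≠ 0 := by exact_mod_cast NeZero.ne n
  have e : (m : ZMod n) = u ↔ (n : ℤ) ∣ (m : ℤ) - u.val := by
    rw [← ZMod.intCast_zmod_eq_zero_iff_dvd, Int.cast_sub, Int.cast_natCast, Int.cast_natCast,
      ZMod.natCast_zmod_val, sub_eq_zero]
  rw [e]
  refine exists_congr fun k => ?_
  rw [div_eq_iff hn, mul_comm]
  exact ⟨fun h => by exact_mod_cast h, fun h => by exact_mod_cast h⟩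

variable {V : Type} [NormedAddCommGroup V] [InnerProductSpace ℂ V] (C : CS V)

/-- the part along the class of `u` -/
def Fp (g : V) (n : ℕ) (u : ZMod n) : V :=
  (n : ℂ)⁻¹ • ∑ j ∈ range n, ee (-(u.val / n * j)) • C.act (Tr (j / n)) g

theorem β_Fp (g : V) (n : ℕ) (u : ZMod n) (ν : ℚ) : C.β ν (Fp C g n u) =
    (n : ℂ)⁻¹ * (∑ j ∈ range n, ee ((ν - u.val) / n * j)) * C.β ν g := by
  rw [Fp, map_smul, map_sum, smul_eq_mul, mul_assoc, sum_mul]
  refine congrArg _ (sum_congr rfl fun j _ => ?_)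
  rw [map_smul, C.β_Tr, smul_eq_mul, ← mul_assoc, ← UN.ee_add]
  refine congrArg (fun x => ee x * C.β ν g) ?_
  ring

theorem β_Fp_nat (g : V) (n : ℕ) [NeZero n] (u : ZMod n) (m : ℕ) :
    C.β m (Fp C g n u) = if (m : ZMod n) = u then C.β m g else 0 := by
  have hn : (n : ℚ) ≠ 0 := by exact_mod_cast NeZero.ne n
  have hn' : (n : ℂ) ≠ 0 := by exact_mod_cast NeZero.ne n
  rw [β_Fp]
  split_ifs with h
  · obtain ⟨k, hk⟩ := (int_iff m u).2 h
    rw [UN.sum_ee_int k hk, inv_mul_cancel₀ hn', one_mul]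
  · rw [UN.sum_ee_zero (fun h' => h ((int_iff m u).1 h'))
      ⟨(m : ℤ) - u.val, by rw [div_mul_cancel₀ _ hn]; push_cast; rfl⟩, mul_zero, zero_mul]

end GUaAux

open GUaAux in
theorem row_GUa : R_GUa := by
  intro hI V _ _ C hC N g b n _ hg
  obtain ⟨-, -, hint, -, -⟩ := hI V C hC N g b hg
  have h2 : ∀ u ν, C.β ν (Fp C g n u) ≠ 0 → ∃ m : ℕ, ν = m := fun u ν h => by
    rw [β_Fp] at h
    obtain ⟨m, hm, -⟩ := hint ν (right_ne_zero_of_mul h)
    exact ⟨m, hm⟩
  have hT : ∀ u, C.act (Tr (1 / n)) (Fp C g n u) = ee (u.val / n) • Fp C g n u := fun u => by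
    refine sub_eq_zero.1 (C.β_inj _ fun ν => ?_)
    rw [map_sub, map_smul, C.β_Tr, smul_eq_mul, ← sub_mul]
    by_cases h : C.β ν (Fp C g n u) = 0
    · rw [h, mul_zero]
    obtain ⟨m, rfl⟩ := h2 u ν h
    have hm : (m : ZMod n) = u := by
      by_contra hc
      exact h (by rw [β_Fp_nat, if_neg hc])
    obtain ⟨k, hk⟩ := (int_iff m u).2 hm
    have e : (m : ℚ) * (1 / n) = k + u.val / n := by rw [← hk]; ring
    rw [e, UN.ee_add, UN.ee_int, one_mul, sub_self, zero_mul]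
  have h3 : ∀ u u', u ≠ u' → ⟪Fp C g n u, Fp C g n u'⟫_ℂ = 0 := fun u u' h => by
    have h1 := C.inner_act (Tr (1 / n)) (Fp C g n u) (Fp C g n u') (by simp)
    rw [hT, hT, inner_smul_left, inner_smul_right, conj_ee, ← mul_assoc, ← UN.ee_add] at h1
    by_contra h0
    obtain ⟨k, hk⟩ := (UN.ee_eq_one_iff _).1 (mul_right_cancel₀ h0 (h1.trans (one_mul _).symm))
    have := (int_iff u'.val u).1 ⟨k, by rw [← hk]; ring⟩
    rw [ZMod.natCast_zmod_val] at this
    exact h this.symm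
  have h4 : ∑ u, Fp C g n u = g := by
    refine sub_eq_zero.1 (C.β_inj _ fun ν => ?_)
    rw [map_sub, map_sum, sub_eq_zero]
    by_cases h : C.β ν g = 0
    · rw [h]
      exact sum_eq_zero fun u _ => by rw [β_Fp, h, mul_zero]
    obtain ⟨m, rfl, -⟩ := hint ν h
    simp only [β_Fp_nat, sum_ite_eq, mem_univ, if_true]
  refine ⟨Fp C g n, fun u m => ?_, h2, h3, ?_⟩
  · rw [β_Fp_nat, hg.co]
    split_ifs <;> simp
  · have h5 : ⟪g, g⟫_ℂ = ∑ u, ⟪Fp C g n u, Fp C g n u⟫_ℂ := by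
      conv_lhs => rw [← h4]
      rw [sum_inner]
      refine sum_congr rfl fun u _ => ?_
      rw [inner_sum]
      exact sum_eq_single u (fun u' _ h => h3 u u' h.symm) fun h => absurd (mem_univ u) h
    rw [← inner_self_eq_norm_sq (𝕜 := ℂ) g, h5, map_sum]
    exact sum_congr rfl fun u _ => (inner_self_eq_norm_sq (𝕜 := ℂ) _).symm

end

end Pool.Agent.MP_b2c033_nt.UL
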