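import Pool.Agent.MP_b2c033_nt.UL.Spec

/-! The lower bound for the energy at all levels. -/

namespace Pool.Agent.MP_b2c033_nt.UL

open U Finset
open scoped Classical

namespace GdAllAux

theorem one (hK : K_Kit) : Gd 1 1 1 [] := by
  intro W _ _ ρ v T _ _
  have k := hK 1 W ρ
  have o : ∀ χ : Ch 1, od χ = 1 := fun χ => Nat.dvd_one.1 (k.od_dvd χ)
  have f : Full 1 1 := fun _ _ h => h
  refine (mean_const (n := 1) _).symm.trans_le (mean_mono fun x => le_of_eq ?_)
  have h := k.AT_sum 1 (ρ.a x v)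
  rw [k.AT_top] at h
  rw [← ρ.nrm x v, h, k.nrm_sum, ← h, mul_sum]
  simp [o, f, En]

theorem rtl {n r : ℕ} (h : r ∣ n) (f : Full n r) : RtL n r n :=
  ⟨⟨h, dvd_rfl, f, fun _ _ h => h⟩, (Nat.lcm_eq_right h).symm⟩

end GdAllAux

open GdAllAux in
theorem row_GdAll : R_GdAll := by
  intro hK hE h1 h2 hT e i l
  induction l with
  | nil =>
    rintro n r _ - - rfl rfl
    exact ⟨rtl dvd_rfl fun _ _ h => h, one hK⟩
  | cons p l ih =>
    rintro n r _ hl hp hn hr
    obtain ⟨l1, l2⟩ := List.nodup_cons.1 hl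
    obtain ⟨p1, p2, p3⟩ := hp p List.mem_cons_self
    have hq := fun q hq => hp q (List.mem_cons_of_mem _ hq)
    rw [List.map_cons, List.prod_cons] at hn hr
    have : NeZero (p ^ (e p - i p)) := ⟨pow_ne_zero _ p1.ne_zero⟩
    have : NeZero (l.map fun p => p ^ (e p - i p)).prod :=
      ⟨fun h => NeZero.ne n (by rw [hn, h, mul_zero])⟩
    obtain ⟨a1, a2⟩ := ih _ _ l2 hq rfl rfl
    have b1 : Rt (p ^ (e p - i p)) (p ^ i p) (p ^ (e p - i p)) :=
      (rtl (pow_dvd_pow p (by omega)) fun q q1 q2 =>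
        (q1.dvd_of_dvd_pow q2).trans (dvd_pow_self p (by omega))).toRt
    have b2 : Gd (p ^ (e p - i p)) (p ^ i p) (p ^ (e p - i p)) [opts p (e p) (i p)] := by
      rcases p3.lt_or_eq with h | h
      · exact h1 p _ _ _ p1 p2 h rfl
      · have e' : p ^ (e p - i p) = p ^ i p := by rw [← h, two_mul, Nat.add_sub_cancel]
        have := h2 p (i p) (p ^ (e p - i p)) p1 p2 e'
        rw [h] at this
        have g : ∀ m, m = p ^ i p → Gd (p ^ (e p - i p)) (p ^ i p) m [opts p (e p) (i p)] :=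
          fun m hm => hm ▸ this
        exact g _ e'
    have c : (p ^ (e p - i p)).Coprime (l.map fun p => p ^ (e p - i p)).prod :=
      Nat.coprime_list_prod_right_iff.2 fun m hm => by
        obtain ⟨q, q1, rfl⟩ := List.mem_map.1 hm
        exact Nat.Coprime.pow _ _ ((Nat.coprime_primes p1 (hq q q1).1).2 fun r => l1 (r ▸ q1))
    refine ⟨rtl (hn ▸ hr ▸ mul_dvd_mul b1.dr a1.dr) fun q q1 q2 => ?_, ?_⟩
    · rw [hn] at q2
      rw [hr]
      exact (q1.dvd_mul.1 q2).elim (fun h => (b1.fr q q1 h).mul_right _)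
        fun h => (a1.fr q q1 h).mul_left _
    · have := hT _ _ n _ _ _ _ _ _ hn c b1 a1.toRt (hE.2.2.2.1 p _ _ p1) b2 a2
      rwa [← hn, ← hr] at this

end Pool.Agent.MP_b2c033_nt.UL
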