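import Pool.Agent.MP_b2c033_nt.UL.Spec

namespace Pool.Agent.MP_b2c033_nt.UL

open U Finset
open scoped MatrixGroups Classical InnerProductSpace

namespace GdMidAux

lemma mean_sub {n : ℕ} [NeZero n] (f h : G n → ℝ) :
    mean (fun x => f x - h x) = mean f - mean h := by
  simp only [mean, sum_sub_distrib, mul_sub]

lemma mean_nonneg {n : ℕ} [NeZero n] {f : G n → ℝ} (h : ∀ x, 0 ≤ f x) : 0 ≤ mean f := by
  have := mean_mono (f := fun _ : G n => (0 : ℝ)) h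
  rwa [mean_const] at this

variable {n : ℕ} [NeZero n] {W : Type} [NormedAddCommGroup W] [InnerProductSpace ℂ W]

/-- the mean energy at level `p ^ j` -/
noncomputable def mj (ρ : RA (G n) W) (p : ℕ) (v : W) (j : ℕ) : ℝ :=
  mean fun x => ‖ρ.AT (p ^ j) (ρ.a x v)‖ ^ 2

lemma mj_mono {ρ : RA (G n) W} (K : Kit ρ) (p : ℕ) (v : W) (j : ℕ) :
    mj ρ p v j ≤ mj ρ p v (j + 1) :=
  mean_mono fun _ => pow_le_pow_left₀ (norm_nonneg _)
    (K.AT_mono _ _ _ (pow_dvd_pow p (Nat.le_succ j))) 2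

lemma E_eq {ρ : RA (G n) W} (K : Kit ρ) {p k : ℕ} (hp : p.Prime) (hn : n = p ^ k) (hk : 1 ≤ k)
    (T : ℚ → ℝ) (v : W) : ρ.E T v = ∑ j ∈ range k,
      T ((p : ℚ) ^ (j + 1)) / (p : ℝ) ^ (j + 1) * (mj ρ p v (j + 1) - mj ρ p v j) := by
  rw [K.loc p k hp hn hk T v, mean_sum]
  refine sum_congr rfl fun j _ => ?_
  rw [mean_mul, mean_sub]
  rfl

lemma rest {ρ : RA (G n) W} (K : Kit ρ) (p k : ℕ) {T : ℚ → ℝ} (hT : Mon T) (v : W) :
    0 ≤ ∑ j ∈ range k,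
      T ((p : ℚ) ^ (j + 1)) / (p : ℝ) ^ (j + 1) * (mj ρ p v (j + 1) - mj ρ p v j) :=
  sum_nonneg fun j _ => mul_nonneg (div_nonneg (hT.1 _) (by positivity))
    (sub_nonneg.2 (mj_mono K p v j))

omit [NeZero n] in
lemma Tm_bij (y : ZMod n) : Function.Bijective fun x : G n => Tm y * x :=
  (Group.mulLeft_bijective (Tm y))

omit [NeZero n] in
lemma nonmid {k : ℕ} (hn : n = 3 ^ k) (i : ZMod n) (x : G n)
    (h : ¬(IsUnit (x 0 0) ∧ IsUnit (x 1 0))) :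
    ¬(IsUnit ((Tm (3 * i) * x) 0 0) ∧ IsUnit ((Tm (3 * i) * x) 1 0)) := by
  have e0 : (Tm (3 * i) * x) 0 0 = x 0 0 + 3 * (i * x 1 0) := by
    simp only [mul2, Tm, mk_00, mk_01]
    ring
  have e1 : (Tm (3 * i) * x) 1 0 = x 1 0 := by
    simp only [mul2, Tm, mk_10, mk_11]
    ring
  rw [e0, e1]
  rintro ⟨h0, h1⟩
  refine h ⟨?_, h1⟩
  have h3 : IsNilpotent (3 : ZMod n) := ⟨k, by
    have : ((n : ℕ) : ZMod n) = 0 := ZMod.natCast_self n
    have h2 : ((3 ^ k : ℕ) : ZMod n) = 0 := by rw [← hn]; exact this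
    simpa using h2⟩
  have h4 : IsNilpotent (-(3 * (i * x 1 0))) :=
    ((Commute.all _ _).isNilpotent_mul_right h3).neg
  have h5 := h4.isUnit_add_left_of_commute h0 (Commute.all _ _)
  simpa using h5

lemma third {ρ : RA (G n) W} (K : Kit ρ) {k : ℕ} (hn : n = 3 ^ (k + 2)) (v : W)
    (h0 : ∀ x : G n, ¬(IsUnit (x 0 0) ∧ IsUnit (x 1 0)) → ρ.AT (3 ^ (k + 1)) (ρ.a x v) = 0)
    (h4 : ∀ x : G n, IsUnit (x 0 0) → IsUnit (x 1 0) →
      ∑ i ∈ range 3, ‖ρ.AT (3 ^ k) (ρ.a (Tm (3 * (i : ZMod n)) * x) v)‖ ^ 2 ≤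
        ‖ρ.AT (3 ^ (k + 1)) (ρ.a x v)‖ ^ 2) : 3 * mj ρ 3 v k ≤ mj ρ 3 v (k + 1) := by
  have e : 3 * mj ρ 3 v k = mean fun x : G n =>
      ∑ i ∈ range 3, ‖ρ.AT (3 ^ k) (ρ.a (Tm (3 * (i : ZMod n)) * x) v)‖ ^ 2 := by
    rw [mean_sum]
    have : ∀ i ∈ range 3, mean (fun x : G n =>
        ‖ρ.AT (3 ^ k) (ρ.a (Tm (3 * (i : ZMod n)) * x) v)‖ ^ 2) = mj ρ 3 v k := fun i _ =>
      mean_bij (fun x => ‖ρ.AT (3 ^ k) (ρ.a x v)‖ ^ 2) (Tm_bij _)
    rw [sum_congr rfl this]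
    simp
  rw [e]
  refine mean_mono fun x => ?_
  by_cases hx : IsUnit (x 0 0) ∧ IsUnit (x 1 0)
  · exact h4 x hx.1 hx.2
  · refine le_trans (le_of_eq (sum_eq_zero fun i _ => ?_)) (by positivity)
    have h1 := h0 _ (nonmid hn (i : ZMod n) x hx)
    have h2 := K.AT_mono (3 ^ k) (3 ^ (k + 1)) (ρ.a (Tm (3 * (i : ZMod n)) * x) v)
      (pow_dvd_pow 3 (Nat.le_succ k))
    rw [h1, norm_zero] at h2
    rw [le_antisymm h2 (norm_nonneg _)]
    simp

end GdMidAux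

open GdMidAux in
theorem row_GdMid : R_GdMid := by
  intro hK hTop hL4 p k n _ hp hk hn W _ _ ρ v T hT hv
  have K := hK n W ρ
  obtain ⟨t1, t2, t3⟩ := hTop p k n hp hk hn W ρ v K hv
  obtain ⟨b1, b2, b3, b4⟩ := t3 _ rfl
  have l4 := hL4 p k n hp hk hn W ρ v K hv
  obtain ⟨k, rfl⟩ : ∃ k', k = k' + 1 := ⟨k - 1, by omega⟩
  have hV : mj ρ p v (k + 1) = ‖v‖ ^ 2 := by
    unfold mj
    simp only [t1, ρ.nrm]
    exact mean_const _
  simp only [Nat.add_sub_cancel] at t2 b1 b2 b3 b4 l4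
  set B := ∑ u ∈ range p, ‖ρ.AT (p ^ k) (ρ.a (Lm (u : ZMod n)) v)‖ ^ 2 with hB
  have hA : mj ρ p v k = B / (p + 1) := b1
  have hp0 : (0 : ℝ) < p := by exact_mod_cast hp.pos
  have hq : (0 : ℝ) < (p : ℝ) ^ (k + 1) := by positivity
  have hE := E_eq K hp hn hk T v
  rw [sum_range_succ, hV] at hE
  have hr := rest K p k hT v
  have hT1 := hT.1 ((p : ℚ) ^ (k + 1))
  have hv0 : 0 ≤ ‖v‖ ^ 2 := by positivity
  have hopt : opts p (2 * (k + 1)) (k + 1) =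
      (2 / (((p : ℚ) + 1) * (p : ℚ) ^ (k + 1)), (p : ℚ) ^ (k + 1)) :: optMid p (k + 1) := by
    simp [opts]
  have one : ∀ c : ℝ, B ≤ c * ‖v‖ ^ 2 →
      (p + 1 - c) / ((p + 1) * (p : ℝ) ^ (k + 1)) * T ((p : ℚ) ^ (k + 1)) * ‖v‖ ^ 2 ≤
        ρ.E T v := by
    intro c hc
    have h1 : (p + 1 - c) / ((p + 1) * (p : ℝ) ^ (k + 1)) * T ((p : ℚ) ^ (k + 1)) * ‖v‖ ^ 2 =
        T ((p : ℚ) ^ (k + 1)) / (p : ℝ) ^ (k + 1) * (‖v‖ ^ 2 - c * ‖v‖ ^ 2 / (p + 1)) := by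
      field_simp
    have h2 : B / (p + 1) ≤ c * ‖v‖ ^ 2 / (p + 1) :=
      div_le_div_of_nonneg_right hc (by positivity)
    have h3 := mul_le_mul_of_nonneg_left (sub_le_sub_left h2 (‖v‖ ^ 2))
      (div_nonneg hT1 hq.le)
    rw [h1, hE, hA]
    linarith
  rw [hopt]
  by_cases h5 : 5 ≤ p
  · refine le_trans (le_of_eq ?_) (one 2 b3)
    simp only [optMid, if_pos h5, En, List.map, List.sum_cons, List.sum_nil, one_mul]
    push_cast
    field_simp
    ring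
  have h23 : p = 2 ∨ p = 3 := by
    have := hp.two_le
    have h4 : p ≠ 4 := by rintro rfl; exact absurd hp (by decide)
    omega
  rcases h23 with rfl | rfl
  · rcases Nat.eq_zero_or_pos k with rfl | hk0
    · refine le_trans (le_of_eq ?_) (one _ (b4 rfl))
      simp only [optMid, En]
      norm_num
      exact Or.inl (by ring)
    · refine le_trans (le_of_eq ?_) (one _ b2)
      have hk1 : k + 1 ≠ 1 := by omega
      simp only [optMid, if_neg hk1, En]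
      norm_num
  · rcases Nat.eq_zero_or_pos k with rfl | hk0
    · refine le_trans (le_of_eq ?_) (one _ (b4 rfl))
      simp only [optMid, En]
      norm_num
      exact Or.inl (by ring)
    · obtain ⟨k, rfl⟩ : ∃ k', k = k' + 1 := ⟨k - 1, by omega⟩
      have h3 := third K hn v t2 (l4 rfl (by omega))
      rw [sum_range_succ] at hE
      have hr' := rest K 3 k hT v
      have hm : T ((3 : ℚ) ^ (k + 1)) ≤ T ((3 : ℚ) ^ (k + 1 + 1)) :=
        hT.2 _ _ (by positivity) (pow_le_pow_right₀ (by norm_num) (by omega))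
      have hT0 := hT.1 ((3 : ℚ) ^ (k + 1))
      have hA0 : 0 ≤ mj ρ 3 v (k + 1) := mean_nonneg fun _ => by positivity
      have hA2 : mj ρ 3 v (k + 1) ≤ ‖v‖ ^ 2 / 2 := by
        rw [hA]
        push_cast
        linarith
      have hk1 : k + 1 + 1 ≠ 1 := by omega
      simp only [optMid, if_neg hk1, En]
      push_cast at hE hr' ⊢
      have hs : (0 : ℝ) < 3 ^ (k + 1) := by positivity
      rw [hE]
      norm_num
      generalize T (3 ^ (k + 1)) = a at *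
      generalize T (3 ^ (k + 1 + 1)) = b at *
      generalize mj ρ 3 v (k + 1) = A at *
      generalize mj ρ 3 v k = A' at *
      generalize ‖v‖ ^ 2 = V at *
      rw [pow_succ (3 : ℝ) (k + 1)]
      generalize (3 : ℝ) ^ (k + 1) = s at *
      have key : b * (V / 2) + a * (V / 2) ≤ 3 * (a * (A - A')) + b * (V - A) := by
        nlinarith [mul_nonneg (sub_nonneg.2 hm) (sub_nonneg.2 hA2), mul_nonneg hT0 hA0,
          mul_nonneg hT0 (sub_nonneg.2 h3)]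
      have k2 := div_le_div_of_nonneg_right key (by positivity : (0 : ℝ) ≤ s * 3)
      refine le_trans (le_of_eq ?_) (le_trans k2 (le_trans (le_of_eq ?_)
        (add_le_add_left (le_add_of_nonneg_left hr') _)))
      · field_simp
        ring
      · field_simp

end Pool.Agent.MP_b2c033_nt.UL
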