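import Pool.Agent.MP_b2c033_nt.UL.Spec

/-! The energy of a new vector at a root that is not in the middle. -/

namespace Pool.Agent.MP_b2c033_nt.UL

open U Finset
open scoped MatrixGroups Classical

namespace GdNMAux

theorem unit {p k n : ℕ} [NeZero n] (hp : p.Prime) (hn : n = p ^ k) {u : ZMod n}
    (h : ¬(p : ZMod n) ∣ u) : IsUnit u := by
  obtain ⟨a, rfl⟩ := ZMod.natCast_zmod_surjective u
  rw [ZMod.isUnit_iff_coprime, hn]
  exact ((Nat.Prime.coprime_iff_not_dvd hp).2 fun q => h (Nat.cast_dvd_cast q)).symm.pow_right k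

theorem nd {p k n : ℕ} [NeZero n] (hp : p.Prime) (hn : n = p ^ k) (hk : 1 ≤ k) :
    ¬(p : ZMod n) ∣ 1 := fun h => by
  have := (ZMod.isUnit_iff_coprime p n).1 (isUnit_of_dvd_one h)
  rw [hn] at this
  exact (Nat.Prime.coprime_iff_not_dvd hp).1 this (dvd_pow_self p (by omega))

/-- the indicator -/
noncomputable def I (p : ℕ) {n : ℕ} (m : ℕ) (x : G n) : ℝ :=
  if (p : ZMod n) ^ m ∣ x 1 0 then 1 else 0

end GdNMAux

open GdNMAux

theorem row_GdNM : R_GdNM := by
  intro KK KC KT KL p e i n _ hp hi he hn W _ _ ρ v T hT hv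
  have kit := KK n W ρ
  have p0 : (0 : ℝ) < p := by exact_mod_cast hp.pos
  have hn' : n = p ^ max i (e - i) := by rw [max_eq_right (by omega), hn]
  set c : ℕ → ℝ := fun j => T ((p : ℚ) ^ j) / (p : ℝ) ^ j * ‖v‖ ^ 2 with hc
  set S : G n → ℝ := fun x => ∑ j ∈ range (e - i), T ((p : ℚ) ^ (j + 1)) / (p : ℝ) ^ (j + 1) *
    (‖ρ.AT (p ^ (j + 1)) (ρ.a x v)‖ ^ 2 - ‖ρ.AT (p ^ j) (ρ.a x v)‖ ^ 2) with hS
  have nn : ∀ x : G n, ∀ j ∈ range (e - i), 0 ≤ T ((p : ℚ) ^ (j + 1)) / (p : ℝ) ^ (j + 1) *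
      (‖ρ.AT (p ^ (j + 1)) (ρ.a x v)‖ ^ 2 - ‖ρ.AT (p ^ j) (ρ.a x v)‖ ^ 2) := fun x j _ =>
    mul_nonneg (div_nonneg (hT.1 _) (by positivity)) (sub_nonneg.2 (pow_le_pow_left₀
      (norm_nonneg _) (kit.AT_mono _ _ _ (pow_dvd_pow p j.le_succ)) 2))
  have one : ∀ (x : G n) j, 1 ≤ j → j ≤ e - i → ρ.AT (p ^ j) (ρ.a x v) = ρ.a x v ∧
      ρ.AT (p ^ (j - 1)) (ρ.a x v) = 0 → c j ≤ S x := fun x j h1 h2 h => by
    obtain ⟨j, rfl⟩ := Nat.exists_eq_add_of_le' h1
    refine le_trans (le_of_eq ?_) (single_le_sum (nn x) (mem_range.2 h2))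
    rw [h.1, show ρ.AT (p ^ j) _ = 0 from h.2, ρ.nrm, norm_zero]
    simp [hc]
  have low : ∀ x : G n, ∑ m ∈ range ((e - 2 * i - 1) / 2 + 1),
      (c (e - i - 2 * m) * I p m x + -c (e - i - 2 * m) * I p (m + 1) x) +
        c i * I p ((e - 2 * i) / 2 + 1) x ≤ S x := fun x => by
    by_cases h : (p : ZMod n) ^ ((e - 2 * i) / 2 + 1) ∣ x 1 0
    · have u : IsUnit (x 0 0) := unit hp hn fun q => nd hp hn (by omega) (det2 x ▸
        (q.mul_right _).sub (((dvd_pow_self _ (by omega)).trans h).mul_left _))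
      rw [sum_eq_zero fun m hm => ?_, zero_add, I, if_pos h, mul_one]
      · exact one x i hi (by omega) (KT p i (e - i) _ n hp hi (by omega) hn' (by omega) W ρ v x
          hv u h)
      · rw [mem_range] at hm
        rw [I, I, if_pos ((pow_dvd_pow _ (by omega)).trans h),
          if_pos ((pow_dvd_pow _ (by omega)).trans h)]
        ring
    have ex : ∃ m, ¬(p : ZMod n) ^ (m + 1) ∣ x 1 0 := ⟨_, h⟩
    have a1 := Nat.find_spec ex
    have a2 : (p : ZMod n) ^ Nat.find ex ∣ x 1 0 := by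
      rcases Nat.eq_zero_or_pos (Nat.find ex) with q | q
      · simp [q]
      · have := not_not.1 (Nat.find_min ex (Nat.sub_one_lt q.ne'))
        rwa [Nat.sub_add_cancel q] at this
    generalize Nat.find ex = k at a1 a2
    have z : ∀ m, m ≠ k →
        c (e - i - 2 * m) * I p m x + -c (e - i - 2 * m) * I p (m + 1) x = 0 := fun m hm => by
      rcases lt_or_gt_of_ne hm with q | q
      · rw [I, I, if_pos ((pow_dvd_pow _ q.le).trans a2), if_pos ((pow_dvd_pow _ q).trans a2)]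
        ring
      · rw [I, I, if_neg fun r => a1 ((pow_dvd_pow _ q).trans r),
          if_neg fun r => a1 ((pow_dvd_pow _ (by omega)).trans r)]
        ring
    rw [I, if_neg h, mul_zero, add_zero]
    by_cases hk : k ∈ range ((e - 2 * i - 1) / 2 + 1)
    · rw [sum_eq_single_of_mem k hk fun m _ hm => z m hm, I, I, if_pos a2, if_neg a1, mul_zero,
        add_zero, mul_one]
      rw [mem_range] at hk
      obtain ⟨u, hu⟩ := a2
      exact one x _ (by omega) (by omega) (KL p i (e - i) k 0 n hp hi (by omega) hn' (by omega)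
        (by omega) W ρ v x u hv (unit hp hn fun q => a1 (by
          rw [hu, pow_succ]
          exact mul_dvd_mul_left _ q)) hu (by simp))
    · rw [sum_eq_zero fun m hm => z m fun q => hk (q ▸ hm)]
      exact sum_nonneg (nn x)
  have cn : ∀ m, m + 1 ≤ e - i → mean (I p (m + 1) : G n → ℝ) = 1 / ((p : ℝ) ^ m * (p + 1)) :=
    fun m hm => (congrArg mean (funext fun x => by simp [I])).trans
      (KC p _ (m + 1) n hp hn (by omega) hm)
  have c0 : mean (I p 0 : G n → ℝ) = 1 := by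
    rw [← mean_const (n := n) 1]
    exact congrArg _ (funext fun x => by simp [I])
  have sm : ∀ m ∈ range ((e - 2 * i - 1) / 2), mean (fun x : G n =>
      c (e - i - 2 * (m + 1)) * I p (m + 1) x + -c (e - i - 2 * (m + 1)) * I p (m + 1 + 1) x) =
      c (e - i - 2 * (m + 1)) * (1 / ((p : ℝ) ^ m * (p + 1))) +
        -c (e - i - 2 * (m + 1)) * (1 / ((p : ℝ) ^ (m + 1) * (p + 1))) := fun m hm => by
    rw [mem_range] at hm
    rw [mean_add, mean_mul, mean_mul, cn _ (by omega), cn _ (by omega)]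
  rw [kit.loc p (e - i) hp hn (by omega)]
  refine le_trans (le_of_eq ?_) (mean_mono low)
  rw [mean_add, mean_sum, mean_mul, cn _ (by omega), sum_range_succ', mean_add, mean_mul, mean_mul,
    c0, cn _ (by omega), sum_congr rfl sm]
  simp only [En, opts, if_neg (show ¬i = 0 by omega), if_neg he.ne, List.map_cons, List.sum_cons,
    List.map_map, one_mul, add_mul]
  rw [← List.sum_map_mul_right]
  change _ + (_ + ∑ m ∈ range _, _) = _
  rw [sum_congr rfl (g := fun m => c (e - i - 2 * (m + 1)) * (1 / ((p : ℝ) ^ m * (p + 1))) +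
    -c (e - i - 2 * (m + 1)) * (1 / ((p : ℝ) ^ (m + 1) * (p + 1)))) fun m _ => ?_]
  · generalize (∑ m ∈ range _, _ : ℝ) = s
    simp only [hc, mul_zero, Nat.sub_zero]
    push_cast
    field_simp
    ring
  · simp only [hc, Function.comp_apply]
    push_cast
    field_simp
    ring

end Pool.Agent.MP_b2c033_nt.UL
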