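import Pool.Agent.MP_b2c033_nt.UL.Spec

/-! The special root at level `256`. -/

namespace Pool.Agent.MP_b2c033_nt.UL

open U CongruenceSubgroup
open scoped MatrixGroups InnerProductSpace

noncomputable section

namespace H256Aux

lemma mat : Vd (1 / 16) * Lw 1 * Tr 2 = ⟨-1, 0, 0, -1⟩ * eta256 * (Vd (1 / 16) * Lw 1) := by
  ext <;> simp [Vd, Lw, Tr, eta256] <;> norm_num

variable {V : Type} [NormedAddCommGroup V] [InnerProductSpace ℂ V] (C : CS V)

lemma fix {g : V} (h : C.act (Tr 2) (C.act (Lw 1) (C.act (Vd (1 / 16)) g)) =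
    C.act (Lw 1) (C.act (Vd (1 / 16)) g)) : C.act eta256 g = g := by
  have d1 : 0 < (Vd (1 / 16) * Lw 1).det := by simp [Mt.det_mul]
  have d2 : 0 < (⟨-1, 0, 0, -1⟩ : Mt).det := by simp [Mt.det]
  have d3 : 0 < eta256.det := by norm_num [Mt.det, eta256]
  rw [← C.act_mul (Vd _) _ _ (by simp) (by simp), ← C.act_mul _ _ _ d1 (by simp), mat,
    C.act_mul _ _ _ (Mt.det_mul _ _ ▸ mul_pos d2 d3) d1, C.act_mul _ _ _ d2 d3,
    C.act_sc _ _ (by norm_num), ← sub_eq_zero, ← map_sub] at h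
  rw [← sub_eq_zero, ← inner_self_eq_zero (𝕜 := ℂ), ← C.inner_act _ _ _ d1, h, inner_zero_left]

lemma ord {X : ℕ} {D : ℕ → ℕ} (h : X ∣ 16) (h' : ¬X ∣ 2) (hD : 2 ≤ D 2) :
    Full 16 X ∧ Rc D 16 X := by
  obtain ⟨k, -, rfl⟩ := (Nat.dvd_prime_pow (m := 4) Nat.prime_two).1 h
  have k2 : 2 ≤ k := by
    by_contra q
    exact h' (pow_dvd_pow 2 (show k ≤ 1 by omega))
  refine ⟨fun p hp q => (hp.dvd_of_dvd_pow (n := 4) (m := 2) q).trans
    (dvd_pow_self 2 (by omega)), h, fun p _ => ?_⟩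
  rw [show 16 = 2 ^ 4 from rfl, Nat.prime_two.factorization_pow, Nat.prime_two.factorization_pow]
  by_cases e : 2 = p
  · subst e
    simp only [Finsupp.single_eq_same]
    omega
  · simp [e]

end H256Aux

open H256Aux in
theorem row_H256 : K_H256 := by
  intro V _ _ C N g b N₁ r r' n _ W _ _ ρ ι v S h1 h2 h3 hne D hD
  subst h1 h2 h3
  have m : ∀ γ : SZ, γ ∈ Gamma0 1 := fun γ => Gamma0_mem.2 (Subsingleton.elim _ _)
  obtain ⟨χ, c1, c2⟩ := S.kit.ex 2 (ρ.a (Lm 1) v) fun e => hne (fix C (by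
    have f := S.kit.AT_fix 2 1 (ρ.a (Lm 1) v)
    have l := S.br.act (Lm 1) (m _) v
    have t := S.br.act (Tm 2) (m _) (ρ.a (Lm 1) v)
    rw [e, mul_one] at f
    rw [red_Lm, ofZ_Lm, S.val, Int.cast_one] at l
    rw [red_Tm, ofZ_Tm, Int.cast_two, show (2 : ZMod 16) = (2 : ℕ) from rfl, f, l] at t
    simpa using t.symm))
  exact ⟨Lm 1, χ, isUnit_one, isUnit_one, ord (S.kit.od_dvd χ) c2 hD, c1⟩

end

end Pool.Agent.MP_b2c033_nt.UL
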