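import Pool.Agent.MP_b2c033_nt.UL.Spec

/-! A component of full order gives a coefficient with numerator prime to the level. -/

namespace Pool.Agent.MP_b2c033_nt.UL

open U

theorem row_HB1 : K_HB1 := by
  rintro V _ _ C N g b N₁ r r' n _ W _ _ ρ ι v S D ⟨x, χ, h0, h1, ⟨hF, hR⟩, hP⟩
  obtain ⟨ν, hν⟩ := not_forall.1 fun h => hP ((map_eq_zero_iff ι ι.injective).1 (C.β_inj _ h))
  rw [S.br.pj] at hν
  obtain ⟨e, k⟩ := ite_ne_right_iff.1 hν
  rw [S.br.od χ ν e] at hF hR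
  obtain ⟨m, hm⟩ := Int.eq_ofNat_of_zero_le
    (Rat.num_nonneg.2 (not_le.1 fun h => k (C.β_neg ν _ h)).le)
  have c := ν.reduced
  rw [hm, Int.natAbs_natCast] at c
  refine ⟨x, m, ν.den, h0, h1, Nat.coprime_of_dvd fun p hp a a' =>
    hp.one_lt.ne' (Nat.eq_one_of_dvd_coprimes c a (hF p hp a')), hR, ?_⟩
  rwa [← Int.cast_natCast m, ← hm, Rat.num_div_den]

end Pool.Agent.MP_b2c033_nt.UL
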