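import Pool.Agent.MP_b2c033_nt.UL.Spec

/-! A coefficient with numerator prime to the level, at the root `(4, 4)`. -/

namespace Pool.Agent.MP_b2c033_nt.UL

open U CongruenceSubgroup

theorem row_HB2 : R_HB2 := by
  intro hS V _ _ C N g b N₁ r r' n _ W _ _ ρ ι v S D h2 hD ⟨x, z, ε, x0, x1, z0, hε, hz, hχ⟩
  have o1 : Odd N₁ := Nat.coprime_two_right.1 (S.cop.coprime_dvd_right h2)
  have it : ∀ k : ℕ, ρ.a (Lm ((k : ZMod n) * (2 * ε))) z = (-1 : ℂ) ^ k • z := fun k => by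
    induction k with
    | zero => simp [ρ.one]
    | succ k ih =>
      rw [Nat.cast_succ, add_mul, one_mul, Lm_add, ρ.mul, ih, map_smul, hz, pow_succ, mul_smul,
        neg_one_smul]
  have h1 := S.br.act (Lm (2 * ((ε : ℤ) * N₁))) (by simp [Gamma0_mem, Lm]) z
  have e : ((2 * ((ε : ℤ) * N₁) : ℤ) : ZMod n) = (N₁ : ZMod n) * (2 * ε) := by
    push_cast
    ring
  rw [red_Lm, ofZ_Lm, e, it, o1.neg_one_pow, neg_one_smul, map_neg, Int.cast_mul,
    Int.cast_ofNat] at h1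
  obtain ⟨ν, hν, v2⟩ := hS V C S.good (ι z) ((ε : ℤ) * N₁) (fun q => z0 (ι.injective
    (q.trans (map_zero ι).symm))) (hε.natCast.mul o1.natCast) h1.symm
  obtain ⟨χ, c1⟩ := S.br.ch ν (S.br.den z ν hν)
  have p1 := S.br.pj χ z ν
  have p2 := S.br.pj χ (ρ.a x v) ν
  rw [if_pos c1] at p1 p2
  obtain ⟨k1, k2⟩ := (hχ χ).resolve_left fun q => hν (by rw [← p1, q, map_zero, map_zero])
  rw [S.br.od χ ν c1] at k2
  have n0 : 0 < ν := not_le.1 fun q => hν (C.β_neg ν _ q)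
  have n1 : ((ν.num.natAbs : ℕ) : ℚ) / ν.den = ν := by
    rw [Nat.cast_natAbs, abs_of_pos (Rat.num_pos.2 n0), Rat.num_div_den]
  refine ⟨x, ν.num.natAbs, ν.den, x0, x1, Nat.coprime_of_dvd fun p hp d1 d2 => ?_,
    ⟨S.br.den z ν hν, fun p hp => ?_⟩, by rw [n1, ← p2, ← k1, p1]; exact hν⟩
  · have nd : ¬ p ∣ ν.den := fun d3 => hp.ne_one (Nat.eq_one_of_dvd_coprimes ν.reduced d1 d3)
    by_cases q : p = 2
    · subst q
      have := one_le_padicValNat_of_dvd (p := 2) (Int.natAbs_ne_zero.2 (Rat.num_pos.2 n0).ne') d1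
      rw [padicValRat, padicValInt, padicValNat.eq_zero_of_not_dvd nd] at v2
      omega
    · exact nd (k2 p hp d2 q).1
  · by_cases d : p ∣ n
    · by_cases q : p = 2
      · subst q
        omega
      · exact (k2 p hp d q).2
    · rw [Nat.factorization_eq_zero_of_not_dvd d]
      omega

end Pool.Agent.MP_b2c033_nt.UL
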