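import Pool.Agent.MP_b2c033_nt.UL.Spec

/-! Row HK: the Hecke relation at all cusps. -/

set_option autoImplicit false

namespace Pool.Agent.MP_b2c033_nt.UL

open U Finset CongruenceSubgroup

namespace HKAux

theorem ee_int (m : ℤ) : ee m = 1 := by
  have := Complex.exp_int_mul_two_pi_mul_I m
  rw [ee, ← this]
  congr 1
  push_cast
  ring

theorem ee_nat (x : ℚ) (j : ℕ) : ee (x * j) = ee x ^ j := by
  rw [ee, ee, ← Complex.exp_nat_mul]
  congr 1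
  push_cast
  ring

theorem ee_one {x : ℚ} (h : ee x = 1) : ∃ m : ℤ, x = m := by
  obtain ⟨m, hm⟩ := Complex.exp_eq_one_iff.1 h
  refine ⟨m, ?_⟩
  have h1 : (x : ℂ) = m := mul_left_cancel₀ Complex.two_pi_I_ne_zero (hm.trans (mul_comm _ _))
  exact_mod_cast h1

variable {V : Type} [NormedAddCommGroup V] [InnerProductSpace ℂ V] (C : CS V)

theorem b_Vd {s : ℚ} (hs : 0 < s) (μ : ℚ) (w : V) :
    C.β μ (C.act (Vd s) w) = s * C.β (μ / s) w := by
  have := C.β_Vd s (μ / s) w hs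
  rwa [mul_div_cancel₀ _ hs.ne'] at this

theorem b_al {q : ℚ} (hq : 0 < q) (y μ : ℚ) (w : V) :
    C.β μ (C.act ⟨1, y, 0, q⟩ w) = ee (μ * y) * ((q : ℂ)⁻¹ * C.β (q * μ) w) := by
  have h0 : (0 : ℚ) < 1 / q := by positivity
  have h1 : (⟨1, y, 0, q⟩ : Mt) = (⟨q, 0, 0, q⟩ : Mt) * (Vd (1 / q) * Tr y) := by
    ext <;> simp [Vd, Tr, hq.ne']
  rw [h1, C.act_mul _ _ _ (by simp [Mt.det, hq]) (by simpa [Mt.det_mul] using hq),
    C.act_sc _ _ hq.ne', C.act_mul _ _ _ (by simpa using hq) (by simp), C.β_Tr, b_Vd C h0,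
    div_div_eq_mul_div, div_one, mul_comm μ q]
  push_cast
  rw [one_div]

theorem num {N : ℕ} {b : ℕ → ℤ} (hb : Coef N b) (B : ℚ → ℂ) (h1 : ∀ m : ℕ, B m = b m)
    (h2 : ∀ ν, B ν ≠ 0 → ∃ m : ℕ, ν = m) {q k : ℕ} (hq : q.Prime) (hk : q.Coprime k) (t : ℚ) :
    b q * B t = (∑ j ∈ range q, ee (t * k * j)) * ((q : ℂ)⁻¹ * B (q * t)) +
      (if q ∣ N then 0 else (q : ℂ)) * B (t / q) := by
  have q0 : (q : ℚ) ≠ 0 := by exact_mod_cast hq.ne_zero
  have q1 : (q : ℂ) ≠ 0 := by exact_mod_cast hq.ne_zero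
  by_cases ht : ∃ m : ℕ, t = m
  · obtain ⟨m, rfl⟩ := ht
    have a1 : ∀ j : ℕ, ee ((m : ℚ) * k * j) = 1 := fun j => by
      have := ee_int ((m * k * j : ℕ) : ℤ)
      push_cast at this
      exact this
    have a2 : B (q * m) = b (q * m) := by rw [← h1]; push_cast; rfl
    have a3 : B (m / q) = dn b q m := by
      unfold dn
      split_ifs with h
      · rw [← h1, Nat.cast_div h q0]
      · rw [Int.cast_zero]
        by_contra hn
        obtain ⟨m', e⟩ := h2 _ hn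
        rw [div_eq_iff q0] at e
        exact h ⟨m', by rw [mul_comm]; exact_mod_cast e⟩
    simp only [a1, sum_const, card_range, nsmul_eq_mul, mul_one]
    rw [a2, a3, h1, hb.rel q m hq, ← mul_assoc, mul_inv_cancel₀ q1]
    split_ifs <;> push_cast <;> ring
  · have a1 : B t = 0 := by
      by_contra hn
      exact ht (h2 _ hn)
    have a2 : B (t / q) = 0 := by
      by_contra hn
      obtain ⟨m, e⟩ := h2 _ hn
      rw [div_eq_iff q0] at e
      exact ht ⟨m * q, by rw [e]; push_cast; rfl⟩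
    rw [a1, a2, mul_zero, mul_zero, add_zero]
    by_cases h3 : B (q * t) = 0
    · rw [h3, mul_zero, mul_zero]
    obtain ⟨m, e⟩ := h2 _ h3
    have a3 : ee (t * k) ^ q = 1 := by
      rw [← ee_nat, show t * k * q = ((m * k : ℕ) : ℤ) by push_cast; rw [← e]; ring, ee_int]
    have a4 : ee (t * k) ≠ 1 := by
      intro h
      obtain ⟨z, hz⟩ := ee_one h
      have a5 : (m : ℤ) * k = q * z := by
        have : (m : ℚ) * k = q * z := by rw [← hz, ← e]; ring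
        exact_mod_cast this
      have a6 : q ∣ m * k := Int.natCast_dvd_natCast.1 ⟨z, by exact_mod_cast a5⟩
      obtain ⟨m', rfl⟩ := hk.dvd_of_dvd_mul_right a6
      exact ht ⟨m', mul_left_cancel₀ q0 (by rw [e]; push_cast; rfl)⟩
    have a5 : ∑ j ∈ range q, ee (t * k * j) = 0 := by
      simp only [ee_nat (t * k)]
      rw [geom_sum_eq a4, a3, sub_self, zero_div]
    rw [a5, zero_mul]

theorem vec {N : ℕ} {g : V} {b : ℕ → ℤ} (hb : NF C N g b)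
    (h2 : ∀ ν, C.β ν g ≠ 0 → ∃ m : ℕ, ν = m) {q r k : ℕ} (hq : q.Prime) (hr : 0 < r)
    (hk : q.Coprime k) :
    (b q : ℂ) • C.act (Vd (1 / r)) g =
      ∑ j ∈ range q, C.act ⟨1, (r * k * j : ℕ), 0, q⟩ (C.act (Vd (1 / r)) g) +
      (if q ∣ N then 0 else (1 : ℂ)) • C.act (Vd q) (C.act (Vd (1 / r)) g) := by
  have q0 : (0 : ℚ) < q := by exact_mod_cast hq.pos
  have r0 : (0 : ℚ) < 1 / r := by positivity
  refine sub_eq_zero.1 (C.β_inj _ fun μ => ?_)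
  have h := num hb.coef (fun ν => C.β ν g) hb.co h2 hq hk (μ * r)
  simp only [map_sub, map_add, map_smul, map_sum, b_al C q0, b_Vd C q0, b_Vd C r0, smul_eq_mul,
    ← sum_mul, div_div_eq_mul_div, div_one]
  have e1 : ∀ j : ℕ, μ * ((r * k * j : ℕ) : ℚ) = μ * r * k * j := fun j => by push_cast; ring
  simp only [e1]
  rw [mul_assoc (q : ℚ), div_mul_eq_mul_div]
  simp only [Rat.cast_natCast]
  split_ifs at h ⊢
  · linear_combination (((1 / r : ℚ) : ℂ)) * h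
  · linear_combination (((1 / r : ℚ) : ℂ)) * h

theorem ent {K : ℕ} {γ : SZ} (h : γ ∈ Gamma K) : (K : ℤ) ∣ γ 0 0 - 1 ∧ (K : ℤ) ∣ γ 0 1 ∧
    (K : ℤ) ∣ γ 1 0 ∧ (K : ℤ) ∣ γ 1 1 - 1 := by
  obtain ⟨h1, h2, h3, h4⟩ := Gamma_mem.1 h
  simp only [← ZMod.intCast_zmod_eq_zero_iff_dvd]
  push_cast
  exact ⟨sub_eq_zero.2 h1, h2, h3, sub_eq_zero.2 h4⟩

theorem conj1 {K q : ℕ} {γ : SZ} (h : γ ∈ Gamma (K * q)) (y : ℤ) : ∃ δ ∈ Gamma0 K,
    δ 0 0 = γ 0 0 + y * γ 1 0 ∧ q * δ 0 1 = γ 0 1 + y * (γ 1 1 - γ 0 0 - y * γ 1 0) ∧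
      δ 1 0 = q * γ 1 0 ∧ δ 1 1 = γ 1 1 - y * γ 1 0 := by
  obtain ⟨⟨a, ha⟩, ⟨b, hb⟩, ⟨c, hc⟩, ⟨d, hd⟩⟩ := ent h
  push_cast at ha hb hc hd
  have e : (q : ℤ) * (K * (b + y * (d - a - y * c))) =
      γ 0 1 + y * (γ 1 1 - γ 0 0 - y * γ 1 0) := by
    linear_combination -hb - y * hd + y * ha + y ^ 2 * hc
  refine ⟨mkZ (γ 0 0 + y * γ 1 0) (K * (b + y * (d - a - y * c))) (q * γ 1 0)
    (γ 1 1 - y * γ 1 0) (by linear_combination detZ γ - γ 1 0 * e), ?_, rfl, e, rfl, rfl⟩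
  rw [Gamma0_mem, mkZ_10, ZMod.intCast_zmod_eq_zero_iff_dvd, hc]
  exact ⟨q * q * c, by ring⟩

theorem conj2 {K q : ℕ} {γ : SZ} (h : γ ∈ Gamma (K * q)) : ∃ δ ∈ Gamma0 K,
    δ 0 0 = γ 0 0 ∧ δ 0 1 = q * γ 0 1 ∧ q * δ 1 0 = γ 1 0 ∧ δ 1 1 = γ 1 1 := by
  obtain ⟨-, -, ⟨c, hc⟩, -⟩ := ent h
  push_cast at hc
  have e : (q : ℤ) * (K * c) = γ 1 0 := by linear_combination -hc
  refine ⟨mkZ (γ 0 0) (q * γ 0 1) (K * c) (γ 1 1) (by linear_combination detZ γ - γ 0 1 * e),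
    ?_, rfl, rfl, e, rfl⟩
  rw [Gamma0_mem, mkZ_10, ZMod.intCast_zmod_eq_zero_iff_dvd]
  exact ⟨c, rfl⟩

end HKAux

open HKAux in
theorem row_HK : R_HK := by
  intro hI V _ _ C N g b N₁ r r' n _ W _ _ ρ ι v S q x ν hq hqn hν
  obtain ⟨k, hk⟩ := S.rt.dr
  have n0 : n ≠ 0 := NeZero.ne n
  have r0 : 0 < r := Nat.pos_of_ne_zero fun h => n0 (by rw [hk, h, zero_mul])
  have q0 : (0 : ℚ) < q := by exact_mod_cast hq.pos
  have q1 : (q : ℂ) ≠ 0 := by exact_mod_cast hq.ne_zero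
  have hv := vec C S.nf (fun ν h => ((hI V C S.good N g b S.nf).2.2.1 ν h).imp fun _ h => h.1)
    hq r0 (Nat.Coprime.coprime_dvd_right ⟨r, by rw [hk, mul_comm]⟩ hqn)
  rw [← S.val, ← hk] at hv
  obtain ⟨γ, hγ, hx⟩ := S.br.sur (tw (un n q) x) (N₁ * q) (S.cop.mul_left hqn)
  have uq : (un n q : ZMod n) = q := un_coe hqn
  have ui : (q : ZMod n) * ↑(un n q)⁻¹ = 1 := by rw [← uq, Units.mul_inv]
  have x0 : ((γ 0 0 : ℤ) : ZMod n) = x 0 0 := congrArg (fun z : G n => z 0 0) hx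
  have x1 : ((γ 0 1 : ℤ) : ZMod n) = x 0 1 * un n q := congrArg (fun z : G n => z 0 1) hx
  have x2 : ((γ 1 0 : ℤ) : ZMod n) = x 1 0 * ↑(un n q)⁻¹ := congrArg (fun z : G n => z 1 0) hx
  have x3 : ((γ 1 1 : ℤ) : ZMod n) = x 1 1 := congrArg (fun z : G n => z 1 1) hx
  have g0 : γ ∈ Gamma0 N₁ := by
    rw [Gamma0_mem, ZMod.intCast_zmod_eq_zero_iff_dvd]
    exact (Int.natCast_dvd_natCast.2 (dvd_mul_right _ _)).trans (ent hγ).2.2.1
  have h1 : ∀ j : ℕ, C.β ν (C.act (ofZ γ) (C.act ⟨1, (n * j : ℕ), 0, q⟩ (ι v))) =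
      (q : ℂ)⁻¹ * C.β (q * ν) (ι (ρ.a x v)) := by
    intro j
    obtain ⟨δ, hδ, d0, d1, d2, d3⟩ := conj1 hγ ((n * j : ℕ) : ℤ)
    have y0 : (((n * j : ℕ) : ℤ) : ZMod n) = 0 := by simp
    have hr : red n δ = x := by
      apply ext2 <;> rw [red_apply]
      · rw [d0, Int.cast_add, Int.cast_mul, y0, x0, zero_mul, add_zero]
      · have := congrArg (Int.cast : ℤ → ZMod n) d1
        rw [Int.cast_add, Int.cast_mul, Int.cast_mul, y0, x1, uq, Int.cast_natCast] at this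
        linear_combination ↑(un n q)⁻¹ * this - ((δ 0 1 : ZMod n) - x 0 1) * ui
      · rw [d2, Int.cast_mul, x2, Int.cast_natCast]
        linear_combination x 1 0 * ui
      · rw [d3, Int.cast_sub, Int.cast_mul, y0, x3, zero_mul, sub_zero]
    have hd : 0 < (⟨1, (n * j : ℕ), 0, q⟩ : Mt).det := by simpa [Mt.det] using hq.pos
    have e : (⟨1, (n * j : ℕ), 0, q⟩ : Mt) * ofZ γ = ofZ δ * ⟨1, (n * j : ℕ), 0, q⟩ := by
      have d1' := congrArg (Int.cast : ℤ → ℚ) d1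
      ext <;> simp only [Mt.mul_a, Mt.mul_b, Mt.mul_c, Mt.mul_d, ofZ, d0, d2, d3] <;>
        push_cast at d1' ⊢
      · ring
      · linear_combination -d1'
      · ring
      · ring
    obtain ⟨m, hm⟩ := hν
    have e2 : ν * ((n * j : ℕ) : ℚ) = ((ν.num * m * j : ℤ) : ℚ) := by
      rw [hm]
      push_cast
      rw [← Rat.mul_den_eq_num]
      ring
    rw [← C.act_mul _ _ _ hd (by simp), e, C.act_mul _ _ _ (by simp) hd, ← S.br.act δ hδ, hr,
      b_al C q0, e2, ee_int, one_mul, Rat.cast_natCast]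
  have h2 : C.β ν (C.act (ofZ γ) (C.act (Vd q) (ι v))) =
      q * C.β (ν / q) (ι (ρ.a (tw (un n q) (tw (un n q) x)) v)) := by
    obtain ⟨δ, hδ, d0, d1, d2, d3⟩ := conj2 hγ
    have hr : red n δ = tw (un n q) (tw (un n q) x) := by
      apply ext2 <;> rw [red_apply] <;> simp only [tw, mk_00, mk_01, mk_10, mk_11]
      · rw [d0, x0]
      · rw [d1, Int.cast_mul, x1, uq, Int.cast_natCast, mul_comm]
      · have := congrArg (Int.cast : ℤ → ZMod n) d2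
        rw [Int.cast_mul, x2, Int.cast_natCast] at this
        linear_combination ↑(un n q)⁻¹ * this - (δ 1 0 : ZMod n) * ui
      · rw [d3, x3]
    have e : Vd q * ofZ γ = ofZ δ * Vd q := by
      have d2' := congrArg (Int.cast : ℤ → ℚ) d2
      ext <;> simp only [Mt.mul_a, Mt.mul_b, Mt.mul_c, Mt.mul_d, ofZ, Vd, d0, d1, d3] <;>
        push_cast at d2' ⊢
      · ring
      · ring
      · linear_combination -d2'
      · ring
    rw [← C.act_mul _ _ _ (by simpa using hq.pos) (by simp), e,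
      C.act_mul _ _ _ (by simp) (by simpa using hq.pos), ← S.br.act δ hδ, hr, b_Vd C q0,
      Rat.cast_natCast]
  have h3 := congrArg (fun w => C.β ν (C.act (ofZ γ) w)) hv
  simp only [map_add, map_smul, map_sum, h1, h2, smul_eq_mul, sum_const, card_range,
    nsmul_eq_mul] at h3
  rw [← S.br.act γ g0, hx, ← mul_assoc, mul_inv_cancel₀ q1] at h3
  split_ifs at h3 ⊢
  · linear_combination -h3
  · linear_combination -h3

end Pool.Agent.MP_b2c033_nt.UL
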