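import Pool.Agent.MP_b2c033_nt.UL.Spec

/-! Row UN-L.HZ: the pointwise bound for the horoball sum. -/

namespace Pool.Agent.MP_b2c033_nt.UL

open U Finset CongruenceSubgroup
open scoped MatrixGroups Classical InnerProductSpace

noncomputable section

namespace HZAux

lemma inj {Q n X X' m m' : ℕ} (hQ : Q ≠ 0) (hn : n ≠ 0) (hX : X ∣ n) (hX' : X' ∣ n)
    (hm : m.Coprime n) (hm' : m'.Coprime n)
    (h : (m : ℚ) / (Q * X : ℕ) = (m' : ℚ) / (Q * X' : ℕ)) : X = X' ∧ m = m' := by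
  have h0 : X ≠ 0 := ne_zero_of_dvd_ne_zero hn hX
  have h0' : X' ≠ 0 := ne_zero_of_dvd_ne_zero hn hX'
  rw [div_eq_div_iff (by exact_mod_cast mul_ne_zero hQ h0) (by exact_mod_cast mul_ne_zero hQ h0')]
    at h
  have h1 : m * (Q * X') = m' * (Q * X) := by exact_mod_cast h
  have h2 : m * X' = m' * X := Nat.eq_of_mul_eq_mul_left (Nat.pos_of_ne_zero hQ) (by linarith)
  have e : X = X' := Nat.dvd_antisymm
    ((hm.coprime_dvd_right hX).symm.dvd_of_dvd_mul_left ⟨m', by linarith⟩)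
    ((hm'.coprime_dvd_right hX').symm.dvd_of_dvd_mul_left ⟨m, by linarith⟩)
  subst e
  exact ⟨rfl, Nat.eq_of_mul_eq_mul_right (Nat.pos_of_ne_zero h0) h2⟩

lemma phi_nonneg {L n₀ : ℕ} {ν : ℚ} (h : ν ∈ Phi L n₀) : (0 : ℝ) ≤ ν := by
  obtain ⟨y, -, rfl⟩ := mem_image.1 h
  positivity

end HZAux

open HZAux in
theorem row_HZ : R_HZ := by
  intro hI V _ _ C N g b N₁ r r' n _ W _ _ ρ ι v S hM hW n₀ γ
  have hpos : ∀ ν ∈ Phi (N₁ * n) n₀,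
      0 ≤ ‖C.β ν (C.act (ofZ γ) (ι v))‖ ^ 2 * Real.exp (-(4 * Real.pi * ν)) / ν := fun ν hν =>
    div_nonneg (by positivity) (phi_nonneg hν)
  unfold Hf
  split_ifs with hO
  swap
  · exact sum_nonneg hpos
  have hn : n ≠ 0 := NeZero.ne n
  have hN : N ≠ 0 := S.nf.coef.pos.ne'
  have hN₁ : N₁ ≠ 0 := fun h => hN (by rw [S.eq, h, zero_mul])
  have hg : gN N₁ γ ∣ N₁ := by
    have := Int.gcd_dvd_right (a := γ 1 0) (b := (N₁ : ℤ))
    exact_mod_cast this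
  have hQd : Qw N₁ γ ∣ N₁ := Nat.div_dvd_of_dvd hg
  have hQ : Qw N₁ γ ≠ 0 := ne_zero_of_dvd_ne_zero hN₁ hQd
  have hb : ∀ m : ℕ, ¬ m.Coprime n → b m = 0 := by
    intro m hm
    obtain ⟨p, hp, h1, h2⟩ := Nat.Prime.not_coprime_iff_dvd.1 hm
    refine (hI V C S.good N g b S.nf).2.2.2.1 p m hp ?_ h1
    rw [S.eq, sq]
    exact (mul_dvd_mul (S.rt.fr p hp h2) (S.rt.fr' p hp h2)).mul_left _
  set Q := Qw N₁ γ with hQe
  rw [← sum_product', ← sum_filter_of_ne (p := fun y : ℕ × ℕ => y.2 ≠ 0 ∧ y.2.Coprime n)]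
  swap
  · rintro ⟨X, m⟩ - h
    refine ⟨fun h0 => h ?_, by_contra fun h0 => h ?_⟩
    · simp only at h0
      simp [h0]
    · simp [hb m h0]
  set T := ({X ∈ n.divisors | Full n X} ×ˢ range n₀).filter
    fun y : ℕ × ℕ => y.2 ≠ 0 ∧ y.2.Coprime n with hT
  have hTm : ∀ y ∈ T, y.1 ∣ n ∧ y.2 ∈ range n₀ ∧ y.2 ≠ 0 ∧ y.2.Coprime n := by
    intro y hy
    obtain ⟨h1, h2⟩ := mem_filter.1 hy
    obtain ⟨h3, h4⟩ := mem_product.1 h1
    exact ⟨Nat.dvd_of_mem_divisors (mem_filter.1 h3).1, h4, h2⟩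
  have hinj : Set.InjOn (fun y : ℕ × ℕ => (y.2 : ℚ) / (Q * y.1 : ℕ)) T := by
    intro y hy y' hy' h
    obtain ⟨e1, e2⟩ := inj hQ hn (hTm y hy).1 (hTm y' hy').1 (hTm y hy).2.2.2 (hTm y' hy').2.2.2 h
    exact Prod.ext e1 e2
  refine le_trans (le_of_eq ?_) (sum_le_sum_of_subset_of_nonneg
    (s := T.image fun y : ℕ × ℕ => (y.2 : ℚ) / (Q * y.1 : ℕ)) ?_ fun ν hν _ => hpos ν hν)
  · rw [sum_image hinj]
    refine sum_congr rfl fun y hy => ?_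
    obtain ⟨h1, -, h2, h3⟩ := hTm y hy
    have hX : y.1 ≠ 0 := ne_zero_of_dvd_ne_zero hn h1
    have q1 : (Q : ℚ) ≠ 0 := by exact_mod_cast hQ
    have q2 : (y.1 : ℚ) ≠ 0 := by exact_mod_cast hX
    have r1 : (Q : ℝ) ≠ 0 := by exact_mod_cast hQ
    have r2 : (y.1 : ℝ) ≠ 0 := by exact_mod_cast hX
    have r3 : (y.2 : ℝ) ≠ 0 := by exact_mod_cast h2
    have e : (Q : ℚ) * ((y.2 : ℚ) / (Q * y.1 : ℕ)) = y.2 / y.1 := by
      push_cast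
      field_simp
    rw [hW γ _ hO, ← hQe, e, hM _ _ _ h3 h1, norm_mul, Complex.norm_intCast, cf, mul_pow, mul_pow,
      sq_abs]
    push_cast
    rw [mul_div_assoc (4 * Real.pi)]
    field_simp
  · intro ν hν
    obtain ⟨y, hy, rfl⟩ := mem_image.1 hν
    obtain ⟨h1, h2, -⟩ := hTm y hy
    exact mem_image.2 ⟨(y.2, Q * y.1), mem_product.2 ⟨h2,
      Nat.mem_divisors.2 ⟨mul_dvd_mul hQd h1, mul_ne_zero hN₁ hn⟩⟩, rfl⟩

end

end Pool.Agent.MP_b2c033_nt.UL
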