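import Pool.Agent.MP_b2c033_nt.UL.Spec
import Pool.Agent.MP_b2c033_nt.U.Ind

/-! The horoball bound: averaging the pointwise bound over all cusps. -/

namespace Pool.Agent.MP_b2c033_nt.UL

open U Finset CongruenceSubgroup
open scoped MatrixGroups Classical InnerProductSpace

noncomputable section

namespace HZ2Aux

theorem Qw_pos {N : ℕ} (hN : 0 < N) (γ : SZ) : 0 < Qw N γ := by
  have h : gN N γ ∣ N := by
    have := Int.gcd_dvd_right (γ 1 0) (N : ℤ)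
    exact Int.natCast_dvd_natCast.1 this
  exact Nat.div_pos (Nat.le_of_dvd hN h) (Nat.pos_of_dvd_of_pos h hN)

variable {V : Type} [NormedAddCommGroup V] [InnerProductSpace ℂ V] (C : CS V)
  {n : ℕ} [NeZero n] {W : Type} [NormedAddCommGroup W] [InnerProductSpace ℂ W]

theorem mean_Hf (b : ℕ → ℤ) (n₀ N₁ : ℕ) (ρ : RA (G n) W) (ι : W →ₗᵢ[ℂ] V) (v : W) (γ : SZ)
    (h : OkW N₁ γ) : mean (Hf C b n₀ N₁ ρ ι v γ) =
      (∑ X ∈ n.divisors with Full n X,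
        X * TT b n₀ (Qw N₁ γ * X) * mean (cf C ρ ι v X)) / Qw N₁ γ := by
  have e : Hf C b n₀ N₁ ρ ι v γ = fun y => ∑ X ∈ n.divisors with Full n X, ∑ m ∈ range n₀,
      (b m : ℝ) ^ 2 / m * Real.exp (-(4 * Real.pi * m / (Qw N₁ γ * X))) * (X / Qw N₁ γ) *
        cf C ρ ι v X (tw (un n m) (tw (un n (Qw N₁ γ))⁻¹ y)) := by
    funext y
    rw [Hf, if_pos h]
  rw [e, mean_sum, sum_div]
  refine sum_congr rfl fun X _ => ?_
  rw [mean_sum, TT, mul_sum, sum_mul, sum_div]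
  refine sum_congr rfl fun m _ => ?_
  simp only [tw_tw]
  rw [mean_mul, mean_bij (cf C ρ ι v X) (tw_bij _)]
  push_cast
  ring

omit [NeZero n] in
theorem Hf_lev (b : ℕ → ℤ) (n₀ N₁ : ℕ) (ρ : RA (G n) W) (ι : W →ₗᵢ[ℂ] V) (v : W) {γ γ' : SZ}
    (h : gN N₁ γ = gN N₁ γ') (y : G n) : Hf C b n₀ N₁ ρ ι v γ y = Hf C b n₀ N₁ ρ ι v γ' y := by
  unfold Hf OkW Qw
  rw [h]

end HZ2Aux

open HZ2Aux in
theorem row_HZ2 : R_HZ2 := by
  intro hM hA hE hI V _ _ C N g b N₁ r r' n _ W _ _ ρ ι v hS n₀ os os' hZ hU hG hP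
  have hN : 0 < N₁ * (r * r') := hS.eq ▸ hS.nf.coef.pos
  have hN₁ : 0 < N₁ := Nat.pos_of_mul_pos_right hN
  have hr : 0 < r := Nat.pos_of_mul_pos_right (Nat.pos_of_mul_pos_left hN)
  have hn : 0 < n := Nat.pos_of_ne_zero (NeZero.ne n)
  have hL : 0 < N₁ * n := Nat.mul_pos hN₁ hn
  obtain ⟨hg0, -, -, -, hnorm⟩ := hI V C hS.good N g b hS.nf
  have hιv : ‖ι v‖ = ‖g‖ := by
    rw [hS.val]
    exact hnorm _ _ (by simpa using hr)
  have hv : ‖v‖ = ‖g‖ := by rw [← hιv, ι.norm_map]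
  have hfix : C.Fix (Gamma (N₁ * n)) (ι v) := fun γ hγ => by
    have h1 : γ ∈ Gamma0 N₁ :=
      Gamma0_mem.2 (Gamma_mem.1 (AvAux.mono (dvd_mul_right N₁ n) hγ)).2.2.1
    rw [← hS.br.act γ h1, red_eq_one.2 (AvAux.mono (dvd_mul_left n N₁) hγ), ρ.one]
  have h1 := hS.good.horo (ι v) (N₁ * n) (Phi (N₁ * n) n₀) hL hfix
  rw [Av_mul_left ⊤ hL, hιv] at h1
  refine (mul_le_mul_of_nonneg_left ?_ Real.pi_pos.le).trans h1
  refine le_trans ?_ (Av_mono ⊤ hL fun γ _ => hZ n₀ γ)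
  rw [hA N₁ n (fun γ γ' => Hf C b n₀ N₁ ρ ι v γ (red n γ')) hN₁ hn hS.cop
    (fun γ' γ δ hδ => Hf_lev C b n₀ N₁ ρ ι v (hM.2.2.2.2.2.1 N₁ γ δ hδ) _)
    (fun γ γ' δ hδ => by simp only [map_mul, red_eq_one.2 hδ, mul_one]), ← hP]
  refine Av_mono ⊤ hN₁ fun γ _ => ?_
  rw [hM.1 n (Hf C b n₀ N₁ ρ ι v γ)]
  split_ifs with h
  · have hQ : (0 : ℚ) < Qw N₁ γ := by exact_mod_cast Qw_pos hN₁ γ
    have hT := hE.2.2.2.2 b n₀ _ hQ
    have h2 := (hG W ρ v _ hT hS.hyp).trans (hU _ hT.1)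
    rw [hE.1, mul_one, hv, mul_comm] at h2
    rw [mean_Hf C b n₀ N₁ ρ ι v γ h]
    exact div_le_div_of_nonneg_right
      (le_of_mul_le_mul_left h2 (pow_pos (norm_pos_iff.2 hg0) 2)) (Nat.cast_nonneg _)
  · have e : Hf C b n₀ N₁ ρ ι v γ = fun _ => 0 := by
      funext y
      rw [Hf, if_neg h]
    rw [e, mean_const]

end

end Pool.Agent.MP_b2c033_nt.UL
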