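import Pool.Agent.MP_b2c033_nt.UL.Spec

/-! The newform seen from a root is fixed by the local group. -/

namespace Pool.Agent.MP_b2c033_nt.UL

open U CongruenceSubgroup

namespace Hy1Aux

theorem dvd_of {r n : ℕ} (h : r ∣ n) {y : ℤ} (hy : (r : ZMod n) ∣ (y : ZMod n)) : (r : ℤ) ∣ y := by
  obtain ⟨z, hz⟩ := hy
  obtain ⟨k, rfl⟩ := ZMod.intCast_surjective z
  have h1 : (n : ℤ) ∣ y - r * k := (ZMod.intCast_zmod_eq_zero_iff_dvd _ n).1 (by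
    push_cast
    rw [hz, sub_self])
  simpa using ((Int.natCast_dvd_natCast.2 h).trans h1).add (dvd_mul_right (r : ℤ) k)

end Hy1Aux

open Hy1Aux in
theorem row_Hy1 : K_Hy1 := by
  intro V _ _ C N g b N₁ r r' n _ W _ _ ρ ι h
  have r0 : (0 : ℚ) < r := Nat.cast_pos.2 (Nat.pos_of_dvd_of_pos h.rt.dr (NeZero.pos n))
  have key : ∀ γ ∈ Gamma0 N₁, (r : ZMod n) ∣ red n γ 0 1 → (r' : ZMod n) ∣ red n γ 1 0 →
      C.act (ofZ γ) (C.act (Vd (1 / r)) g) = C.act (Vd (1 / r)) g := fun γ h0 h1 h2 => by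
    obtain ⟨y, hy⟩ := dvd_of h.rt.dr h1
    obtain ⟨k, hk⟩ := (Nat.isCoprime_iff_coprime.2 (h.cop.coprime_dvd_right h.rt.dr')).mul_dvd
      ((ZMod.intCast_zmod_eq_zero_iff_dvd _ _).1 (Gamma0_mem.1 h0)) (dvd_of h.rt.dr' h2)
    have e : γ 0 0 * γ 1 1 - y * (γ 1 0 * r) = 1 := by linear_combination detZ γ + γ 1 0 * hy
    have m : mkZ _ _ _ _ e ∈ Gamma0 N := Gamma0_mem.2
      ((ZMod.intCast_zmod_eq_zero_iff_dvd _ _).2 ⟨k, by
        rw [mkZ_10, hk, h.eq]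
        push_cast
        ring⟩)
    conv_rhs => rw [← h.nf.fix _ m]
    rw [← C.act_mul _ _ _ (by simpa using r0) (by simp),
      ← C.act_mul _ _ _ (by simp) (by simpa using r0)]
    refine congrArg (fun x => C.act x g) ?_
    ext <;> simp [Vd, ofZ, hy, r0.ne', mul_comm]
  obtain ⟨v, hv⟩ := h.br.onto _ fun γ h0 h1 => key γ h0 (by simp [red_eq_one.2 h1])
    (by simp [red_eq_one.2 h1])
  refine ⟨v, hv, fun x h1 h2 => ι.injective ?_⟩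
  obtain ⟨γ, h3, rfl⟩ := h.br.sur x N₁ h.cop
  have h4 : γ ∈ Gamma0 N₁ := Gamma0_mem.2 (Gamma_mem.1 h3).2.2.1
  rw [h.br.act γ h4, hv, key γ h4 h1 h2]

end Pool.Agent.MP_b2c033_nt.UL
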