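import Pool.Agent.MP_b2c033_nt.UL.Spec

/-! The mean over the translations kills a new vector. -/

namespace Pool.Agent.MP_b2c033_nt.UL

open U Finset
open scoped MatrixGroups Classical InnerProductSpace

theorem row_Hy2 : R_Hy2 := by
  intro hI V _ _ C N g b N₁ r r' n _ W _ _ ρ ι S v hv p hp hn
  obtain ⟨-, -, h1, h2, -⟩ := hI V C S.good N g b S.nf
  have hr : 0 < r := Nat.pos_of_dvd_of_pos S.rt.dr (Nat.pos_of_ne_zero (NeZero.ne n))
  have hq : (0 : ℚ) < r := by exact_mod_cast hr
  have hN : p ^ 2 ∣ N := by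
    rw [S.eq, sq]
    exact (mul_dvd_mul (S.rt.fr p hp hn) (S.rt.fr' p hp hn)).mul_left _
  obtain ⟨d, hd⟩ := S.rt.fr p hp hn
  have hd' : r / p = d := by rw [hd, Nat.mul_div_cancel_left _ hp.pos]
  refine ι.injective (by
    rw [map_zero]
    refine C.β_inj _ fun ν => ?_
    rw [S.kit.AT_sum, map_sum, map_sum]
    refine sum_eq_zero fun χ hχ => ?_
    rw [S.br.pj]
    split_ifs with h
    · by_contra h0
      have h3 := C.β_Vd (1 / r) (r * ν) g (by positivity)
      rw [← mul_assoc, one_div_mul_cancel hq.ne', one_mul, ← hv] at h3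
      rw [h3] at h0
      obtain ⟨m, hm, hb⟩ := h1 _ (right_ne_zero_of_mul h0)
      refine hb (h2 p m hp hN ?_)
      have h4 := (mem_filter.1 hχ).2
      rw [S.br.od χ ν h, hd'] at h4
      obtain ⟨c, hc⟩ := h4
      have h5 : ((m : ℤ) : ℚ) = ((p * (c * ν.num) : ℤ) : ℚ) := by
        push_cast
        rw [← hm, hd, hc, ← Rat.mul_den_eq_num]
        push_cast
        ring
      exact Int.natCast_dvd_natCast.1 ⟨_, Int.cast_injective h5⟩
    · rfl)

end Pool.Agent.MP_b2c033_nt.UL
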