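import Pool.Agent.MP_b2c033_nt.UL.Spec

/-! The newform seen from a root is new for the lower unipotents. -/

namespace Pool.Agent.MP_b2c033_nt.UL

open U Finset CongruenceSubgroup
open scoped MatrixGroups Classical InnerProductSpace

namespace Hy3Aux

theorem sum_val {X : Type} [AddCommMonoid X] (n : ℕ) [NeZero n] (F : ℕ → X) :
    ∑ x : ZMod n, F x.val = ∑ k ∈ range n, F k :=
  sum_nbij' (fun x => x.val) (fun k => (k : ZMod n)) (fun x _ => mem_range.2 x.val_lt)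
    (fun _ _ => mem_univ _) (fun x _ => ZMod.natCast_zmod_val x)
    (fun _ hk => ZMod.val_cast_of_lt (mem_range.1 hk)) fun _ _ => rfl

theorem sum_per {X : Type} [AddCommMonoid X] {p : ℕ} {F : ℕ → X}
    (h : ∀ m i, F (p * m + i) = F i) (h0 : ∑ i ∈ range p, F i = 0) (m : ℕ) :
    ∑ k ∈ range (p * m), F k = 0 := by
  induction m with
  | zero => simp
  | succ m ih => simp only [mul_add, mul_one, sum_range_add, ih, h, h0, add_zero]

end Hy3Aux

open Hy3Aux

theorem row_Hy3 : K_Hy3 := by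
  intro V _ _ C N g b N₁ r r' n _ W _ _ ρ ι S v hv p hp hn
  obtain ⟨d, rfl⟩ := S.rt.fr' p hp hn
  have hp0 : (p : ℚ) ≠ 0 := by exact_mod_cast hp.ne_zero
  have hr : (0 : ℚ) < r := by
    exact_mod_cast Nat.pos_of_dvd_of_pos S.rt.dr (NeZero.pos n)
  have hN : (N : ℚ) = N₁ * (r * (p * d)) := by exact_mod_cast S.eq
  have h0 := S.nf.new p hp (S.eq ▸ Dvd.dvd.mul_left
    (sq p ▸ mul_dvd_mul (S.rt.fr p hp hn) (dvd_mul_right p d)) N₁)
  have per : ∀ m i : ℕ, C.act (Lw ((p * m + i : ℕ) * ((N : ℚ) / p))) g =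
      C.act (Lw (i * ((N : ℚ) / p))) g := fun m i => by
    have e : Lw ((p * m + i : ℕ) * ((N : ℚ) / p)) =
        ofZ (Lm (N * m : ℤ)) * Lw (i * ((N : ℚ) / p)) := by
      rw [ofZ_Lm]
      ext <;> simp [Lw]
      field_simp
    rw [e, C.act_mul _ _ _ (by simp) (by simp), S.nf.fix _ (by simp [Gamma0_mem, Lm])]
  have key : ∀ k : ℕ, ι (ρ.a (Lm ((d : ZMod n) * (N₁ * k))) v) =
      C.act (Vd (1 / r)) (C.act (Lw (k * ((N : ℚ) / p))) g) := fun k => by
    have := S.br.act (Lm (d * (N₁ * k) : ℤ)) (by simp [Gamma0_mem, Lm]) v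
    rw [red_Lm, ofZ_Lm] at this
    push_cast at this
    have h1 : 0 < (Vd (1 / r)).det := by simpa using hr
    rw [this, hv, ← C.act_mul _ _ _ h1 (by simp), ← C.act_mul _ _ _ (by simp) h1]
    refine congrArg (C.act · g) ?_
    ext <;> simp [Lw, Vd, hN]
    field_simp
  apply ι.injective
  obtain ⟨m, hm⟩ := hn
  rw [RA.AL, Nat.mul_div_cancel_left d hp.pos,
    ← Equiv.sum_comp (ZMod.unitOfCoprime N₁ S.cop).mulLeft, map_smul, map_sum, map_zero]
  have e : ∀ x : ZMod n, ι (ρ.a (Lm ((d : ZMod n) * (ZMod.unitOfCoprime N₁ S.cop).mulLeft x)) v) =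
      C.act (Vd (1 / r)) (C.act (Lw (x.val * ((N : ℚ) / p))) g) := fun x => by
    rw [← key, ZMod.natCast_zmod_val]
    rfl
  rw [sum_congr rfl fun x _ => e x, ← map_sum,
    sum_val n fun k => C.act (Lw (k * ((N : ℚ) / p))) g, hm, sum_per per h0, map_zero, smul_zero]

end Pool.Agent.MP_b2c033_nt.UL
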