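import Pool.Agent.MP_b2c033_nt.UL.Spec

/-! The coefficients of a rational newform at the cusp at infinity. -/

namespace Pool.Agent.MP_b2c033_nt.UL

open U CongruenceSubgroup

namespace IntAux

theorem int_of_ee {ν : ℚ} (h : ee ν = 1) : ∃ m : ℤ, ν = m := by
  obtain ⟨m, hm⟩ := Complex.exp_eq_one_iff.1 h
  refine ⟨m, ?_⟩
  have h1 : (ν : ℂ) = m := mul_left_cancel₀ Complex.two_pi_I_ne_zero (by linear_combination hm)
  exact_mod_cast h1

end IntAux

theorem row_Int : K_Int := by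
  intro V _ _ C _ N g b h
  have h1 : C.act (Tr 1) g = g := by
    have := h.fix (Tm 1) (by simp [Gamma0_mem, Tm])
    rwa [ofZ_Tm, Int.cast_one] at this
  have h2 : ∀ ν, C.β ν g ≠ 0 → ∃ m : ℕ, ν = m ∧ b m ≠ 0 := fun ν hν => by
    have h3 := C.β_Tr 1 ν g
    rw [h1, mul_one] at h3
    obtain ⟨m, rfl⟩ := IntAux.int_of_ee (mul_right_cancel₀ hν (h3.symm.trans (one_mul _).symm))
    have h4 : 0 ≤ m := by_contra fun e => hν (C.β_neg _ _ (by exact_mod_cast (not_le.1 e).le))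
    obtain ⟨k, rfl⟩ := Int.eq_ofNat_of_zero_le h4
    refine ⟨k, Int.cast_natCast k, fun e => hν ?_⟩
    rw [Int.cast_natCast, h.co, e, Int.cast_zero]
  refine ⟨fun e => ?_, fun ν => ?_, h2, fun p m hp h3 ⟨k, e⟩ => ?_, fun α v hα => ?_⟩
  · have := h.co 1
    rw [e, map_zero, h.coef.one] at this
    simp at this
  · by_cases e : C.β ν g = 0
    · exact ⟨0, by simpa using e⟩
    · obtain ⟨m, rfl, -⟩ := h2 ν e
      exact ⟨b m, by rw [h.co, Rat.cast_intCast]⟩
  · rw [e, h.coef.rel p k hp, h.coef.two p hp h3, if_pos ((dvd_pow_self p two_ne_zero).trans h3)]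
    simp
  · have := C.inner_act α v v hα
    rw [inner_self_eq_norm_sq_to_K, inner_self_eq_norm_sq_to_K] at this
    exact (sq_eq_sq₀ (norm_nonneg _) (norm_nonneg _)).1 (by exact_mod_cast this)

end Pool.Agent.MP_b2c033_nt.UL
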