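import Pool.Agent.MP_b2c033_nt.UL.Spec

/-! Row Kit: the energy at prime power level. -/

namespace Pool.Agent.MP_b2c033_nt.UL

open U Finset
open scoped Classical

namespace KitAux

theorem step {n : ℕ} [NeZero n] {p : ℕ} (hp : p.Prime) (j : ℕ) (c : Ch n → ℝ) :
    ∑ χ : Ch n with od χ ∣ p ^ (j + 1), c χ - ∑ χ : Ch n with od χ ∣ p ^ j, c χ =
      ∑ χ : Ch n with od χ = p ^ (j + 1), c χ := by
  rw [sum_filter, sum_filter, sum_filter, ← sum_sub_distrib]
  refine sum_congr rfl fun χ _ => ?_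
  by_cases h1 : od χ = p ^ (j + 1)
  · have h2 : ¬od χ ∣ p ^ j := by
      rw [h1, Nat.pow_dvd_pow_iff_le_right hp.one_lt]
      omega
    rw [if_pos h1, if_pos (h1 ▸ dvd_rfl), if_neg h2, sub_zero]
  · rw [if_neg h1]
    by_cases h2 : od χ ∣ p ^ j
    · rw [if_pos h2, if_pos (h2.trans (pow_dvd_pow p j.le_succ)), sub_self]
    · rw [if_neg h2, if_neg fun h3 => h1 ?_, sub_self]
      obtain ⟨i, hi, h4⟩ := (Nat.dvd_prime_pow hp).1 h3
      rcases Nat.lt_or_eq_of_le hi with h5 | h5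
      · exact absurd (h4 ▸ pow_dvd_pow p (by omega)) h2
      · rw [h4, h5]

theorem fib {n : ℕ} [NeZero n] {p e : ℕ} (hp : p.Prime) (hn : n = p ^ e) (he : 1 ≤ e)
    (hd : ∀ χ : Ch n, od χ ∣ n) (F : ℕ → ℝ) (c : Ch n → ℝ) :
    ∑ χ : Ch n with Full n (od χ), F (od χ) * c χ =
      ∑ j ∈ range e, F (p ^ (j + 1)) * ∑ χ : Ch n with od χ = p ^ (j + 1), c χ := by
  simp only [sum_filter, mul_sum]
  rw [sum_comm]
  refine sum_congr rfl fun χ _ => ?_
  obtain ⟨i, hi, h⟩ := (Nat.dvd_prime_pow hp).1 (hn ▸ hd χ : od χ ∣ p ^ e)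
  have inj : ∀ j, od χ = p ^ (j + 1) ↔ i = j + 1 := fun j => by
    rw [h, Nat.pow_right_inj hp.one_lt]
  rcases i with _ | i
  · rw [if_neg fun hf => ?_]
    · refine (sum_eq_zero fun j _ => ?_).symm
      rw [if_neg fun h' => absurd ((inj j).1 h') (by omega), mul_zero]
    · have := hf p hp (hn ▸ dvd_pow_self p (by omega))
      rw [h, pow_zero, Nat.dvd_one] at this
      exact hp.ne_one this
  · rw [if_pos, sum_eq_single i, if_pos h, h]
    · intro j _ hj
      rw [if_neg fun h' => hj (by have := (inj j).1 h'; omega), mul_zero]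
    · intro hi'
      exact absurd (mem_range.2 (by omega)) hi'
    · intro q hq hqn
      rw [hn] at hqn
      rw [(Nat.prime_dvd_prime_iff_eq hq hp).1 (hq.dvd_of_dvd_pow hqn), h]
      exact dvd_pow_self p (by omega)

end KitAux

theorem row_Kit : R_Kit := by
  intro h n _ W _ _ ρ
  have k := h n W ρ
  refine ⟨k, fun p e hp hn he T v => congrArg mean (funext fun x => ?_)⟩
  rw [KitAux.fib hp hn he k.od_dvd (fun X => T X / X) fun χ => ‖ρ.Pj χ (ρ.a x v)‖ ^ 2]
  refine sum_congr rfl fun j _ => ?_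
  rw [k.AT_sum, k.AT_sum, k.nrm_sum, k.nrm_sum, KitAux.step hp]
  push_cast
  rfl

end Pool.Agent.MP_b2c033_nt.UL
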