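import Pool.Agent.MP_b2c033_nt.UL.Spec

/-! Row Kit0: components under the translations. -/

namespace Pool.Agent.MP_b2c033_nt.UL

open U Finset
open scoped MatrixGroups Classical InnerProductSpace

namespace Kit0Aux

variable {n : ℕ} [NeZero n] {W : Type} [NormedAddCommGroup W] [InnerProductSpace ℂ W]
  (ρ : RA (G n) W)

omit [NeZero n] in
theorem inn (x : G n) (v w : W) : ⟪ρ.a x v, ρ.a x w⟫_ℂ = ⟪v, w⟫_ℂ :=
  (LinearIsometry.mk (ρ.a x) (ρ.nrm x)).inner_map_map v w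

omit [NeZero n] in
theorem od_iff (χ : Ch n) (d : ℕ) : od χ ∣ d ↔ χ (d : ZMod n) = 1 := by
  rw [od, orderOf_dvd_iff_pow_eq_one, ← AddChar.map_nsmul_eq_pow, nsmul_one]

theorem od_iff' (χ : Ch n) (d : ℕ) : od χ ∣ d ↔ ∀ y, χ ((d : ZMod n) * y) = 1 := by
  rw [od_iff]
  refine ⟨fun h y => ?_, fun h => by simpa using h 1⟩
  rw [← ZMod.natCast_zmod_val y, mul_comm, ← nsmul_eq_mul, AddChar.map_nsmul_eq_pow, h, one_pow]

theorem n_ne : (n : ℂ) ≠ 0 := by exact_mod_cast NeZero.ne n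

theorem Pj_T (χ : Ch n) (y : ZMod n) (w : W) : ρ.a (Tm y) (ρ.Pj χ w) = χ y • ρ.Pj χ w := by
  rw [RA.Pj, map_smul, map_sum, smul_comm (χ y), smul_sum (r := χ y),
    ← Equiv.sum_comp (Equiv.addRight y) fun x => χ y • χ (-x) • ρ.a (Tm x) w]
  refine congrArg _ (sum_congr rfl fun x _ => ?_)
  rw [map_smul, ← ρ.mul, ← Tm_add, smul_smul, ← AddChar.map_add_eq_mul, Equiv.coe_addRight]
  rw [show y + -(x + y) = -x by ring]

theorem Pj_eig {ψ : Ch n} {w : W} (h : ∀ y, ρ.a (Tm y) w = ψ y • w) (χ : Ch n) :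
    ρ.Pj χ w = if χ = ψ then w else 0 := by
  have e : ∑ x : ZMod n, χ (-x) * ψ x = if χ = ψ then (n : ℂ) else 0 := by
    have h1 := AddChar.sum_eq_ite (ψ - χ)
    rw [ZMod.card] at h1
    have h2 : ∀ x, (ψ - χ) x = χ (-x) * ψ x := fun x => by rw [AddChar.sub_apply, mul_comm]
    simp only [h2, sub_eq_zero] at h1
    rw [h1]
    exact if_congr eq_comm rfl rfl
  simp only [RA.Pj, h, smul_smul, ← sum_smul, e]
  split_ifs
  · rw [inv_mul_cancel₀ n_ne, one_smul]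
  · rw [mul_zero, zero_smul]

theorem AT_eig {ψ : Ch n} {w : W} (h : ∀ y, ρ.a (Tm y) w = ψ y • w) (d : ℕ) :
    ρ.AT d w = if od ψ ∣ d then w else 0 := by
  have e : ∑ x : ZMod n, ψ ((d : ZMod n) * x) = if od ψ ∣ d then (n : ℂ) else 0 := by
    have h1 := AddChar.sum_eq_ite (ψ.mulShift (d : ZMod n))
    rw [ZMod.card] at h1
    simp only [AddChar.mulShift_apply] at h1
    rw [h1]
    refine if_congr ?_ rfl rfl
    rw [od_iff', AddChar.ext_iff]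
    simp only [AddChar.mulShift_apply, AddChar.zero_apply]
  simp only [RA.AT, h, smul_smul, ← sum_smul, e]
  split_ifs
  · rw [inv_mul_cancel₀ n_ne, one_smul]
  · rw [mul_zero, zero_smul]

theorem sum_Pj (w : W) : ∑ χ : Ch n, ρ.Pj χ w = w := by
  simp only [RA.Pj]
  rw [← smul_sum, sum_comm]
  simp only [← sum_smul, AddChar.sum_apply_eq_ite, neg_eq_zero, ZMod.card]
  rw [sum_eq_single 0 (fun b _ hb => by rw [if_neg hb, zero_smul]) (by simp), if_pos rfl, Tm_zero,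
    ρ.one, smul_smul, inv_mul_cancel₀ n_ne, one_smul]

theorem Pj_Pj (χ χ' : Ch n) (w : W) :
    ρ.Pj χ (ρ.Pj χ' w) = if χ = χ' then ρ.Pj χ w else 0 := by
  rw [Pj_eig ρ (fun y => Pj_T ρ χ' y w)]
  split_ifs with h
  · rw [h]
  · rfl

theorem orth {χ ψ : Ch n} (h : χ ≠ ψ) (v w : W) : ⟪ρ.Pj χ v, ρ.Pj ψ w⟫_ℂ = 0 := by
  obtain ⟨y, hy⟩ : ∃ y, χ y ≠ ψ y := by
    by_contra h'
    exact h (AddChar.ext _ _ fun y => not_not.1 fun e => h' ⟨y, e⟩)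
  have h1 := inn ρ (Tm y) (ρ.Pj χ v) (ρ.Pj ψ w)
  rw [Pj_T, Pj_T, inner_smul_left, inner_smul_right, ← AddChar.map_neg_eq_conj] at h1
  have h2 : χ y * χ (-y) = 1 := by
    rw [← AddChar.map_add_eq_mul, add_neg_cancel, AddChar.map_zero_eq_one]
  have h3 : (χ y - ψ y) * ⟪ρ.Pj χ v, ρ.Pj ψ w⟫_ℂ = 0 := by
    linear_combination (-χ y) * h1 + (ψ y * ⟪ρ.Pj χ v, ρ.Pj ψ w⟫_ℂ) * h2
  exact (mul_eq_zero.1 h3).resolve_left (sub_ne_zero.2 hy)

theorem Pj_inn (χ : Ch n) (v w : W) : ⟪ρ.Pj χ v, w⟫_ℂ = ⟪v, ρ.Pj χ w⟫_ℂ := by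
  have h1 : ⟪ρ.Pj χ v, ∑ ψ : Ch n, ρ.Pj ψ w⟫_ℂ = ⟪ρ.Pj χ v, ρ.Pj χ w⟫_ℂ := by
    rw [inner_sum, sum_eq_single χ (fun b _ hb => orth ρ hb.symm v w) (by simp)]
  have h2 : ⟪∑ ψ : Ch n, ρ.Pj ψ v, ρ.Pj χ w⟫_ℂ = ⟪ρ.Pj χ v, ρ.Pj χ w⟫_ℂ := by
    rw [sum_inner, sum_eq_single χ (fun b _ hb => orth ρ hb v w) (by simp)]
  rw [sum_Pj] at h1 h2
  rw [h1, h2]

theorem nrm_sum (s : Finset (Ch n)) (w : W) :
    ‖∑ χ ∈ s, ρ.Pj χ w‖ ^ 2 = ∑ χ ∈ s, ‖ρ.Pj χ w‖ ^ 2 := by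
  simp only [@norm_sq_eq_re_inner ℂ]
  rw [sum_inner, map_sum]
  refine sum_congr rfl fun χ hχ => ?_
  rw [inner_sum, sum_eq_single χ (fun b _ hb => orth ρ hb.symm w w) fun h => (h hχ).elim]

theorem AT_sum (d : ℕ) (w : W) : ρ.AT d w = ∑ χ : Ch n with od χ ∣ d, ρ.Pj χ w := by
  conv_lhs => rw [← sum_Pj ρ w, ← RA.ATL_apply, map_sum]
  rw [sum_filter]
  exact sum_congr rfl fun χ _ => by rw [RA.ATL_apply, AT_eig ρ (fun y => Pj_T ρ χ y w)]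

omit [NeZero n] in
theorem od_dvd (χ : Ch n) : od χ ∣ n := by
  rw [od_iff, ZMod.natCast_self, AddChar.map_zero_eq_one]

theorem nrm_AT (d : ℕ) (w : W) : ‖ρ.AT d w‖ ^ 2 = ∑ χ : Ch n with od χ ∣ d, ‖ρ.Pj χ w‖ ^ 2 := by
  rw [AT_sum, nrm_sum]

theorem nrm_all (w : W) : ‖w‖ ^ 2 = ∑ χ : Ch n, ‖ρ.Pj χ w‖ ^ 2 := by
  rw [← nrm_sum, sum_Pj]

theorem sub_AT (d : ℕ) (w : W) : w - ρ.AT d w = ∑ χ : Ch n with ¬od χ ∣ d, ρ.Pj χ w := by
  rw [sub_eq_iff_eq_add', AT_sum, sum_filter_add_sum_filter_not, sum_Pj]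

end Kit0Aux

open Kit0Aux in
theorem row_Kit0 : K_Kit0 := fun n _ W _ _ ρ =>
  { inn := inn ρ
    od_dvd := od_dvd
    Pj_T := Pj_T ρ
    Pj_Pj := Pj_Pj ρ
    nrm_sum := nrm_sum ρ
    AT_sum := AT_sum ρ
    AT_top := fun w => by
      rw [AT_sum, filter_true_of_mem fun χ _ => od_dvd χ, sum_Pj]
    AT_fix := fun d y w => by
      rw [AT_sum, map_sum]
      exact sum_congr rfl fun χ hχ => by
        rw [Pj_T, (od_iff' χ d).1 (mem_filter.1 hχ).2, one_smul]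
    AT_AT := fun d d' w h => by
      rw [AT_sum ρ d', ← RA.ATL_apply, map_sum, AT_sum ρ d, sum_filter, sum_filter]
      refine sum_congr rfl fun χ _ => ?_
      rw [RA.ATL_apply, AT_eig ρ (fun y => Pj_T ρ χ y w)]
      by_cases h1 : od χ ∣ d
      · rw [if_pos h1, if_pos (h1.trans h)]
      · rw [if_neg h1, ite_self]
    AT_inn := fun d v w => by
      rw [AT_sum, AT_sum, sum_inner, inner_sum]
      exact sum_congr rfl fun χ _ => Pj_inn ρ χ v w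
    AT_pyth := fun d w => by
      rw [sub_AT, nrm_sum, nrm_AT, nrm_all ρ w, eq_sub_iff_add_eq', sum_filter_add_sum_filter_not]
    AT_le := fun d w => by
      refine (sq_le_sq₀ (norm_nonneg _) (norm_nonneg _)).1 ?_
      rw [nrm_AT, nrm_all ρ w]
      exact sum_le_sum_of_subset_of_nonneg (filter_subset _ _) fun _ _ _ => sq_nonneg _
    AT_mono := fun d d' w h => by
      refine (sq_le_sq₀ (norm_nonneg _) (norm_nonneg _)).1 ?_
      rw [nrm_AT, nrm_AT]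
      exact sum_le_sum_of_subset_of_nonneg (fun χ hχ => mem_filter.2
        ⟨mem_univ _, (mem_filter.1 hχ).2.trans h⟩) fun _ _ _ => sq_nonneg _
    ex := fun d w h => by
      by_contra h'
      refine h (sub_eq_zero.1 ?_).symm
      rw [sub_AT]
      exact sum_eq_zero fun χ hχ => not_not.1 fun e => h' ⟨χ, e, (mem_filter.1 hχ).2⟩ }

end Pool.Agent.MP_b2c033_nt.UL
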