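import Pool.Agent.MP_b2c033_nt.UL.Spec

/-! Non-middle cusps governed by the lower unipotents. -/

namespace Pool.Agent.MP_b2c033_nt.UL

open U Finset CongruenceSubgroup
open scoped MatrixGroups Classical InnerProductSpace

noncomputable section

theorem row_L1L : K_L1L := by
  intro p i i' m α n _ hp hi _ hn h1 h2 W _ _ ρ v x u hv hu hc ha
  obtain ⟨k, rfl⟩ : ∃ k, i' = 2 * m + k + 1 := ⟨i' - 2 * m - 1, by omega⟩
  obtain ⟨a, ha⟩ := ha
  have e1 : 2 * m + k + 1 - 2 * m = k + 1 := by omega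
  have d1 : ((p ^ i : ℕ) : ZMod n) ∣ (p : ZMod n) ^ (k + 2 * α) := by
    rw [Nat.cast_pow]
    exact pow_dvd_pow _ (by omega)
  have d2 : ((p ^ (2 * m + k + 1) : ℕ) : ZMod n) ∣ (p : ZMod n) ^ (2 * k + α + 3 * m) := by
    rw [Nat.cast_pow]
    exact pow_dvd_pow _ (by omega)
  rw [e1, Nat.add_sub_cancel]
  refine ⟨ρ.AT_of_fix fun y => ?_, ?_⟩
  · rw [← ρ.mul, ← Un_mul, ρ.mul, hv.fix]
    · refine d1.trans ⟨p * y * a ^ 2, ?_⟩
      simp only [Un, mk_01, ha]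
      push_cast
      ring
    · refine ⟨-(y * u ^ 2), ?_⟩
      simp only [Un, mk_10, hc]
      push_cast
      ring
  · have pn : p ∣ n := hn ▸ dvd_pow_self p (by omega)
    have h0 := hv.nL p hp pn
    rw [pow_succ, Nat.mul_div_cancel _ hp.pos, RA.AL,
      ← Equiv.sum_comp (hu.pow 2).neg.unit.mulLeft] at h0
    rw [ρ.AT_conj, ← map_zero (ρ.a x), ← h0]
    refine congrArg _ (congrArg _ (sum_congr rfl fun y _ => ?_))
    have e : Un x (((p ^ k : ℕ) : ZMod n) * y) =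
        Un x (((p ^ k : ℕ) : ZMod n) * y) * Lm (((p ^ k : ℕ) : ZMod n) * y * x 1 0 ^ 2) *
          Lm (((p ^ (2 * m + k) : ℕ) : ZMod n) * (hu.pow 2).neg.unit.mulLeft y) := by
      rw [mul_assoc, ← Lm_add, Units.mulLeft_apply, IsUnit.unit_spec, hc,
        show ((p ^ k : ℕ) : ZMod n) * y * ((p : ZMod n) ^ m * u) ^ 2 +
          ((p ^ (2 * m + k) : ℕ) : ZMod n) * (-u ^ 2 * y) = 0 by push_cast; ring, Lm_zero, mul_one]
    rw [e, ρ.mul, hv.fix]
    · refine d1.trans ⟨y * a ^ 2, ?_⟩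
      simp only [mul2, Un, Lm, mk_00, mk_01, mk_11, ha]
      push_cast
      ring
    · refine d2.trans ⟨y ^ 2 * a * u ^ 3, ?_⟩
      simp only [mul2, Un, Lm, mk_00, mk_10, mk_11, ha, hc]
      push_cast
      ring

end

end Pool.Agent.MP_b2c033_nt.UL
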