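import Pool.Agent.MP_b2c033_nt.UL.Spec

/-! Row L1T: non-middle cusps governed by the translations. -/

namespace Pool.Agent.MP_b2c033_nt.UL

open U Finset
open scoped MatrixGroups Classical

namespace L1TAux

lemma dvd_of_le {R : Type} [CommRing R] (q : R) {a b : ℕ} (h : a ≤ b) (u : R) :
    q ^ a ∣ q ^ b * u := (pow_dvd_pow q h).mul_right u

lemma split {R : Type} [CommRing R] (x : SL(2, R)) (t : R) :
    Un x t = Un x t * Tm (-(t * x 0 0 ^ 2)) * Tm (t * x 0 0 ^ 2) := by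
  rw [mul_assoc, ← Tm_add, neg_add_cancel, Tm_zero, mul_one]

end L1TAux

open L1TAux in
theorem row_L1T : K_L1T := by
  intro p i i' m n _ hp hi hi' hn hm W _ _ ρ v x hv ha ⟨c, hc⟩
  have hn0 : (n : ℂ) ≠ 0 := by exact_mod_cast NeZero.ne n
  constructor
  · have h1 : ∀ y : ZMod n, ρ.a (Un x (((p ^ i : ℕ) : ZMod n) * y)) v = v := fun y => by
      refine hv.fix _ ⟨y * x 0 0 ^ 2, by simp only [Un, mk_01]; ring⟩ ?_
      have := dvd_of_le (p : ZMod n) hm.le (-(y * c ^ 2))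
      simp only [Un, mk_10, hc, Nat.cast_pow]
      exact this.trans (dvd_of_eq (by ring))
    rw [ρ.AT_conj]
    simp only [h1, sum_const, card_univ, ZMod.card, ← Nat.cast_smul_eq_nsmul ℂ, smul_smul]
    rw [inv_mul_cancel₀ hn0, one_smul]
  · have h1 : ∀ y : ZMod n, ρ.a (Un x (((p ^ (i - 1) : ℕ) : ZMod n) * y)) v =
        ρ.a (Tm (((p ^ (i - 1) : ℕ) : ZMod n) * (x 0 0 ^ 2 * y))) v := fun y => by
      rw [split, ρ.mul, hv.fix]
      · congr 3
        ring
      · have := dvd_of_le (p : ZMod n) (show i ≤ 2 * (i - 1) + m by omega)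
          (y ^ 2 * x 0 0 ^ 3 * c)
        simp only [mul2, Un, Tm, mk_00, mk_01, mk_11, hc, Nat.cast_pow]
        exact this.trans (dvd_of_eq (by ring))
      · have := dvd_of_le (p : ZMod n) (show i' ≤ i - 1 + 2 * m by omega) (-(y * c ^ 2))
        simp only [mul2, Un, Tm, mk_00, mk_10, mk_11, hc, Nat.cast_pow]
        exact this.trans (dvd_of_eq (by ring))
    have hb : Function.Bijective fun y : ZMod n => x 0 0 ^ 2 * y :=
      (ha.pow 2).unit.mulLeft_bijective
    have h2 := hv.nT p hp (hn ▸ dvd_pow_self p (by omega))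
    rw [show p ^ i / p = p ^ (i - 1) from by simpa using Nat.pow_div hi hp.pos] at h2
    rw [ρ.AT_conj]
    simp only [h1]
    rw [hb.sum_comp fun y => ρ.a (Tm (((p ^ (i - 1) : ℕ) : ZMod n) * y)) v]
    rw [show (n : ℂ)⁻¹ • ∑ y : ZMod n, ρ.a (Tm (((p ^ (i - 1) : ℕ) : ZMod n) * y)) v = 0 from h2,
      map_zero]

end Pool.Agent.MP_b2c033_nt.UL
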