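import Pool.Agent.MP_b2c033_nt.UL.Spec

/-! The top energy at a middle root of exponent at least two. -/

namespace Pool.Agent.MP_b2c033_nt.UL

open U Finset
open scoped MatrixGroups Classical InnerProductSpace

noncomputable section

namespace L2aAux

variable {W : Type} [NormedAddCommGroup W] [InnerProductSpace ℂ W]

theorem bessel {ι : Type} (s : Finset ι) (w : ι → W) (v : W)
    (h1 : ∀ i ∈ s, ∀ j ∈ s, i ≠ j → ⟪w i, w j⟫_ℂ = 0)
    (h2 : ∀ i ∈ s, ⟪v, w i⟫_ℂ = ⟪w i, w i⟫_ℂ) : ∑ i ∈ s, ‖w i‖ ^ 2 ≤ ‖v‖ ^ 2 := by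
  have e1 : ⟪∑ i ∈ s, w i, ∑ i ∈ s, w i⟫_ℂ = ∑ i ∈ s, ⟪w i, w i⟫_ℂ := by
    rw [sum_inner]
    refine sum_congr rfl fun i hi => ?_
    rw [inner_sum, sum_eq_single_of_mem i hi fun j hj hne => h1 i hi j hj hne.symm]
  have e2 : ⟪v, ∑ i ∈ s, w i⟫_ℂ = ∑ i ∈ s, ⟪w i, w i⟫_ℂ := by
    rw [inner_sum, sum_congr rfl h2]
  have e3 : RCLike.re (∑ i ∈ s, ⟪w i, w i⟫_ℂ) = ∑ i ∈ s, ‖w i‖ ^ 2 := by
    rw [map_sum]
    exact sum_congr rfl fun i _ => inner_self_eq_norm_sq _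
  have e4 := inner_self_eq_norm_sq (𝕜 := ℂ) (∑ i ∈ s, w i)
  have e5 := re_inner_le_norm (𝕜 := ℂ) v (∑ i ∈ s, w i)
  rw [e1, e3] at e4
  rw [e2, e3] at e5
  nlinarith [sq_nonneg (‖v‖ - ‖∑ i ∈ s, w i‖)]

theorem prod_eq {R : Type} [CommRing R] {e : R} (he : e * e = 0) (u u' y y' : R) :
    Un (Lm u') (e * y') * Un (Lm u) (e * y) =
      mk (1 - e * (y * u + y' * u')) 0 0 (1 + e * (y * u + y' * u'))
        (by linear_combination (-(y * u + y' * u') ^ 2) * he) * Tm (e * (y + y')) *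
        Lm (e * -(y * u ^ 2 + y' * u' ^ 2)) := by
  apply ext2 <;> simp only [mul2, Un, Tm, Lm, mk_00, mk_01, mk_10, mk_11]
  · linear_combination (y * y' * u * u' - y * y' * u ^ 2 + (1 - e * (y * u + y' * u')) * (y + y') *
      (y * u ^ 2 + y' * u' ^ 2)) * he
  · linear_combination (y * y' * (u - u') + (y * u + y' * u') * (y + y')) * he
  · linear_combination (y * y' * u * u' * (u' - u) + (y * u + y' * u') *
      (y * u ^ 2 + y' * u' ^ 2)) * he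
  · linear_combination (y * y' * u * u' - y * y' * u' ^ 2) * he

variable {n : ℕ} [NeZero n] (ρ : RA (G n) W)

/-- the conjugated mean -/
def Q (d : ℕ) (u : ZMod n) (w : W) : W :=
  (n : ℂ)⁻¹ • ∑ y : ZMod n, ρ.a (Un (Lm u) ((d : ZMod n) * y)) w

theorem Q_eq (d : ℕ) (u : ZMod n) (w : W) :
    ρ.AT d (ρ.a (Lm u) w) = ρ.a (Lm u) (Q ρ d u w) := ρ.AT_conj d _ w

variable {ρ}

theorem Q_adj (hk : Kit0 ρ) (d : ℕ) (u : ZMod n) (w w' : W) :
    ⟪Q ρ d u w, w'⟫_ℂ = ⟪w, Q ρ d u w'⟫_ℂ := by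
  rw [← hk.inn (Lm u), ← Q_eq, hk.AT_inn, Q_eq, hk.inn]

theorem Q_self (hk : Kit0 ρ) (d : ℕ) (u : ZMod n) (w : W) :
    ⟪w, Q ρ d u w⟫_ℂ = ⟪Q ρ d u w, Q ρ d u w⟫_ℂ := by
  rw [← hk.inn (Lm u) (Q ρ d u w), ← hk.inn (Lm u) w, ← Q_eq, hk.AT_inn, hk.AT_AT d d _ dvd_rfl]

theorem Q_Q {d : ℕ} (he : (d : ZMod n) * d = 0) {v : W}
    (hf : ∀ x : G n, x 0 1 = 0 → x 1 0 = 0 → ρ.a x v = v) (hT : ρ.AT d v = 0) {u u' : ZMod n}
    (hu : IsUnit (u ^ 2 - u' ^ 2)) : Q ρ d u (Q ρ d u' v) = 0 := by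
  have hn : (n : ℂ)⁻¹ ≠ 0 := inv_ne_zero (by exact_mod_cast NeZero.ne n)
  have h0 : ∑ b : ZMod n, ρ.a (Tm ((d : ZMod n) * b)) v = 0 := (smul_eq_zero.1 hT).resolve_left hn
  have hb : Function.Bijective fun y : ZMod n × ZMod n =>
      (-(y.1 * u ^ 2 + y.2 * u' ^ 2), y.1 + y.2) := by
    refine Finite.injective_iff_bijective.1 fun y z h => ?_
    obtain ⟨h1, h2⟩ := Prod.ext_iff.1 h
    simp only at h1 h2
    have h3 : y.1 = z.1 := hu.mul_left_cancel (by linear_combination -h1 - u' ^ 2 * h2)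
    exact Prod.ext h3 (by linear_combination h2 - h3)
  have h1 := hb.sum_comp fun c : ZMod n × ZMod n =>
    ρ.a (Lm ((d : ZMod n) * c.1)) (ρ.a (Tm ((d : ZMod n) * c.2)) v)
  rw [Fintype.sum_prod_type, Fintype.sum_prod_type] at h1
  simp only [← map_sum, h0, map_zero, sum_const_zero] at h1
  have h2 : ∑ y : ZMod n, ρ.a (Un (Lm u) ((d : ZMod n) * y))
      (∑ y' : ZMod n, ρ.a (Un (Lm u') ((d : ZMod n) * y')) v) = 0 := by
    rw [← h1]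
    refine sum_congr rfl fun y _ => ?_
    rw [map_sum]
    refine sum_congr rfl fun y' _ => ?_
    rw [← ρ.mul, prod_eq he, ρ.mul, ρ.mul, hf _ rfl rfl]
  simp only [Q, map_smul, ← smul_sum, h2, smul_zero]

theorem unit_of {p k n : ℕ} (hp : p.Prime) (hn : n = p ^ k) {u u' : ℕ} (h1 : u < p) (h2 : u' < p)
    (h3 : u ≠ u') (h4 : u + u' ≠ p) : IsUnit ((u : ZMod n) ^ 2 - (u' : ZMod n) ^ 2) := by
  have hz : Prime (p : ℤ) := Nat.prime_iff_prime_int.1 hp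
  have h5 : ¬(p : ℤ) ∣ ((u : ℤ) - u') * (u + u' - p) := fun h => by
    rcases hz.dvd_or_dvd h with h | h
    · have := Int.eq_zero_of_abs_lt_dvd h (abs_lt.2 ⟨by omega, by omega⟩)
      omega
    · have := Int.eq_zero_of_abs_lt_dvd h (abs_lt.2 ⟨by omega, by omega⟩)
      omega
  have h6 : ¬(p : ℤ) ∣ (u : ℤ) ^ 2 - u' ^ 2 := fun h => h5 (by
    have e : ((u : ℤ) - u') * (u + u' - p) = (u : ℤ) ^ 2 - u' ^ 2 - p * (u - u') := by ring
    rw [e]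
    exact dvd_sub h (dvd_mul_right _ _))
  have h7 : IsCoprime (n : ℤ) ((u : ℤ) ^ 2 - u' ^ 2) := by
    rw [hn, Nat.cast_pow]
    exact ((Prime.coprime_iff_not_dvd hz).2 h6).pow_left
  have h8 := (ZMod.coe_int_isUnit_iff_isCoprime _ n).2 h7
  simpa using h8

end L2aAux

open L2aAux in
theorem row_L2a : K_L2a := by
  intro p k n _ hp _ hn W _ _ ρ v hk hv h2
  have h0 : ((p ^ k : ℕ) : ZMod n) = 0 := by rw [← hn, ZMod.natCast_self]
  have he : ((p ^ (k - 1) : ℕ) : ZMod n) * (p ^ (k - 1) : ℕ) = 0 := by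
    rw [← Nat.cast_mul, ZMod.natCast_eq_zero_iff, hn, ← pow_add]
    exact pow_dvd_pow _ (by omega)
  have hT : ρ.AT (p ^ (k - 1)) v = 0 := by
    have h1 := hv.nT p hp (hn ▸ dvd_pow_self p (by omega))
    have h3 : p ^ k / p = p ^ (k - 1) := by
      simpa using Nat.pow_div (x := p) (m := k) (n := 1) (by omega) hp.pos
    rwa [h3] at h1
  have key : ∀ s : Finset ℕ, (∀ u ∈ s, u < p) → (∀ u ∈ s, ∀ u' ∈ s, u ≠ u' → u + u' ≠ p) →
      ∑ u ∈ s, ‖ρ.AT (p ^ (k - 1)) (ρ.a (Lm (u : ZMod n)) v)‖ ^ 2 ≤ ‖v‖ ^ 2 := by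
    intro s s1 s2
    simp only [Q_eq, ρ.nrm]
    refine bessel s (fun u => Q ρ (p ^ (k - 1)) (u : ZMod n) v) v (fun u hu u' hu' h => ?_)
      fun u _ => Q_self hk.toKit0 _ _ v
    rw [Q_adj hk.toKit0, Q_Q he (fun x x1 x2 => hv.fix x (x1 ▸ dvd_zero _) (x2 ▸ dvd_zero _)) hT
      (unit_of hp hn (s1 u hu) (s1 u' hu') h (s2 u hu u' hu' h)), inner_zero_right]
  rw [← sum_filter_add_sum_filter_not (range p) fun u => 2 * u < p, two_mul]
  refine add_le_add (key _ (fun u hu => ?_) fun u hu u' hu' h => ?_)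
    (key _ (fun u hu => ?_) fun u hu u' hu' h => ?_) <;>
    simp only [mem_filter, mem_range] at * <;> omega

end

end Pool.Agent.MP_b2c033_nt.UL
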