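import Pool.Agent.MP_b2c033_nt.UL.Spec

/-! The bound for the mean of the fixed components, for vectors without fixed component. -/

namespace Pool.Agent.MP_b2c033_nt.UL

open U Finset
open scoped MatrixGroups Classical InnerProductSpace

noncomputable section

namespace L2bAux

variable {n : ℕ} [NeZero n] {W : Type} [NormedAddCommGroup W] [InnerProductSpace ℂ W]
  (ρ : RA (G n) W)

/-- the sum of the conjugates of the projection -/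
def S (w : W) : W := ∑ x, ρ.a x⁻¹ (ρ.AT 1 (ρ.a x w))

lemma sum_a (x : G n) (v : W) : ∑ y, ρ.a y (ρ.a x v) = ∑ y, ρ.a y v := by
  simp only [← ρ.mul]
  exact (Group.mulLeft_bijective x).sum_comp fun y => ρ.a y v

lemma sum_AT (v : W) : ∑ y, ρ.a y (ρ.AT 1 v) = ∑ y, ρ.a y v := by
  have : (n : ℂ) ≠ 0 := by exact_mod_cast NeZero.ne n
  simp only [RA.AT, map_smul, map_sum, ← smul_sum]
  rw [sum_comm]
  simp only [sum_a, sum_const, card_univ, ZMod.card, ← Nat.cast_smul_eq_nsmul ℂ, smul_smul]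
  rw [inv_mul_cancel₀ this, one_smul]

lemma S_a (y : G n) (w : W) : S ρ (ρ.a y w) = ρ.a y (S ρ w) := by
  simp only [S, map_sum, ← ρ.mul]
  rw [← (Group.mulLeft_bijective y).sum_comp fun x => ρ.a (x⁻¹ * y) (ρ.AT 1 (ρ.a x w))]
  simp

lemma S_AT (w : W) : S ρ (ρ.AT 1 w) = ρ.AT 1 (S ρ w) := by
  have : ∀ u, S ρ u = (∑ x, ρ.a x⁻¹ ∘ₗ ρ.ATL 1 ∘ₗ ρ.a x) u := fun u => by
    simp [S, LinearMap.sum_apply, RA.ATL_apply]
  rw [this, RA.AT, map_smul, map_sum]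
  simp only [← this, S_a]
  rfl

variable {ρ}

lemma inn_S (k : Kit ρ) (u w : W) : ⟪u, S ρ w⟫_ℂ = ∑ x, ⟪ρ.a x u, ρ.AT 1 (ρ.a x w)⟫_ℂ := by
  rw [S, inner_sum]
  refine sum_congr rfl fun x _ => ?_
  rw [← k.inn x, ← ρ.mul, inv_mul_cancel, ρ.one]

lemma re_S (k : Kit ρ) (w : W) : (⟪w, S ρ w⟫_ℂ).re = ∑ x, ‖ρ.AT 1 (ρ.a x w)‖ ^ 2 := by
  rw [inn_S k, Complex.re_sum]
  refine sum_congr rfl fun x _ => ?_
  rw [← k.AT_AT 1 1 _ dvd_rfl, ← k.AT_inn, k.AT_AT 1 1 _ dvd_rfl]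
  exact inner_self_eq_norm_sq (𝕜 := ℂ) _

end L2bAux

open L2bAux in
theorem row_L2b : R_L2b := by
  intro hm p _ hp W _ _ ρ v k hv
  have N0 : (0 : ℝ) < Fintype.card (G p) := by exact_mod_cast Fintype.card_pos
  set N : ℝ := (Fintype.card (G p) : ℝ)
  set c : ℝ := 2 / (p + 1)
  have c0 : 0 ≤ c := by positivity
  have h1 : ∀ x, ∑ y, ‖ρ.AT 1 (ρ.a y (ρ.AT 1 (ρ.a x v)))‖ ^ 2 ≤
      N * (c * ‖ρ.AT 1 (ρ.a x v)‖ ^ 2) := fun x =>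
    (inv_mul_le_iff₀ N0).1 (hm p hp W ρ _ k (fun y => by simpa using k.AT_fix 1 y _) (by
      rw [sum_AT, sum_a, ← sum_AT, hv]
      simp))
  set F : ℝ := ∑ x, ‖ρ.AT 1 (ρ.a x v)‖ ^ 2 with hF
  have F0 : 0 ≤ F := sum_nonneg fun _ _ => by positivity
  have h2 : ‖S ρ v‖ ^ 2 ≤ N * (c * F) := by
    rw [← inner_self_eq_norm_sq (𝕜 := ℂ), inn_S k, hF, mul_sum, mul_sum]
    refine (Complex.re_sum _ _).le.trans (sum_le_sum fun x _ => le_trans (le_of_eq ?_) (h1 x))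
    rw [← re_S k, ← S_a, ← k.AT_AT 1 1 _ dvd_rfl, ← k.AT_inn, ← S_AT, k.AT_AT 1 1 _ dvd_rfl]
    exact inner_re_symm (𝕜 := ℂ) _ _
  have h3 : F ≤ ‖v‖ * ‖S ρ v‖ := by
    rw [hF, ← re_S k]
    exact re_inner_le_norm (𝕜 := ℂ) _ _
  refine (inv_mul_le_iff₀ N0).2 ?_
  rcases F0.eq_or_lt with q | q
  · exact q.symm.le.trans (by positivity)
  refine le_of_mul_le_mul_right ?_ q
  calc F * F ≤ ‖v‖ * ‖S ρ v‖ * (‖v‖ * ‖S ρ v‖) := mul_self_le_mul_self F0 h3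
    _ = ‖v‖ ^ 2 * ‖S ρ v‖ ^ 2 := by ring
    _ ≤ ‖v‖ ^ 2 * (N * (c * F)) := by gcongr
    _ = _ := by ring

end

end Pool.Agent.MP_b2c033_nt.UL
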