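import Pool.Agent.MP_b2c033_nt.UL.Spec

namespace Pool.Agent.MP_b2c033_nt.UL

open U Finset
open scoped MatrixGroups Classical InnerProductSpace

namespace L2kAux

variable {p : ℕ} [Fact p.Prime]

lemma decomp (x : G p) (h : x 1 0 ≠ 0) :
    x = Tm ((x 0 0 - 1) / x 1 0) * Lm (x 1 0) * Tm ((x 1 1 - 1) / x 1 0) := by
  have hd := det2 x
  apply ext2 <;> simp only [mul2, Tm, Lm, mk_00, mk_01, mk_10, mk_11] <;> field_simp
  · ring
  · linear_combination -hd
  · ring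
  · ring

lemma card_fib (y : ZMod p) (hy : y ≠ 0) :
    0 < (univ.filter fun x : G p => x 1 0 = y).card ∧
    (univ.filter fun x : G p => x 1 0 = y).card = (univ.filter fun x : G p => x 1 0 = 1).card := by
  refine ⟨card_pos.2 ⟨Lm y, by simp [Lm]⟩, ?_⟩
  refine card_bij (fun x _ => tw (Units.mk0 y hy) x) (fun x hx => ?_)
    (fun x _ x' _ h => (tw_bij _).1 h) fun x hx => ?_
  · simp only [mem_filter, mem_univ, true_and] at hx ⊢
    simp [tw, hx, hy]
  · obtain ⟨x', rfl⟩ := (tw_bij (Units.mk0 y hy)).2 x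
    refine ⟨x', ?_, rfl⟩
    simp only [mem_filter, mem_univ, true_and] at hx ⊢
    simp only [tw, mk_10, Units.val_inv_eq_inv_val, Units.val_mk0] at hx
    field_simp at hx
    exact hx

end L2kAux

open L2kAux in
theorem row_L2k : K_L2k := by
  intro p _ hp W _ _ ρ w hk hT h0
  have := Fact.mk hp
  have hp0 : (0 : ℝ) < p := by exact_mod_cast hp.pos
  have inv : ∀ (x : G p) (u v : W), ⟪ρ.a x u, v⟫_ℂ = ⟪u, ρ.a x⁻¹ v⟫_ℂ := fun x u v => by
    rw [← hk.inn x⁻¹, ← ρ.mul, mul_inv_cancel, ρ.one]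
  have hTi : ∀ y : ZMod p, ρ.a (Tm y)⁻¹ w = w := fun y => by
    have : (Tm y)⁻¹ = Tm (-y) := by
      rw [inv_eq_iff_mul_eq_one, ← Tm_add, add_neg_cancel, Tm_zero]
    rw [this, hT]
  set f : G p → ℝ := fun x => (⟪ρ.a x w, w⟫_ℂ).re with hf
  have h1 : ∀ x : G p, x 1 0 ≠ 0 → f x = f (Lm (x 1 0)) := fun x hx => by
    simp only [hf]
    conv_lhs => rw [decomp x hx]
    rw [ρ.mul, ρ.mul, hT, inv, hTi]
  have h2 : ∑ x, f x = 0 := by
    simp only [hf]
    rw [← Complex.re_sum, ← sum_inner, h0, inner_zero_left, Complex.zero_re]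
  -- the Borel subgroup
  set B : Finset (G p) := univ.filter fun x => x 1 0 = 0 with hB
  have h3 : 0 ≤ ∑ x ∈ B, f x := by
    have e : ∀ z ∈ B, ∑ x ∈ B, ⟪ρ.a x w, ρ.a z w⟫_ℂ = ∑ x ∈ B, ⟪ρ.a x w, w⟫_ℂ := fun z hz => by
      have hz0 : z 1 0 = 0 := by simpa [hB] using hz
      have hzi : z⁻¹ 1 0 = 0 := by simp [Matrix.SpecialLinearGroup.SL2_inv_expl, hz0]
      symm
      refine sum_bij' (fun x _ => x * z) (fun x _ => x * z⁻¹) (fun x hx => ?_) (fun x hx => ?_)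
        (fun x _ => by simp) (fun x _ => by simp) fun x _ => ?_
      · have : x 1 0 = 0 := by simpa [hB] using hx
        simp only [hB, mem_filter, mem_univ, true_and, mul2, this, hz0, zero_mul, mul_zero,
          add_zero]
      · have : x 1 0 = 0 := by simpa [hB] using hx
        simp only [hB, mem_filter, mem_univ, true_and, mul2, this, hzi, zero_mul, mul_zero,
          add_zero]
      · rw [ρ.mul, hk.inn]
    have e2 : ⟪∑ x ∈ B, ρ.a x w, ∑ x ∈ B, ρ.a x w⟫_ℂ = B.card * ∑ x ∈ B, ⟪ρ.a x w, w⟫_ℂ := by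
      rw [inner_sum, sum_congr rfl fun z hz => (sum_inner _ _ _).trans (e z hz), sum_const,
        nsmul_eq_mul]
    have e3 : 0 ≤ (B.card : ℝ) * ∑ x ∈ B, f x := by
      have := inner_self_nonneg (𝕜 := ℂ) (x := ∑ x ∈ B, ρ.a x w)
      rw [e2] at this
      simpa [hf, Complex.re_sum] using this
    have e4 : (0 : ℝ) < B.card := by
      exact_mod_cast card_pos.2 ⟨1, by simp [hB]⟩
    exact nonneg_of_mul_nonneg_right e3 e4 |> fun h => h
  have h4 : ∑ x, f x = ∑ x ∈ B, f x +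
      ((univ.filter fun x : G p => x 1 0 = 1).card : ℝ) * ∑ y ∈ univ.erase 0, f (Lm y) := by
    rw [← sum_fiberwise univ (fun x : G p => x 1 0) f, ← add_sum_erase _ _ (mem_univ 0), mul_sum]
    refine congrArg _ (sum_congr rfl fun y hy => ?_)
    have hy0 : y ≠ 0 := ne_of_mem_erase hy
    rw [← (card_fib y hy0).2, ← nsmul_eq_mul, ← sum_const]
    refine sum_congr rfl fun x hx => ?_
    have : x 1 0 = y := by simpa using hx
    rw [h1 x (this ▸ hy0), this]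
  have h5 : ∑ y ∈ univ.erase 0, f (Lm y) ≤ 0 := by
    have c : (0 : ℝ) < ((univ.filter fun x : G p => x 1 0 = 1).card : ℝ) := by
      exact_mod_cast (card_fib (1 : ZMod p) one_ne_zero).1
    by_contra hh
    have := mul_pos c (not_le.1 hh)
    linarith
  have h6 : ∑ y : ZMod p, f (Lm y) ≤ ‖w‖ ^ 2 := by
    rw [← add_sum_erase _ _ (mem_univ (0 : ZMod p))]
    have : f (Lm 0) = ‖w‖ ^ 2 := by
      simp only [hf, Lm_zero, ρ.one]
      exact (InnerProductSpace.norm_sq_eq_re_inner (𝕜 := ℂ) w).symm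
    linarith
  have h7 : ‖∑ y : ZMod p, ρ.a (Lm y) w‖ ^ 2 = p * ∑ y : ZMod p, f (Lm y) := by
    have e : ∀ z : ZMod p, ∑ y : ZMod p, ⟪ρ.a (Lm y) w, ρ.a (Lm z) w⟫_ℂ =
        ∑ y : ZMod p, ⟪ρ.a (Lm y) w, w⟫_ℂ := fun z => by
      rw [← Equiv.sum_comp (Equiv.addRight z)]
      refine sum_congr rfl fun y _ => ?_
      rw [Equiv.coe_addRight, Lm_add, ρ.mul, hk.inn]
    rw [InnerProductSpace.norm_sq_eq_re_inner (𝕜 := ℂ), inner_sum,
      sum_congr rfl fun z _ => (sum_inner _ _ _).trans (e z), sum_const, card_univ, ZMod.card,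
      nsmul_eq_mul]
    simp [hf, Complex.re_sum]
  have h8 : ‖ρ.AL 1 w‖ ^ 2 = (p : ℝ)⁻¹ ^ 2 * ‖∑ y : ZMod p, ρ.a (Lm y) w‖ ^ 2 := by
    simp only [RA.AL, Nat.cast_one, one_mul, norm_smul, norm_inv, Complex.norm_natCast, mul_pow]
  rw [h8, h7]
  calc (p : ℝ) * ((p : ℝ)⁻¹ ^ 2 * (p * ∑ y : ZMod p, f (Lm y))) = ∑ y : ZMod p, f (Lm y) := by
        field_simp
    _ ≤ _ := h6

end Pool.Agent.MP_b2c033_nt.UL
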