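import Pool.Agent.MP_b2c033_nt.UL.Spec

/-! The mean of the top component of a vector fixed by the translations. -/

namespace Pool.Agent.MP_b2c033_nt.UL

open U Finset

theorem row_L2m : R_L2m := by
  intro cnt l2k p _ hp W _ _ ρ w K hT h0
  have : Fact p.Prime := ⟨hp⟩
  have hc := cnt p 1 1 p hp (pow_one p).symm le_rfl le_rfl
  have hk := l2k p hp W ρ w K hT h0
  set A := ‖ρ.AL 1 w‖ ^ 2 with hA
  have key : ∀ x : G p, ‖ρ.AT 1 (ρ.a x w)‖ ^ 2 ≤
      A + (‖w‖ ^ 2 - A) * (if (p : ZMod p) ^ 1 ∣ x 1 0 then 1 else 0) := by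
    intro x
    split_ifs with h
    · have h1 := K.AT_le 1 (ρ.a x w)
      rw [ρ.nrm] at h1
      have := pow_le_pow_left₀ (norm_nonneg _) h1 2
      linarith
    · have hc0 : x 1 0 ≠ 0 := fun e => h (by rw [e]; exact dvd_zero _)
      obtain ⟨s, hs⟩ : ∃ s : G p, s = Tm (-(x 0 0 / x 1 0)) * x := ⟨_, rfl⟩
      have s0 : s 0 0 = 0 := by
        rw [hs, mul2]
        simp only [Tm, mk_00, mk_01]
        field_simp
        ring
      have s1 : s 1 0 = x 1 0 := by
        rw [hs, mul2]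
        simp [Tm]
      have e1 : ρ.a x w = ρ.a s w := by rw [hs, ρ.mul, hT]
      have e2 : ∀ y, Un s y = Lm (-(x 1 0 ^ 2) * y) := fun y => by
        apply ext2 <;> simp [Un, Lm, s0, s1, mul_comm]
      have e3 : ∑ y : ZMod p, ρ.a (Un s (((1 : ℕ) : ZMod p) * y)) w =
          ∑ y : ZMod p, ρ.a (Lm (((1 : ℕ) : ZMod p) * y)) w := by
        simp only [Nat.cast_one, one_mul, e2]
        exact Equiv.sum_comp (Equiv.mulLeft₀ (-(x 1 0 ^ 2)) (neg_ne_zero.2 (pow_ne_zero 2 hc0)))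
          fun y => ρ.a (Lm y) w
      rw [e1, ρ.AT_conj, ρ.nrm, e3, mul_zero, add_zero]
      exact le_rfl
  refine (mean_mono key).trans ?_
  rw [mean_add, mean_const, mean_mul, hc]
  have hp0 : (0 : ℝ) < p + 1 := by positivity
  rw [Nat.sub_self, pow_zero, one_mul, div_mul_eq_mul_div, le_div_iff₀ hp0]
  field_simp
  linarith

end Pool.Agent.MP_b2c033_nt.UL
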