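import Pool.Agent.MP_b2c033_nt.UL.Spec

/-! The middle cusps at prime level. -/

namespace Pool.Agent.MP_b2c033_nt.UL

open U Finset CongruenceSubgroup
open scoped MatrixGroups Classical InnerProductSpace

namespace L3Aux

lemma sum_range_zmod (n : ℕ) [NeZero n] (f : ZMod n → ℝ) :
    ∑ u ∈ range n, f (u : ZMod n) = ∑ x, f x := by
  refine sum_nbij' (fun u => (u : ZMod n)) (fun x => x.val) (fun _ _ => mem_univ _)
    (fun x _ => mem_range.2 (ZMod.val_lt x)) (fun u hu => ZMod.val_cast_of_lt (mem_range.1 hu))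
    (fun x _ => ZMod.natCast_zmod_val x) fun _ _ => rfl

lemma main (n : ℕ) [NeZero n] (hn : 2 ≤ n) {W : Type} [NormedAddCommGroup W]
    [InnerProductSpace ℂ W] (ρ : RA (G n) W) (v : W) (K : Kit ρ) (hT : ρ.AT 1 v = 0)
    (hL : ρ.AL 1 v = 0) :
    ∑ x : ZMod n, ‖ρ.AT 1 (ρ.a (Lm x) v)‖ ^ 2 ≤ ((n : ℝ) - 1 - 1 / (n - 1)) * ‖v‖ ^ 2 := by
  have hn0 : (n : ℂ) ≠ 0 := by exact_mod_cast NeZero.ne n
  have h0 : ∑ x : ZMod n, ρ.a (Lm x) v = 0 := by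
    simp only [RA.AL, Nat.cast_one, one_mul] at hL
    exact (smul_eq_zero.1 hL).resolve_left (inv_ne_zero hn0)
  have h1 : ∑ x : ZMod n, (ρ.a (Lm x) v - ρ.AT 1 (ρ.a (Lm x) v)) = 0 := by
    rw [sum_sub_distrib, h0]
    simp only [← RA.ATL_apply]
    rw [← map_sum, h0, map_zero, sub_zero]
  rw [← add_sum_erase _ _ (mem_univ (0 : ZMod n)), Lm_zero, ρ.one, hT, sub_zero] at h1
  have h2 : ‖v‖ ≤ ∑ x ∈ univ.erase (0 : ZMod n), ‖ρ.a (Lm x) v - ρ.AT 1 (ρ.a (Lm x) v)‖ := by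
    have e : v = -∑ x ∈ univ.erase (0 : ZMod n), (ρ.a (Lm x) v - ρ.AT 1 (ρ.a (Lm x) v)) :=
      eq_neg_of_add_eq_zero_left h1
    calc ‖v‖ = ‖∑ x ∈ univ.erase (0 : ZMod n), (ρ.a (Lm x) v - ρ.AT 1 (ρ.a (Lm x) v))‖ := by
          rw [← norm_neg (∑ x ∈ _, _), ← e]
      _ ≤ _ := norm_sum_le _ _
  have hc : ((univ.erase (0 : ZMod n)).card : ℝ) = n - 1 := by
    rw [card_erase_of_mem (mem_univ _), card_univ, ZMod.card, Nat.cast_sub (by omega),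
      Nat.cast_one]
  have h3 := sq_sum_le_card_mul_sum_sq (s := univ.erase (0 : ZMod n))
    (f := fun x => ‖ρ.a (Lm x) v - ρ.AT 1 (ρ.a (Lm x) v)‖)
  have h4 : ‖v‖ ^ 2 ≤ _ := (pow_le_pow_left₀ (norm_nonneg _) h2 2).trans h3
  simp only [K.AT_pyth, ρ.nrm] at h4
  rw [sum_sub_distrib, sum_const, nsmul_eq_mul, hc] at h4
  rw [← add_sum_erase _ _ (mem_univ (0 : ZMod n)), Lm_zero, ρ.one, hT, norm_zero]
  have hp : (0 : ℝ) < n - 1 := by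
    have : (2 : ℝ) ≤ n := by exact_mod_cast hn
    linarith
  have h5 : ‖v‖ ^ 2 / (n - 1) ≤ (n - 1) * ‖v‖ ^ 2 -
      ∑ x ∈ univ.erase (0 : ZMod n), ‖ρ.AT 1 (ρ.a (Lm x) v)‖ ^ 2 := by
    rw [div_le_iff₀ hp, mul_comm]
    exact h4
  have e : ((n : ℝ) - 1 - 1 / (n - 1)) * ‖v‖ ^ 2 = (n - 1) * ‖v‖ ^ 2 - ‖v‖ ^ 2 / (n - 1) := by
    ring
  rw [e]
  linarith

end L3Aux

theorem row_L3 : K_L3 := by
  intro p k n _ hp _ hn W _ _ ρ v K H hk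
  subst hk
  rw [pow_one] at hn
  subst hn
  have hT := H.nT n hp dvd_rfl
  have hL := H.nL n hp dvd_rfl
  rw [pow_one, Nat.div_self hp.pos] at hT hL
  rw [L3Aux.sum_range_zmod n fun x => ‖ρ.AT 1 (ρ.a (Lm x) v)‖ ^ 2]
  exact L3Aux.main n hp.two_le ρ v K hT hL

end Pool.Agent.MP_b2c033_nt.UL
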