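import Pool.Agent.MP_b2c033_nt.UL.Spec

/-! The drop at a middle root of the prime two is at most three. -/

namespace Pool.Agent.MP_b2c033_nt.UL

open U Finset
open scoped MatrixGroups

namespace L5Aux

variable {n : ℕ} [NeZero n] {W : Type} [NormedAddCommGroup W] [InnerProductSpace ℂ W]
  {ρ : RA (G n) W} {v : W}

omit [NeZero n] in
theorem fmul {g h : G n} (hg : ρ.a g v = v) (hh : ρ.a h v = v) : ρ.a (g * h) v = v := by
  rw [ρ.mul, hg, hh]

omit [NeZero n] in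
theorem inj {x : G n} {w w' : W} (h : ρ.a x w = ρ.a x w') : w = w' := by
  have := congrArg (ρ.a x⁻¹) h
  rwa [← ρ.mul, ← ρ.mul, mul_inv_cancel, ρ.one, ρ.one] at this

theorem mult {M : ZMod n → G n} (h0 : M 0 = 1) (ha : ∀ x y, M (x + y) = M x * M y) {d : ZMod n}
    (h : ρ.a (M d) v = v) (y : ZMod n) : ρ.a (M (d * y)) v = v := by
  obtain ⟨m, rfl⟩ := ZMod.natCast_zmod_surjective y
  induction m with
  | zero => rw [Nat.cast_zero, mul_zero, h0, ρ.one]
  | succ m ih =>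
    rw [Nat.cast_succ, mul_add, mul_one, ha]
    exact fmul ih h

theorem AL_of_fix {d : ℕ} (h : ∀ y, ρ.a (Lm ((d : ZMod n) * y)) v = v) : ρ.AL d v = v := by
  have : (n : ℂ) ≠ 0 := by exact_mod_cast NeZero.ne n
  simp only [RA.AL, h, sum_const, card_univ, ZMod.card, ← Nat.cast_smul_eq_nsmul ℂ, smul_smul]
  rw [inv_mul_cancel₀ this, one_smul]

theorem up (hd : ∀ x : G n, x 0 1 = 0 → x 1 0 = 0 → ρ.a x v = v) {g : G n} (hg : ρ.a g v = v)
    (h0 : g 1 0 = 0) {e : ZMod n} (c : ZMod n) (he : g 0 1 * c = e) (y : ZMod n) :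
    ρ.a (Tm (e * y)) v = v := by
  have h1 : g 0 0 * g 1 1 = 1 := by simpa [h0] using det2 g
  have e1 : g = mk (g 0 0) 0 0 (g 1 1) (by simpa using h1) * Tm (g 1 1 * g 0 1) := by
    apply ext2 <;> simp [mul2, Tm, h0, ← mul_assoc, h1]
  rw [e1, ρ.mul, hd _ rfl rfl] at hg
  have h2 := mult Tm_zero Tm_add hg (g 0 0 * c * y)
  rwa [show g 1 1 * g 0 1 * (g 0 0 * c * y) = e * y by
    linear_combination g 0 1 * c * y * h1 + y * he] at h2

theorem lo (hd : ∀ x : G n, x 0 1 = 0 → x 1 0 = 0 → ρ.a x v = v) {g : G n} (hg : ρ.a g v = v)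
    (h0 : g 0 1 = 0) {e : ZMod n} (c : ZMod n) (he : g 1 0 * c = e) (y : ZMod n) :
    ρ.a (Lm (e * y)) v = v := by
  have h1 : g 0 0 * g 1 1 = 1 := by simpa [h0] using det2 g
  have e1 : g = mk (g 0 0) 0 0 (g 1 1) (by simpa using h1) * Lm (g 0 0 * g 1 0) := by
    apply ext2 <;> simp [mul2, Lm, h0, ← mul_assoc, mul_comm (g 1 1) (g 0 0), h1]
  rw [e1, ρ.mul, hd _ rfl rfl] at hg
  have h2 := mult Lm_zero Lm_add hg (g 1 1 * c * y)
  rwa [show g 0 0 * g 1 0 * (g 1 1 * c * y) = e * y by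
    linear_combination g 1 0 * c * y * h1 + y * he] at h2

theorem unf (K : Kit ρ) {d : ℕ} {x : G n} (h : ρ.AT d (ρ.a x v) = ρ.a x v) (y : ZMod n) :
    ρ.a (Un x ((d : ZMod n) * y)) v = v := by
  have h1 := K.AT_fix d y (ρ.a x v)
  rw [h, ← ρ.mul, ← Un_mul, ρ.mul] at h1
  exact inj h1

end L5Aux

open L5Aux in
theorem row_L5 : K_L5 := by
  intro p k n _ _ _ hn W _ _ ρ v K H hp hk hv
  subst hp
  by_contra hc
  push Not at hc
  have h0 : (2 : ZMod n) ^ k = 0 := by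
    have := ZMod.natCast_self n
    rwa [hn, Nat.cast_pow, Nat.cast_ofNat, ← hn] at this
  have hd : ∀ x : G n, x 0 1 = 0 → x 1 0 = 0 → ρ.a x v = v := fun x h1 h2 =>
    H.fix x (h1 ▸ dvd_zero _) (h2 ▸ dvd_zero _)
  have h2 : 2 ∣ n := hn ▸ dvd_pow_self 2 (by omega)
  have e2 : 2 ^ k / 2 = 2 ^ (k - 1) := by
    rw [← Nat.pow_div (by omega) two_pos, pow_one]
  have hT : ¬∀ y, ρ.a (Tm ((2 : ZMod n) ^ (k - 1) * y)) v = v := fun h =>
    hv ((ρ.AT_of_fix (by simpa only [e2, Nat.cast_pow, Nat.cast_ofNat] using h)).symm.trans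
      (H.nT 2 Nat.prime_two h2))
  have hL : ¬∀ y, ρ.a (Lm ((2 : ZMod n) ^ (k - 1) * y)) v = v := fun h =>
    hv ((AL_of_fix (by simpa only [e2, Nat.cast_pow, Nat.cast_ofNat] using h)).symm.trans
      (H.nL 2 Nat.prime_two h2))
  have u1 := unf K (hc (Lm 1) isUnit_one isUnit_one)
  have u2 := unf K (hc (Lm (-1)) isUnit_one isUnit_one.neg)
  have h5 : IsUnit (5 : ZMod n) := by
    have := (ZMod.isUnit_iff_coprime 5 n).2 (hn ▸ Nat.Coprime.pow_right k (by norm_num))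
    simpa using this
  have u3 := unf K (hc (mk 5 4 1 1 (by norm_num)) h5 isUnit_one)
  simp only [Nat.cast_pow, Nat.cast_ofNat] at u1 u2 u3
  rcases Nat.lt_or_ge k 5 with h4 | h4
  · obtain ⟨j, rfl⟩ := Nat.exists_eq_add_of_le' hk
    rw [show j + 3 - 4 = 0 by omega] at u1 u2
    exact hL (lo hd (fmul (u1 1) (u2 1)) (by simp [mul2, Un, Lm]) (-2 ^ j)
      (by simp [mul2, Un, Lm]; ring))
  have g3 := fmul (u3 1) (u1 (-1))
  rcases h4.eq_or_lt with rfl | h6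
  · exact hL (lo hd g3 (by simp [mul2, Un, Lm]; linear_combination -h0) 1
      (by simp [mul2, Un, Lm]; ring))
  · obtain ⟨j, rfl⟩ := Nat.exists_eq_add_of_le' (show 6 ≤ k from h6)
    rw [show j + 6 - 4 = j + 2 by omega] at g3
    exact hT (up hd g3 (by simp [mul2, Un, Lm]; linear_combination 2 ^ j * h0) 1
      (by simp [mul2, Un, Lm]; linear_combination (1 - 5 * 2 ^ j) * h0))

end Pool.Agent.MP_b2c033_nt.UL
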