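import Pool.Agent.MP_b2c033_nt.UL.Spec

/-! The heights in terms of the type of a cusp. -/

namespace Pool.Agent.MP_b2c033_nt.UL

open U

namespace LowAux

lemma fac_zero (N p : ℕ) (γ : SZ) (h : γ 1 0 = 0) :
    (gN N γ).factorization p = N.factorization p := by
  simp [gN, h]

lemma fac_ne (N p : ℕ) (γ : SZ) (hN : 0 < N) (hp : p.Prime) (h : γ 1 0 ≠ 0) :
    (gN N γ).factorization p = min (padicValInt p (γ 1 0)) (N.factorization p) := by
  have e : gN N γ = Nat.gcd (γ 1 0).natAbs N := by simp [gN, Int.gcd]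
  rw [e, Nat.factorization_gcd (Int.natAbs_ne_zero.2 h) hN.ne', Finsupp.inf_apply,
    Nat.factorization_def _ hp]
  rfl

end LowAux

theorem row_Low : K_Low := by
  intro N p γ hN hp
  by_cases h : γ 1 0 = 0
  · rw [LowAux.fac_zero N p γ h]
    simp only [low, Mid, ht, if_pos h]
    omega
  · rw [LowAux.fac_ne N p γ hN hp h]
    simp only [low, Mid, ht, if_neg h]
    omega

end Pool.Agent.MP_b2c033_nt.UL
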