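import Pool.Agent.MP_b2c033_nt.UL.Spec

/-! The mean of the top energy as a sum over lower unipotents. -/

namespace Pool.Agent.MP_b2c033_nt.UL

open U Finset CongruenceSubgroup
open scoped MatrixGroups Classical InnerProductSpace

noncomputable section

namespace LsumAux

lemma dv {p n : ℕ} [NeZero n] (h : p ∣ n) (z : ZMod n) :
    (p : ZMod n) ∣ z ↔ ZMod.castHom h (ZMod p) z = 0 := by
  constructor
  · rintro ⟨c, rfl⟩
    rw [map_mul, map_natCast, ZMod.natCast_self, zero_mul]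
  · intro e
    rw [← ZMod.natCast_zmod_val z, map_natCast, ZMod.natCast_eq_zero_iff] at e
    rw [← ZMod.natCast_zmod_val z]
    exact Nat.cast_dvd_cast e

lemma unit {p k n : ℕ} [NeZero n] (hp : p.Prime) (hn : n = p ^ k) {z : ZMod n}
    (hz : ¬(p : ZMod n) ∣ z) : IsUnit z := by
  obtain ⟨m, rfl⟩ : ∃ m : ℕ, (m : ZMod n) = z := ⟨_, ZMod.natCast_zmod_val z⟩
  rw [ZMod.isUnit_iff_coprime, hn]
  refine Nat.Coprime.pow_right _ ((Nat.Prime.coprime_iff_not_dvd hp).2 fun e => ?_).symm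
  exact hz (Nat.cast_dvd_cast e)

/-- invariance under the Borel subgroup modulo `p` -/
lemma inv {n : ℕ} [NeZero n] {W : Type} [NormedAddCommGroup W] [InnerProductSpace ℂ W]
    (ρ : RA (G n) W) (d : ℕ) (β : G n) (w : W) (h0 : IsUnit (β 0 0))
    (h1 : (d : ZMod n) * β 1 0 = 0) : ‖ρ.AT d (ρ.a β w)‖ = ‖ρ.AT d w‖ := by
  rw [ρ.AT_conj, ρ.nrm, RA.AT]
  have e : ∀ y, Un β ((d : ZMod n) * y) = Tm ((d : ZMod n) * (β 0 0 ^ 2 * y)) := fun y => by
    apply ext2 <;> simp only [Un, Tm, mk_00, mk_01, mk_10, mk_11]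
    · linear_combination (-(y * β 0 0)) * h1
    · ring
    · linear_combination (-(y * β 1 0)) * h1
    · linear_combination (y * β 0 0) * h1
  simp only [e]
  obtain ⟨u, hu⟩ := h0.pow 2
  rw [← hu]
  have := (Units.mulLeft u).bijective.sum_comp fun y => ρ.a (Tm ((d : ZMod n) * y)) w
  simp only [Units.mulLeft_apply] at this
  rw [this]

end LsumAux

open LsumAux

theorem row_Lsum : R_Lsum := by
  intro hC hL p k n _ hp hk hn W _ _ ρ v _ hv
  have : Fact p.Prime := ⟨hp⟩
  have pn : p ∣ n := hn ▸ dvd_pow_self p (by omega)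
  set φ := ZMod.castHom pn (ZMod p) with hφ
  have dvφ : ∀ z : ZMod n, (p : ZMod n) ∣ z ↔ φ z = 0 := dv pn
  have detφ : ∀ x : G n, φ (x 0 0) = 0 → φ (x 1 0) ≠ 0 := fun x e0 e1 => by
    have := congrArg φ (det2 x)
    rw [map_sub, map_mul, map_mul, e0, e1, map_one] at this
    simp at this
  have zero : ((p ^ (k - 1) : ℕ) : ZMod n) * p = 0 := by
    rw [← Nat.cast_mul, ← pow_succ, Nat.sub_add_cancel hk, ← hn, ZMod.natCast_self]
  have low : ∀ (u : ℕ) (x : G n), (Lm (-(u : ZMod n)) * x) 1 0 = x 1 0 - u * x 0 0 := fun u x => by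
    simp only [mul2, Lm, mk_10, mk_11]
    ring
  have pt : ∀ x : G n, ‖ρ.AT (p ^ (k - 1)) (ρ.a x v)‖ ^ 2 =
      ∑ u ∈ range p, ‖ρ.AT (p ^ (k - 1)) (ρ.a (Lm (u : ZMod n)) v)‖ ^ 2 *
        if (p : ZMod n) ^ 1 ∣ (Lm (-(u : ZMod n)) * x) 1 0 then 1 else 0 := fun x => by
    simp only [pow_one, low, dvφ, map_sub, map_mul, map_natCast]
    by_cases e0 : φ (x 0 0) = 0
    · have e1 := detφ x e0
      have h := (hL p k k 0 1 n hp hk hk (by rw [max_self]; exact hn) (by omega) (by omega) W ρ v x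
        (x 1 0) hv (unit hp hn fun q => e1 ((dvφ _).1 q)) (by simp)
        (by rw [pow_one]; exact (dvφ _).2 e0)).2
      rw [mul_zero, Nat.sub_zero] at h
      simp [h, e0, e1]
    · set c : ZMod p := φ (x 1 0) / φ (x 0 0) with hc
      have c1 : φ (x 1 0) - (c.val : ZMod p) * φ (x 0 0) = 0 := by
        rw [ZMod.natCast_zmod_val, hc, div_mul_cancel₀ _ e0, sub_self]
      rw [sum_eq_single c.val, if_pos c1, mul_one]
      · have e : x = Lm (c.val : ZMod n) * (Lm (-(c.val : ZMod n)) * x) := by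
          rw [← mul_assoc, ← Lm_add, add_neg_cancel, Lm_zero, one_mul]
        have d1 : (p : ZMod n) ∣ (Lm (-(c.val : ZMod n)) * x) 1 0 := by
          rw [dvφ, low, map_sub, map_mul, map_natCast]
          exact c1
        generalize Lm (-(c.val : ZMod n)) * x = β at e d1
        rw [e, ρ.mul, inv ρ _ β _ (unit hp hn fun q => detφ β ((dvφ _).1 q) ((dvφ _).1 d1))]
        obtain ⟨z, hz⟩ := d1
        rw [hz, ← mul_assoc, zero, zero_mul]
      · intro u hu ne
        rw [if_neg, mul_zero]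
        intro q
        apply ne
        have : (u : ZMod p) = c := by
          rw [hc, eq_div_iff e0]
          linear_combination -q
        rw [← this, ZMod.val_cast_of_lt (mem_range.1 hu)]
      · exact fun q => absurd (mem_range.2 (ZMod.val_lt c)) q
  have cn := hC p k 1 n hp hn le_rfl hk
  rw [Nat.sub_self, pow_zero, one_mul] at cn
  rw [funext pt, mean_sum, sum_div]
  refine sum_congr rfl fun u _ => ?_
  rw [mean_mul, mean_bij (fun x : G n => if (p : ZMod n) ^ 1 ∣ x 1 0 then (1 : ℝ) else 0)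
    (Group.mulLeft_bijective (Lm (-(u : ZMod n)))), cn, mul_one_div]

end

end Pool.Agent.MP_b2c033_nt.UL
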