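import Pool.Agent.MP_b2c033_nt.UL.Spec

/-! Multiplicativity of the coefficients at all cusps. -/

namespace Pool.Agent.MP_b2c033_nt.UL

open U Finset CongruenceSubgroup
open scoped MatrixGroups Classical InnerProductSpace

noncomputable section

namespace MultAux

lemma den_dvd (m X : ℕ) : ((m : ℚ) / X).den ∣ X := by
  have h := Rat.den_dvd (m : ℤ) (X : ℤ)
  rw [Rat.divInt_eq_div, Int.cast_natCast, Int.cast_natCast] at h
  exact_mod_cast h

lemma not_dvd {m X q n : ℕ} (hq : q.Prime) (hX : X ≠ 0) (h1 : q.Coprime n) (h2 : ¬q ∣ m) :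
    ¬((m : ℚ) / X / q).den ∣ n := by
  rintro ⟨c, hc⟩
  have e := Rat.mul_den_eq_num ((m : ℚ) / X / q)
  generalize ((m : ℚ) / X / q).num = a at e
  generalize ((m : ℚ) / X / q).den = d at e hc
  have x0 : (X : ℚ) ≠ 0 := by exact_mod_cast hX
  have q0 : (q : ℚ) ≠ 0 := by exact_mod_cast hq.ne_zero
  have e2 : (m : ℚ) * (d * c) = q * (a * X * c) := by
    rw [← e]
    field_simp
  have e3 : ((m * n : ℕ) : ℤ) = q * (a * X * c) := by
    rw [hc]
    exact_mod_cast e2
  have e4 : q ∣ m * n := Int.natCast_dvd_natCast.1 ⟨_, e3⟩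
  exact h2 (h1.dvd_of_dvd_mul_right e4)

end MultAux

open MultAux

theorem row_Mult : K_Mult := by
  intro V _ _ C N g b N₁ r r' n _ W _ _ ρ ι v hS hK x m X hm hX
  have co := hS.nf.coef
  have X0 : X ≠ 0 := ne_zero_of_dvd_ne_zero (NeZero.ne n) hX
  induction m using Nat.strong_induction_on generalizing x with
  | _ m ih =>
    by_cases m0 : m = 0
    · subst m0
      rw [C.β_neg _ _ (by simp), co.zero]
      simp
    by_cases m1 : m = 1
    · subst m1
      have e : un n 1 = 1 := Units.ext (by rw [un_coe hm]; simp)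
      rw [e, tw_one, co.one]
      simp
    obtain ⟨q, hq, m', rfl⟩ := Nat.exists_prime_and_dvd m1
    have cq : q.Coprime n := Nat.Coprime.coprime_mul_right hm
    have cm : m'.Coprime n := Nat.Coprime.coprime_mul_left hm
    have p0 : 0 < m' := Nat.pos_of_ne_zero fun e => m0 (by rw [e, mul_zero])
    have lt : m' < q * m' := lt_mul_of_one_lt_left p0 hq.one_lt
    have h := hK q x ((m' : ℚ) / X) hq cq ((den_dvd m' X).trans hX)
    rw [ih m' lt _ cm, tw_tw (un n m'), ← un_mul cq cm] at h
    rw [Nat.cast_mul, mul_div_assoc, h, co.rel q m' hq, dn]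
    by_cases d : q ∣ m'
    · obtain ⟨m'', rfl⟩ := d
      have cm' : m''.Coprime n := Nat.Coprime.coprime_mul_left cm
      have q0 : (q : ℚ) ≠ 0 := by exact_mod_cast hq.ne_zero
      have e : ((q * m'' : ℕ) : ℚ) / X / q = (m'' : ℚ) / X := by
        push_cast
        field_simp
      rw [e, ih m'' ((Nat.le_mul_of_pos_left _ hq.pos).trans_lt lt) _ cm', tw_tw (un n m''),
        tw_tw, ← un_mul cq cm', ← un_mul cq cm, if_pos (dvd_mul_right _ _),
        Nat.mul_div_cancel_left _ hq.pos]
      split_ifs <;> push_cast <;> ring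
    · have z : ∀ w, C.β ((m' : ℚ) / X / q) (ι w) = 0 := fun w =>
        by_contra fun ne => not_dvd hq X0 cq d (hS.br.den w _ ne)
      rw [z, if_neg d]
      push_cast
      ring

end

end Pool.Agent.MP_b2c033_nt.UL
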