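import Pool.Agent.MP_b2c033_nt.UL.Spec
import Pool.Agent.MP_b2c033_nt.UN.Basic

/-! The lower bound for the orders at the cusps. -/

namespace Pool.Agent.MP_b2c033_nt.UL

open U CongruenceSubgroup

noncomputable section

namespace OrdAAux

variable {V : Type} [NormedAddCommGroup V] [InnerProductSpace ℂ V] {C : CS V}

/-- a translation that fixes the form at the cusp -/
theorem stab {N δ : ℕ} {g : V} (hg : C.Fix (Gamma0 N) g) (hδ : 0 < δ) (γ : SZ) {x : ℚ}
    {u w t : ℤ} (hu : x * γ 1 0 = u) (hw : δ * x = w) (ht : x * (γ 1 0 : ℚ) ^ 2 = δ * N * t) :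
    C.act (Tr x) (C.act (ofZ γ) (C.act (Vd δ) g)) = C.act (ofZ γ) (C.act (Vd δ) g) := by
  have hδ' : (0 : ℚ) < δ := by exact_mod_cast hδ
  have hV : 0 < (Vd δ).det := by simpa using hδ'
  have hγ : 0 < (ofZ γ).det := by simp
  have hVγ : 0 < (Vd δ * ofZ γ).det := by rw [Mt.det_mul]; exact mul_pos hV hγ
  have hd : (γ 0 0 : ℚ) * γ 1 1 - γ 0 1 * γ 1 0 = 1 := by exact_mod_cast detZ γ
  have hdet : (1 - γ 0 0 * u) * (1 + γ 0 0 * u) - (w * γ 0 0 ^ 2) * (-(N * t)) = 1 := by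
    have : (w : ℚ) * (N * t) = u ^ 2 := by
      rw [← hw, ← hu]
      linear_combination -x * ht
    have h2 : w * (N * t) = u ^ 2 := by exact_mod_cast this
    linear_combination γ 0 0 ^ 2 * h2
  have h1 := UN.fix0_iff.1 hg _ _ _ _ hdet (Dvd.intro (-t) (by ring))
  rw [UN.act_act hV hγ, UN.act_act hVγ (by simp)]
  conv_rhs => rw [← h1]
  rw [UN.act_act (UN.det_zm_pos hdet) hVγ]
  refine congrArg (fun y => C.act y g) ?_
  ext <;> simp only [Mt.mul_a, Mt.mul_b, Mt.mul_c, Mt.mul_d, UN.zm, Vd, Tr, ofZ] <;> push_cast <;>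
    rw [← hu]
  · rw [← hw]; ring
  · rw [← hw]; linear_combination -(δ * x * γ 0 0) * hd
  · linear_combination -(γ 0 0 : ℚ) * ht
  · linear_combination -(γ 0 1 : ℚ) * ht - x * γ 1 0 * hd

theorem zp {p : ℕ} {k : ℤ} (hk : 0 ≤ k) : ∃ m : ℤ, (p : ℚ) ^ k = m := by
  obtain ⟨j, rfl⟩ := Int.eq_ofNat_of_zero_le hk
  exact ⟨p ^ j, by rw [zpow_natCast]; push_cast; rfl⟩

theorem arith {p : ℕ} (hp : p.Prime) (c : ℤ) (d e : ℕ) :
    low p c d e ≤ d ∧ (∃ m : ℤ, (p : ℚ) ^ (-low p c d e) * c = m) ∧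
      ∃ m : ℤ, (p : ℚ) ^ (-low p c d e) * (c : ℚ) ^ 2 = p ^ d * p ^ e * m := by
  have hp0 : (p : ℚ) ≠ 0 := by exact_mod_cast hp.ne_zero
  by_cases hc : c = 0
  · refine ⟨?_, ⟨0, by simp [hc]⟩, 0, by simp [hc]⟩
    simp only [low, ht, if_pos hc]
    omega
  · obtain ⟨c', hc'⟩ := padicValInt_dvd (p := p) c
    have h1 : low p c d e ≤ d ∧ low p c d e ≤ padicValInt p c ∧
        low p c d e + d + e ≤ 2 * padicValInt p c := by
      simp only [low, ht, if_neg hc]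
      omega
    generalize low p c d e = l at *
    generalize padicValInt p c = v at *
    have hcq : (c : ℚ) = (p : ℚ) ^ (v : ℤ) * c' := by
      rw [zpow_natCast]
      exact_mod_cast hc'
    obtain ⟨m₁, hm₁⟩ := zp (p := p) (k := -l + v) (by omega)
    obtain ⟨m₂, hm₂⟩ := zp (p := p) (k := -l + v + v - d - e) (by omega)
    refine ⟨h1.1, ⟨m₁ * c', ?_⟩, m₂ * c' ^ 2, ?_⟩
    · rw [hcq, ← mul_assoc, ← zpow_add₀ hp0, hm₁]
      push_cast
      rfl
    · push_cast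
      rw [hcq, ← hm₂, zpow_sub₀ hp0, zpow_sub₀ hp0, zpow_add₀ hp0, zpow_add₀ hp0, zpow_natCast,
        zpow_natCast, zpow_natCast]
      field_simp

end OrdAAux

open OrdAAux in
theorem row_OrdA : K_OrdA := by
  intro V _ _ C _ N g hN hg δ γ ν hδ hν p hp
  have := Fact.mk hp
  have hp0 : (p : ℚ) ≠ 0 := by exact_mod_cast hp.ne_zero
  obtain ⟨h1, ⟨m₁, h2⟩, m₂, h3⟩ := arith hp (γ 1 0) (δ.factorization p) (N.factorization p)
  have e1 := Nat.ordProj_mul_ordCompl_eq_self δ p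
  have e2 := Nat.ordProj_mul_ordCompl_eq_self N p
  have n1 := Nat.not_dvd_ordCompl hp hδ.ne'
  have n2 := Nat.not_dvd_ordCompl hp hN.ne'
  generalize ordCompl[p] δ = δ' at e1 n1
  generalize ordCompl[p] N = N' at e2 n2
  generalize low p (γ 1 0) (δ.factorization p) (N.factorization p) = l at *
  generalize δ.factorization p = d at *
  generalize N.factorization p = e at *
  have e1' : (δ : ℚ) = p ^ d * δ' := by exact_mod_cast e1.symm
  have e2' : (N : ℚ) = p ^ e * N' := by exact_mod_cast e2.symm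
  obtain ⟨m₃, h4⟩ := zp (p := p) (k := d + -l) (by omega)
  rw [zpow_add₀ hp0, zpow_natCast] at h4
  have n3 : ¬p ∣ δ' * N' := fun h => (hp.dvd_mul.1 h).elim n1 n2
  have n4 : ((δ' * N' : ℕ) : ℚ) ≠ 0 := by
    have : δ' * N' ≠ 0 := fun h => n3 (h ▸ dvd_zero p)
    exact_mod_cast this
  have hs := stab (x := (p : ℚ) ^ (-l) * (δ' * N' : ℕ)) (u := m₁ * (δ' * N')) hg hδ γ
    (w := m₃ * (δ' * (δ' * N'))) (t := m₂)
    (by push_cast; rw [← h2]; ring) (by push_cast; rw [← h4, e1']; ring)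
    (by push_cast; rw [e1', e2']; linear_combination (δ' * N' : ℚ) * h3)
  obtain ⟨n, hn⟩ : ∃ n : ℤ, ν * ((p : ℚ) ^ (-l) * (δ' * N' : ℕ)) = n := by
    by_contra hc
    exact hν (UN.β_fix hs hc)
  have hν0 : ν ≠ 0 := fun h => hν (C.β_neg _ _ h.le)
  have h5 := congrArg (padicValRat p) hn
  rw [padicValRat.mul hν0 (mul_ne_zero (zpow_ne_zero _ hp0) n4),
    padicValRat.mul (zpow_ne_zero _ hp0) n4, padicValRat.zpow, padicValRat.self hp.one_lt,
    padicValRat.of_nat, padicValNat.eq_zero_of_not_dvd n3, padicValRat.of_int] at h5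
  omega

end

end Pool.Agent.MP_b2c033_nt.UL
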