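import Pool.Agent.MP_b2c033_nt.UL.Spec
import Pool.Agent.MP_b2c033_nt.U.Ind

/-! Row PQ: the Atkin-Lehner options compute the average over the cusps of Atkin-Lehner type. -/

namespace Pool.Agent.MP_b2c033_nt.UL

open U Finset CongruenceSubgroup
open scoped MatrixGroups Classical

namespace PQAux

/-- the function which is averaged -/
noncomputable def Fn (N : ℕ) (T : ℚ → ℝ) (γ : SZ) : ℝ :=
  if OkW N γ then T (Qw N γ) / Qw N γ else 0

theorem gN_dvd (N : ℕ) (γ : SZ) : gN N γ ∣ N :=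
  Int.natCast_dvd_natCast.1 (Int.gcd_dvd_right _ _)

theorem Qw_dvd (N : ℕ) (γ : SZ) : Qw N γ ∣ N := Nat.div_dvd_of_dvd (gN_dvd N γ)

theorem lev (hA : K_AvM) (N : ℕ) (T : ℚ → ℝ) : Lev N (Fn N T) := fun γ δ hδ => by
  simp only [Fn, OkW, Qw, hA.2.2.2.2.2.1 N γ δ hδ]

theorem Qw_mul (hA : K_AvM) {A B : ℕ} (h : A.Coprime B) (γ : SZ) :
    Qw (A * B) γ = Qw A γ * Qw B γ := by
  rw [Qw, hA.2.2.2.2.2.2 A B γ h, Qw, Qw, Nat.div_mul_div_comm (gN_dvd A γ) (gN_dvd B γ)]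

theorem OkW_mul (hA : K_AvM) {A B : ℕ} (h : A.Coprime B) (γ : SZ) :
    OkW (A * B) γ ↔ OkW A γ ∧ OkW B γ := by
  have h1 : (gN A γ).Coprime (Qw B γ) :=
    (h.coprime_dvd_left (gN_dvd A γ)).coprime_dvd_right (Qw_dvd B γ)
  have h2 : (gN B γ).Coprime (Qw A γ) :=
    (h.symm.coprime_dvd_left (gN_dvd B γ)).coprime_dvd_right (Qw_dvd A γ)
  rw [OkW, Qw_mul hA h, hA.2.2.2.2.2.2 A B γ h, Nat.coprime_mul_iff_left,
    Nat.coprime_mul_iff_right, Nat.coprime_mul_iff_right]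
  exact ⟨fun k => ⟨k.1.1, k.2.2⟩, fun k => ⟨⟨k.1, h1⟩, h2, k.2⟩⟩

theorem step (hA : K_AvM) {p e B : ℕ} (hp : p.Prime) (he : 1 ≤ e) (h : (p ^ e).Coprime B)
    (T : ℚ → ℝ) (γ : SZ) : Fn (p ^ e * B) T γ =
      (if (p : ℤ) ^ e ∣ γ 1 0 then (1 : ℝ) else 0) * Fn B T γ +
      ((p : ℝ) ^ e)⁻¹ * ((1 + -1 * if (p : ℤ) ^ 1 ∣ γ 1 0 then (1 : ℝ) else 0) *
        Fn B (fun Y => T ((p : ℚ) ^ e * Y)) γ) := by
  obtain ⟨j, hj, hg⟩ := (Nat.dvd_prime_pow hp).1 (gN_dvd (p ^ e) γ)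
  have hd : ∀ k ≤ e, (p : ℤ) ^ k ∣ γ 1 0 ↔ k ≤ j := by
    intro k hk
    rw [← Nat.pow_dvd_pow_iff_le_right hp.one_lt, ← hg, gN, ← Int.natCast_dvd_natCast,
      Int.dvd_coe_gcd_iff]
    push_cast
    exact ⟨fun k' => ⟨k', pow_dvd_pow _ hk⟩, fun k' => k'.1⟩
  have hQ : Qw (p ^ e) γ = p ^ (e - j) := by rw [Qw, hg, Nat.pow_div hj hp.pos]
  have hO : OkW (p ^ e) γ ↔ j = 0 ∨ j = e := by
    rw [OkW, hg, hQ]
    constructor
    · intro k
      by_contra hc
      have h1 : p ∣ p ^ j := dvd_pow_self p (by omega)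
      have h2 : p ∣ p ^ (e - j) := dvd_pow_self p (by omega)
      exact hp.one_lt.ne' ((Nat.coprime_self p).1
        ((k.coprime_dvd_left h1).coprime_dvd_right h2))
    · rintro (rfl | rfl) <;> simp
  simp only [Fn, OkW_mul hA h, Qw_mul hA h, hO, hQ, hd e le_rfl, hd 1 he]
  by_cases hB : OkW B γ
  · by_cases h0 : j = 0
    · have h1 : ¬ e ≤ j := by omega
      have h2 : ¬ 1 ≤ j := by omega
      simp only [h1, h2, hB, if_false, if_true]
      simp only [h0, true_or, and_self, if_true, Nat.sub_zero]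
      push_cast
      ring
    · by_cases h1 : j = e
      · have h2 : 1 ≤ j := by omega
        simp [h1, hB, he]
      · have h2 : 1 ≤ j := by omega
        have h3 : ¬ e ≤ j := by omega
        simp [h0, h1, h2, h3]
  · simp [hB]

end PQAux

open PQAux in
theorem row_PQ : R_PQ := by
  intro hA _ hE e l
  induction l with
  | nil =>
    intro _ _ T
    have : (fun γ => if OkW 1 γ then T (Qw 1 γ) / Qw 1 γ else 0) = fun _ => T 1 := by
      funext γ
      simp [OkW, Qw, gN]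
    simp only [List.map_nil, List.prod_nil, this, En]
    exact Av_const ⊤ one_pos _
  | cons p l ih =>
    intro hn hl T
    rw [List.nodup_cons] at hn
    obtain ⟨hp, he⟩ := hl p (by simp)
    have ih' := ih hn.2 fun q hq => hl q (List.mem_cons_of_mem _ hq)
    simp only [List.map_cons, List.prod_cons]
    set B := (l.map fun p => p ^ e p).prod with hB
    have hB0 : 0 < B := List.prod_pos fun x hx => by
      obtain ⟨q, hq, rfl⟩ := List.mem_map.1 hx
      exact pow_pos (hl q (List.mem_cons_of_mem _ hq)).1.pos _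
    have hc : (p ^ e p).Coprime B := Nat.coprime_list_prod_right_iff.2 fun x hx => by
      obtain ⟨q, hq, rfl⟩ := List.mem_map.1 hx
      exact Nat.coprime_pow_primes _ _ hp (hl q (List.mem_cons_of_mem _ hq)).1
        fun k => hn.1 (k ▸ hq)
    have hA0 : 0 < p ^ e p := pow_pos hp.pos _
    have hL : 0 < p ^ e p * B := by positivity
    have hl1 : Lev (p ^ e p) fun γ : SZ => if (p : ℤ) ^ 1 ∣ γ 1 0 then (1 : ℝ) else 0 :=
      (lev_dvd 1).mono (pow_dvd_pow p he)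
    have hl2 : Lev (p ^ e p) fun γ : SZ =>
        1 + -1 * if (p : ℤ) ^ 1 ∣ γ 1 0 then (1 : ℝ) else 0 := fun γ δ hδ => by
      have := hl1 γ δ hδ
      simp only at this ⊢
      rw [this]
    change Av ⊤ _ (Fn (p ^ e p * B) T) = _
    rw [funext (step hA hp he hc T), Av_add ⊤ hL, Av_mul_left ⊤ hL,
      Av_ind hA0 hB0 hc (lev_dvd 1) (lev hA B _), Av_ind hA0 hB0 hc hl2 (lev hA B _),
      Av_add ⊤ hA0, Av_const ⊤ hA0, Av_mul_left ⊤ hA0, (AvAux.prob p _ hp he).1,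
      AvAux.lev ⊤ (p ^ 1) _ _ hA0 (pow_dvd_pow p he) (lev_dvd 1), (AvAux.prob p 1 hp le_rfl).1]
    have h1 : Av ⊤ B (Fn B T) = _ := ih' T
    have h2 : Av ⊤ B (Fn B fun Y => T ((p : ℚ) ^ e p * Y)) = _ :=
      ih' fun Y => T ((p : ℚ) ^ e p * Y)
    rw [h1, h2, hE.1]
    simp only [En, opts, if_true, List.map_cons, List.map_nil, List.sum_cons, List.sum_nil,
      one_mul, mul_one, add_zero]
    have hp0 : (p : ℝ) ≠ 0 := by exact_mod_cast hp.ne_zero
    have hp1 : (p : ℝ) + 1 ≠ 0 := by positivity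
    have h3 : (p : ℝ) ^ e p = p * (p : ℝ) ^ (e p - 1) := by
      rw [← pow_succ', Nat.sub_add_cancel he]
    rw [h3]
    push_cast
    field_simp
    ring

end Pool.Agent.MP_b2c033_nt.UL
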