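import Pool.Agent.MP_b2c033_nt.UL.Spec

/-! Splitting off one prime from a root. -/

namespace Pool.Agent.MP_b2c033_nt.UL

theorem row_RtSp : K_RtSp := by
  intro n r r' p hn h hp hd
  have r0 := (Nat.pos_of_dvd_of_pos h.dr hn).ne'
  have r0' := (Nat.pos_of_dvd_of_pos h.dr' hn).ne'
  have i1 := (hp.dvd_iff_one_le_factorization r0).1 (h.fr p hp hd)
  have i1' := (hp.dvd_iff_one_le_factorization r0').1 (h.fr' p hp hd)
  have hf : n.factorization = r.factorization ⊔ r'.factorization :=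
    (congrArg _ h.lcm).trans (Nat.factorization_lcm r0 r0')
  have hp' : n.factorization p = max (r.factorization p) (r'.factorization p) := by
    rw [hf, Finsupp.sup_apply]
  have er : ∀ m q : ℕ, q ≠ p → (m / p ^ m.factorization p).factorization q = m.factorization q :=
    fun m q hq => by rw [Nat.factorization_ordCompl, Finsupp.erase_ne hq]
  have c0 : ∀ m : ℕ, m ≠ 0 → m / p ^ m.factorization p ≠ 0 := fun m hm =>
    (Nat.ordCompl_pos p hm).ne'
  have f1 : ∀ k i, 1 ≤ i → Full (p ^ k) (p ^ i) := fun k i hi q hq hk =>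
    (hq.dvd_of_dvd_pow hk).trans (dvd_pow_self p (by omega))
  have f2 : ∀ m, m ≠ 0 → Full n m →
      Full (n / p ^ n.factorization p) (m / p ^ m.factorization p) := fun m hm hF q hq hk => by
    rw [hq.dvd_iff_one_le_factorization (c0 m hm), er m q fun e =>
      Nat.not_dvd_ordCompl hp hn.ne' (e ▸ hk), ← hq.dvd_iff_one_le_factorization hm]
    exact hF q hq (hk.trans (Nat.ordCompl_dvd n p))
  refine ⟨_, _, n / p ^ n.factorization p, r / p ^ r.factorization p, r' / p ^ r'.factorization p,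
    i1, i1', rfl, rfl, hp' ▸ (Nat.ordProj_mul_ordCompl_eq_self n p).symm,
    (Nat.ordProj_mul_ordCompl_eq_self r p).symm, (Nat.ordProj_mul_ordCompl_eq_self r' p).symm,
    Nat.not_dvd_ordCompl hp hn.ne', ⟨pow_dvd_pow p (le_max_left _ _),
      pow_dvd_pow p (le_max_right _ _), f1 _ _ i1, f1 _ _ i1'⟩,
    ⟨⟨Nat.ordCompl_dvd_ordCompl_of_dvd h.dr p, Nat.ordCompl_dvd_ordCompl_of_dvd h.dr' p,
      f2 r r0 h.fr, f2 r' r0' h.fr'⟩, ?_⟩, fun q hq => ⟨er n q hq, er r q hq, er r' q hq⟩⟩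
  refine Nat.eq_of_factorization_eq (c0 n hn.ne') (Nat.lcm_ne_zero (c0 r r0) (c0 r' r0'))
    fun q => ?_
  rw [Nat.factorization_lcm (c0 r r0) (c0 r' r0'), Finsupp.sup_apply]
  rcases eq_or_ne q p with rfl | hq
  · simp [Nat.factorization_ordCompl]
  · rw [er n q hq, er r q hq, er r' q hq, hf, Finsupp.sup_apply]

end Pool.Agent.MP_b2c033_nt.UL
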