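import Pool.Agent.MP_b2c033_nt.UL.Spec

/-! A vector that changes sign under a lower unipotent has an exponent of small valuation. -/

namespace Pool.Agent.MP_b2c033_nt.UL

open U CongruenceSubgroup
open scoped MatrixGroups

namespace SP4Aux

theorem ee_one (x : ℚ) : ee x = 1 ↔ ∃ n : ℤ, x = n := by
  rw [ee, Complex.exp_eq_one_iff]
  refine exists_congr fun n => ?_
  rw [mul_comm, mul_left_inj' Complex.two_pi_I_ne_zero]
  norm_cast

theorem Lw_add (x y : ℚ) : Lw (x + y) = Lw x * Lw y := by ext <;> simp [Lw]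

theorem braid {L : ℕ} {s : ℤ} (h : (L : ℤ) ∣ s * (1 - s)) :
    Tm s * Lm (-s) * Tm s * (Lm (-s) * Tm s * Lm (-s))⁻¹ ∈ Gamma L := by
  have e : (s : ZMod L) * (1 - s) = 0 := by exact_mod_cast (ZMod.intCast_zmod_eq_zero_iff_dvd _ L).2 h
  rw [← red_eq_one, map_mul, map_inv, mul_inv_eq_one]
  simp only [map_mul, red_Tm, red_Lm]
  apply ext2 <;> simp only [mul2, Tm, Lm, mk_00, mk_01, mk_10, mk_11, Int.cast_neg]
  · ring
  · linear_combination (1 + (s : ZMod L)) * e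
  · linear_combination (1 + (s : ZMod L)) * e
  · ring

end SP4Aux

open SP4Aux

theorem row_SP4 : K_SP4 := by
  intro V _ _ C _ z ε z0 hε hz
  by_contra! H
  have one : ∀ v, C.act 1 v = v := fun v => C.act_sc 1 v one_ne_zero
  obtain ⟨w, hw⟩ : ∃ w, w = C.act (Vd (1 / 2)) z := ⟨_, rfl⟩
  have w0 : w ≠ 0 := fun e => z0 (by
    have := congrArg (C.act (Vd 2)) (e ▸ hw)
    rwa [map_zero, ← C.act_mul _ _ _ (by simp) (by simp), show Vd (1 / 2) * Vd 2 = 1 by
      ext <;> simp [Vd], one, eq_comm] at this)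
  have lw : ∀ x y v, C.act (Lw (x + y)) v = C.act (Lw y) (C.act (Lw x) v) := fun x y v => by
    rw [Lw_add, C.act_mul _ _ _ (by simp) (by simp)]
  have h1 : C.act (Lw ε) w = -w := by
    rw [hw, ← C.act_mul _ _ _ (by simp) (by simp), show Vd (1 / 2) * Lw ε = Lw (2 * ε) * Vd (1 / 2)
      by ext <;> simp [Vd, Lw]; ring, C.act_mul _ _ _ (by simp) (by simp), hz, map_neg]
  have h2 : C.act (Lw (-ε)) w = -w := by
    have := lw ε (-ε) w
    rw [h1, map_neg, add_neg_cancel, show Lw 0 = 1 from rfl, one] at this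
    exact (neg_eq_iff_eq_neg.1 this.symm)
  have h3 : ∀ k : ℤ, C.act (Lw (ε * (2 * k + 1))) w = -w := fun k => by
    induction k with
    | zero => simpa using h1
    | succ k ih =>
      rw [show (ε * (2 * ((k + 1 : ℤ) : ℚ) + 1) : ℚ) = ε * (2 * ((k : ℤ) : ℚ) + 1) + ε + ε by
        push_cast; ring, lw, lw, ih, map_neg, h1, neg_neg, h1]
    | pred k ih =>
      rw [show (ε * (2 * ((-k - 1 : ℤ) : ℚ) + 1) : ℚ) = ε * (2 * ((-k : ℤ) : ℚ) + 1) + -ε + -ε by
        push_cast; ring, lw, lw, ih, map_neg, h2, neg_neg, h2]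
  obtain ⟨L, L0, hL⟩ := C.smooth w
  obtain ⟨j, A, hA, rfl⟩ := Nat.exists_eq_two_pow_mul_odd L0.ne'
  have h4 : ∀ ν, C.β ν w ≠ 0 → ν.den ∣ A := fun ν hν => by
    have n0 : ν ≠ 0 := fun e => hν (C.β_neg ν w e.le)
    have a1 := C.β_Vd (1 / 2) (2 * ν) z (by norm_num)
    rw [← hw, show 1 / 2 * (2 * ν) = ν by ring] at a1
    have a2 := H (2 * ν) fun e => hν (by rw [a1, e, mul_zero])
    rw [padicValRat.mul two_ne_zero n0, show padicValRat 2 2 = 1 from padicValRat.self one_lt_two]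
      at a2
    have a3 := C.β_Tr ((2 ^ j * A : ℕ) : ℤ) ν w
    rw [← ofZ_Tm, hL _ (red_eq_one.1 (by rw [red_Tm, Int.cast_natCast, ZMod.natCast_self, Tm_zero])),
      eq_comm, mul_eq_right₀ hν, ee_one] at a3
    obtain ⟨m, hm⟩ := a3
    have a4 : ν.den ∣ 2 ^ j * A := by
      rw [eq_div_of_mul_eq (by positivity) hm, ← Rat.divInt_eq_div]
      exact Int.natCast_dvd_natCast.1 (Rat.den_dvd m _)
    refine (Nat.Coprime.pow_right j ?_).dvd_of_dvd_mul_left a4
    refine ((Nat.prime_two.coprime_iff_not_dvd).2 fun q => ?_).symm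
    have a5 : ¬(2 : ℤ) ∣ ν.num := fun q' =>
      absurd (Nat.eq_one_of_dvd_coprimes ν.reduced (Int.natCast_dvd.1 q') q) (by norm_num)
    have a6 := one_le_padicValNat_of_dvd ν.den_nz q
    rw [padicValRat, padicValInt.eq_zero_of_not_dvd a5] at a2
    omega
  obtain ⟨a, b, hab⟩ : IsCoprime (ε * A) (2 ^ (j + 1)) := IsCoprime.pow_right
    (Int.isCoprime_two_right.2 (hε.mul (by exact_mod_cast hA)))
  obtain ⟨k, hk⟩ : Odd (-(a * A)) := by
    have : Odd (a * (ε * A)) := ⟨-(b * 2 ^ j), by linear_combination hab⟩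
    rw [mul_left_comm] at this
    exact (Int.odd_mul.1 this).2.neg
  have hP : C.act (ofZ (Tm (a * (ε * A)))) w = w := by
    rw [ofZ_Tm, ← sub_eq_zero]
    refine C.β_inj _ fun ν => ?_
    rw [map_sub, C.β_Tr, sub_eq_zero]
    by_cases hν : C.β ν w = 0
    · rw [hν, mul_zero]
    obtain ⟨c, hc⟩ := h4 ν hν
    rw [(ee_one _).2 ⟨a * ε * c * ν.num, ?_⟩, one_mul]
    rw [hc]
    push_cast
    rw [← Rat.mul_den_eq_num]
    ring
  have hQ : C.act (ofZ (Lm (-(a * (ε * A))))) w = -w := by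
    rw [ofZ_Lm, ← h3 k, show -(a * (ε * A)) = ε * (2 * k + 1) by rw [← hk]; ring]
    push_cast
    rfl
  have mul : ∀ (γ δ : SZ) v, C.act (ofZ (γ * δ)) v = C.act (ofZ δ) (C.act (ofZ γ) v) :=
    fun γ δ v => by rw [ofZ_mul, C.act_mul _ _ _ (by simp) (by simp)]
  have e := mul (Tm (a * (ε * A)) * Lm (-(a * (ε * A))) * Tm (a * (ε * A)) *
    (Lm (-(a * (ε * A))) * Tm (a * (ε * A)) * Lm (-(a * (ε * A))))⁻¹)
    (Lm (-(a * (ε * A))) * Tm (a * (ε * A)) * Lm (-(a * (ε * A)))) w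
  rw [hL _ (braid (s := a * (ε * A)) ⟨a * ε * b * 2, by
    push_cast
    linear_combination (-(a * (ε * A))) * hab⟩), inv_mul_cancel_right] at e
  simp only [mul, hP, hQ, map_neg, neg_neg] at e
  exact w0 (by simpa [neg_eq_iff_add_eq_zero, ← two_smul ℂ w] using e)

end Pool.Agent.MP_b2c033_nt.UL
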