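import Pool.Agent.MP_b2c033_nt.UL.Spec

/-! An action of composite level as a pair of commuting actions. -/

namespace Pool.Agent.MP_b2c033_nt.UL

open U Finset CongruenceSubgroup
open scoped MatrixGroups Classical InnerProductSpace

noncomputable section

namespace SpAux

/-- the data of the Chinese remainder theorem -/
structure Dt (n₁ n₂ n : ℕ) where
  h₁ : n₁ ∣ n
  h₂ : n₂ ∣ n
  eq : n = n₁ * n₂
  cop : n₁.Coprime n₂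
  ext : ∀ x y : ZMod n, ZMod.castHom h₁ (ZMod n₁) x = ZMod.castHom h₁ (ZMod n₁) y →
    ZMod.castHom h₂ (ZMod n₂) x = ZMod.castHom h₂ (ZMod n₂) y → x = y
  i₁ : G n₁ →* G n
  i₂ : G n₂ →* G n
  j₁ : ZMod n₁ →+ ZMod n
  j₂ : ZMod n₂ →+ ZMod n
  r11 : ∀ x, rd h₁ (i₁ x) = x
  r21 : ∀ x, rd h₂ (i₁ x) = 1
  r12 : ∀ y, rd h₁ (i₂ y) = 1
  r22 : ∀ y, rd h₂ (i₂ y) = y
  comm : ∀ x y, i₁ x * i₂ y = i₂ y * i₁ x
  c11 : ∀ x, ZMod.castHom h₁ (ZMod n₁) (j₁ x) = x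
  c21 : ∀ x, ZMod.castHom h₂ (ZMod n₂) (j₁ x) = 0
  c12 : ∀ y, ZMod.castHom h₁ (ZMod n₁) (j₂ y) = 0
  c22 : ∀ y, ZMod.castHom h₂ (ZMod n₂) (j₂ y) = y
  t₁ : ∀ x, i₁ (Tm x) = Tm (j₁ x)
  l₁ : ∀ x, i₁ (Lm x) = Lm (j₁ x)
  t₂ : ∀ y, i₂ (Tm y) = Tm (j₂ y)
  l₂ : ∀ y, i₂ (Lm y) = Lm (j₂ y)

variable {n₁ n₂ n : ℕ}

def Dt.swap (D : Dt n₁ n₂ n) : Dt n₂ n₁ n :=
  ⟨D.h₂, D.h₁, by rw [D.eq, mul_comm], D.cop.symm, fun x y a b => D.ext x y b a, D.i₂, D.i₁,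
    D.j₂, D.j₁, D.r22, D.r12, D.r21, D.r11, fun x y => (D.comm y x).symm, D.c22, D.c12, D.c21,
    D.c11, D.t₂, D.l₂, D.t₁, D.l₁⟩

theorem rd_apply {m : ℕ} (h : m ∣ n) (x : G n) (i j : Fin 2) :
    rd h x i j = ZMod.castHom h (ZMod m) (x i j) := rfl

theorem Dt.split (D : Dt n₁ n₂ n) (z : ZMod n) :
    D.j₁ (ZMod.castHom D.h₁ (ZMod n₁) z) + D.j₂ (ZMod.castHom D.h₂ (ZMod n₂) z) = z :=
  D.ext _ _ (by rw [map_add, D.c11, D.c12, add_zero]) (by rw [map_add, D.c21, D.c22, zero_add])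

/-- the additive splitting -/
def Dt.e (D : Dt n₁ n₂ n) : ZMod n₁ × ZMod n₂ ≃ ZMod n where
  toFun y := D.j₁ y.1 + D.j₂ y.2
  invFun z := (ZMod.castHom D.h₁ (ZMod n₁) z, ZMod.castHom D.h₂ (ZMod n₂) z)
  left_inv y := Prod.ext (by simp only [map_add, D.c11, D.c12, add_zero])
    (by simp only [map_add, D.c21, D.c22, zero_add])
  right_inv z := D.split z

theorem Dt.mulj (D : Dt n₁ n₂ n) (d : ℕ) (x : ZMod n₁) (y : ZMod n₂) :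
    (d : ZMod n) * (D.j₁ x + D.j₂ y) = D.j₁ (d * x) + D.j₂ (d * y) :=
  D.ext _ _ (by simp only [map_add, map_mul, map_natCast, D.c11, D.c12, add_zero])
    (by simp only [map_add, map_mul, map_natCast, D.c21, D.c22, zero_add])

theorem Dt.dvd (D : Dt n₁ n₂ n) {r₁ r₂ : ℕ} (h : r₂ ∣ n₂) {z : ZMod n}
    (h1 : (r₁ : ZMod n₁) ∣ ZMod.castHom D.h₁ (ZMod n₁) z)
    (h2 : ZMod.castHom D.h₂ (ZMod n₂) z = 0) : ((r₁ * r₂ : ℕ) : ZMod n) ∣ z := by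
  obtain ⟨u, hu⟩ := h1
  obtain ⟨v, hv⟩ := ((ZMod.isUnit_iff_coprime r₂ n₁).2
    (D.cop.symm.coprime_dvd_left h)).exists_right_inv
  refine ⟨D.j₁ (u * v), D.ext _ _ ?_ ?_⟩
  · rw [map_mul, map_natCast, D.c11, hu]
    push_cast
    linear_combination -(r₁ * u) * hv
  · rw [map_mul, D.c21, h2, mul_zero]

variable [NeZero n₁] [NeZero n₂] [NeZero n] {W : Type} [NormedAddCommGroup W]
  [InnerProductSpace ℂ W]

/-- restriction of an action -/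
def res {Γ Γ' : Type} [Group Γ] [Group Γ'] (ρ : RA Γ W) (i : Γ' →* Γ) : RA Γ' W :=
  ⟨fun x => ρ.a (i x), fun v => by rw [map_one, ρ.one], fun g h v => by rw [map_mul, ρ.mul],
    fun g v => ρ.nrm _ v⟩

theorem Dt.sum (D : Dt n₁ n₂ n) (f : ZMod n → W) :
    ∑ z, f z = ∑ x, ∑ y, f (D.j₁ x + D.j₂ y) := by
  rw [← D.e.sum_comp f, Fintype.sum_prod_type]
  rfl

theorem Dt.av (D : Dt n₁ n₂ n) (ρ : RA (G n) W) (f : ZMod n → G n) (f₁ : ZMod n₁ → G n₁)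
    (f₂ : ZMod n₂ → G n₂) (hf : ∀ x y, f (D.j₁ x + D.j₂ y) = D.i₁ (f₁ x) * D.i₂ (f₂ y))
    (d₁ : ℕ) {d₂ : ℕ} (h : d₂ ∣ n₂) {w : W} (hw : ∀ y, ρ.a (D.i₂ (f₂ (d₂ * y))) w = w) :
    (n : ℂ)⁻¹ • ∑ z : ZMod n, ρ.a (f (((d₁ * d₂ : ℕ) : ZMod n) * z)) w =
      (n₁ : ℂ)⁻¹ • ∑ x : ZMod n₁, ρ.a (D.i₁ (f₁ (d₁ * x))) w := by
  have hu := (ZMod.isUnit_iff_coprime d₂ n₁).2 (D.cop.symm.coprime_dvd_left h)
  have e1 : ∀ x y, ρ.a (f (((d₁ * d₂ : ℕ) : ZMod n) * (D.j₁ x + D.j₂ y))) w =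
      ρ.a (D.i₁ (f₁ (d₁ * (d₂ * x)))) w := by
    intro x y
    rw [D.mulj, hf, D.comm, ρ.mul]
    push_cast
    rw [mul_assoc, mul_comm (d₁ : ZMod n₂), mul_assoc, hw]
  have e2 := (hu.unit.mulLeft_bijective).sum_comp
    fun x : ZMod n₁ => ρ.a (D.i₁ (f₁ (d₁ * x))) w
  have n2 : (n₂ : ℂ) ≠ 0 := by exact_mod_cast NeZero.ne n₂
  rw [D.sum, ← e2]
  simp only [e1, sum_const, card_univ, ZMod.card, ← Nat.cast_smul_eq_nsmul ℂ, ← smul_sum,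
    smul_smul, IsUnit.unit_spec]
  congr 1
  rw [D.eq]
  push_cast
  field_simp

omit [NeZero n₂] in
theorem Dt.fix (D : Dt n₁ n₂ n) (ρ : RA (G n) W) {r₁ r₁' r₂ r₂' : ℕ} {v : W} (h₂ : Rt n₂ r₂ r₂')
    (h : ρ.Hyp (r₁ * r₂) (r₁' * r₂') v) (x : G n₁) (a : (r₁ : ZMod n₁) ∣ x 0 1)
    (b : (r₁' : ZMod n₁) ∣ x 1 0) : ρ.a (D.i₁ x) v = v :=
  h.fix _ (D.dvd h₂.dr (by rwa [← rd_apply, D.r11]) (by rw [← rd_apply, D.r21]; rfl))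
    (D.dvd h₂.dr' (by rwa [← rd_apply, D.r11]) (by rw [← rd_apply, D.r21]; rfl))

theorem Dt.hyp (D : Dt n₁ n₂ n) (ρ : RA (G n) W) {r₁ r₁' r₂ r₂' : ℕ} {v : W} (h₁ : Rt n₁ r₁ r₁')
    (h₂ : Rt n₂ r₂ r₂') (h : ρ.Hyp (r₁ * r₂) (r₁' * r₂') v) : (res ρ D.i₁).Hyp r₁ r₁' v := by
  have h' : ρ.Hyp (r₂ * r₁) (r₂' * r₁') v := by rwa [mul_comm r₂, mul_comm r₂']
  refine ⟨D.fix ρ h₂ h, fun p hp hd => ?_, fun p hp hd => ?_⟩
  · have e := h.nT p hp (hd.trans D.h₁)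
    rw [mul_comm, Nat.mul_div_assoc _ (h₁.fr p hp hd), mul_comm] at e
    exact (D.av ρ Tm Tm Tm (fun x y => by rw [Tm_add, D.t₁, D.t₂]) (r₁ / p) h₂.dr fun y =>
      D.swap.fix ρ h₁ h' _ (Dvd.intro _ rfl) (dvd_zero _)).symm.trans e
  · have e := h.nL p hp (hd.trans D.h₁)
    rw [mul_comm, Nat.mul_div_assoc _ (h₁.fr' p hp hd), mul_comm] at e
    exact (D.av ρ Lm Lm Lm (fun x y => by rw [Lm_add, D.l₁, D.l₂]) (r₁' / p) h₂.dr' fun y =>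
      D.swap.fix ρ h₁ h' _ (dvd_zero _) (Dvd.intro _ rfl)).symm.trans e

/-- the product of two characters -/
def Dt.kap (D : Dt n₁ n₂ n) (χ : Ch n₁) (ψ : Ch n₂) : Ch n :=
  χ.compAddMonoidHom (ZMod.castHom D.h₁ (ZMod n₁)).toAddMonoidHom *
    ψ.compAddMonoidHom (ZMod.castHom D.h₂ (ZMod n₂)).toAddMonoidHom

omit [NeZero n₁] [NeZero n₂] [NeZero n] in
theorem Dt.kap_apply (D : Dt n₁ n₂ n) (χ : Ch n₁) (ψ : Ch n₂) (z : ZMod n) : D.kap χ ψ z =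
    χ (ZMod.castHom D.h₁ (ZMod n₁) z) * ψ (ZMod.castHom D.h₂ (ZMod n₂) z) := rfl

omit [NeZero n] in
theorem od_dvd (χ : Ch n) : od χ ∣ n := by
  refine orderOf_dvd_of_pow_eq_one ?_
  rw [← AddChar.map_nsmul_eq_pow, nsmul_eq_mul, mul_one, ZMod.natCast_self, AddChar.map_zero_eq_one]

end SpAux

open SpAux in
theorem row_Sp : R_Sp := by
  intro hC n₁ n₂ n _ _ _ hn hc W _ _ ρ
  have h₁ : n₁ ∣ n := ⟨n₂, hn⟩
  have h₂ : n₂ ∣ n := ⟨n₁, by rw [hn, mul_comm]⟩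
  obtain ⟨e, hu, i₁, i₂, j₁, j₂, a1, a2, a3, a4, a5, a6, b1, b2, b3, b4, c1, c2, c3, c4⟩ :=
    hC n₁ n₂ n h₁ h₂ hn hc
  let D : Dt n₁ n₂ n := ⟨h₁, h₂, hn, hc, e, i₁, i₂, j₁, j₂, a1, a2, a3, a4, a5, b1, b2, b3, b4,
    c1, c2, c3, c4⟩
  have hcomm : ∀ x y w, ρ.a (i₁ x) (ρ.a (i₂ y) w) = ρ.a (i₂ y) (ρ.a (i₁ x) w) := fun x y w => by
    rw [← ρ.mul, ← ρ.mul, a5]
  refine ⟨res ρ i₁, res ρ i₂, fun x y => i₁ x * i₂ y, D.kap, ⟨?_, ?_, fun x y w => ρ.mul _ _ w,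
    hcomm, fun χ ψ w => ?_, fun χ ψ => ?_, fun x y i hx hy => hu _ ?_ ?_, fun y hy => ?_,
    fun r₁ r₁' r₂ r₂' v k₁ k₂ h => ⟨D.hyp ρ k₁ k₂ h,
      D.swap.hyp ρ k₂ k₁ (by rwa [mul_comm r₂, mul_comm r₂'])⟩⟩⟩
  · refine Function.bijective_iff_has_inverse.2 ⟨fun z => (rd h₁ z, rd h₂ z), fun y => ?_, a6⟩
    exact Prod.ext (by simp only [map_mul, a1, a3, mul_one]) (by simp only [map_mul, a2, a4, one_mul])
  · refine Function.bijective_iff_has_inverse.2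
      ⟨fun θ => (θ.compAddMonoidHom j₁, θ.compAddMonoidHom j₂), fun y => Prod.ext ?_ ?_, fun θ => ?_⟩
    · ext x
      change D.kap y.1 y.2 (j₁ x) = _
      rw [D.kap_apply, b1, b2, AddChar.map_zero_eq_one, mul_one]
    · ext x
      change D.kap y.1 y.2 (j₂ x) = _
      rw [D.kap_apply, b3, b4, AddChar.map_zero_eq_one, one_mul]
    · ext z
      rw [D.kap_apply]
      change θ (D.j₁ _) * θ (D.j₂ _) = _
      rw [← AddChar.map_add_eq_mul, D.split]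
  · have e1 : ∀ x y, D.kap χ ψ (-(D.j₁ x + D.j₂ y)) • ρ.a (Tm (D.j₁ x + D.j₂ y)) w =
        χ (-x) • ψ (-y) • ρ.a (i₁ (Tm x)) (ρ.a (i₂ (Tm y)) w) := by
      intro x y
      rw [D.kap_apply, Tm_add, ← D.t₁, ← D.t₂, ρ.mul, smul_smul, hcomm]
      simp only [map_neg, map_add, D.c11, D.c12, D.c21, D.c22, add_zero, zero_add]
      rfl
    unfold RA.Pj
    rw [D.sum]
    simp only [e1, res, map_smul, map_sum, smul_sum, smul_smul]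
    refine sum_congr rfl fun x _ => sum_congr rfl fun y _ => ?_
    congr 1
    rw [hn]
    push_cast
    ring
  · unfold od
    rw [D.kap_apply, RingHom.map_one, RingHom.map_one]
    exact (Commute.all _ _).orderOf_mul_eq_mul_orderOf_of_coprime
      ((hc.coprime_dvd_left (od_dvd χ)).coprime_dvd_right (od_dvd ψ))
  · rwa [← rd_apply, map_mul, a1, a3, mul_one]
  · rwa [← rd_apply, map_mul, a2, a4, one_mul]
  · rw [map_one, mul_one, c2]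
    congr 1
    exact e _ _ (by rw [b1, map_natCast])
      (by rw [b2, map_natCast, (ZMod.natCast_eq_zero_iff y n₂).2 hy])

end

end Pool.Agent.MP_b2c033_nt.UL
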