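import Pool.Agent.MP_b2c033_nt.UL.Spec

/-! The energy bound is multiplicative in the level. -/

namespace Pool.Agent.MP_b2c033_nt.UL

open U Finset
open scoped MatrixGroups Classical

namespace TenAux

variable {n₁ n₂ n : ℕ} [NeZero n₁] [NeZero n₂] [NeZero n]

lemma mon {T : ℚ → ℝ} (h : Mon T) {Q : ℚ} (hQ : 0 < Q) : Mon fun Y => T (Q * Y) :=
  ⟨fun _ => h.1 _, fun _ _ hX hXY => h.2 _ _ (mul_pos hQ hX) (mul_le_mul_of_nonneg_left hXY hQ.le)⟩

lemma mean2 {j : G n₁ → G n₂ → G n} (h : Function.Bijective fun y : G n₁ × G n₂ => j y.1 y.2)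
    (f : G n → ℝ) : mean f = mean fun y => mean fun x => f (j x y) := by
  simp only [mean, ← mul_sum]
  rw [← h.sum_comp f, ← Fintype.card_of_bijective h, Fintype.card_prod,
    Fintype.sum_prod_type_right]
  push_cast
  ring

lemma sum2 {κ : Ch n₁ → Ch n₂ → Ch n} (h : Function.Bijective fun y : Ch n₁ × Ch n₂ => κ y.1 y.2)
    (hn : n = n₁ * n₂) (ho : ∀ χ ψ, od (κ χ ψ) = od χ * od ψ) {F : Ch n → ℝ} (hF : ∀ χ, 0 ≤ F χ) :
    ∑ ψ : Ch n₂ with Full n₂ (od ψ), ∑ χ : Ch n₁ with Full n₁ (od χ), F (κ χ ψ) ≤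
      ∑ χ : Ch n with Full n (od χ), F χ := by
  simp only [sum_filter]
  rw [← h.sum_comp, Fintype.sum_prod_type_right]
  refine sum_le_sum fun ψ _ => ?_
  split_ifs with h2
  · refine sum_le_sum fun χ _ => ?_
    split_ifs with h1 h3 h3
    · exact le_rfl
    · refine (h3 fun p hp hd => ?_).elim
      rw [ho]
      rcases (Nat.Prime.dvd_mul hp).1 (hn ▸ hd) with k | k
      · exact (h1 p hp k).mul_right _
      · exact (h2 p hp k).mul_left _
    · exact hF _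
    · exact le_rfl
  · exact sum_nonneg fun χ _ => by split_ifs <;> simp [hF]

variable {W : Type} [NormedAddCommGroup W] [InnerProductSpace ℂ W]

lemma stepA (hE : K_En) {r r' : ℕ} {os : List (List (ℚ × ℚ))} (hG : Gd n₂ r r' os)
    (ρ : RA (G n₂) W) {v : W} (hv : ρ.Hyp r r' v) {T : ℚ → ℝ} (hT : Mon T) (o : List (ℚ × ℚ))
    (ho : ∀ y ∈ o, 0 ≤ y.1 ∧ 0 < y.2) : En T (o :: os) 1 * ‖v‖ ^ 2 ≤
      mean fun x => ∑ ψ : Ch n₂ with Full n₂ (od ψ), (od ψ : ℝ)⁻¹ *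
        (En (fun Y => T (od ψ * Y)) [o] 1 * ‖ρ.Pj ψ (ρ.a x v)‖ ^ 2) := by
  induction o with
  | nil => simp [En, mean]
  | cons y o ih =>
    have hy := ho y List.mem_cons_self
    have h1 := hG W ρ v _ (mon hT hy.2) hv
    rw [hE.1, mul_comm y.2] at h1
    have h2 := add_le_add (mul_le_mul_of_nonneg_left h1 (show (0 : ℝ) ≤ y.1 by exact_mod_cast hy.1))
      (ih fun z hz => ho z (List.mem_cons_of_mem _ hz))
    rw [RA.E, ← mean_mul, ← mean_add] at h2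
    refine le_trans (le_of_eq ?_) (h2.trans (le_of_eq (congrArg mean (funext fun x => ?_))))
    · simp only [En, List.map_cons, List.sum_cons]
      ring
    · rw [mul_sum, ← sum_add_distrib]
      refine sum_congr rfl fun ψ _ => ?_
      simp only [En, List.map_cons, List.sum_cons, one_mul, mul_comm y.2]
      ring

end TenAux

open TenAux in
theorem row_Ten : R_Ten := by
  intro hK hS hE n₁ n₂ n r₁ r₁' r₂ r₂' _ _ _ o os hn hc t₁ t₂ ho g₁ g₂ W _ _ ρ v T hT hv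
  obtain ⟨ρ₁, ρ₂, j, κ, sp⟩ := hS n₁ n₂ n hn hc W ρ
  obtain ⟨v₁, v₂⟩ := sp.hyp _ _ _ _ v t₁ t₂ hv
  have cm : ∀ ψ x w, ρ₂.Pj ψ (ρ₁.a x w) = ρ₁.a x (ρ₂.Pj ψ w) := fun ψ x w => by
    simp only [RA.Pj, map_smul, map_sum, sp.comm]
  refine (stepA hE g₂ ρ₂ v₂ hT o ho).trans ?_
  rw [RA.E, mean2 sp.jb]
  refine mean_mono fun y => ?_
  refine le_trans ?_ (mean_mono fun x => sum2 sp.kb hn sp.od fun χ =>
    mul_nonneg (div_nonneg (hT.1 _) (Nat.cast_nonneg _)) (sq_nonneg _))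
  rw [mean_sum]
  refine sum_le_sum fun ψ _ => ?_
  have h0 : 0 < od ψ := Nat.pos_of_dvd_of_pos ((hK n₂ W ρ₂).od_dvd ψ) (NeZero.pos n₂)
  have hz : ρ₁.Hyp r₁ r₁' (ρ₂.Pj ψ (ρ₂.a y v)) := by
    rw [← RA.PjL_apply]
    exact v₁.map (ρ₂.PjL ψ ∘ₗ ρ₂.a y) fun x w => by
      simp only [LinearMap.comp_apply, RA.PjL_apply, ← sp.comm, cm]
  have h1 := g₁ W ρ₁ _ _ (mon hT (Q := od ψ) (by exact_mod_cast h0)) hz
  refine (mul_le_mul_of_nonneg_left h1 (by positivity)).trans (le_of_eq ?_)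
  rw [RA.E, ← mean_mul]
  refine congrArg mean (funext fun x => ?_)
  rw [mul_sum]
  refine sum_congr rfl fun χ _ => ?_
  rw [sp.od, sp.pj, sp.act, ← sp.comm, cm, Nat.cast_mul, Nat.cast_mul, mul_comm (od χ : ℚ)]
  ring

end Pool.Agent.MP_b2c033_nt.UL
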