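import Pool.Agent.MP_b2c033_nt.UL.Spec

/-! Components of prescribed order at coprime levels. -/

namespace Pool.Agent.MP_b2c033_nt.UL

theorem row_TenX : R_TenX := by
  intro hS n₁ n₂ n r₁ r₁' r₂ r₂' _ _ _ P₁ P₂ hn hc t₁ t₂ e₁ e₂ W _ _ ρ v hv v0
  obtain ⟨ρ₁, ρ₂, j, κ, S⟩ := hS n₁ n₂ n hn hc W ρ
  obtain ⟨h₁, h₂⟩ := S.hyp r₁ r₁' r₂ r₂' v t₁ t₂ hv
  obtain ⟨y, ψ, y0, y1, p₂, z0⟩ := e₂ W ρ₂ v h₂ v0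
  have hφ : ∀ x w, (ρ₂.PjL ψ ∘ₗ ρ₂.a y) (ρ₁.a x w) = ρ₁.a x ((ρ₂.PjL ψ ∘ₗ ρ₂.a y) w) := by
    intro x w
    simp only [LinearMap.comp_apply, RA.PjL_apply, RA.Pj, map_smul, map_sum, S.comm]
  obtain ⟨x, χ, x0, x1, p₁, w0⟩ := e₁ W ρ₁ _ (h₁.map _ hφ)
    (by rwa [LinearMap.comp_apply, RA.PjL_apply])
  refine ⟨j x y, κ χ ψ, S.unit x y 0 x0 y0, S.unit x y 1 x1 y1, ⟨_, _, p₁, p₂, S.od χ ψ⟩, ?_⟩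
  rwa [← hφ, LinearMap.comp_apply, RA.PjL_apply, ← S.pj, ← S.act] at w0

end Pool.Agent.MP_b2c033_nt.UL
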