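import Pool.Agent.MP_b2c033_nt.UL.Spec

/-! The top energy at a middle root. -/

namespace Pool.Agent.MP_b2c033_nt.UL

open U Finset CongruenceSubgroup
open scoped MatrixGroups Classical InnerProductSpace

noncomputable section

namespace TopAux

lemma dvd_of_not_unit {p k n : ℕ} [NeZero n] (hp : p.Prime) (hn : n = p ^ k) {x : ZMod n}
    (hx : ¬IsUnit x) : (p : ZMod n) ∣ x := by
  have h1 : ¬(x.val).Coprime n := by
    intro h
    apply hx
    have := (ZMod.isUnit_iff_coprime x.val n).2 h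
    rwa [ZMod.natCast_zmod_val] at this
  have h2 : p ∣ x.val := by
    by_contra h
    apply h1
    have h3 : (x.val).Coprime (p ^ k) :=
      Nat.Coprime.pow_right k ((Nat.Prime.coprime_iff_not_dvd hp).2 h).symm
    rwa [← hn] at h3
  have := Nat.cast_dvd_cast (α := ZMod n) h2
  rwa [ZMod.natCast_zmod_val] at this

lemma not_unit_p {p k n : ℕ} (hp : p.Prime) (hk : 1 ≤ k) (hn : n = p ^ k) :
    ¬IsUnit (p : ZMod n) := by
  intro h
  have h1 := (ZMod.isUnit_iff_coprime p n).1 h
  have h2 : p ∣ n := by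
    rw [hn]
    exact dvd_pow_self p (by omega)
  exact (Nat.Prime.coprime_iff_not_dvd hp).1 h1 h2

lemma unit_or {p k n : ℕ} [NeZero n] (hp : p.Prime) (hk : 1 ≤ k) (hn : n = p ^ k) (x : G n)
    (h0 : ¬IsUnit (x 0 0)) : IsUnit (x 1 0) := by
  by_contra h1
  apply not_unit_p hp hk hn
  apply isUnit_of_dvd_one
  rw [← det2 x]
  exact dvd_sub ((dvd_of_not_unit hp hn h0).mul_right _) ((dvd_of_not_unit hp hn h1).mul_left _)

end TopAux

open TopAux

theorem row_Top : R_Top := by
  intro hT hL hS hA hB h3 p k n _ hp hk hn W _ _ ρ v K H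
  have hn' : n = p ^ max k k := by rw [max_self]; exact hn
  have hpn : p ∣ n := by
    rw [hn]
    exact dvd_pow_self p (by omega)
  have hdiv : p ^ k / p = p ^ (k - 1) := by
    have := Nat.pow_div hk hp.pos
    rwa [pow_one] at this
  have hv0 : ρ.AT (p ^ (k - 1)) v = 0 := by
    rw [← hdiv]
    exact H.nT p hp hpn
  have hp0 : (0 : ℝ) < p + 1 := by positivity
  refine ⟨fun x => ?_, fun x hx => ?_, fun B hBe => ⟨?_, ?_, ?_, fun h1 => ?_⟩⟩
  · rw [← hn]
    exact K.AT_top _
  · by_cases h0 : IsUnit (x 0 0)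
    · have h1 : ¬IsUnit (x 1 0) := fun h => hx ⟨h0, h⟩
      refine (hT p k k 1 n hp hk hk hn' (by omega) W ρ v x H h0 ?_).2
      rw [pow_one]
      exact dvd_of_not_unit hp hn h1
    · have h1 := unit_or hp hk hn x h0
      have := (hL p k k 0 1 n hp hk hk hn' (by omega) (by omega) W ρ v x (x 1 0) H h1
        (by rw [pow_zero, one_mul]) (by rw [pow_one]; exact dvd_of_not_unit hp hn h0)).2
      simpa only [mul_zero, Nat.sub_zero] using this
  · rw [hBe]
    exact hS p k n hp hk hn W ρ v K H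
  · obtain ⟨q, rfl⟩ : ∃ q, p = q + 1 := ⟨p - 1, by have := hp.pos; omega⟩
    rw [hBe, sum_range_succ']
    have e0 : ρ.AT ((q + 1) ^ (k - 1)) (ρ.a (Lm ((0 : ℕ) : ZMod n)) v) = 0 := by
      rw [Nat.cast_zero, Lm_zero, ρ.one]
      exact hv0
    rw [e0, norm_zero]
    have e1 : ∑ u ∈ range q,
        ‖ρ.AT ((q + 1) ^ (k - 1)) (ρ.a (Lm ((u + 1 : ℕ) : ZMod n)) v)‖ ^ 2 ≤
        ∑ _u ∈ range q, ‖v‖ ^ 2 := by
      refine sum_le_sum fun u _ => pow_le_pow_left₀ (norm_nonneg _) ?_ 2
      exact (K.AT_le _ _).trans (ρ.nrm _ _).le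
    rw [sum_const, card_range, nsmul_eq_mul] at e1
    push_cast at e1 ⊢
    nlinarith [e1]
  · rcases Nat.lt_or_ge 1 k with h2 | h2
    · rw [hBe]
      exact hA p k n hp hk hn W ρ v K H h2
    · obtain rfl : k = 1 := by omega
      have hS' := hS p 1 n hp hk hn W ρ v K H
      have hnp : p = n := by rw [hn, pow_one]
      subst hnp
      simp only [Nat.sub_self, pow_zero] at hS' hv0 hBe
      have h4 := hB p hp W ρ v K hv0
      rw [hS', ← hBe, div_mul_eq_mul_div, div_le_div_iff_of_pos_right hp0] at h4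
      exact h4
  · have := h3 p k n hp hk hn W ρ v K H h1
    subst h1
    simp only [Nat.sub_self, pow_zero] at hBe
    rw [hBe]
    exact this

end

end Pool.Agent.MP_b2c033_nt.UL
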