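import Pool.Agent.MP_b2c033_nt.UL.Spec

/-! The support at a cusp depends only on its type. -/

namespace Pool.Agent.MP_b2c033_nt.UL

open U CongruenceSubgroup
open scoped MatrixGroups

namespace TyAux

theorem lift {N : ℕ} (hN : 0 < N) {t x : ℤ} (h : t ∣ N) (hx : IsCoprime t x) :
    ∃ (u : (ZMod N)ˣ) (m : ℤ), (u : ZMod N) = x + t * m := by
  have : NeZero N := ⟨hN.ne'⟩
  have h1 : t.natAbs ∣ N := Int.natAbs_dvd_natAbs.2 h
  obtain ⟨X, hX⟩ := (ZMod.coe_int_isUnit_iff_isCoprime x t.natAbs).2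
    (hx.of_isCoprime_of_dvd_left (Int.natAbs_dvd.2 dvd_rfl))
  obtain ⟨u, hu⟩ := ZMod.unitsMap_surjective h1 X
  obtain ⟨z, hz⟩ := ZMod.intCast_surjective (u : ZMod N)
  have h2 : (x : ZMod t.natAbs) = z := by
    rw [← hX, ← hu, ZMod.unitsMap_val, ← hz, ZMod.cast_intCast h1]
  obtain ⟨m, hm⟩ := Int.natAbs_dvd.1 ((ZMod.intCast_eq_intCast_iff _ _ _).1 h2).dvd
  refine ⟨u, m, ?_⟩
  rw [← hz, show z = x + t * m by linear_combination hm]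
  push_cast
  rfl

theorem low {N : ℕ} (hN : 0 < N) (γ : SZ) :
    ∃ u : (ZMod N)ˣ, ((γ 1 0 : ℤ) : ZMod N) = u * (gN N γ : ℕ) := by
  obtain ⟨c, n, h, h1, h2⟩ := Int.exists_gcd_one (m := γ 1 0) (n := N)
    (Int.gcd_pos_of_ne_zero_right _ (by exact_mod_cast hN.ne'))
  obtain ⟨u, m, hu⟩ := lift hN (t := n) (x := c) ⟨_, h2⟩ (Int.isCoprime_iff_gcd_eq_one.2 h).symm
  have h3 := congrArg (Int.cast : ℤ → ZMod N) h1
  have h4 := congrArg (Int.cast : ℤ → ZMod N) h2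
  simp only [Int.cast_mul, Int.cast_natCast, ZMod.natCast_self] at h3 h4
  refine ⟨u, ?_⟩
  rw [hu, gN]
  linear_combination h3 + m * h4

theorem shift {N : ℕ} (hN : 0 < N) (γ : SZ) :
    ∃ k : ℤ, IsUnit ((((γ * Tm k : SZ) 1 1 : ℤ)) : ZMod N) := by
  obtain ⟨u, hu⟩ := low hN γ
  have h : IsCoprime (γ 1 0) (γ 1 1) := ⟨-γ 0 1, γ 0 0, by linear_combination detZ γ⟩
  obtain ⟨v, m, hv⟩ := lift hN (t := gN N γ) (x := γ 1 1) (Int.gcd_dvd_right _ _)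
    (h.of_isCoprime_of_dvd_left (Int.gcd_dvd_left _ _))
  obtain ⟨k, hk⟩ := ZMod.intCast_surjective (((u⁻¹ : (ZMod N)ˣ) : ZMod N) * (m : ZMod N))
  refine ⟨k, v, ?_⟩
  have := u.mul_inv
  simp only [mul2, Tm, mk_01, mk_11, Int.cast_add, Int.cast_mul, hk, hu, hv, Int.cast_one,
    Int.cast_natCast]
  linear_combination -((gN N γ : ℕ) * m : ZMod N) * this

variable {V : Type} [NormedAddCommGroup V] [InnerProductSpace ℂ V] {C : CS V} {g : V} {ν : ℚ}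

theorem tr (γ : SZ) (k : ℤ) :
    C.β ν (C.act (ofZ (γ * Tm k)) g) = 0 ↔ C.β ν (C.act (ofZ γ) g) = 0 := by
  rw [ofZ_mul, C.act_mul _ _ _ (by simp) (by simp), ofZ_Tm, C.β_Tr, mul_eq_zero]
  exact or_iff_right (Complex.exp_ne_zero _)

theorem main (hC : C.Good) {N : ℕ} (hN : 0 < N) (hf : C.Fix (Gamma0 N) g) (hr : C.Rat g)
    {γ γ' : SZ} (h : gN N γ = gN N γ') (he : IsUnit ((γ 1 1 : ℤ) : ZMod N))
    (he' : IsUnit ((γ' 1 1 : ℤ) : ZMod N)) :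
    C.β ν (C.act (ofZ γ') g) = 0 ↔ C.β ν (C.act (ofZ γ) g) = 0 := by
  obtain ⟨u, hu⟩ := low hN γ
  obtain ⟨u', hu'⟩ := low hN γ'
  obtain ⟨e, he⟩ := he
  obtain ⟨e', he'⟩ := he'
  obtain ⟨D, hD⟩ : ∃ D : (ZMod N)ˣ, D * (u' * e) = e' * u := ⟨_, inv_mul_cancel_right _ _⟩
  have hD' := congrArg Units.val hD
  simp only [Units.val_mul] at hD'
  obtain ⟨d, hd⟩ := ZMod.intCast_surjective (D : ZMod N)
  obtain ⟨d', hd'⟩ := ZMod.intCast_surjective ((D⁻¹ : (ZMod N)ˣ) : ZMod N)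
  have h1 : (d : ZMod N) * d' = 1 := by rw [hd, hd', D.mul_inv]
  have h2 := congrArg (Int.cast : ℤ → ZMod N) (detZ γ)
  obtain ⟨δ, a1, a2, a3, a4⟩ := hC.av.lift N (γ 0 0) (γ 0 1 * d) (γ 1 0 * d') (γ 1 1) (by
    rw [← ZMod.intCast_eq_intCast_iff]
    push_cast at h2 ⊢
    linear_combination h2 - (γ 0 1 : ℤ) * (γ 1 0 : ℤ) * h1)
  have a3' := (ZMod.intCast_eq_intCast_iff _ _ _).2 a3
  have a4' := (ZMod.intCast_eq_intCast_iff _ _ _).2 a4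
  push_cast at a3'
  rw [← hC.gal0 g N d γ δ ν hN (fun x hx => hf x (Gamma1_in_Gamma0 N hx)) hr
    ((ZMod.coe_int_isUnit_iff_isCoprime d N).1 (hd ▸ D.isUnit)).symm ⟨a1, a2, by
      rw [← ZMod.intCast_eq_intCast_iff]
      push_cast
      linear_combination (d : ZMod N) * a3' + (γ 1 0 : ℤ) * h1, a4⟩]
  have h3 : γ' * δ⁻¹ ∈ Gamma0 N := by
    rw [Gamma0_mem, mul2, Matrix.SpecialLinearGroup.SL2_inv_expl]
    simp only [Matrix.cons_val', Matrix.cons_val_zero, Matrix.cons_val_one, Matrix.cons_val_fin_one]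
    push_cast
    rw [← hd] at hD'
    rw [a3', a4', hu, hu', ← he, ← he', ← h]
    linear_combination ((gN N γ : ℕ) * d' : ZMod N) * hD' -
      ((gN N γ : ℕ) * u' * e : ZMod N) * h1
  rw [← inv_mul_cancel_right γ' δ, ofZ_mul, C.act_mul _ _ _ (by simp) (by simp), hf _ h3]

end TyAux

open TyAux in
theorem row_Ty : K_Ty := by
  intro V _ _ C hC N g hN hf hr γ γ' ν h h1 h2
  obtain ⟨k, hk⟩ := shift hN γ
  obtain ⟨k', hk'⟩ := shift hN γ'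
  refine h1 ((tr γ k).1 ((main hC hN hf hr ?_ hk hk').1 ((tr γ' k').2 h2)))
  simpa [gN, mul2, Tm] using h

end Pool.Agent.MP_b2c033_nt.UL
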