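import Pool.Agent.MP_b2c033_nt.UL.Spec
import Pool.Agent.MP_b2c033_nt.UN.RAL

/-! Atkin-Lehner operators for all unitary divisors. -/

namespace Pool.Agent.MP_b2c033_nt.UL

open U UN CongruenceSubgroup

namespace WQAux

variable {V : Type} [NormedAddCommGroup V] [InnerProductSpace ℂ V] {C : CS V}

theorem bez {Q N' : ℕ} (h : Q.Coprime N') : ∃ a b : ℤ, a * Q - b * N' = 1 := by
  obtain ⟨a, b, hab⟩ := Nat.isCoprime_iff_coprime.2 h
  exact ⟨a, -b, by linear_combination hab⟩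

theorem main {N : ℕ} {g : V} {b : ℕ → ℤ} (h : NF C N g b) (Q : ℕ) : ∀ N' : ℕ, N = Q * N' →
    Q.Coprime N' → ∃ w : ℤ, (w = 1 ∨ w = -1) ∧ ∀ a b c d : ℤ, a * d - b * c = 1 →
      (N' : ℤ) ∣ c → (Q : ℤ) ∣ d → C.act (zm a b c d) g = (w : ℂ) • C.act (Vd (1 / Q)) g := by
  have hG : G0 C N g := fix0_iff.1 h.fix
  induction Q using Nat.recOnPosPrimePosCoprime with
  | prime_pow p k hp hk =>
    intro N' hN hc
    have hN0 : N' ≠ 0 := by
      rintro rfl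
      have := h.coef.pos
      omega
    have hpN : ¬p ∣ N' :=
      hp.coprime_iff_not_dvd.1 ((Nat.coprime_pow_left_iff hk p N').1 hc)
    have hf : N.factorization p = k := by
      rw [hN, Nat.factorization_mul (pow_pos hp.pos k).ne' hN0, Finsupp.add_apply,
        Nat.factorization_eq_zero_of_not_dvd hpN, hp.factorization_pow, Finsupp.single_eq_same,
        add_zero]
    obtain ⟨w, hw, -, hal⟩ := h.al p hp (hN ▸ (dvd_pow_self p hk.ne').mul_right N')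
    refine ⟨w, hw, fun a b c d h1 h2 h3 => ?_⟩
    rw [hf] at hal
    have h4 : N / p ^ k = N' := by rw [hN, Nat.mul_div_cancel_left _ (pow_pos hp.pos k)]
    rw [h4] at hal
    have := hal (mkZ a b c d h1) ((mem_G0 _ _).2 h2) (by exact_mod_cast h3)
    rw [ofZ_mkZ] at this
    rw [this, Nat.cast_pow]
  | zero =>
    intro N' hN
    have := h.coef.pos
    omega
  | one =>
    intro N' hN _
    rw [one_mul] at hN
    refine ⟨1, Or.inl rfl, fun a b c d h1 h2 _ => ?_⟩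
    rw [Nat.cast_one, div_one, Vd_one, Int.cast_one, one_smul]
    exact hG a b c d h1 (hN ▸ h2)
  | coprime Q₁ Q₂ h₁ h₂ hc ih₁ ih₂ =>
    intro N' hN hcN
    have hc₁ : Q₁.Coprime (Q₂ * N') :=
      Nat.Coprime.mul_right hc (Nat.Coprime.coprime_mul_right hcN)
    have hc₂ : Q₂.Coprime (Q₁ * N') :=
      Nat.Coprime.mul_right hc.symm (Nat.Coprime.coprime_mul_left hcN)
    obtain ⟨w₁, hw₁, H₁⟩ := ih₁ (Q₂ * N') (by rw [hN, mul_assoc]) hc₁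
    obtain ⟨w₂, hw₂, H₂⟩ := ih₂ (Q₁ * N') (by rw [hN]; ring) hc₂
    obtain ⟨a₁, b₁, e₁⟩ := bez hc₁
    obtain ⟨a₂, b₂, e₂⟩ := bez hc₂
    obtain ⟨a₀, b₀, e₀⟩ := bez hcN
    have k₁ := H₁ a₁ b₁ _ _ e₁ dvd_rfl dvd_rfl
    have k₂ := H₂ a₂ b₂ _ _ e₂ dvd_rfl dvd_rfl
    push_cast at e₁ e₂ k₁ k₂
    have q₁ : (0 : ℚ) < Q₁ := by exact_mod_cast h₁.trans' one_pos
    have q₂ : (0 : ℚ) < Q₂ := by exact_mod_cast h₂.trans' one_pos
    have e₃ : a₁ * Q₁ - b₁ * Q₂ * N' = 1 := by linear_combination e₁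
    have hV : 0 < (Vd (1 / (Q₂ : ℚ))).det := by rw [det_Vd]; positivity
    have k₃ : C.act (Vd (1 / (Q₂ : ℚ))) (C.act (zm a₁ b₁ (Q₂ * N') Q₁) g) =
        C.act (zm a₁ (b₁ * Q₂) N' Q₁) (C.act (Vd (1 / (Q₂ : ℚ))) g) :=
      act_comm 1 one_ne_zero (det_zm_pos e₁) hV hV (det_zm_pos e₃)
        (by ext <;> simp [zm, Vd] <;> field_simp) g
    have k₄ := congrArg (C.act (zm a₁ (b₁ * Q₂) N' Q₁)) k₂
    rw [map_smul, ← k₃, k₁, map_smul, Vd_Vd (by positivity) (by positivity),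
      act_act (det_zm_pos e₂) (det_zm_pos e₃), zm_mul, smul_smul] at k₄
    refine ⟨w₂ * w₁, by rcases hw₁ with rfl | rfl <;> rcases hw₂ with rfl | rfl <;> simp,
      fun a b c d h1 h2 h3 => ?_⟩
    have hG' : G0 C (Q₁ * Q₂ * N') g := hN ▸ hG
    rw [ALX.same hG' e₀ h1 h2 h3, ← ALX.same hG' e₀ (a := a₂ * a₁ + b₂ * N')
      (b := a₂ * (b₁ * Q₂) + b₂ * Q₁) (c := Q₁ * N' * a₁ + Q₂ * N')
      (d := Q₁ * N' * (b₁ * Q₂) + Q₂ * Q₁)
      (by linear_combination (a₁ * Q₁ - b₁ * Q₂ * N') * e₂ + e₃) ⟨Q₁ * a₁ + Q₂, by ring⟩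
      ⟨N' * b₁ + 1, by push_cast; ring⟩, k₄, Int.cast_mul, Nat.cast_mul]
    congr 3
    field_simp

end WQAux

theorem row_WQ : K_WQ := by
  intro V _ _ C _ N g b h Q N' hN hc
  obtain ⟨w, hw, H⟩ := WQAux.main h Q N' hN hc
  exact ⟨w, hw, fun γ h1 h2 => H _ _ _ _ (detZ γ) ((mem_G0 _ _).1 h1) h2⟩

end Pool.Agent.MP_b2c033_nt.UL
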