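import Pool.Agent.MP_b2c033_nt.UL.Spec

/-! Reduction of the cusps of Atkin-Lehner type. -/

namespace Pool.Agent.MP_b2c033_nt.UL

open U CongruenceSubgroup
open scoped MatrixGroups

namespace WrAux

lemma cong {m : ℕ} {x y : SZ} (h : red m x = red m y) (i j : Fin 2) :
    (m : ℤ) ∣ y i j - x i j := by
  have h1 : ((x i j : ℤ) : ZMod m) = ((y i j : ℤ) : ZMod m) := by
    rw [← red_apply, ← red_apply, h]
  exact (ZMod.intCast_eq_intCast_iff_dvd_sub _ _ _).1 h1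

variable {V : Type} [NormedAddCommGroup V] [InnerProductSpace ℂ V] (C : CS V)

lemma conj (m : ℕ) (hm : 0 < m) (x : SZ) (h : (m : ℤ) ∣ x 0 1) : ∃ x' : SZ,
    x' 0 0 = x 0 0 ∧ x' 0 1 * m = x 0 1 ∧ x' 1 0 = x 1 0 * m ∧ x' 1 1 = x 1 1 ∧
    ∀ f, C.act (ofZ x) (C.act (Vd (1 / m)) f) = C.act (Vd (1 / m)) (C.act (ofZ x') f) := by
  obtain ⟨e, he⟩ := h
  have hd := detZ x
  have hm' : (0 : ℚ) < m := by exact_mod_cast hm
  refine ⟨mkZ (x 0 0) e (x 1 0 * m) (x 1 1) (by rw [he] at hd; linear_combination hd), rfl,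
    by rw [mkZ_01, he, mul_comm], rfl, rfl, fun f => ?_⟩
  rw [← C.act_mul _ _ _ (by simpa using hm') (by simp),
    ← C.act_mul _ _ _ (by simp) (by simpa using hm')]
  congr 2
  ext <;> simp [Vd, ofZ, he] <;> field_simp

lemma comm (a b : ℚ) (ha : 0 < a) (hb : 0 < b) (f : V) :
    C.act (Vd a) (C.act (Vd b) f) = C.act (Vd b) (C.act (Vd a) f) := by
  rw [← C.act_mul _ _ _ (by simpa using hb) (by simpa using ha),
    ← C.act_mul _ _ _ (by simpa using ha) (by simpa using hb)]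
  congr 2
  ext <;> simp [Vd, mul_comm]

lemma norm_ee (x : ℚ) : ‖ee x‖ = 1 := by
  unfold ee
  rw [Complex.norm_exp]
  simp

end WrAux

open WrAux in
theorem row_Wr : K_Wr := by
  intro V _ _ C N g b N₁ r r' n _ W _ _ ρ ι v S hWQ γ ν hOk
  have hN : 0 < N := S.nf.coef.pos
  have hn : 0 < n := Nat.pos_of_ne_zero (NeZero.ne n)
  have hr : 0 < r := Nat.pos_of_dvd_of_pos S.rt.dr hn
  have hN1 : 0 < N₁ := Nat.pos_of_ne_zero fun h => by
    have := S.eq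
    rw [h, zero_mul] at this
    omega
  have htN : gN N₁ γ ∣ N₁ := by
    have : ((gN N₁ γ : ℕ) : ℤ) ∣ (N₁ : ℤ) := Int.gcd_dvd_right _ _
    exact_mod_cast this
  have htc : ((gN N₁ γ : ℕ) : ℤ) ∣ γ 1 0 := Int.gcd_dvd_left _ _
  have hQt : N₁ = Qw N₁ γ * gN N₁ γ := (Nat.div_mul_cancel htN).symm
  have hcQ : IsCoprime (γ 1 0) (Qw N₁ γ : ℤ) := by
    rw [Int.isCoprime_iff_gcd_eq_one]
    have h1 : Int.gcd (γ 1 0) (Qw N₁ γ : ℤ) ∣ gN N₁ γ := by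
      refine Int.dvd_gcd (Int.gcd_dvd_left _ _) ((Int.gcd_dvd_right _ _).trans ?_)
      exact Int.natCast_dvd_natCast.2 (Dvd.intro _ hQt.symm)
    have h2 : Int.gcd (γ 1 0) (Qw N₁ γ : ℤ) ∣ Qw N₁ γ :=
      Int.natCast_dvd_natCast.1 (Int.gcd_dvd_right _ _)
    exact Nat.eq_one_of_dvd_coprimes hOk h1 h2
  have hOk' : (gN N₁ γ).Coprime (Qw N₁ γ) := hOk
  generalize gN N₁ γ = t at *
  generalize Qw N₁ γ = Q at *
  have hQ : 0 < Q := Nat.pos_of_ne_zero fun h => by rw [h, zero_mul] at hQt; omega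
  have hQn : Q.Coprime n := Nat.Coprime.coprime_dvd_left (Dvd.intro _ hQt.symm) S.cop
  have hQnt : Q.Coprime (n * t) := Nat.Coprime.mul_right hQn hOk'.symm
  obtain ⟨y, hy1, hy2⟩ : ∃ y : ℤ, ((n * t : ℕ) : ℤ) ∣ y ∧ (Q : ℤ) ∣ γ 1 0 * y + γ 1 1 := by
    obtain ⟨u, w, huw⟩ := hcQ.mul_left (Nat.isCoprime_iff_coprime.2 hQnt.symm)
    exact ⟨(n * t : ℕ) * (-u * γ 1 1), Dvd.intro _ rfl, w * γ 1 1,
      by linear_combination (-γ 1 1) * huw⟩
  obtain ⟨δ, hδ1, hδ2⟩ := S.good.av.crt Q (n * t) (γ * Tm y) 1 hQnt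
  rw [inv_one, one_mul] at hδ2
  have e1 : red Q (γ * Tm y) = red Q δ := by
    have := red_eq_one.2 hδ1
    rw [map_mul, map_inv] at this
    exact inv_mul_eq_one.1 this
  have e2 : red (n * t) 1 = red (n * t) δ := by rw [map_one, red_eq_one.2 hδ2]
  have e3 : red Q 1 = red Q (δ⁻¹ * (γ * Tm y)) := by
    rw [map_one, map_mul, map_inv, e1, inv_mul_cancel]
  have e4 : red (n * t) γ = red (n * t) (δ⁻¹ * (γ * Tm y)) := by
    rw [map_mul, map_inv, map_mul, ← e2, map_one, inv_one, one_mul, red_Tm,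
      (ZMod.intCast_zmod_eq_zero_iff_dvd _ _).2 hy1, Tm_zero, mul_one]
  have hmul : δ * (δ⁻¹ * (γ * Tm y)) = γ * Tm y := mul_inv_cancel_left _ _
  generalize δ⁻¹ * (γ * Tm y) = η at e3 e4 hmul
  have hnd : (n : ℤ) ∣ ((n * t : ℕ) : ℤ) := Int.natCast_dvd_natCast.2 (Dvd.intro _ rfl)
  have htd : (t : ℤ) ∣ ((n * t : ℕ) : ℤ) := Int.natCast_dvd_natCast.2 (Dvd.intro_left _ rfl)
  have d01 : ((n * t : ℕ) : ℤ) ∣ δ 0 1 := by simpa using cong e2 0 1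
  have d10 : ((n * t : ℕ) : ℤ) ∣ δ 1 0 := by simpa using cong e2 1 0
  have d11 : (Q : ℤ) ∣ δ 1 1 := by
    have h := cong e1 1 1
    have e : (γ * Tm y) 1 1 = γ 1 0 * y + γ 1 1 := by simp [mul2, Tm]
    rw [e] at h
    simpa using dvd_add h hy2
  have f01 : (Q : ℤ) ∣ η 0 1 := by simpa using cong e3 0 1
  have f10 : (t : ℤ) ∣ η 1 0 := by simpa using dvd_add (htd.trans (cong e4 1 0)) htc
  obtain ⟨w, hw, hW⟩ := hWQ Q (t * (r * r')) (by rw [S.eq, hQt, mul_assoc])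
    (Nat.Coprime.mul_right hOk'.symm (Nat.Coprime.mul_right
      (Nat.Coprime.coprime_dvd_right S.rt.dr hQn) (Nat.Coprime.coprime_dvd_right S.rt.dr' hQn)))
  obtain ⟨δ', -, -, a10, a11, hδ'⟩ := conj C r hr δ
    (((Int.natCast_dvd_natCast.2 S.rt.dr).trans hnd).trans d01)
  obtain ⟨η', b00, b01, b10, b11, hη'⟩ := conj C Q hQ η f01
  have hδ0 : δ' ∈ Gamma0 (t * (r * r')) := by
    rw [Gamma0_mem, ZMod.intCast_zmod_eq_zero_iff_dvd, a10]
    obtain ⟨k, hk⟩ := d10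
    obtain ⟨l, hl⟩ := S.rt.dr'
    refine ⟨l * k, ?_⟩
    rw [hk, hl]
    push_cast
    ring
  have hη0 : η' ∈ Gamma0 N₁ := by
    rw [Gamma0_mem, ZMod.intCast_zmod_eq_zero_iff_dvd, b10, hQt]
    obtain ⟨k, hk⟩ := f10
    refine ⟨k, ?_⟩
    rw [hk]
    push_cast
    ring
  have hred : red n η' = tw (un n Q)⁻¹ (red n γ) := by
    have c : ∀ i j, ((η i j : ℤ) : ZMod n) = ((γ i j : ℤ) : ZMod n) := fun i j =>
      ((ZMod.intCast_eq_intCast_iff_dvd_sub _ _ _).2 (hnd.trans (cong e4 i j))).symm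
    have hu := un_coe hQn
    apply ext2 <;> simp only [tw, mk_00, mk_01, mk_10, mk_11, red_apply, inv_inv]
    · rw [b00, c]
    · rw [← c, ← b01, Int.cast_mul, Int.cast_natCast, ← hu, Units.mul_inv_cancel_right]
    · rw [b10, Int.cast_mul, Int.cast_natCast, c, hu]
    · rw [b11, c]
  have hQ' : (0 : ℚ) < 1 / Q := by positivity
  have hr' : (0 : ℚ) < 1 / r := by positivity
  have k1 : C.act (ofZ δ) (ι v) = (w : ℂ) • C.act (Vd (1 / Q)) (ι v) := by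
    rw [S.val, hδ', hW δ' hδ0 (by rw [a11]; exact d11), map_smul, comm C _ _ hr' hQ']
  have k2 : C.act (Tr y) (C.act (ofZ γ) (ι v)) =
      (w : ℂ) • C.act (Vd (1 / Q)) (ι (ρ.a (tw (un n Q)⁻¹ (red n γ)) v)) := by
    rw [← hred, S.br.act η' hη0, ← hη', ← map_smul, ← k1, ← ofZ_Tm,
      ← C.act_mul _ _ _ (by simp) (by simp), ← C.act_mul _ _ _ (by simp) (by simp),
      ← ofZ_mul, ← ofZ_mul, hmul]
  have k3 := congrArg (fun f => ‖C.β ν f‖) k2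
  have e5 : ν = 1 / (Q : ℚ) * (Q * ν) := by field_simp
  have hw1 : ‖(w : ℂ)‖ = 1 := by rcases hw with h | h <;> simp [h]
  simp only [C.β_Tr, norm_mul, norm_ee, one_mul, map_smul, norm_smul, hw1] at k3
  rw [k3]
  conv_lhs => rw [e5]
  rw [C.β_Vd _ _ _ hQ', norm_mul]
  simp

end Pool.Agent.MP_b2c033_nt.UL
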