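import Pool.Agent.MP_b2c033_nt.UL.AsmH
import Pool.Agent.MP_b2c033_nt.UL.Kit0
import Pool.Agent.MP_b2c033_nt.UL.Kit
import Pool.Agent.MP_b2c033_nt.UL.L1T
import Pool.Agent.MP_b2c033_nt.UL.L1L
import Pool.Agent.MP_b2c033_nt.UL.Cnt
import Pool.Agent.MP_b2c033_nt.UL.Lsum
import Pool.Agent.MP_b2c033_nt.UL.L2a
import Pool.Agent.MP_b2c033_nt.UL.L2k
import Pool.Agent.MP_b2c033_nt.UL.L2m
import Pool.Agent.MP_b2c033_nt.UL.L2b
import Pool.Agent.MP_b2c033_nt.UL.L3
import Pool.Agent.MP_b2c033_nt.UL.L4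
import Pool.Agent.MP_b2c033_nt.UL.L5
import Pool.Agent.MP_b2c033_nt.UL.Top
import Pool.Agent.MP_b2c033_nt.UL.GdNM
import Pool.Agent.MP_b2c033_nt.UL.GdMid
import Pool.Agent.MP_b2c033_nt.UL.ExLoc
import Pool.Agent.MP_b2c033_nt.UL.Crt
import Pool.Agent.MP_b2c033_nt.UL.Sp
import Pool.Agent.MP_b2c033_nt.UL.En
import Pool.Agent.MP_b2c033_nt.UL.Ten
import Pool.Agent.MP_b2c033_nt.UL.GdAll
import Pool.Agent.MP_b2c033_nt.UL.TenX
import Pool.Agent.MP_b2c033_nt.UL.RtSp
import Pool.Agent.MP_b2c033_nt.UL.ExAll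
import Pool.Agent.MP_b2c033_nt.UL.ExY
import Pool.Agent.MP_b2c033_nt.UL.Av2
import Pool.Agent.MP_b2c033_nt.UL.AvM
import Pool.Agent.MP_b2c033_nt.UL.PQ
import Pool.Agent.MP_b2c033_nt.UL.Low
import Pool.Agent.MP_b2c033_nt.UL.Ar
import Pool.Agent.MP_b2c033_nt.UL.CC
import Pool.Agent.MP_b2c033_nt.UL.OrdA
import Pool.Agent.MP_b2c033_nt.UL.Int
import Pool.Agent.MP_b2c033_nt.UL.Ty
import Pool.Agent.MP_b2c033_nt.UL.WQ
import Pool.Agent.MP_b2c033_nt.UL.SP4
import Pool.Agent.MP_b2c033_nt.UL.Ofd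
import Pool.Agent.MP_b2c033_nt.UL.Chf
import Pool.Agent.MP_b2c033_nt.UL.Br0
import Pool.Agent.MP_b2c033_nt.UL.Br
import Pool.Agent.MP_b2c033_nt.UL.Hy1
import Pool.Agent.MP_b2c033_nt.UL.Hy2
import Pool.Agent.MP_b2c033_nt.UL.Hy3
import Pool.Agent.MP_b2c033_nt.UL.HK
import Pool.Agent.MP_b2c033_nt.UL.Mult
import Pool.Agent.MP_b2c033_nt.UL.Wr
import Pool.Agent.MP_b2c033_nt.UL.HB1
import Pool.Agent.MP_b2c033_nt.UL.HB2
import Pool.Agent.MP_b2c033_nt.UL.H256
import Pool.Agent.MP_b2c033_nt.UL.Root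
import Pool.Agent.MP_b2c033_nt.UL.GUa
import Pool.Agent.MP_b2c033_nt.UL.GU
import Pool.Agent.MP_b2c033_nt.UL.HZ
import Pool.Agent.MP_b2c033_nt.UL.HZ2

/-! The local block: orders at the cusps and the energy bound. -/

namespace Pool.Agent.MP_b2c033_nt.UL

theorem rows : Rows := by
  have kit : K_Kit := row_Kit row_Kit0
  have cnt : K_Cnt := row_Cnt row_AvM
  have lsum : K_Lsum := row_Lsum cnt row_L1L
  have top : K_Top :=
    row_Top row_L1T row_L1L lsum row_L2a (row_L2b (row_L2m cnt row_L2k)) row_L3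
  have sp : K_Sp := row_Sp row_Crt
  have exAll : K_ExAll := row_ExAll kit row_RtSp
    (row_ExLoc kit row_L1T row_L1L top row_L4 row_L5) (row_TenX sp)
  exact
    { kit := kit
      en := row_En
      gdAll := row_GdAll kit row_En (row_GdNM kit cnt row_L1T row_L1L) (row_GdMid kit top row_L4)
        (row_Ten kit sp row_En)
      exAll := exAll
      exY := row_ExY kit sp row_RtSp exAll
      avM := row_AvM
      pq := row_PQ row_AvM row_Av2 row_En
      ar := row_Ar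
      cc := row_CC
      ordA := row_OrdA
      int := row_Int
      ty := row_Ty
      wq := row_WQ
      ofd := row_Ofd row_Low
      br0 := row_Br0
      br := row_Br row_Chf
      hy1 := row_Hy1
      hy2 := row_Hy2 row_Int
      hy3 := row_Hy3
      hk := row_HK row_Int
      mult := row_Mult
      wr := row_Wr
      hb1 := row_HB1
      hb2 := row_HB2 row_SP4
      h256 := row_H256
      root := row_Root row_AvM
      gu := row_GU row_Int (row_GUa row_Int)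
      hz := row_HZ row_Int
      hz2 := row_HZ2 row_AvM row_Av2 row_En row_Int }

theorem s_Ord : U.S_Ord := ord_of rows

theorem s_HoroB : U.S_HoroB := horoB_of rows

end Pool.Agent.MP_b2c033_nt.UL
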