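import Pool.Agent.MP_b2c033_nt.UL.Spec

/-! Assembly of the local block from its rows. -/

namespace Pool.Agent.MP_b2c033_nt.UL

open U Finset CongruenceSubgroup
open scoped MatrixGroups Classical InnerProductSpace

/-- the rows used in the assembly -/
structure Rows : Prop where
  kit : K_Kit
  en : K_En
  gdAll : K_GdAll
  exAll : K_ExAll
  exY : K_ExY
  avM : K_AvM
  pq : K_PQ
  ar : K_Ar
  cc : K_CC
  ordA : K_OrdA
  int : K_Int
  ty : K_Ty
  wq : K_WQ
  ofd : K_Ofd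
  br0 : K_Br0
  br : K_Br
  hy1 : K_Hy1
  hy2 : K_Hy2
  hy3 : K_Hy3
  hk : K_HK
  mult : K_Mult
  wr : K_Wr
  hb1 : K_HB1
  hb2 : K_HB2
  h256 : K_H256
  root : K_Root
  gu : K_GU
  hz : K_HZ
  hz2 : K_HZ2

variable {V : Type} [NormedAddCommGroup V] [InnerProductSpace ℂ V] {C : CS V} {N : ℕ} {g : V}
  {b : ℕ → ℤ}

lemma exists_sit (h : Rows) (hG : C.Good) (hN : NF C N g b) {N₁ r r' n : ℕ} [NeZero n]
    (e : N = N₁ * (r * r')) (hc : N₁.Coprime n) (hr : RtL n r r') :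
    ∃ (W : Type) (_ : NormedAddCommGroup W) (_ : InnerProductSpace ℂ W) (ρ : RA (G n) W)
      (ι : W →ₗᵢ[ℂ] V) (v : W), Sit C N g b N₁ r r' ρ ι v := by
  obtain ⟨W, _, _, ρ, ι, h0⟩ := h.br0 V C hG N₁ n hc
  have hS : Sit0 C N g b N₁ r r' ρ ι :=
    ⟨hG, h.cc V C hG, hN, e, hc, hr, h.br V C hG N₁ n W ρ ι h0, h.kit n W ρ⟩
  obtain ⟨v, hv, hf⟩ := h.hy1 V C N g b N₁ r r' n W ρ ι hS
  exact ⟨W, _, _, ρ, ι, v, hS, hv, hf, h.hy2 V C N g b N₁ r r' n W ρ ι hS v hv,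
    h.hy3 V C N g b N₁ r r' n W ρ ι hS v hv⟩

lemma ne_zero_of_sit (h : Rows) {N₁ r r' n : ℕ} [NeZero n] {W : Type} [NormedAddCommGroup W]
    [InnerProductSpace ℂ W] {ρ : RA (G n) W} {ι : W →ₗᵢ[ℂ] V} {v : W}
    (hS : Sit C N g b N₁ r r' ρ ι v) : v ≠ 0 := by
  obtain ⟨hg, -, -, -, hn⟩ := h.int V C hS.good N g b hS.nf
  have hr : 0 < r := Nat.pos_of_dvd_of_pos hS.rt.dr (NeZero.pos n)
  rintro rfl
  have h1 := hn (Vd (1 / r)) g (by rw [det_Vd]; positivity)
  rw [← hS.val, map_zero, norm_zero] at h1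
  exact hg (norm_eq_zero.1 h1.symm)

/-- the exponents at a prime of the root -/
lemma root_fact (h : Rows) {N N₁ r r' n p : ℕ} {γ : SZ} (hn : 0 < n) (hN : 0 < N)
    (e : N = N₁ * (r * r')) (hc : N₁.Coprime n) (hr : RtL n r r') (hg : gN (r * r') γ = r)
    (hp : p.Prime) (hpn : p ∣ n) :
    N.factorization p = r.factorization p + r'.factorization p ∧
      (gN N γ).factorization p = r.factorization p ∧ 1 ≤ r.factorization p := by
  have h1 : 0 < r := Nat.pos_of_dvd_of_pos hr.dr hn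
  have h2 : 0 < r' := Nat.pos_of_dvd_of_pos hr.dr' hn
  have h3 : N₁ ≠ 0 := by
    rintro rfl
    omega
  have h4 : ¬p ∣ N₁ := fun h' => hp.one_lt.ne' (Nat.eq_one_of_dvd_coprimes hc h' hpn)
  have h5 : N₁.Coprime (r * r') :=
    (hc.coprime_dvd_right hr.dr).mul_right (hc.coprime_dvd_right hr.dr')
  have h6 : gN N₁ γ ∣ N₁ := by
    unfold gN
    exact Int.natCast_dvd_natCast.1 (Int.gcd_dvd_right _ _)
  have h7 : gN N₁ γ ≠ 0 := fun h0 => h3 (by rw [h0] at h6; exact Nat.eq_zero_of_zero_dvd h6)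
  refine ⟨?_, ?_, hp.factorization_pos_of_dvd h1.ne' (hr.fr p hp hpn)⟩
  · rw [e, Nat.factorization_mul h3 (by positivity), Nat.factorization_mul h1.ne' h2.ne']
    simp [Nat.factorization_eq_zero_of_not_dvd h4]
  · rw [e, h.avM.2.2.2.2.2.2 _ _ γ h5, hg, Nat.factorization_mul h7 h1.ne']
    simp [Nat.factorization_eq_zero_of_not_dvd fun h' => h4 (h'.trans h6)]

lemma up_of (h : Rows) {N₁ r r' n : ℕ} [NeZero n] {W : Type} [NormedAddCommGroup W]
    [InnerProductSpace ℂ W] {ρ : RA (G n) W} {ι : W →ₗᵢ[ℂ] V} {v : W}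
    (hS : Sit C N g b N₁ r r' ρ ι v) {D : ℕ → ℕ} {γ : SZ} (hB : HitB C D ρ ι v) (hO : OkW N₁ γ)
    (hg : gN (r * r') γ = r) : Up C N g D γ :=
  h.root V C N g b N₁ r r' n W ρ ι v hS D γ
    (h.mult V C N g b N₁ r r' n W ρ ι v hS (h.hk V C N g b N₁ r r' n W ρ ι v hS))
    (h.wr V C N g b N₁ r r' n W ρ ι v hS (h.wq V C hS.good N g b hS.nf))
    (h.ty V C hS.good N g hS.nf.coef.pos hS.nf.fix (h.int V C hS.good N g b hS.nf).2.1) hB hO hg

lemma up_sm (h : Rows) (hG : C.Good) (hN : NF C N g b) (γ : SZ) :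
    Up C N g (Dr N (smN N) γ) γ := by
  obtain ⟨N₁, r, r', n, hn, e, hc, hr, hO, hg⟩ := h.ar N γ hN.coef.pos
  have : NeZero n := ⟨hn.ne'⟩
  obtain ⟨W, _, _, ρ, ι, v, hS⟩ := exists_sit h hG hN e hc hr
  have hA : Allow (Dr N (smN N) γ) n r r' := by
    intro p hp hpn he
    obtain ⟨h1, h2, h3⟩ := root_fact h hn hN.coef.pos e hc hr hg hp hpn
    have h4 : N.factorization p = 2 * r.factorization p := by omega
    rw [Dr, if_pos ⟨by omega, by omega⟩, smN, h4]
  refine up_of h hS ?_ hO hg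
  by_cases hs : r.factorization 2 = 2 ∧ r'.factorization 2 = 2
  · have h2 : 2 ∣ n := (Nat.dvd_of_factorization_pos (by omega)).trans hr.dr
    have h1 : 0 < r := Nat.pos_of_dvd_of_pos hr.dr hn
    have h1' : 0 < r' := Nat.pos_of_dvd_of_pos hr.dr' hn
    refine h.hb2 V C N g b N₁ r r' n W ρ ι v hS _ h2 ?_
      (h.exY _ n r r' hr hA hs.1 hs.2 W ρ v hS.hyp (ne_zero_of_sit h hS))
    have h3 := hA 2 Nat.prime_two h2 (by omega)
    rw [hs.1] at h3
    rw [hr.lcm, Nat.factorization_lcm h1.ne' h1'.ne', Finsupp.sup_apply, hs.1, hs.2]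
    exact h3
  · exact h.hb1 V C N g b N₁ r r' n W ρ ι v hS _
      (h.exAll _ n r r' hr hA hs W ρ v hS.hyp (ne_zero_of_sit h hS))

lemma up_256 (h : Rows) (hG : C.Good) (hN : NF C 256 g b) (hη : C.act eta256 g ≠ g) (γ : SZ) :
    Up C 256 g (Dr 256 (fun _ => 2) γ) γ := by
  obtain ⟨N₁, r, r', n, hn, e, hc, hr, hO, hg⟩ := h.ar 256 γ hN.coef.pos
  have : NeZero n := ⟨hn.ne'⟩
  obtain ⟨W, _, _, ρ, ι, v, hS⟩ := exists_sit h hG hN e hc hr
  refine up_of h hS (h.hb1 V C 256 g b N₁ r r' n W ρ ι v hS _ ?_) hO hg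
  have f8 : (256 : ℕ).factorization 2 = 8 := by
    rw [show (256 : ℕ) = 2 ^ 8 by norm_num, Nat.Prime.factorization_pow Nat.prime_two]
    simp
  have hd : r ∣ 2 ^ 8 := ⟨N₁ * r', by rw [show (2 : ℕ) ^ 8 = 256 by norm_num, e]; ring⟩
  have hd' : r' ∣ 2 ^ 8 := ⟨N₁ * r, by rw [show (2 : ℕ) ^ 8 = 256 by norm_num, e]; ring⟩
  by_cases hs : 2 ∣ n ∧ r.factorization 2 = r'.factorization 2
  · obtain ⟨h1, h2, h3⟩ := root_fact h hn hN.coef.pos e hc hr hg Nat.prime_two hs.1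
    obtain ⟨i, -, rfl⟩ := (Nat.dvd_prime_pow Nat.prime_two).1 hd
    obtain ⟨i', -, rfl⟩ := (Nat.dvd_prime_pow Nat.prime_two).1 hd'
    have h4 := hs.2
    rw [f8] at h1
    simp only [Nat.Prime.factorization_pow Nat.prime_two, Finsupp.single_eq_same] at h1 h2 h4
    obtain rfl : i = 4 := by omega
    obtain rfl : i' = 4 := by omega
    refine h.h256 V C 256 g b N₁ _ _ n W ρ ι v hS (by omega) (by rw [hr.lcm]; norm_num)
      (by norm_num) hη _ ?_
    rw [Dr, if_pos ⟨by omega, by omega⟩]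
  · refine h.exAll _ n r r' hr ?_ ?_ W ρ v hS.hyp (ne_zero_of_sit h hS)
    · intro p hp hpn he
      obtain rfl : p = 2 := (Nat.prime_dvd_prime_iff_eq hp Nat.prime_two).1
        (hp.dvd_of_dvd_pow ((hr.fr p hp hpn).trans hd))
      exact absurd ⟨hpn, he⟩ hs
    · rintro ⟨h1, h2⟩
      exact hs ⟨(Nat.dvd_of_factorization_pos (by omega)).trans hr.dr, by omega⟩

theorem ord_of (h : Rows) : S_Ord := by
  intro V _ _ C hG N g b hN
  have hA := h.ordA V C hG N g hN.coef.pos hN.fix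
  refine ⟨hA, h.ofd V C hG N g _ hN.coef.pos (h.cc V C hG) hA (up_sm h hG hN), ?_⟩
  rintro rfl hη
  exact h.ofd V C hG 256 g _ hN.coef.pos (h.cc V C hG) hA (up_256 h hG hN hη)

theorem horoB_of (h : Rows) : S_HoroB := by
  intro V _ _ C hG N g b hN root l n₀ hl hlN hroot
  have hpr : ∀ p ∈ l, p.Prime ∧ 1 ≤ N.factorization p := fun p hp => by
    have : p ∈ N.primeFactors := hlN ▸ List.mem_toFinset.2 hp
    have h1 := Nat.prime_of_mem_primeFactors this
    exact ⟨h1, h1.factorization_pos_of_dvd hN.coef.pos.ne' (Nat.dvd_of_mem_primeFactors this)⟩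
  set l₁ := l.filter fun p => decide (root p = 0) with hl₁
  set l₂ := l.filter fun p => !decide (root p = 0) with hl₂
  have hperm : (l₁ ++ l₂).Perm l := List.filter_append_perm _ l
  have m₁ : ∀ p ∈ l₁, p ∈ l ∧ root p = 0 := fun p hp => by simpa [hl₁] using hp
  have m₂ : ∀ p ∈ l₂, p ∈ l ∧ root p ≠ 0 := fun p hp => by simpa [hl₂] using hp
  set n := (l₂.map fun p => p ^ (N.factorization p - root p)).prod with hn
  have hn0 : 0 < n := List.prod_pos fun x hx => by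
    obtain ⟨p, hp, rfl⟩ := List.mem_map.1 hx
    exact pow_pos (hpr p (m₂ p hp).1).1.pos _
  have : NeZero n := ⟨hn0.ne'⟩
  obtain ⟨hr, hGd⟩ := h.gdAll N.factorization root l₂ n _ (hl.filter _)
    (fun p hp => ⟨(hpr p (m₂ p hp).1).1, Nat.one_le_iff_ne_zero.2 (m₂ p hp).2,
      hroot p (m₂ p hp).1⟩) hn rfl
  have hPQ := h.pq N.factorization l₁ (hl.filter _) fun p hp => hpr p (m₁ p hp).1
  have e : N = (l₁.map fun p => p ^ N.factorization p).prod *
      ((l₂.map fun p => p ^ root p).prod * n) := by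
    have e1 : N = (l.map fun p => p ^ N.factorization p).prod := by
      rw [← List.prod_toFinset _ hl, hlN]
      exact (Nat.prod_factorization_pow_eq_self hN.coef.pos.ne').symm
    have e2 : (l₂.map fun p => p ^ N.factorization p) =
        l₂.map fun p => p ^ root p * p ^ (N.factorization p - root p) :=
      List.map_congr_left fun p hp => by
        have := hroot p (m₂ p hp).1
        rw [← pow_add, Nat.add_sub_cancel' (by omega)]
    rw [hn, ← List.prod_map_mul, ← e2, ← List.prod_append, ← List.map_append,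
      (hperm.map _).prod_eq]
    exact e1
  have hc : (l₁.map fun p => p ^ N.factorization p).prod.Coprime n := by
    rw [hn, Nat.coprime_list_prod_left_iff]
    intro x hx
    rw [Nat.coprime_list_prod_right_iff]
    intro y hy
    obtain ⟨p, hp, rfl⟩ := List.mem_map.1 hx
    obtain ⟨q, hq, rfl⟩ := List.mem_map.1 hy
    refine Nat.Coprime.pow _ _ ((Nat.coprime_primes (hpr p (m₁ p hp).1).1
      (hpr q (m₂ q hq).1).1).2 ?_)
    rintro rfl
    exact (m₂ p hq).2 (m₁ p hp).2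
  obtain ⟨W, _, _, ρ, ι, v, hS⟩ := exists_sit h hG hN e hc hr
  have hM := h.mult V C N g b _ _ _ n W ρ ι v hS (h.hk V C N g b _ _ _ n W ρ ι v hS)
  have hW := h.wr V C N g b _ _ _ n W ρ ι v hS (h.wq V C hG N g b hN)
  have := h.hz2 V C N g b _ _ _ n W ρ ι v hS n₀ _ _ (h.hz V C N g b _ _ _ n W ρ ι v hS hM hW)
    (h.gu V C N g b _ _ _ n W ρ ι v hS hM) hGd hPQ
  have e3 : (l₁.map fun p => opts p (N.factorization p) 0) =
      l₁.map fun p => opts p (N.factorization p) (root p) :=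
    List.map_congr_left fun p hp => by rw [(m₁ p hp).2]
  rwa [← h.en.2.1, e3, ← List.map_append, h.en.2.2.1 _ _ _ _ (hperm.map _)] at this

end Pool.Agent.MP_b2c033_nt.UL
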