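import Pool.Agent.MP_b2c033_nt.U.Core

/-! Local analysis at the cusps: unitary right actions of `SL(2, ZMod n)`, their components under
the translations, and the bridge to the abstract space of cusp forms. -/

namespace Pool.Agent.MP_b2c033_nt.UL

open U Finset CongruenceSubgroup
open scoped MatrixGroups Classical InnerProductSpace

noncomputable section

abbrev G (n : ℕ) : Type := SL(2, ZMod n)

/-- a matrix of determinant one from its entries -/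
def mk {R : Type} [CommRing R] (a b c d : R) (h : a * d - b * c = 1) : SL(2, R) :=
  ⟨!![a, b; c, d], by rw [Matrix.det_fin_two_of]; exact h⟩

section

variable {R : Type} [CommRing R]

@[simp] lemma mk_00 (a b c d : R) (h) : mk a b c d h 0 0 = a := rfl
@[simp] lemma mk_01 (a b c d : R) (h) : mk a b c d h 0 1 = b := rfl
@[simp] lemma mk_10 (a b c d : R) (h) : mk a b c d h 1 0 = c := rfl
@[simp] lemma mk_11 (a b c d : R) (h) : mk a b c d h 1 1 = d := rfl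

lemma det2 (x : SL(2, R)) : x 0 0 * x 1 1 - x 0 1 * x 1 0 = 1 := by
  have := x.det_coe
  rwa [Matrix.det_fin_two] at this

lemma mul2 (x y : SL(2, R)) (i j : Fin 2) : (x * y) i j = x i 0 * y 0 j + x i 1 * y 1 j := by
  simp [Matrix.mul_apply, Fin.sum_univ_two]

lemma ext2 {x y : SL(2, R)} (h0 : x 0 0 = y 0 0) (h1 : x 0 1 = y 0 1) (h2 : x 1 0 = y 1 0)
    (h3 : x 1 1 = y 1 1) : x = y := by
  ext i j
  fin_cases i <;> fin_cases j <;> assumption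

/-- the translation -/
def Tm (x : R) : SL(2, R) := mk 1 x 0 1 (by simp)

/-- the lower unipotent -/
def Lm (x : R) : SL(2, R) := mk 1 0 x 1 (by simp)

/-- `(a, b u; c / u, d)` -/
def tw (u : Rˣ) (x : SL(2, R)) : SL(2, R) :=
  mk (x 0 0) (x 0 1 * u) (x 1 0 * ↑u⁻¹) (x 1 1) (by
    have := det2 x
    have h := u.mul_inv
    linear_combination this - x 0 1 * x 1 0 * h)

/-- the conjugate `x T ^ y x⁻¹` -/
def Un (x : SL(2, R)) (y : R) : SL(2, R) :=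
  mk (1 - y * x 0 0 * x 1 0) (y * x 0 0 ^ 2) (-(y * x 1 0 ^ 2)) (1 + y * x 0 0 * x 1 0) (by ring)

lemma Un_mul (x : SL(2, R)) (y : R) : Un x y * x = x * Tm y := by
  have h := det2 x
  apply ext2 <;> simp only [mul2, Un, Tm, mk_00, mk_01, mk_10, mk_11]
  · ring
  · linear_combination (y * x 0 0) * h
  · ring
  · linear_combination (y * x 1 0) * h

lemma Tm_add (x y : R) : Tm (x + y) = Tm x * Tm y := by
  apply ext2 <;> simp [mul2, Tm, add_comm]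

lemma Lm_add (x y : R) : Lm (x + y) = Lm x * Lm y := by
  apply ext2 <;> simp [mul2, Lm]

@[simp] lemma Tm_zero : Tm (0 : R) = 1 := by apply ext2 <;> simp [Tm]

@[simp] lemma Lm_zero : Lm (0 : R) = 1 := by apply ext2 <;> simp [Lm]

lemma tw_tw (u u' : Rˣ) (x : SL(2, R)) : tw u (tw u' x) = tw (u' * u) x := by
  apply ext2 <;> simp [tw, mul_assoc, mul_comm]

@[simp] lemma tw_one (x : SL(2, R)) : tw 1 x = x := by apply ext2 <;> simp [tw]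

lemma tw_bij (u : Rˣ) : Function.Bijective (tw u : SL(2, R) → SL(2, R)) :=
  Function.bijective_iff_has_inverse.2 ⟨tw u⁻¹, fun x => by simp [tw_tw],
    fun x => by simp [tw_tw]⟩

end

@[simp] lemma ofZ_Tm (y : ℤ) : ofZ (Tm y) = Tr y := by ext <;> simp [ofZ, Tm, Tr]

@[simp] lemma ofZ_Lm (y : ℤ) : ofZ (Lm y) = Lw y := by ext <;> simp [ofZ, Lm, Lw]

/-- the unit defined by a natural number -/
def un (n m : ℕ) : (ZMod n)ˣ := if h : m.Coprime n then ZMod.unitOfCoprime m h else 1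

lemma un_coe {n m : ℕ} (h : m.Coprime n) : (un n m : ZMod n) = m := by
  rw [un, dif_pos h, ZMod.coe_unitOfCoprime]

lemma un_mul {n m m' : ℕ} (h : m.Coprime n) (h' : m'.Coprime n) :
    un n (m * m') = un n m * un n m' := by
  ext
  rw [Units.val_mul, un_coe h, un_coe h', un_coe (h.mul_left h'), Nat.cast_mul]

/-- reduction of an integral matrix -/
def red (n : ℕ) : SZ →* G n := Matrix.SpecialLinearGroup.map (Int.castRingHom (ZMod n))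

@[simp] lemma red_apply (n : ℕ) (γ : SZ) (i j : Fin 2) :
    red n γ i j = ((γ i j : ℤ) : ZMod n) := rfl

lemma red_eq_one {n : ℕ} {γ : SZ} : red n γ = 1 ↔ γ ∈ Gamma n := Gamma_mem'.symm

lemma red_Tm (n : ℕ) (y : ℤ) : red n (Tm y) = Tm (y : ZMod n) := by apply ext2 <;> simp [Tm]

lemma red_Lm (n : ℕ) (y : ℤ) : red n (Lm y) = Lm (y : ZMod n) := by apply ext2 <;> simp [Lm]

/-- reduction to a divisor of the level -/
def rd {m n : ℕ} (h : m ∣ n) : G n →* G m :=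
  Matrix.SpecialLinearGroup.map (ZMod.castHom h (ZMod m))

/-- a unitary right action -/
structure RA (Γ W : Type) [Group Γ] [NormedAddCommGroup W] [InnerProductSpace ℂ W] where
  a : Γ → W →ₗ[ℂ] W
  one : ∀ v, a 1 v = v
  mul : ∀ g h v, a (g * h) v = a h (a g v)
  nrm : ∀ g v, ‖a g v‖ = ‖v‖

abbrev Ch (n : ℕ) : Type := AddChar (ZMod n) ℂ

/-- the order of a character -/
def od {n : ℕ} (χ : Ch n) : ℕ := orderOf (χ 1)

/-- every prime of `n` divides `X` -/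
def Full (n X : ℕ) : Prop := ∀ p : ℕ, p.Prime → p ∣ n → p ∣ X

/-- nonnegative and monotone -/
def Mon (T : ℚ → ℝ) : Prop := (∀ X, 0 ≤ T X) ∧ ∀ X Y, 0 < X → X ≤ Y → T X ≤ T Y

/-- the mean over the group -/
def mean {n : ℕ} [NeZero n] (f : G n → ℝ) : ℝ := (Fintype.card (G n) : ℝ)⁻¹ * ∑ x, f x

lemma mean_bij {n : ℕ} [NeZero n] (f : G n → ℝ) {σ : G n → G n} (h : Function.Bijective σ) :
    mean (fun x => f (σ x)) = mean f := by
  unfold mean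
  rw [h.sum_comp f]

lemma mean_mono {n : ℕ} [NeZero n] {f h : G n → ℝ} (H : ∀ x, f x ≤ h x) : mean f ≤ mean h :=
  mul_le_mul_of_nonneg_left (sum_le_sum fun x _ => H x) (by positivity)

lemma mean_const {n : ℕ} [NeZero n] (c : ℝ) : mean (fun _ : G n => c) = c := by
  have : (Fintype.card (G n) : ℝ) ≠ 0 := by exact_mod_cast Fintype.card_ne_zero
  simp only [mean, sum_const, card_univ, nsmul_eq_mul]
  field_simp

lemma mean_add {n : ℕ} [NeZero n] (f h : G n → ℝ) :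
    mean (fun x => f x + h x) = mean f + mean h := by
  simp only [mean, sum_add_distrib, mul_add]

lemma mean_mul {n : ℕ} [NeZero n] (c : ℝ) (f : G n → ℝ) :
    mean (fun x => c * f x) = c * mean f := by
  simp only [mean, ← mul_sum]
  ring

lemma mean_sum {n : ℕ} [NeZero n] {ι : Type} (s : Finset ι) (f : ι → G n → ℝ) :
    mean (fun x => ∑ i ∈ s, f i x) = ∑ i ∈ s, mean (f i) := by
  simp only [mean, ← mul_sum]
  rw [sum_comm]

namespace RA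

variable {n : ℕ} [NeZero n] {W : Type} [NormedAddCommGroup W] [InnerProductSpace ℂ W]
  (ρ : RA (G n) W)

/-- the component of `w` along the character `χ` of the translations -/
def Pj (χ : Ch n) (w : W) : W := (n : ℂ)⁻¹ • ∑ x : ZMod n, χ (-x) • ρ.a (Tm x) w

/-- the mean over the translations by multiples of `d` -/
def AT (d : ℕ) (w : W) : W := (n : ℂ)⁻¹ • ∑ x : ZMod n, ρ.a (Tm ((d : ZMod n) * x)) w

/-- the mean over the lower unipotents by multiples of `d` -/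
def AL (d : ℕ) (w : W) : W := (n : ℂ)⁻¹ • ∑ x : ZMod n, ρ.a (Lm ((d : ZMod n) * x)) w

/-- the weighted energy of the components of full order -/
def E (T : ℚ → ℝ) (v : W) : ℝ := mean fun x => ∑ χ : Ch n with Full n (od χ),
  T (od χ) / od χ * ‖ρ.Pj χ (ρ.a x v)‖ ^ 2

/-- a new vector for the root `(r, r')` -/
structure Hyp (r r' : ℕ) (v : W) : Prop where
  fix : ∀ x : G n, (r : ZMod n) ∣ x 0 1 → (r' : ZMod n) ∣ x 1 0 → ρ.a x v = v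
  nT : ∀ p : ℕ, p.Prime → p ∣ n → ρ.AT (r / p) v = 0
  nL : ∀ p : ℕ, p.Prime → p ∣ n → ρ.AL (r' / p) v = 0

/-- `Pj` as a linear map -/
def PjL (χ : Ch n) : W →ₗ[ℂ] W := (n : ℂ)⁻¹ • ∑ x : ZMod n, χ (-x) • ρ.a (Tm x)

lemma PjL_apply (χ : Ch n) (w : W) : ρ.PjL χ w = ρ.Pj χ w := by
  simp [PjL, Pj, LinearMap.sum_apply]

/-- `AT` as a linear map -/
def ATL (d : ℕ) : W →ₗ[ℂ] W := (n : ℂ)⁻¹ • ∑ x : ZMod n, ρ.a (Tm ((d : ZMod n) * x))

lemma ATL_apply (d : ℕ) (w : W) : ρ.ATL d w = ρ.AT d w := by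
  simp [ATL, AT, LinearMap.sum_apply]

/-- the mean over the translations, seen from `v` -/
lemma AT_conj (d : ℕ) (x : G n) (v : W) : ρ.AT d (ρ.a x v) =
    ρ.a x ((n : ℂ)⁻¹ • ∑ y : ZMod n, ρ.a (Un x ((d : ZMod n) * y)) v) := by
  simp only [AT, map_smul, map_sum, ← ρ.mul, Un_mul]

lemma AT_of_fix {d : ℕ} {w : W} (h : ∀ y, ρ.a (Tm ((d : ZMod n) * y)) w = w) : ρ.AT d w = w := by
  have : (n : ℂ) ≠ 0 := by exact_mod_cast NeZero.ne n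
  simp only [AT, h, sum_const, card_univ, ZMod.card, ← Nat.cast_smul_eq_nsmul ℂ, smul_smul]
  rw [inv_mul_cancel₀ this, one_smul]

/-- a linear map commuting with the action preserves new vectors -/
lemma Hyp.map {ρ : RA (G n) W} {r r' : ℕ} {v : W} (h : ρ.Hyp r r' v) (φ : W →ₗ[ℂ] W)
    (hφ : ∀ x w, φ (ρ.a x w) = ρ.a x (φ w)) : ρ.Hyp r r' (φ v) := by
  refine ⟨fun x h1 h2 => by rw [← hφ, h.fix x h1 h2], fun p hp hn => ?_, fun p hp hn => ?_⟩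
  · have := congrArg φ (h.nT p hp hn)
    simpa only [AT, map_smul, map_sum, hφ, map_zero] using this
  · have := congrArg φ (h.nL p hp hn)
    simpa only [AL, map_smul, map_sum, hφ, map_zero] using this

/-- some translate by a matrix with unit first column has a component whose order satisfies `P` -/
def Hit (P : ℕ → Prop) (v : W) : Prop := ∃ (x : G n) (χ : Ch n), IsUnit (x 0 0) ∧
  IsUnit (x 1 0) ∧ P (od χ) ∧ ρ.Pj χ (ρ.a x v) ≠ 0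

/-- the substitute at the root `(4, 4)` of the prime `2` -/
def Ey (D : ℕ → ℕ) (v : W) : Prop := ∃ (x : G n) (z : W) (ε : ℕ), IsUnit (x 0 0) ∧
  IsUnit (x 1 0) ∧ z ≠ 0 ∧ Odd ε ∧ ρ.a (Lm (2 * (ε : ZMod n))) z = -z ∧
  ∀ χ : Ch n, ρ.Pj χ z = 0 ∨ (ρ.Pj χ z = ρ.Pj χ (ρ.a x v) ∧ ∀ p : ℕ, p.Prime → p ∣ n → p ≠ 2 →
    p ∣ od χ ∧ n.factorization p ≤ (od χ).factorization p + D p)

end RA

/-- a statement on all actions of level `n` -/
def AllR (n : ℕ) [NeZero n]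
    (P : ∀ (W : Type) [NormedAddCommGroup W] [InnerProductSpace ℂ W], RA (G n) W → Prop) : Prop :=
  ∀ (W : Type) [NormedAddCommGroup W] [InnerProductSpace ℂ W] (ρ : RA (G n) W), P W ρ

/-- the options `os` bound the energy from below -/
def Gd (n r r' : ℕ) [NeZero n] (os : List (List (ℚ × ℚ))) : Prop := AllR n fun _ _ _ ρ =>
  ∀ v T, Mon T → ρ.Hyp r r' v → En T os 1 * ‖v‖ ^ 2 ≤ ρ.E T v

/-- every new vector has a translate with a component whose order satisfies `P` -/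
def ExU (n r r' : ℕ) [NeZero n] (P : ℕ → Prop) : Prop := AllR n fun _ _ _ ρ =>
  ∀ v, ρ.Hyp r r' v → v ≠ 0 → ρ.Hit P v

/-- numerical data of a root -/
structure Rt (n r r' : ℕ) : Prop where
  dr : r ∣ n
  dr' : r' ∣ n
  fr : Full n r
  fr' : Full n r'

/-- a root at which the level is the least common multiple -/
structure RtL (n r r' : ℕ) : Prop extends Rt n r r' where
  lcm : n = Nat.lcm r r'

/-- the order `X` drops by at most `D` -/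
def Rc (D : ℕ → ℕ) (n X : ℕ) : Prop :=
  X ∣ n ∧ ∀ p : ℕ, p.Prime → n.factorization p ≤ X.factorization p + D p

/-- `D` allows the drops at the middle roots -/
def Allow (D : ℕ → ℕ) (n r r' : ℕ) : Prop := ∀ p : ℕ, p.Prime → p ∣ n →
  r.factorization p = r'.factorization p → sm p (2 * r.factorization p) ≤ D p

/-- basic facts on components -/
structure Kit0 {n : ℕ} [NeZero n] {W : Type} [NormedAddCommGroup W] [InnerProductSpace ℂ W]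
    (ρ : RA (G n) W) : Prop where
  inn : ∀ x v w, ⟪ρ.a x v, ρ.a x w⟫_ℂ = ⟪v, w⟫_ℂ
  od_dvd : ∀ χ : Ch n, od χ ∣ n
  Pj_T : ∀ χ y w, ρ.a (Tm y) (ρ.Pj χ w) = χ y • ρ.Pj χ w
  Pj_Pj : ∀ χ χ' w, ρ.Pj χ (ρ.Pj χ' w) = if χ = χ' then ρ.Pj χ w else 0
  nrm_sum : ∀ (s : Finset (Ch n)) w, ‖∑ χ ∈ s, ρ.Pj χ w‖ ^ 2 = ∑ χ ∈ s, ‖ρ.Pj χ w‖ ^ 2
  AT_sum : ∀ d w, ρ.AT d w = ∑ χ : Ch n with od χ ∣ d, ρ.Pj χ w
  AT_top : ∀ w, ρ.AT n w = w
  AT_fix : ∀ (d : ℕ) y w, ρ.a (Tm ((d : ZMod n) * y)) (ρ.AT d w) = ρ.AT d w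
  AT_AT : ∀ d d' w, d ∣ d' → ρ.AT d (ρ.AT d' w) = ρ.AT d w
  AT_inn : ∀ d v w, ⟪ρ.AT d v, w⟫_ℂ = ⟪v, ρ.AT d w⟫_ℂ
  AT_pyth : ∀ d w, ‖w - ρ.AT d w‖ ^ 2 = ‖w‖ ^ 2 - ‖ρ.AT d w‖ ^ 2
  AT_le : ∀ d w, ‖ρ.AT d w‖ ≤ ‖w‖
  AT_mono : ∀ d d' w, d ∣ d' → ‖ρ.AT d w‖ ≤ ‖ρ.AT d' w‖
  ex : ∀ d w, ρ.AT d w ≠ w → ∃ χ, ρ.Pj χ w ≠ 0 ∧ ¬od χ ∣ d

/-- with the energy at prime power level -/
structure Kit {n : ℕ} [NeZero n] {W : Type} [NormedAddCommGroup W] [InnerProductSpace ℂ W]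
    (ρ : RA (G n) W) : Prop extends Kit0 ρ where
  loc : ∀ p e : ℕ, p.Prime → n = p ^ e → 1 ≤ e → ∀ T v, ρ.E T v = mean fun x =>
    ∑ j ∈ range e, T ((p : ℚ) ^ (j + 1)) / (p : ℝ) ^ (j + 1) *
      (‖ρ.AT (p ^ (j + 1)) (ρ.a x v)‖ ^ 2 - ‖ρ.AT (p ^ j) (ρ.a x v)‖ ^ 2)

/-- an action of level `n₁ n₂` as a pair of commuting actions -/
structure Sp {n₁ n₂ n : ℕ} [NeZero n₁] [NeZero n₂] [NeZero n] {W : Type} [NormedAddCommGroup W]
    [InnerProductSpace ℂ W] (ρ : RA (G n) W) (ρ₁ : RA (G n₁) W) (ρ₂ : RA (G n₂) W)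
    (j : G n₁ → G n₂ → G n) (κ : Ch n₁ → Ch n₂ → Ch n) : Prop where
  jb : Function.Bijective fun y : G n₁ × G n₂ => j y.1 y.2
  kb : Function.Bijective fun y : Ch n₁ × Ch n₂ => κ y.1 y.2
  act : ∀ x y w, ρ.a (j x y) w = ρ₂.a y (ρ₁.a x w)
  comm : ∀ x y w, ρ₁.a x (ρ₂.a y w) = ρ₂.a y (ρ₁.a x w)
  pj : ∀ χ ψ w, ρ.Pj (κ χ ψ) w = ρ₁.Pj χ (ρ₂.Pj ψ w)
  od : ∀ χ ψ, od (κ χ ψ) = od χ * od ψ
  unit : ∀ x y i, IsUnit (x i 0) → IsUnit (y i 0) → IsUnit (j x y i 0)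
  low : ∀ y : ℕ, n₂ ∣ y → j (Lm (y : ZMod n₁)) 1 = Lm (y : ZMod n)
  hyp : ∀ r₁ r₁' r₂ r₂' v, Rt n₁ r₁ r₁' → Rt n₂ r₂ r₂' → ρ.Hyp (r₁ * r₂) (r₁' * r₂') v →
    ρ₁.Hyp r₁ r₁' v ∧ ρ₂.Hyp r₂ r₂' v

/-! ### The bridge -/

/-- the type of a cusp -/
def gN (N : ℕ) (γ : SZ) : ℕ := Int.gcd (γ 1 0) N

/-- the width of a cusp of Atkin-Lehner type -/
def Qw (N : ℕ) (γ : SZ) : ℕ := N / gN N γ

/-- the cusp is of Atkin-Lehner type -/
def OkW (N : ℕ) (γ : SZ) : Prop := (gN N γ).Coprime (Qw N γ)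

/-- the exponents used in the horoball bound -/
def Phi (L n₀ : ℕ) : Finset ℚ := (range n₀ ×ˢ L.divisors).image fun y => (y.1 : ℚ) / y.2

section

variable {V : Type} [NormedAddCommGroup V] [InnerProductSpace ℂ V] (C : CS V)

/-- change of cusp -/
def CC : Prop := ∀ (α : Mt) (γ : SZ) (l : ℚ) (f : V) (ν : ℚ), 0 < α.det → 0 < l →
  α.a = l * γ 0 0 → α.c = l * γ 1 0 →
  ‖C.β (ν * (l ^ 2 / α.det)) (C.act α f)‖ = (l ^ 2 / α.det : ℚ) * ‖C.β ν (C.act (ofZ γ) f)‖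

/-- the support at a cusp depends only on the type -/
def Ty (N : ℕ) (g : V) : Prop := ∀ (γ γ' : SZ) (ν : ℚ), gN N γ = gN N γ' →
  C.β ν (C.act (ofZ γ) g) ≠ 0 → C.β ν (C.act (ofZ γ') g) ≠ 0

/-- Atkin-Lehner operators for all unitary divisors -/
def WQ (N : ℕ) (g : V) : Prop := ∀ Q N' : ℕ, N = Q * N' → Q.Coprime N' → ∃ w : ℤ,
  (w = 1 ∨ w = -1) ∧ ∀ γ ∈ Gamma0 N', (Q : ℤ) ∣ γ 1 1 →
    C.act (ofZ γ) g = (w : ℂ) • C.act (Vd (1 / Q)) g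

/-- the upper bound for the orders at the cusp `γ` -/
def Up (N : ℕ) (g : V) (D : ℕ → ℕ) (γ : SZ) : Prop := ∃ ν : ℚ, C.β ν (C.act (ofZ γ) g) ≠ 0 ∧
  ∀ p : ℕ, p.Prime → padicValRat p ν ≤
    min 0 (2 * ((gN N γ).factorization p : ℤ) - N.factorization p) + D p

/-- the drop allowed at the cusp `γ` -/
def Dr (N : ℕ) (s : ℕ → ℕ) (γ : SZ) (p : ℕ) : ℕ :=
  if 2 ≤ N.factorization p ∧ 2 * (gN N γ).factorization p = N.factorization p then s p else 0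

variable {n : ℕ} [NeZero n] {W : Type} [NormedAddCommGroup W] [InnerProductSpace ℂ W]

/-- the forms fixed by `Γ₀(N₁) ∩ Γ(n)` as an action of `SL(2, ZMod n)` -/
structure Br0 (N₁ : ℕ) (ρ : RA (G n) W) (ι : W →ₗᵢ[ℂ] V) : Prop where
  act : ∀ γ ∈ Gamma0 N₁, ∀ w, ι (ρ.a (red n γ) w) = C.act (ofZ γ) (ι w)
  sur : ∀ x : G n, ∀ K : ℕ, K.Coprime n → ∃ γ ∈ Gamma K, red n γ = x
  onto : ∀ f, (∀ γ ∈ Gamma0 N₁, γ ∈ Gamma n → C.act (ofZ γ) f = f) → ∃ w, ι w = f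

/-- the components and the coefficients -/
structure Br (N₁ : ℕ) (ρ : RA (G n) W) (ι : W →ₗᵢ[ℂ] V) : Prop extends Br0 C N₁ ρ ι where
  pj : ∀ χ w ν, C.β ν (ι (ρ.Pj χ w)) = if χ 1 = ee ν then C.β ν (ι w) else 0
  den : ∀ w ν, C.β ν (ι w) ≠ 0 → ν.den ∣ n
  ch : ∀ ν : ℚ, ν.den ∣ n → ∃ χ : Ch n, χ 1 = ee ν
  od : ∀ (χ : Ch n) (ν : ℚ), χ 1 = ee ν → od χ = ν.den

/-- a newform seen from a root, without the local hypothesis -/
structure Sit0 (N : ℕ) (g : V) (b : ℕ → ℤ) (N₁ r r' : ℕ) (ρ : RA (G n) W) (ι : W →ₗᵢ[ℂ] V) :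
    Prop where
  good : C.Good
  cc : CC C
  nf : NF C N g b
  eq : N = N₁ * (r * r')
  cop : N₁.Coprime n
  rt : RtL n r r'
  br : Br C N₁ ρ ι
  kit : Kit ρ

/-- a newform seen from a root -/
structure Sit (N : ℕ) (g : V) (b : ℕ → ℤ) (N₁ r r' : ℕ) (ρ : RA (G n) W) (ι : W →ₗᵢ[ℂ] V)
    (v : W) : Prop extends Sit0 C N g b N₁ r r' ρ ι where
  val : ι v = C.act (Vd (1 / r)) g
  hyp : ρ.Hyp r r' v

/-- the Hecke relation at all cusps -/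
def HK (N : ℕ) (b : ℕ → ℤ) (ρ : RA (G n) W) (ι : W →ₗᵢ[ℂ] V) (v : W) : Prop :=
  ∀ (q : ℕ) (x : G n) (ν : ℚ), q.Prime → q.Coprime n → ν.den ∣ n →
    C.β (q * ν) (ι (ρ.a x v)) = b q * C.β ν (ι (ρ.a (tw (un n q) x) v)) -
      (if q ∣ N then 0 else (q : ℂ)) * C.β (ν / q) (ι (ρ.a (tw (un n q) (tw (un n q) x)) v))

/-- multiplicativity of the coefficients at all cusps -/
def Mult (b : ℕ → ℤ) (ρ : RA (G n) W) (ι : W →ₗᵢ[ℂ] V) (v : W) : Prop :=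
  ∀ (x : G n) (m X : ℕ), m.Coprime n → X ∣ n →
    C.β (m / X) (ι (ρ.a x v)) = b m * C.β (1 / X) (ι (ρ.a (tw (un n m) x) v))

/-- reduction of the cusps of Atkin-Lehner type -/
def Wr (N₁ : ℕ) (ρ : RA (G n) W) (ι : W →ₗᵢ[ℂ] V) (v : W) : Prop :=
  ∀ (γ : SZ) (ν : ℚ), OkW N₁ γ → ‖C.β ν (C.act (ofZ γ) (ι v))‖ = (Qw N₁ γ : ℝ)⁻¹ *
    ‖C.β (Qw N₁ γ * ν) (ι (ρ.a (tw (un n (Qw N₁ γ))⁻¹ (red n γ)) v))‖

/-- a nonzero coefficient with numerator prime to the level -/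
def HitB (D : ℕ → ℕ) (ρ : RA (G n) W) (ι : W →ₗᵢ[ℂ] V) (v : W) : Prop :=
  ∃ (x : G n) (m X : ℕ), IsUnit (x 0 0) ∧ IsUnit (x 1 0) ∧ m.Coprime n ∧ Rc D n X ∧
    C.β (m / X) (ι (ρ.a x v)) ≠ 0

/-- the square of the first coefficient -/
def cf (ρ : RA (G n) W) (ι : W →ₗᵢ[ℂ] V) (v : W) (X : ℕ) (x : G n) : ℝ :=
  ‖C.β (1 / X) (ι (ρ.a x v))‖ ^ 2

/-- the energy in terms of the first coefficients -/
def GU (g : V) (ρ : RA (G n) W) (ι : W →ₗᵢ[ℂ] V) (v : W) : Prop :=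
  ∀ T : ℚ → ℝ, (∀ X, 0 ≤ T X) → ρ.E T v ≤
    ‖g‖ ^ 2 * ∑ X ∈ n.divisors with Full n X, X * T X * mean (cf C ρ ι v X)

/-- the horoball sum at a cusp -/
def Hf (b : ℕ → ℤ) (n₀ N₁ : ℕ) (ρ : RA (G n) W) (ι : W →ₗᵢ[ℂ] V) (v : W) (γ : SZ) (y : G n) :
    ℝ :=
  if OkW N₁ γ then ∑ X ∈ n.divisors with Full n X, ∑ m ∈ range n₀,
    (b m : ℝ) ^ 2 / m * Real.exp (-(4 * Real.pi * m / (Qw N₁ γ * X))) * (X / Qw N₁ γ) *
      cf C ρ ι v X (tw (un n m) (tw (un n (Qw N₁ γ))⁻¹ y))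
  else 0

/-- the pointwise bound -/
def HZ (b : ℕ → ℤ) (N₁ : ℕ) (ρ : RA (G n) W) (ι : W →ₗᵢ[ℂ] V) (v : W) : Prop :=
  ∀ (n₀ : ℕ) (γ : SZ), Hf C b n₀ N₁ ρ ι v γ (red n γ) ≤ ∑ ν ∈ Phi (N₁ * n) n₀,
    ‖C.β ν (C.act (ofZ γ) (ι v))‖ ^ 2 * Real.exp (-(4 * Real.pi * ν)) / ν

end

/-- the Atkin-Lehner options compute the average over the cusps of Atkin-Lehner type -/
def PQ (N₁ : ℕ) (os : List (List (ℚ × ℚ))) : Prop := ∀ T : ℚ → ℝ,
  Av ⊤ N₁ (fun γ => if OkW N₁ γ then T (Qw N₁ γ) / Qw N₁ γ else 0) = En T os 1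

/-- a statement on every newform seen from a root, without the vector -/
def ForS0 (P : ∀ (V : Type) [NormedAddCommGroup V] [InnerProductSpace ℂ V] (_ : CS V) (_ : ℕ)
    (_ : V) (_ : ℕ → ℤ) (_ _ _ n : ℕ) [NeZero n] (W : Type) [NormedAddCommGroup W]
    [InnerProductSpace ℂ W], RA (G n) W → (W →ₗᵢ[ℂ] V) → Prop) : Prop :=
  ∀ (V : Type) [NormedAddCommGroup V] [InnerProductSpace ℂ V] (C : CS V) (N : ℕ) (g : V)
    (b : ℕ → ℤ) (N₁ r r' n : ℕ) [NeZero n] (W : Type) [NormedAddCommGroup W]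
    [InnerProductSpace ℂ W] (ρ : RA (G n) W) (ι : W →ₗᵢ[ℂ] V),
    Sit0 C N g b N₁ r r' ρ ι → P V C N g b N₁ r r' n W ρ ι

/-- a statement on every newform seen from a root -/
def ForS (P : ∀ (V : Type) [NormedAddCommGroup V] [InnerProductSpace ℂ V] (_ : CS V) (_ : ℕ)
    (_ : V) (_ : ℕ → ℤ) (_ _ _ n : ℕ) [NeZero n] (W : Type) [NormedAddCommGroup W]
    [InnerProductSpace ℂ W], RA (G n) W → (W →ₗᵢ[ℂ] V) → W → Prop) : Prop :=
  ∀ (V : Type) [NormedAddCommGroup V] [InnerProductSpace ℂ V] (C : CS V) (N : ℕ) (g : V)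
    (b : ℕ → ℤ) (N₁ r r' n : ℕ) [NeZero n] (W : Type) [NormedAddCommGroup W]
    [InnerProductSpace ℂ W] (ρ : RA (G n) W) (ι : W →ₗᵢ[ℂ] V) (v : W),
    Sit C N g b N₁ r r' ρ ι v → P V C N g b N₁ r r' n W ρ ι v

end

end Pool.Agent.MP_b2c033_nt.UL
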