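import Pool.Agent.MP_b2c033_nt.UL.Spec

/-! A component of nearly full order at every level. -/

namespace Pool.Agent.MP_b2c033_nt.UL

open U Finset

theorem row_ExAll : R_ExAll := by
  intro hK hS hL hT D n
  induction n using Nat.strong_induction_on with
  | _ n ih =>
  intro r r' _ hR hA hn
  have n0 : n ≠ 0 := NeZero.ne n
  by_cases h1 : n = 1
  · subst h1
    intro W _ _ ρ v _ h0
    have K := hK 1 W ρ
    have : Subsingleton (ZMod 1) := inferInstanceAs (Subsingleton (Fin 1))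
    have e := K.AT_top v
    rw [K.AT_sum] at e
    obtain ⟨χ, -, h⟩ := exists_ne_zero_of_sum_ne_zero (e.trans_ne h0)
    exact ⟨1, χ, isUnit_of_subsingleton _, isUnit_of_subsingleton _,
      ⟨fun p hp h => absurd h hp.not_dvd_one, K.od_dvd χ, fun p _ => by simp⟩, by rwa [ρ.one]⟩
  have hp := Nat.minFac_prime h1
  have hd := Nat.minFac_dvd n
  generalize n.minFac = p at hp hd
  obtain ⟨i, i', m, s, s', i1, i2, e1, e2, e3, e4, e5, hm, R1, R2, hq⟩ :=
    hS n r r' p (Nat.pos_of_ne_zero n0) hR hp hd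
  have m0 : m ≠ 0 := fun h => hm (h ▸ dvd_zero p)
  have : NeZero m := ⟨m0⟩
  have : NeZero (p ^ max i i') := ⟨pow_ne_zero _ hp.ne_zero⟩
  have lt : m < n := by
    rw [e3]
    exact lt_mul_left (Nat.pos_of_ne_zero m0) (Nat.one_lt_pow (by omega) hp.one_lt)
  have mn : m ∣ n := e3 ▸ dvd_mul_left _ _
  have H := hT _ m n _ _ s s' _ _ e3 (((Nat.Prime.coprime_iff_not_dvd hp).2 hm).pow_left _) R1
    R2.toRt (hL p i i' _ hp i1 i2 rfl fun h => hn
      ⟨(congrArg _ h.1).symm.trans (e1.symm.trans h.2.1),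
        (congrArg _ h.1).symm.trans (e2.symm.trans h.2.2)⟩)
    (ih m lt s s' R2 (fun q h1 h2 h3 => by
      obtain ⟨-, a, b⟩ := hq q fun e => hm (e ▸ h2)
      rw [a, b] at h3
      rw [a]
      exact hA q h1 (h2.trans mn) h3) fun h => by
      by_cases h2 : 2 = p
      · rw [h2, Nat.factorization_eq_zero_of_not_dvd fun h3 => hm (h3.trans R2.dr)] at h
        exact hp.ne_zero h.1.symm
      · obtain ⟨-, a, b⟩ := hq 2 h2
        exact hn (a ▸ b ▸ h))
  intro W _ _ ρ v hv h0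
  obtain ⟨x, χ, u1, u2, ⟨_, X, ⟨j, rfl, j1, j2, j3⟩, ⟨f2, c1, c2⟩, e⟩, hne⟩ :=
    H W ρ v (e4 ▸ e5 ▸ hv) h0
  refine ⟨x, χ, u1, u2, ?_, hne⟩
  have X0 : X ≠ 0 := ne_zero_of_dvd_ne_zero m0 c1
  rw [e]
  refine ⟨fun q h1 h2 => ?_, e3 ▸ mul_dvd_mul (pow_dvd_pow p j2) c1, fun q h1 => ?_⟩
  · rw [e3] at h2
    rcases (Nat.Prime.dvd_mul h1).1 h2 with h | h
    · exact ((h1.dvd_of_dvd_pow h).trans (dvd_pow_self p (by omega))).mul_right _
    · exact (f2 q h1 h).mul_left _
  rw [Nat.factorization_mul (pow_ne_zero _ hp.ne_zero) X0, Finsupp.add_apply]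
  by_cases h2 : q = p
  · subst h2
    have a : n.factorization q = max i i' := by
      rw [e3, Nat.factorization_mul (pow_ne_zero _ hp.ne_zero) m0, Finsupp.add_apply,
        Nat.factorization_eq_zero_of_not_dvd hm, hp.factorization_pow, Finsupp.single_eq_same,
        add_zero]
    rw [a, hp.factorization_pow, Finsupp.single_eq_same]
    split_ifs at j3 with h3
    · have := hA q hp hd (by rw [← e1, ← e2, h3])
      rw [← e1] at this
      omega
    · omega
  · have := c2 q h1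
    rw [(hq q h2).1] at this
    omega

end Pool.Agent.MP_b2c033_nt.UL
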