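import Pool.Agent.MP_b2c033_nt.UL.Spec

/-! The second step of the tower at a middle root of the prime three. -/

namespace Pool.Agent.MP_b2c033_nt.UL

open U Finset
open scoped MatrixGroups Classical InnerProductSpace

noncomputable section

namespace L4Aux

section

variable {R : Type} [CommRing R] {g : R}

/-- a diagonal matrix near the identity -/
def Dg (h : 9 * g = 0) (s : R) : SL(2, R) :=
  mk (1 + 3 * g * s) 0 0 (1 - 3 * g * s) (by linear_combination (-(g * s ^ 2)) * h)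

lemma Un_add (x : SL(2, R)) (y z : R) : Un x (y + z) = Un x y * Un x z := by
  apply ext2 <;> simp only [mul2, Un, mk_00, mk_01, mk_10, mk_11] <;> ring

lemma comm_D (h : 9 * g = 0) (x : SL(2, R)) (y s : R) :
    Un x (3 * g * y) * Dg h s = Dg h s * Un x (3 * g * y) := by
  apply ext2 <;> simp only [mul2, Un, Dg, mk_00, mk_01, mk_10, mk_11]
  · ring
  · linear_combination (-(2 * g * s * y * x 0 0 ^ 2)) * h
  · linear_combination (-(2 * g * s * y * x 1 0 ^ 2)) * h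
  · ring

lemma comm_T (h : 9 * g = 0) (x : SL(2, R)) (y z : R) :
    Un x (3 * g * y) * Tm (3 * g * z) = Tm (3 * g * z) * Un x (3 * g * y) := by
  apply ext2 <;> simp only [mul2, Un, Tm, mk_00, mk_01, mk_10, mk_11]
  · linear_combination (g * y * z * x 1 0 ^ 2) * h
  · linear_combination (-(2 * g * y * z * x 0 0 * x 1 0)) * h
  · ring
  · linear_combination (-(g * y * z * x 1 0 ^ 2)) * h

lemma same (h : 9 * g = 0) (x : SL(2, R)) (i y : R) :
    Un (Tm (3 * i) * x) (3 * g * y) = Un x (3 * g * y) := by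
  apply ext2 <;> simp only [mul2, Un, Tm, mk_00, mk_01, mk_10, mk_11]
  · linear_combination (-(i * y * x 1 0 ^ 2)) * h
  · linear_combination (2 * i * y * x 0 0 * x 1 0 + 3 * i ^ 2 * y * x 1 0 ^ 2) * h
  · ring
  · linear_combination (i * y * x 1 0 ^ 2) * h

lemma key (h : 9 * g = 0) (x : SL(2, R)) (i y : R) :
    Un (Tm (3 * i) * x) (g * y) = Dg h (-(i * y * x 1 0 ^ 2)) *
      Un x (3 * g * (-(i * y * (g * y) * x 1 0 ^ 2))) *
      Tm (3 * g * (i * (2 * x 0 0 * x 1 0 * y))) * Un x (g * y) := by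
  apply ext2 <;> simp only [mul2, Un, Tm, Dg, mk_00, mk_01, mk_10, mk_11] <;>
    generalize x 0 0 = a <;> generalize x 1 0 = c
  · linear_combination ((-1) * g ^ 2 * i ^ 2 * y ^ 3 * a * c ^ 5 +
      2 * g ^ 3 * i ^ 2 * y ^ 4 * a ^ 2 * c ^ 6 + (-6) * g ^ 4 * i ^ 3 * y ^ 5 * a ^ 2 * c ^ 8) * h
  · linear_combination (i ^ 2 * y * c ^ 2 + 2 * g * i ^ 2 * y ^ 2 * a * c ^ 3 +
      (-1) * g ^ 2 * i ^ 2 * y ^ 3 * a ^ 2 * c ^ 4 + (-2) * g ^ 3 * i ^ 2 * y ^ 4 * a ^ 3 * c ^ 5 +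
      6 * g ^ 3 * i ^ 3 * y ^ 4 * a ^ 2 * c ^ 6 + 6 * g ^ 4 * i ^ 3 * y ^ 5 * a ^ 3 * c ^ 7) * h
  · linear_combination ((-1) * g ^ 2 * i ^ 2 * y ^ 3 * c ^ 6 +
      2 * g ^ 3 * i ^ 2 * y ^ 4 * a * c ^ 7 + 6 * g ^ 4 * i ^ 3 * y ^ 5 * a * c ^ 9) * h
  · linear_combination ((-1) * g ^ 2 * i ^ 2 * y ^ 3 * a * c ^ 5 +
      (-2) * g ^ 3 * i ^ 2 * y ^ 4 * a ^ 2 * c ^ 6 + (-6) * g ^ 3 * i ^ 3 * y ^ 4 * a * c ^ 7 +
      (-6) * g ^ 4 * i ^ 3 * y ^ 5 * a ^ 2 * c ^ 8) * h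

end

lemma card_nonunit (k n : ℕ) [NeZero n] (hn : n = 3 ^ (k + 1)) :
    3 * (univ.filter fun y : ZMod n => ¬IsUnit y).card ≤ n := by
  have h : (univ.filter fun y : ZMod n => ¬IsUnit y) ⊆
      (range (3 ^ k)).image fun m : ℕ => ((3 * m : ℕ) : ZMod n) := by
    intro y hy
    have h1 := (mem_filter.1 hy).2
    rw [← ZMod.natCast_zmod_val y, ZMod.isUnit_iff_coprime] at h1
    have h2 : 3 ∣ y.val := by
      by_contra h3
      refine h1 ?_
      have h4 := Nat.Coprime.pow_right (k + 1)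
        ((Nat.Prime.coprime_iff_not_dvd Nat.prime_three).2 h3).symm
      rwa [← hn] at h4
    obtain ⟨m, hm⟩ := h2
    have h5 := ZMod.val_lt y
    refine mem_image.2 ⟨m, mem_range.2 ?_, by rw [← hm, ZMod.natCast_zmod_val]⟩
    have h6 : n = 3 * 3 ^ k := by rw [hn, pow_succ']
    omega
  have h7 := (card_le_card h).trans card_image_le
  rw [card_range] at h7
  have h6 : n = 3 * 3 ^ k := by rw [hn, pow_succ']
  omega

variable {n : ℕ} [NeZero n] {W : Type} [NormedAddCommGroup W] [InnerProductSpace ℂ W]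
  (ρ : RA (G n) W)

/-- the mean over the conjugate translations -/
def mn (x : G n) (e : ZMod n) (w : W) : W := (n : ℂ)⁻¹ • ∑ y : ZMod n, ρ.a (Un x (e * y)) w

lemma mn_comm (x : G n) (e : ZMod n) (w : W) (h : G n)
    (H : ∀ y, Un x (e * y) * h = h * Un x (e * y)) : ρ.a h (mn ρ x e w) = mn ρ x e (ρ.a h w) := by
  simp only [mn, map_smul, map_sum, ← ρ.mul, H]

lemma mn_fix (x : G n) (e s : ZMod n) (w : W) :
    ρ.a (Un x (e * s)) (mn ρ x e w) = mn ρ x e w := by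
  simp only [mn, map_smul, map_sum, ← ρ.mul, ← Un_add, ← mul_add]
  congr 1
  exact Equiv.sum_comp (Equiv.addRight s) fun y => ρ.a (Un x (e * y)) w

lemma AT_mn {g : ZMod n} (h : 9 * g = 0) {d : ℕ} (hd : (d : ZMod n) = 3 * g) (x : G n) (w : W)
    (h0 : ρ.AT d w = 0) : ρ.AT d (mn ρ x (3 * g) w) = 0 := by
  have h1 : ∀ y, ρ.AT d (ρ.a (Un x (3 * g * y)) w) = 0 := fun y => by
    have h2 : ρ.AT d (ρ.a (Un x (3 * g * y)) w) = ρ.a (Un x (3 * g * y)) (ρ.AT d w) := by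
      simp only [RA.AT, map_smul, map_sum, ← ρ.mul, hd, comm_T h]
    rw [h2, h0, map_zero]
  rw [mn, ← RA.ATL_apply, map_smul, map_sum]
  simp only [RA.ATL_apply, h1, sum_const_zero, smul_zero]

lemma three {g : ZMod n} (h : 9 * g = 0) {d : ℕ} (hd : (d : ZMod n) = 3 * g) {u : ZMod n}
    (hu : IsUnit u) {w : W} (h0 : ρ.AT d w = 0) :
    ∑ i ∈ range 3, ρ.a (Tm (3 * g * ((i : ZMod n) * u))) w = 0 := by
  set S := ∑ i ∈ range 3, ρ.a (Tm (3 * g * ((i : ZMod n) * u))) w with hS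
  have h1 : ρ.a (Tm (3 * g * u)) S = S := by
    have e0 : 3 * g * (((0 : ℕ) : ZMod n) * u) + 3 * g * u = 3 * g * (((1 : ℕ) : ZMod n) * u) := by
      push_cast; ring
    have e1 : 3 * g * (((1 : ℕ) : ZMod n) * u) + 3 * g * u = 3 * g * (((2 : ℕ) : ZMod n) * u) := by
      push_cast; ring
    have e2 : 3 * g * (((2 : ℕ) : ZMod n) * u) + 3 * g * u = 3 * g * (((0 : ℕ) : ZMod n) * u) := by
      push_cast; linear_combination u * h
    simp only [hS, sum_range_succ, sum_range_zero, zero_add, map_add, ← ρ.mul, ← Tm_add, e0, e1,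
      e2]
    abel
  have h2 : ∀ m : ℕ, ρ.a (Tm (m * (3 * g * u))) S = S := fun m => by
    induction m with
    | zero => simp [ρ.one]
    | succ m ih => rw [Nat.cast_succ, add_mul, one_mul, Tm_add, ρ.mul, ih, h1]
  have h3 : ρ.AT d S = S := ρ.AT_of_fix fun y => by
    obtain ⟨u', hu'⟩ := hu.exists_right_inv
    have h4 : (d : ZMod n) * y = ((u' * y).val : ZMod n) * (3 * g * u) := by
      rw [ZMod.natCast_zmod_val, hd]
      linear_combination (-(3 * g * y)) * hu'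
    rw [h4, h2]
  have h5 : ∀ z, ρ.AT d (ρ.a (Tm z) w) = 0 := fun z => by
    have h6 : ρ.AT d (ρ.a (Tm z) w) = ρ.a (Tm z) (ρ.AT d w) := by
      simp only [RA.AT, map_smul, map_sum, ← ρ.mul, ← Tm_add, add_comm]
    rw [h6, h0, map_zero]
  rw [← h3, hS, ← RA.ATL_apply, map_sum]
  simp only [RA.ATL_apply, h5, sum_const_zero]

lemma sq_AT (K : Kit0 ρ) (d : ℕ) (x : G n) (w : W) : ‖ρ.AT d (ρ.a x w)‖ ^ 2 =
    (n : ℝ)⁻¹ * ∑ y : ZMod n, (⟪w, ρ.a (Un x ((d : ZMod n) * y)) w⟫_ℂ).re := by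
  have h1 : ⟪ρ.AT d (ρ.a x w), ρ.AT d (ρ.a x w)⟫_ℂ =
      (n : ℂ)⁻¹ * ∑ y : ZMod n, ⟪w, ρ.a (Un x ((d : ZMod n) * y)) w⟫_ℂ := by
    rw [K.AT_inn, K.AT_AT d d _ dvd_rfl, RA.AT_conj, K.inn, inner_smul_right, inner_sum]
  have h2 := congrArg Complex.re h1
  rw [inner_self_eq_norm_sq_to_K] at h2
  rw [← Complex.re_sum, ← Complex.re_ofReal_mul]
  push_cast
  rw [← h2]
  norm_cast

omit [NeZero n] in
lemma re_le (h : G n) (w : W) : (⟪w, ρ.a h w⟫_ℂ).re ≤ ‖w‖ ^ 2 := by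
  have h1 := re_inner_le_norm (𝕜 := ℂ) w (ρ.a h w)
  rw [ρ.nrm] at h1
  rw [sq]
  exact h1

end L4Aux

open L4Aux in
theorem row_L4 : K_L4 := by
  intro p k n _ _ _ hn W _ _ ρ v K H hp hk x ha hc
  subst hp
  obtain ⟨k, rfl⟩ : ∃ j, k = j + 2 := ⟨k - 2, by omega⟩
  have e1 : k + 2 - 1 = k + 1 := by omega
  rw [Nat.add_sub_cancel, e1]
  set g : ZMod n := ((3 ^ k : ℕ) : ZMod n) with hg
  have h0 : ((3 ^ (k + 2) : ℕ) : ZMod n) = 0 := by rw [← hn, ZMod.natCast_self]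
  have h9 : 9 * g = 0 := by
    rw [← h0, hg]
    push_cast
    ring
  have hd : ((3 ^ (k + 1) : ℕ) : ZMod n) = 3 * g := by
    rw [hg]
    push_cast
    ring
  have hT : ρ.AT (3 ^ (k + 1)) v = 0 := by
    have h1 := H.nT 3 Nat.prime_three (by rw [hn]; exact dvd_pow_self 3 (by omega))
    rwa [pow_succ, Nat.mul_div_cancel _ (by norm_num)] at h1
  set w := mn ρ x (3 * g) v with hw
  have hA : ∀ i : ZMod n, ρ.AT (3 ^ (k + 1)) (ρ.a (Tm (3 * i) * x) v) =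
      ρ.a (Tm (3 * i) * x) w := fun i => by
    simp only [RA.AT_conj, hd, same h9, hw, mn]
  have hN : ‖ρ.AT (3 ^ (k + 1)) (ρ.a x v)‖ = ‖w‖ := by
    have h1 := hA 0
    rw [mul_zero, Tm_zero, one_mul] at h1
    rw [h1, ρ.nrm]
  have hD : ∀ s, ρ.a (Dg h9 s) w = w := fun s => by
    rw [hw, mn_comm ρ x _ v _ fun y => comm_D h9 x y s, H.fix _ (dvd_zero _) (dvd_zero _)]
  have hU : ∀ s, ρ.a (Un x (3 * g * s)) w = w := fun s => mn_fix ρ x _ s v
  have hZ : ρ.AT (3 ^ (k + 1)) w = 0 := AT_mn ρ h9 hd x v hT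
  have h2 : IsUnit (2 : ZMod n) := by
    have h1 : IsUnit ((2 : ℕ) : ZMod n) := by
      rw [ZMod.isUnit_iff_coprime, hn]
      exact Nat.Coprime.pow_right _ (by norm_num)
    exact_mod_cast h1
  have hB : ∀ i : ℕ, ‖ρ.AT (3 ^ k) (ρ.a (Tm (3 * (i : ZMod n)) * x) v)‖ ^ 2 = (n : ℝ)⁻¹ *
      ∑ y : ZMod n, (⟪w, ρ.a (Un (Tm (3 * (i : ZMod n)) * x) (g * y)) w⟫_ℂ).re := fun i => by
    rw [← K.AT_AT (3 ^ k) (3 ^ (k + 1)) _ (pow_dvd_pow 3 (Nat.le_succ k)), hA,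
      sq_AT ρ K.toKit0]
  have hy : ∀ y : ZMod n, ∑ i ∈ range 3,
      (⟪w, ρ.a (Un (Tm (3 * (i : ZMod n)) * x) (g * y)) w⟫_ℂ).re ≤
        if ¬IsUnit y then 3 * ‖w‖ ^ 2 else 0 := fun y => by
    by_cases hu : IsUnit y
    · rw [if_neg (not_not.2 hu), ← Complex.re_sum, ← inner_sum]
      simp only [key h9, ρ.mul, hD, hU]
      rw [← map_sum, three ρ h9 hd (((h2.mul ha).mul hc).mul hu) hZ]
      simp
    · rw [if_pos hu]
      refine (sum_le_sum fun i _ => re_le ρ _ w).trans ?_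
      simp
  have hpos : (0 : ℝ) < n := by exact_mod_cast Nat.pos_of_ne_zero (NeZero.ne n)
  have hc3 : (3 : ℝ) * (univ.filter fun y : ZMod n => ¬IsUnit y).card ≤ n := by
    exact_mod_cast card_nonunit (k + 1) n hn
  simp only [hB]
  rw [← mul_sum, sum_comm, hN, inv_mul_le_iff₀ hpos]
  refine (sum_le_sum fun y _ => hy y).trans ?_
  rw [← sum_filter, sum_const, nsmul_eq_mul]
  nlinarith [sq_nonneg ‖w‖]

end

end Pool.Agent.MP_b2c033_nt.UL
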