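import Pool.Agent.MP_b2c033_nt.UL.Spec

/-! Row Ofd: from the orders of the newform to the orders of its dilates. -/

namespace Pool.Agent.MP_b2c033_nt.UL

open U

namespace OfdAux

theorem ht_shift {p l k : ℕ} (hp : p.Prime) (hl : l ≠ 0) (hk : k ≠ 0) {c : ℤ}
    (h : IsCoprime (k : ℤ) c) (i : ℕ) : ht p (l * c) ((l * k).factorization p + i) =
      ht p c (0 + i) + (l.factorization p : ℤ) - k.factorization p := by
  have := Fact.mk hp
  have hl' : (l : ℤ) ≠ 0 := by exact_mod_cast hl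
  have h1 : k.factorization p = 0 ∨ ¬ (p : ℤ) ∣ c := by
    by_cases hd : p ∣ k
    · exact Or.inr fun hc => hp.ne_one (Nat.isUnit_iff.1 (Int.ofNat_isUnit.1
        (h.isUnit_of_dvd' (Int.natCast_dvd_natCast.2 hd) hc)))
    · exact Or.inl (Nat.factorization_eq_zero_of_not_dvd hd)
  rw [Nat.factorization_mul hl hk, Finsupp.add_apply]
  unfold ht
  by_cases hc : c = 0
  · have h2 := h1.resolve_right (not_not.2 (hc ▸ dvd_zero _))
    rw [if_pos hc, if_pos (by rw [hc, mul_zero]), h2]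
    push_cast
    ring
  · rw [if_neg hc, if_neg (mul_ne_zero hl' hc), padicValInt.mul hl' hc, padicValInt.of_nat,
      ← Nat.factorization_def l hp]
    rcases h1 with h1 | h1
    · rw [h1]; push_cast; omega
    · rw [padicValInt.eq_zero_of_not_dvd h1]; push_cast; omega

theorem split {δ : ℕ} (hδ : 0 < δ) (c : ℤ) : ∃ (l k : ℕ) (c' : ℤ), l ≠ 0 ∧ k ≠ 0 ∧ δ = l * k ∧
    c = l * c' ∧ IsCoprime (k : ℤ) c' := by
  have h0 : 0 < Int.gcd (δ : ℤ) c := Int.gcd_pos_of_ne_zero_left _ (by exact_mod_cast hδ.ne')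
  obtain ⟨k, c', h1, h2, h3⟩ := Int.exists_gcd_one h0
  have hk : 0 < k := by
    have h4 : (0 : ℤ) < k * Int.gcd (δ : ℤ) c := by rw [← h2]; exact_mod_cast hδ
    exact (mul_pos_iff_of_pos_right (by exact_mod_cast h0)).1 h4
  lift k to ℕ using hk.le
  refine ⟨Int.gcd (δ : ℤ) c, k, c', h0.ne', by omega, ?_, h3.trans (mul_comm _ _),
    Int.isCoprime_iff_gcd_eq_one.2 h1⟩
  rw [mul_comm]
  exact_mod_cast h2

end OfdAux

theorem row_Ofd : R_Ofd := by
  intro hL V _ _ C _ N g s hN hCC hA hU δ γ hδ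
  obtain ⟨l, k, c, hl, hk, rfl, hc, hco⟩ := OfdAux.split hδ (γ 1 0)
  have ha : IsCoprime (γ 0 0) c := ⟨γ 1 1, -(γ 0 1 * l), by
    have := detZ γ
    rw [hc] at this
    linear_combination this⟩
  obtain ⟨u, v, huv⟩ := hco.mul_left ha
  obtain ⟨γ', e0, e1⟩ : ∃ γ' : SZ, γ' 0 0 = k * γ 0 0 ∧ γ' 1 0 = c :=
    ⟨mkZ (k * γ 0 0) (-v) c u (by linear_combination huv), rfl, rfl⟩
  obtain ⟨ν, hν, hv⟩ := hU γ'
  have hl' : (0 : ℚ) < l := by exact_mod_cast Nat.pos_of_ne_zero hl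
  have hk' : (0 : ℚ) < k := by exact_mod_cast Nat.pos_of_ne_zero hk
  have hd : (Vd ((l * k : ℕ) : ℚ) * ofZ γ).det = l * k := by rw [Mt.det_mul]; simp
  have h1 := hCC (Vd ((l * k : ℕ) : ℚ) * ofZ γ) γ' l g ν (by rw [hd]; positivity) hl'
    (by rw [e0]; simp [Vd, ofZ, mul_assoc]) (by rw [e1]; simp [Vd, ofZ, hc])
  have e2 : (l : ℚ) ^ 2 / (l * k) = l / k := by field_simp
  rw [hd, e2, C.act_mul _ _ _ (by rw [det_Vd]; exact_mod_cast hδ) (by simp)] at h1
  have h2 : C.β (ν * (l / k)) (C.act (ofZ γ) (C.act (Vd ((l * k : ℕ) : ℚ)) g)) ≠ 0 := by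
    rw [← norm_ne_zero_iff, h1]
    exact mul_ne_zero (by exact_mod_cast (div_pos hl' hk').ne') (norm_ne_zero_iff.2 hν)
  have hν0 : ν ≠ 0 := fun e => hν (C.β_neg ν _ e.le)
  refine ⟨_, h2, fun p hp => ?_⟩
  have := Fact.mk hp
  have h3 := hA _ γ _ hδ h2 p hp
  have h4 := hv p hp
  obtain ⟨h5, h6⟩ := hL N p γ' hN hp
  have e3 : padicValRat p (ν * (l / k)) =
      padicValRat p ν + (l.factorization p : ℤ) - k.factorization p := by
    rw [padicValRat.mul hν0 (div_pos hl' hk').ne', padicValRat.div hl'.ne' hk'.ne',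
      padicValRat.of_nat, padicValRat.of_nat, Nat.factorization_def l hp,
      Nat.factorization_def k hp]
    ring
  have s0 := OfdAux.ht_shift hp hl hk hco 0
  have s1 := OfdAux.ht_shift hp hl hk hco (N.factorization p)
  rw [← hc, ← e1] at s0 s1
  rw [add_zero, add_zero] at s0
  have e4 : low p (γ 1 0) ((l * k).factorization p) (N.factorization p) =
      low p (γ' 1 0) 0 (N.factorization p) + (l.factorization p : ℤ) - k.factorization p := by
    unfold low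
    rw [s0, s1]
    omega
  rw [← h5] at h4
  unfold Dr at h4
  refine ⟨?_, fun hm => le_antisymm ?_ h3⟩
  · rw [e3, e4]
    split_ifs at h4 <;> omega
  · rw [if_neg fun h => hm ⟨(h6.2 h).1, by rw [s0, s1, (h6.2 h).2]⟩] at h4
    rw [e3, e4]
    omega

end Pool.Agent.MP_b2c033_nt.UL
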