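import Pool.Agent.MP_b2c033_nt.UL.Spec

/-! The order at a cusp from a coefficient at its root. -/

namespace Pool.Agent.MP_b2c033_nt.UL

open U CongruenceSubgroup
open scoped MatrixGroups

namespace RootAux

theorem val {p r Q X : ℕ} (hp : p.Prime) (hr : r ≠ 0) (hQ : Q ≠ 0) (hX : X ≠ 0) :
    padicValRat p ((r : ℚ) / (Q * X)) =
      (r.factorization p : ℤ) - (Q.factorization p + X.factorization p) := by
  have := Fact.mk hp
  have h1 : (Q : ℚ) ≠ 0 := Nat.cast_ne_zero.2 hQ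
  have h2 : (X : ℚ) ≠ 0 := Nat.cast_ne_zero.2 hX
  rw [padicValRat.div (Nat.cast_ne_zero.2 hr) (mul_ne_zero h1 h2), padicValRat.mul h1 h2]
  simp only [padicValRat.of_nat, Nat.factorization_def _ hp]

theorem cop {n r : ℕ} {a : ℤ} (h : IsUnit (a : ZMod n)) (hr : r ∣ n) : IsCoprime a (r : ℤ) :=
  ((ZMod.coe_int_isUnit_iff_isCoprime a n).1 h).symm.of_isCoprime_of_dvd_right
    (Int.natCast_dvd_natCast.2 hr)

end RootAux

open RootAux in
theorem row_Root : R_Root := by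
  intro hA V _ _ C N g b N₁ r r' n _ W _ _ ρ ι v S D γ hM hW hT ⟨x, m, X, x0, x1, hm, hX, hb⟩ hO hr
  obtain ⟨-, -, -, -, -, lev, mul⟩ := hA
  have n0 : n ≠ 0 := NeZero.ne n
  have r0 : r ≠ 0 := ne_zero_of_dvd_ne_zero n0 S.rt.dr
  have r0' : r' ≠ 0 := ne_zero_of_dvd_ne_zero n0 S.rt.dr'
  have X0 : X ≠ 0 := ne_zero_of_dvd_ne_zero n0 hX.1
  have N0 : N₁ ≠ 0 := fun e => S.nf.coef.pos.ne' (by rw [S.eq, e, zero_mul])
  have eQ : gN N₁ γ * Qw N₁ γ = N₁ :=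
    Nat.mul_div_cancel' (Int.natCast_dvd_natCast.1 (Int.gcd_dvd_right _ _))
  have t0 : gN N₁ γ ≠ 0 := left_ne_zero_of_mul (eQ.symm ▸ N0 :)
  have Q0 : Qw N₁ γ ≠ 0 := right_ne_zero_of_mul (eQ.symm ▸ N0 :)
  have rq : (0 : ℚ) < r := by exact_mod_cast r0.bot_lt
  have qne : (Qw N₁ γ : ℚ) ≠ 0 := Nat.cast_ne_zero.2 Q0
  have c1 : N₁.Coprime r := S.cop.coprime_dvd_right S.rt.dr
  have c2 : N₁.Coprime (r * r') := c1.mul_right (S.cop.coprime_dvd_right S.rt.dr')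
  rw [hM x m X hm hX.1] at hb
  obtain ⟨γ', -, e'⟩ := S.br.sur (tw (un n (Qw N₁ γ)) (tw (un n m) x)) 1 (Nat.coprime_one_left n)
  obtain ⟨δ, d1, d2⟩ := S.good.av.crt N₁ n γ γ' S.cop
  have e1 : red n δ = tw (un n (Qw N₁ γ)) (tw (un n m) x) := by
    rw [← e', ← mul_inv_cancel_left γ' δ, map_mul, red_eq_one.2 d2, mul_one]
  have e2 : gN N₁ δ = gN N₁ γ := by rw [← lev N₁ γ _ d1, mul_inv_cancel_left]
  have e3 : Qw N₁ δ = Qw N₁ γ := by rw [Qw, Qw, e2]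
  have h1 := hW δ (1 / (Qw N₁ γ * X)) (by rwa [OkW, e2, e3])
  rw [e3, e1, tw_tw, mul_inv_cancel, tw_one,
    show (Qw N₁ γ : ℚ) * (1 / (Qw N₁ γ * X)) = 1 / X by field_simp, S.val,
    ← C.act_mul _ _ _ (by simpa using rq) (by simp)] at h1
  have u0 : IsUnit ((δ 0 0 : ℤ) : ZMod n) := by
    rw [← red_apply, e1]
    exact x0
  have u1 : IsUnit ((δ 1 0 : ℤ) : ZMod n) := by
    rw [← red_apply, e1]
    exact (x1.mul (Units.isUnit _)).mul (Units.isUnit _)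
  obtain ⟨s, t, hs⟩ := (cop u0 S.rt.dr).mul_right
    (show IsCoprime (δ 0 0) (δ 1 0) from ⟨δ 1 1, -δ 0 1, by linear_combination detZ δ⟩)
  let γ₁ : SZ := mkZ (δ 0 0) (-t) (r * δ 1 0) s (by linear_combination hs)
  have dt : (Vd (1 / r) * ofZ δ).det = 1 / r := by simp [Mt.det_mul]
  have h2 := S.cc (Vd (1 / r) * ofZ δ) γ₁ (1 / r) g (r / (Qw N₁ γ * X)) (by rw [dt]; positivity)
    (by positivity) (by simp [Vd, ofZ, γ₁]) (by simp [Vd, ofZ, γ₁, rq.ne'])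
  rw [dt, show (r : ℚ) / (Qw N₁ γ * X) * ((1 / r) ^ 2 / (1 / r)) = 1 / (Qw N₁ γ * X) by
    field_simp, h1] at h2
  have e4 : gN N γ = gN N₁ γ * r := by rw [S.eq, mul _ _ _ c2, hr]
  have e5 : gN N γ₁ = gN N γ := by
    rw [e4, S.eq, mul _ _ _ c2, ← e2]
    show Int.gcd (r * δ 1 0) N₁ * Int.gcd (r * δ 1 0) (r * r' : ℕ) = Int.gcd (δ 1 0) N₁ * r
    rw [Nat.cast_mul, Int.gcd_mul_left, Int.isCoprime_iff_gcd_eq_one.1 (cop u1 S.rt.dr'),
      Int.gcd_mul_right_left_of_gcd_eq_one (by simpa using c1.symm)]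
    simp
  refine ⟨_, hT γ₁ γ (r / (Qw N₁ γ * X)) e5 fun e => ?_, fun p hp => ?_⟩
  · rw [e, norm_zero, mul_zero, mul_eq_zero, inv_eq_zero, Nat.cast_eq_zero, norm_eq_zero] at h2
    exact h2.elim Q0 (right_ne_zero_of_mul hb)
  · have h3 := hX.2 p hp
    have h4 := (Nat.factorization_le_iff_dvd r0 n0).2 S.rt.dr p
    have h5 := (Nat.factorization_le_iff_dvd r0' n0).2 S.rt.dr' p
    have h6 : N.factorization p = (gN N₁ γ).factorization p + (Qw N₁ γ).factorization p +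
        (r.factorization p + r'.factorization p) := by
      rw [S.eq, Nat.factorization_mul N0 (mul_ne_zero r0 r0'), Nat.factorization_mul r0 r0',
        ← Finsupp.add_apply, ← Nat.factorization_mul t0 Q0, eQ]
      rfl
    rw [val hp r0 Q0 X0, e4, Nat.factorization_mul t0 r0, Finsupp.add_apply, h6]
    push_cast
    omega

end Pool.Agent.MP_b2c033_nt.UL
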