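import Pool.Agent.MP_b2c033_nt.U.Spec
import Pool.Agent.MP_b2c033_nt.UL.Defs

/-! The statements of the rows of the local block. -/

namespace Pool.Agent.MP_b2c033_nt.UL

open U Finset CongruenceSubgroup
open scoped MatrixGroups Classical InnerProductSpace

noncomputable section

/-! ### Abstract actions -/

def K_Kit0 : Prop := ∀ (n : ℕ) [NeZero n], AllR n fun _ _ _ ρ => Kit0 ρ

def K_Kit : Prop := ∀ (n : ℕ) [NeZero n], AllR n fun _ _ _ ρ => Kit ρ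

/-- non-middle cusps governed by the translations -/
def K_L1T : Prop := ∀ (p i i' m n : ℕ) [NeZero n], p.Prime → 1 ≤ i → 1 ≤ i' →
  n = p ^ max i i' → i' < i + 2 * m → AllR n fun _ _ _ ρ => ∀ v (x : G n),
    ρ.Hyp (p ^ i) (p ^ i') v → IsUnit (x 0 0) → (p : ZMod n) ^ m ∣ x 1 0 →
    ρ.AT (p ^ i) (ρ.a x v) = ρ.a x v ∧ ρ.AT (p ^ (i - 1)) (ρ.a x v) = 0

/-- non-middle cusps governed by the lower unipotents -/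
def K_L1L : Prop := ∀ (p i i' m α n : ℕ) [NeZero n], p.Prime → 1 ≤ i → 1 ≤ i' →
  n = p ^ max i i' → i + 2 * m < i' + 2 * α → 2 * m < i' → AllR n fun _ _ _ ρ =>
    ∀ v (x : G n) (u : ZMod n), ρ.Hyp (p ^ i) (p ^ i') v → IsUnit u →
    x 1 0 = (p : ZMod n) ^ m * u → (p : ZMod n) ^ α ∣ x 0 0 →
    ρ.AT (p ^ (i' - 2 * m)) (ρ.a x v) = ρ.a x v ∧ ρ.AT (p ^ (i' - 2 * m - 1)) (ρ.a x v) = 0

def K_Cnt : Prop := ∀ (p k m n : ℕ) [NeZero n], p.Prime → n = p ^ k → 1 ≤ m → m ≤ k →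
  mean (fun x : G n => if (p : ZMod n) ^ m ∣ x 1 0 then 1 else 0) =
    1 / ((p : ℝ) ^ (m - 1) * (p + 1))

/-- a statement on new vectors at a middle root -/
def Midl (P : ∀ (_ _ n : ℕ) [NeZero n] (W : Type) [NormedAddCommGroup W] [InnerProductSpace ℂ W],
    RA (G n) W → W → Prop) : Prop :=
  ∀ (p k n : ℕ) [NeZero n], p.Prime → 1 ≤ k → n = p ^ k → AllR n fun W _ _ ρ =>
    ∀ v, Kit ρ → ρ.Hyp (p ^ k) (p ^ k) v → P p k n W ρ v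

def K_Lsum : Prop := Midl fun p k n _ _ _ _ ρ v =>
  mean (fun x => ‖ρ.AT (p ^ (k - 1)) (ρ.a x v)‖ ^ 2) =
    (∑ u ∈ range p, ‖ρ.AT (p ^ (k - 1)) (ρ.a (Lm (u : ZMod n)) v)‖ ^ 2) / (p + 1)

def K_L2a : Prop := Midl fun p k n _ _ _ _ ρ v => 2 ≤ k →
  ∑ u ∈ range p, ‖ρ.AT (p ^ (k - 1)) (ρ.a (Lm (u : ZMod n)) v)‖ ^ 2 ≤ 2 * ‖v‖ ^ 2

def K_L2k : Prop := ∀ (p : ℕ) [NeZero p], p.Prime → AllR p fun _ _ _ ρ => ∀ w, Kit ρ →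
  (∀ y, ρ.a (Tm y) w = w) → ∑ x, ρ.a x w = 0 → p * ‖ρ.AL 1 w‖ ^ 2 ≤ ‖w‖ ^ 2

def K_L2m : Prop := ∀ (p : ℕ) [NeZero p], p.Prime → AllR p fun _ _ _ ρ => ∀ w, Kit ρ →
  (∀ y, ρ.a (Tm y) w = w) → ∑ x, ρ.a x w = 0 →
    mean (fun x => ‖ρ.AT 1 (ρ.a x w)‖ ^ 2) ≤ 2 / (p + 1) * ‖w‖ ^ 2

def K_L2b : Prop := ∀ (p : ℕ) [NeZero p], p.Prime → AllR p fun _ _ _ ρ => ∀ v, Kit ρ →
  ρ.AT 1 v = 0 → mean (fun x => ‖ρ.AT 1 (ρ.a x v)‖ ^ 2) ≤ 2 / (p + 1) * ‖v‖ ^ 2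

def K_L3 : Prop := Midl fun p k n _ _ _ _ ρ v => k = 1 →
  ∑ u ∈ range p, ‖ρ.AT 1 (ρ.a (Lm (u : ZMod n)) v)‖ ^ 2 ≤
    ((p : ℝ) - 1 - 1 / (p - 1)) * ‖v‖ ^ 2

def K_L4 : Prop := Midl fun p k n _ _ _ _ ρ v => p = 3 → 2 ≤ k → ∀ x : G n,
  IsUnit (x 0 0) → IsUnit (x 1 0) →
    ∑ i ∈ range 3, ‖ρ.AT (3 ^ (k - 2)) (ρ.a (Tm (3 * (i : ZMod n)) * x) v)‖ ^ 2 ≤
      ‖ρ.AT (3 ^ (k - 1)) (ρ.a x v)‖ ^ 2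

def K_L5 : Prop := Midl fun p k n _ _ _ _ ρ v => p = 2 → 3 ≤ k → v ≠ 0 → ∃ x : G n,
  IsUnit (x 0 0) ∧ IsUnit (x 1 0) ∧ ρ.AT (2 ^ (k - 4)) (ρ.a x v) ≠ ρ.a x v

/-- the top energy at a middle root -/
def K_Top : Prop := Midl fun p k n _ _ _ _ ρ v =>
  (∀ x, ρ.AT (p ^ k) (ρ.a x v) = ρ.a x v) ∧
  (∀ x : G n, ¬(IsUnit (x 0 0) ∧ IsUnit (x 1 0)) → ρ.AT (p ^ (k - 1)) (ρ.a x v) = 0) ∧
  ∀ B : ℝ, B = ∑ u ∈ range p, ‖ρ.AT (p ^ (k - 1)) (ρ.a (Lm (u : ZMod n)) v)‖ ^ 2 →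
    mean (fun x => ‖ρ.AT (p ^ (k - 1)) (ρ.a x v)‖ ^ 2) = B / (p + 1) ∧
    B ≤ (p - 1) * ‖v‖ ^ 2 ∧ B ≤ 2 * ‖v‖ ^ 2 ∧ (k = 1 → B ≤ (p - 1 - 1 / (p - 1)) * ‖v‖ ^ 2)

def K_GdNM : Prop := ∀ (p e i n : ℕ) [NeZero n], p.Prime → 1 ≤ i → 2 * i < e →
  n = p ^ (e - i) → Gd n (p ^ i) (p ^ (e - i)) [opts p e i]

def K_GdMid : Prop := ∀ (p k n : ℕ) [NeZero n], p.Prime → 1 ≤ k → n = p ^ k →
  Gd n (p ^ k) (p ^ k) [opts p (2 * k) k]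

def K_ExLoc : Prop := ∀ (p i i' n : ℕ) [NeZero n], p.Prime → 1 ≤ i → 1 ≤ i' →
  n = p ^ max i i' → ¬(p = 2 ∧ i = 2 ∧ i' = 2) → ExU n (p ^ i) (p ^ i') fun X =>
    ∃ j, X = p ^ j ∧ 1 ≤ j ∧ j ≤ max i i' ∧ max i i' ≤ j + if i = i' then sm p (2 * i) else 0

/-- the embeddings of the factors -/
def K_Crt : Prop := ∀ (n₁ n₂ n : ℕ) (h₁ : n₁ ∣ n) (h₂ : n₂ ∣ n), n = n₁ * n₂ → n₁.Coprime n₂ →
  (∀ x y : ZMod n, ZMod.castHom h₁ (ZMod n₁) x = ZMod.castHom h₁ (ZMod n₁) y →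
    ZMod.castHom h₂ (ZMod n₂) x = ZMod.castHom h₂ (ZMod n₂) y → x = y) ∧
  (∀ x : ZMod n, IsUnit (ZMod.castHom h₁ (ZMod n₁) x) → IsUnit (ZMod.castHom h₂ (ZMod n₂) x) →
    IsUnit x) ∧
  ∃ (i₁ : G n₁ →* G n) (i₂ : G n₂ →* G n) (j₁ : ZMod n₁ →+ ZMod n) (j₂ : ZMod n₂ →+ ZMod n),
    (∀ x, rd h₁ (i₁ x) = x) ∧ (∀ x, rd h₂ (i₁ x) = 1) ∧ (∀ y, rd h₁ (i₂ y) = 1) ∧
    (∀ y, rd h₂ (i₂ y) = y) ∧ (∀ x y, i₁ x * i₂ y = i₂ y * i₁ x) ∧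
    (∀ x, i₁ (rd h₁ x) * i₂ (rd h₂ x) = x) ∧
    (∀ x, ZMod.castHom h₁ (ZMod n₁) (j₁ x) = x) ∧ (∀ x, ZMod.castHom h₂ (ZMod n₂) (j₁ x) = 0) ∧
    (∀ y, ZMod.castHom h₁ (ZMod n₁) (j₂ y) = 0) ∧ (∀ y, ZMod.castHom h₂ (ZMod n₂) (j₂ y) = y) ∧
    (∀ x, i₁ (Tm x) = Tm (j₁ x)) ∧ (∀ x, i₁ (Lm x) = Lm (j₁ x)) ∧
    (∀ y, i₂ (Tm y) = Tm (j₂ y)) ∧ ∀ y, i₂ (Lm y) = Lm (j₂ y)

def K_Sp : Prop := ∀ (n₁ n₂ n : ℕ) [NeZero n₁] [NeZero n₂] [NeZero n], n = n₁ * n₂ →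
  n₁.Coprime n₂ → AllR n fun W _ _ ρ => ∃ (ρ₁ : RA (G n₁) W) (ρ₂ : RA (G n₂) W)
    (j : G n₁ → G n₂ → G n) (κ : Ch n₁ → Ch n₂ → Ch n), Sp ρ ρ₁ ρ₂ j κ

def K_En : Prop :=
  (∀ (T : ℚ → ℝ) os (Q X : ℚ), En (fun Y => T (Q * Y)) os X = En T os (Q * X)) ∧
  (∀ (T : ℚ → ℝ) os os' X, En T (os ++ os') X = En (En T os') os X) ∧
  (∀ (T : ℚ → ℝ) os os' X, os.Perm os' → En T os X = En T os' X) ∧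
  (∀ p e i : ℕ, p.Prime → ∀ y ∈ opts p e i, 0 ≤ y.1 ∧ 0 < y.2) ∧
  ∀ b n₀ (Q : ℚ), 0 < Q → Mon fun Y => TT b n₀ (Q * Y)

def K_Ten : Prop := ∀ (n₁ n₂ n r₁ r₁' r₂ r₂' : ℕ) [NeZero n₁] [NeZero n₂] [NeZero n] o os,
  n = n₁ * n₂ → n₁.Coprime n₂ → Rt n₁ r₁ r₁' → Rt n₂ r₂ r₂' → (∀ y ∈ o, 0 ≤ y.1 ∧ 0 < y.2) →
  Gd n₁ r₁ r₁' [o] → Gd n₂ r₂ r₂' os → Gd n (r₁ * r₂) (r₁' * r₂') (o :: os)

def K_GdAll : Prop := ∀ (e i : ℕ → ℕ) (l : List ℕ) (n r : ℕ) [NeZero n], l.Nodup →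
  (∀ p ∈ l, p.Prime ∧ 1 ≤ i p ∧ 2 * i p ≤ e p) → n = (l.map fun p => p ^ (e p - i p)).prod →
  r = (l.map fun p => p ^ i p).prod → RtL n r n ∧ Gd n r n (l.map fun p => opts p (e p) (i p))

def K_TenX : Prop := ∀ (n₁ n₂ n r₁ r₁' r₂ r₂' : ℕ) [NeZero n₁] [NeZero n₂] [NeZero n]
  (P₁ P₂ : ℕ → Prop), n = n₁ * n₂ → n₁.Coprime n₂ → Rt n₁ r₁ r₁' → Rt n₂ r₂ r₂' →
  ExU n₁ r₁ r₁' P₁ → ExU n₂ r₂ r₂' P₂ →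
  ExU n (r₁ * r₂) (r₁' * r₂') fun X => ∃ X₁ X₂, P₁ X₁ ∧ P₂ X₂ ∧ X = X₁ * X₂

/-- splitting off one prime from a root -/
def K_RtSp : Prop := ∀ (n r r' p : ℕ), 0 < n → RtL n r r' → p.Prime → p ∣ n →
  ∃ i i' n₂ r₂ r₂' : ℕ, 1 ≤ i ∧ 1 ≤ i' ∧ i = r.factorization p ∧ i' = r'.factorization p ∧
    n = p ^ max i i' * n₂ ∧ r = p ^ i * r₂ ∧ r' = p ^ i' * r₂' ∧ ¬p ∣ n₂ ∧
    Rt (p ^ max i i') (p ^ i) (p ^ i') ∧ RtL n₂ r₂ r₂' ∧ ∀ q : ℕ, q ≠ p →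
      n₂.factorization q = n.factorization q ∧ r₂.factorization q = r.factorization q ∧
      r₂'.factorization q = r'.factorization q

def K_ExAll : Prop := ∀ (D : ℕ → ℕ) (n r r' : ℕ) [NeZero n], RtL n r r' → Allow D n r r' →
  ¬(r.factorization 2 = 2 ∧ r'.factorization 2 = 2) →
  ExU n r r' fun X => Full n X ∧ Rc D n X

def K_ExY : Prop := ∀ (D : ℕ → ℕ) (n r r' : ℕ) [NeZero n], RtL n r r' → Allow D n r r' →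
  r.factorization 2 = 2 → r'.factorization 2 = 2 →
  AllR n fun _ _ _ ρ => ∀ v, ρ.Hyp r r' v → v ≠ 0 → ρ.Ey D v

/-! ### Averages -/

def K_Av2 : Prop := ∀ (A B : ℕ) (H : SZ → SZ → ℝ), 0 < A → 0 < B → A.Coprime B →
  (∀ γ', Lev A fun γ => H γ γ') → (∀ γ, Lev B (H γ)) →
  Av ⊤ (A * B) (fun γ => H γ γ) = Av ⊤ A fun γ => Av ⊤ B (H γ)

def K_AvM : Prop := (∀ (n : ℕ) [NeZero n] (f : G n → ℝ), Av ⊤ n (fun γ => f (red n γ)) = mean f) ∧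
  (∀ (L : ℕ) (f h : SZ → ℝ), 0 < L → (∀ γ, f γ ≤ h γ) → Av ⊤ L f ≤ Av ⊤ L h) ∧
  (∀ (L : ℕ) (c : ℝ) (f : SZ → ℝ), 0 < L → Av ⊤ L (fun γ => c * f γ) = c * Av ⊤ L f) ∧
  (∀ (L : ℕ) (f h : SZ → ℝ), 0 < L → Av ⊤ L (fun γ => f γ + h γ) = Av ⊤ L f + Av ⊤ L h) ∧
  (∀ (L : ℕ) (c : ℝ), 0 < L → Av ⊤ L (fun _ => c) = c) ∧
  (∀ N : ℕ, Lev N (gN N)) ∧
  ∀ (A B : ℕ) (γ : SZ), A.Coprime B → gN (A * B) γ = gN A γ * gN B γ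

def K_PQ : Prop := ∀ (e : ℕ → ℕ) (l : List ℕ), l.Nodup → (∀ p ∈ l, p.Prime ∧ 1 ≤ e p) →
  PQ (l.map fun p => p ^ e p).prod (l.map fun p => opts p (e p) 0)

def K_VLoc : Prop := ∀ p e : ℕ, p.Prime → 1 ≤ e →
  Av ⊤ (p ^ e) (fun γ => (Nat.gcd (gN (p ^ e) γ ^ 2) (p ^ e) : ℝ) / (p : ℝ) ^ e) =
    (Mp p e 0 : ℚ)

def K_VAll : Prop := ∀ N : ℕ, 0 < N →
  Av ⊤ N (fun γ => (Nat.gcd (gN N γ ^ 2) N : ℝ) / N) = (Mtot N (fun _ => 0) : ℚ)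

/-- the heights in terms of the type -/
def K_Low : Prop := ∀ (N p : ℕ) (γ : SZ), 0 < N → p.Prime →
  low p (γ 1 0) 0 (N.factorization p) =
    min 0 (2 * ((gN N γ).factorization p : ℤ) - N.factorization p) ∧
  (Mid p (γ 1 0) 0 (N.factorization p) ↔
    2 ≤ N.factorization p ∧ 2 * (gN N γ).factorization p = N.factorization p)

/-- the root attached to a cusp -/
def K_Ar : Prop := ∀ (N : ℕ) (γ : SZ), 0 < N → ∃ N₁ r r' n : ℕ, 0 < n ∧ N = N₁ * (r * r') ∧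
  N₁.Coprime n ∧ RtL n r r' ∧ OkW N₁ γ ∧ gN (r * r') γ = r

/-! ### The abstract space of cusp forms -/

def K_CC : Prop := ForG fun _ _ _ C => CC C

def K_OrdA : Prop := ForG fun V _ _ C => ∀ (N : ℕ) (g : V), 0 < N → C.Fix (Gamma0 N) g →
  OrdA C N g

def K_Int : Prop := ForG fun V _ _ C => ∀ (N : ℕ) (g : V) (b : ℕ → ℤ), NF C N g b →
  g ≠ 0 ∧ C.Rat g ∧ (∀ ν, C.β ν g ≠ 0 → ∃ m : ℕ, ν = m ∧ b m ≠ 0) ∧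
  (∀ p m : ℕ, p.Prime → p ^ 2 ∣ N → p ∣ m → b m = 0) ∧
  ∀ (α : Mt) (v : V), 0 < α.det → ‖C.act α v‖ = ‖v‖

def K_Ty : Prop := ForG fun V _ _ C => ∀ (N : ℕ) (g : V), 0 < N → C.Fix (Gamma0 N) g →
  C.Rat g → Ty C N g

def K_WQ : Prop := ForG fun V _ _ C => ∀ (N : ℕ) (g : V) (b : ℕ → ℤ), NF C N g b → WQ C N g

def K_SP4 : Prop := ForG fun V _ _ C => ∀ (z : V) (ε : ℤ), z ≠ 0 → Odd ε →
  C.act (Lw (2 * ε)) z = -z → ∃ ν : ℚ, C.β ν z ≠ 0 ∧ padicValRat 2 ν ≤ 0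

def K_Ofd : Prop := ForG fun V _ _ C => ∀ (N : ℕ) (g : V) (s : ℕ → ℕ), 0 < N → CC C →
  OrdA C N g → (∀ γ, Up C N g (Dr N s γ) γ) → OrdB C N g s

def K_Chf : Prop := ∀ (n : ℕ) [NeZero n], (∀ ν : ℚ, ν.den ∣ n → ∃ χ : Ch n, χ 1 = ee ν) ∧
  ∀ (χ : Ch n) (ν : ℚ), χ 1 = ee ν → od χ = ν.den

def K_Br0 : Prop := ForG fun V _ _ C => ∀ (N₁ n : ℕ) [NeZero n], N₁.Coprime n →
  ∃ (W : Type) (_ : NormedAddCommGroup W) (_ : InnerProductSpace ℂ W) (ρ : RA (G n) W)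
    (ι : W →ₗᵢ[ℂ] V), Br0 C N₁ ρ ι

def K_Br : Prop := ForG fun V _ _ C => ∀ (N₁ n : ℕ) [NeZero n] (W : Type) [NormedAddCommGroup W]
  [InnerProductSpace ℂ W] (ρ : RA (G n) W) (ι : W →ₗᵢ[ℂ] V), Br0 C N₁ ρ ι → Br C N₁ ρ ι

def K_Hy1 : Prop := ForS0 fun _ _ _ C _ g _ _ r r' n _ _ _ _ ρ ι => ∃ v,
  ι v = C.act (Vd (1 / r)) g ∧
    ∀ x : G n, (r : ZMod n) ∣ x 0 1 → (r' : ZMod n) ∣ x 1 0 → ρ.a x v = v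

def K_Hy2 : Prop := ForS0 fun _ _ _ C _ g _ _ r _ n _ _ _ _ ρ ι => ∀ v,
  ι v = C.act (Vd (1 / r)) g → ∀ p : ℕ, p.Prime → p ∣ n → ρ.AT (r / p) v = 0

def K_Hy3 : Prop := ForS0 fun _ _ _ C _ g _ _ r r' n _ _ _ _ ρ ι => ∀ v,
  ι v = C.act (Vd (1 / r)) g → ∀ p : ℕ, p.Prime → p ∣ n → ρ.AL (r' / p) v = 0

def K_HK : Prop := ForS fun _ _ _ C N _ b _ _ _ _ _ _ _ _ ρ ι v => HK C N b ρ ι v

def K_Mult : Prop := ForS fun _ _ _ C N _ b _ _ _ _ _ _ _ _ ρ ι v =>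
  HK C N b ρ ι v → Mult C b ρ ι v

def K_Wr : Prop := ForS fun _ _ _ C N g _ N₁ _ _ _ _ _ _ _ ρ ι v => WQ C N g → Wr C N₁ ρ ι v

def K_HB1 : Prop := ForS fun _ _ _ C _ _ _ _ _ _ n _ _ _ _ ρ ι v => ∀ D,
  ρ.Hit (fun X => Full n X ∧ Rc D n X) v → HitB C D ρ ι v

def K_HB2 : Prop := ForS fun _ _ _ C _ _ _ _ _ _ n _ _ _ _ ρ ι v => ∀ D, 2 ∣ n →
  n.factorization 2 ≤ D 2 → ρ.Ey D v → HitB C D ρ ι v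

def K_H256 : Prop := ForS fun _ _ _ C _ g _ N₁ r _ n _ _ _ _ ρ _ v => N₁ = 1 → n = 16 →
  r = 16 → C.act eta256 g ≠ g → ∀ D : ℕ → ℕ, 2 ≤ D 2 →
    ρ.Hit (fun X => Full n X ∧ Rc D n X) v

def K_Root : Prop := ForS fun _ _ _ C N g b N₁ r r' _ _ _ _ _ ρ ι v => ∀ D γ, Mult C b ρ ι v →
  Wr C N₁ ρ ι v → Ty C N g → HitB C D ρ ι v → OkW N₁ γ → gN (r * r') γ = r → Up C N g D γ

/-- the parts of `g` along the residue classes -/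
def K_GUa : Prop := ForG fun V _ _ C => ∀ (N : ℕ) (g : V) (b : ℕ → ℤ) (n : ℕ) [NeZero n],
  NF C N g b → ∃ F : ZMod n → V, (∀ u (m : ℕ), C.β m (F u) = if (m : ZMod n) = u then b m else 0) ∧
    (∀ u ν, C.β ν (F u) ≠ 0 → ∃ m : ℕ, ν = m) ∧ (∀ u u', u ≠ u' → ⟪F u, F u'⟫_ℂ = 0) ∧
    ∑ u, ‖F u‖ ^ 2 = ‖g‖ ^ 2

def K_GU : Prop := ForS fun _ _ _ C _ g b _ _ _ _ _ _ _ _ ρ ι v => Mult C b ρ ι v → GU C g ρ ι v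

def K_HZ : Prop := ForS fun _ _ _ C _ _ b N₁ _ _ _ _ _ _ _ ρ ι v => Mult C b ρ ι v →
  Wr C N₁ ρ ι v → HZ C b N₁ ρ ι v

def K_HZ2 : Prop := ForS fun _ _ _ C _ g b N₁ r r' n _ _ _ _ ρ ι v => ∀ n₀ os os',
  HZ C b N₁ ρ ι v → GU C g ρ ι v → Gd n r r' os' → PQ N₁ os →
  Real.pi * En (En (TT b n₀) os') os 1 ≤ ‖g‖ ^ 2

/-! ### Rows with hypotheses -/

def R_Kit : Prop := K_Kit0 → K_Kit
def R_Cnt : Prop := K_AvM → K_Cnt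
def R_Lsum : Prop := K_Cnt → K_L1L → K_Lsum
def R_L2m : Prop := K_Cnt → K_L2k → K_L2m
def R_L2b : Prop := K_L2m → K_L2b
def R_Top : Prop := K_L1T → K_L1L → K_Lsum → K_L2a → K_L2b → K_L3 → K_Top
def R_GdNM : Prop := K_Kit → K_Cnt → K_L1T → K_L1L → K_GdNM
def R_GdMid : Prop := K_Kit → K_Top → K_L4 → K_GdMid
def R_ExLoc : Prop := K_Kit → K_L1T → K_L1L → K_Top → K_L4 → K_L5 → K_ExLoc
def R_Sp : Prop := K_Crt → K_Sp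
def R_Ten : Prop := K_Kit → K_Sp → K_En → K_Ten
def R_GdAll : Prop := K_Kit → K_En → K_GdNM → K_GdMid → K_Ten → K_GdAll
def R_TenX : Prop := K_Sp → K_TenX
def R_ExAll : Prop := K_Kit → K_RtSp → K_ExLoc → K_TenX → K_ExAll
def R_ExY : Prop := K_Kit → K_Sp → K_RtSp → K_ExAll → K_ExY
def R_PQ : Prop := K_AvM → K_Av2 → K_En → K_PQ
def R_VLoc : Prop := K_AvM → K_VLoc
def R_VAll : Prop := K_AvM → K_Av2 → K_VLoc → K_VAll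
def R_ValN : Prop := K_AvM → K_Int → K_Low → K_VAll → S_ValN
def R_Ofd : Prop := K_Low → K_Ofd
def R_Br : Prop := K_Chf → K_Br
def R_Hy2 : Prop := K_Int → K_Hy2
def R_HK : Prop := K_Int → K_HK
def R_HB2 : Prop := K_SP4 → K_HB2
def R_Root : Prop := K_AvM → K_Root
def R_GUa : Prop := K_Int → K_GUa
def R_GU : Prop := K_Int → K_GUa → K_GU
def R_HZ : Prop := K_Int → K_HZ
def R_HZ2 : Prop := K_AvM → K_Av2 → K_En → K_Int → K_HZ2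

end

end Pool.Agent.MP_b2c033_nt.UL
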